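import Pool.Agent.Lib.MP_8f66f0_al_Sw.GeoSpec

/-! Theorem L1 (note 3951), geometric half: the basic facts. -/

set_option autoImplicit false

namespace Pool.Agent.Sw

open Pool.Agent.Cx2 Pool.Agent.LinAll

variable {G V : Type} [Group G] [MulAction G V] {Y : Dat G V}

private theorem Bas_aux (x : Y.P) (τ : ℝ) (hτ : τ < 1 / 6) (hx : ∀ v, x.1 v < 1 / 3 + τ) :
    ∃ s : Y.T, ∀ v, |x.1 v - (Y.bc s).1 v| ≤ 2 * τ := by
  classical
  have h2 := Y.cx.card _ (Y.cr_mem x)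
  have h3 := Y.sum_cr x
  have hne := Y.cx.nonempty _ (Y.cr_mem x)
  obtain ⟨u, hu⟩ := hne
  have hτ0 : 0 ≤ τ ∨ τ < 0 := le_or_gt 0 τ
  have h4 : ∑ v ∈ Y.cr x, x.1 v < ∑ _v ∈ Y.cr x, (1 / 3 + τ : ℝ) :=
    Finset.sum_lt_sum (fun v _ => (hx v).le) ⟨u, hu, hx u⟩
  rw [Finset.sum_const, nsmul_eq_mul, h3] at h4
  have h5 : (Y.cr x).card = 3 := by
    by_contra hc
    have h6 : (Y.cr x).card ≤ 2 := by omega
    have h7 : ((Y.cr x).card : ℝ) ≤ 2 := by exact_mod_cast h6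
    have h8 : (0 : ℝ) ≤ ((Y.cr x).card : ℝ) := Nat.cast_nonneg _
    have h9 : 0 < 1 / 3 + τ := by
      have := Y.nonneg x u
      have := hx u
      linarith
    nlinarith
  have h0 : 0 ≤ τ := by
    rw [h5] at h4
    norm_num at h4
    linarith
  refine ⟨⟨Y.cr x, Y.cr_mem x, h5⟩, fun v => ?_⟩
  change |x.1 v - (if v ∈ Y.cr x then (1 / 3 : ℝ) else 0)| ≤ 2 * τ
  by_cases hv : v ∈ Y.cr x
  · rw [if_pos hv]
    have h6 := Finset.add_sum_erase (Y.cr x) x.1 hv
    have h7 : ∑ w ∈ (Y.cr x).erase v, x.1 w ≤ ∑ _w ∈ (Y.cr x).erase v, (1 / 3 + τ : ℝ) :=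
      Finset.sum_le_sum fun w _ => (hx w).le
    rw [Finset.sum_const, nsmul_eq_mul, Finset.card_erase_of_mem hv, h5] at h7
    norm_num at h7
    have h8 := hx v
    rw [abs_le]
    constructor <;> linarith
  · rw [if_neg hv, Y.not_mem_cr x hv, sub_zero, abs_zero]
    linarith

private theorem Bas_dic (r : ℝ) (hr : 0 < r) (hr1 : r ≤ Y.ρ) (x : Y.P) :
    (∃ v, ∀ y, 6 * Y.A ^ 2 * Y.d x y < r → 1 / 3 < y.1 v) ∨ ∃ s, Y.d x (Y.bc s) ≤ r / 2 := by
  have hA := Y.A_pos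
  have hA1 := Y.one_le
  have hρ := Y.ρ_eq
  have hρ1 : Y.ρ ≤ 1 / 24 := by
    have := Y.ρ_pos
    nlinarith
  obtain ⟨τ, hτ⟩ : ∃ τ, τ = r / (4 * Y.A) := ⟨_, rfl⟩
  have hτ1 : 4 * Y.A * τ = r := by
    rw [hτ]
    field_simp
  have hτ0 : 0 < τ := by
    rw [hτ]
    positivity
  by_cases hx : ∃ v, 1 / 3 + τ ≤ x.1 v
  · left
    obtain ⟨v, hv⟩ := hx
    refine ⟨v, fun y hy => ?_⟩
    have h1 := Y.tame.lip x y v
    rw [abs_le] at h1
    have h2 : Y.A * Y.d x y < τ := by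
      by_contra h3
      rw [not_lt] at h3
      have h4 : 6 * Y.A * τ ≤ 6 * Y.A * (Y.A * Y.d x y) :=
        mul_le_mul_of_nonneg_left h3 (by positivity)
      nlinarith
    linarith [h1.2]
  · right
    have hx' : ∀ v, x.1 v < 1 / 3 + τ := fun v => not_le.1 fun h1 => hx ⟨v, h1⟩
    have hτ2 : τ < 1 / 6 := by nlinarith
    obtain ⟨s, hs⟩ := Bas_aux x τ hτ2 hx'
    refine ⟨s, ?_⟩
    classical
    have h1 : Y.d x (Y.bc s) ≤ Y.A * (2 * τ) := by
      have hxs : ∀ v, v ∉ s.1 → x.1 v = 0 := by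
        intro v hv
        by_contra hne
        have hpos : 0 < x.1 v := lt_of_le_of_ne (Y.nonneg x v) (Ne.symm hne)
        have hsub : insert v s.1 ⊆ Y.cr x := by
          intro w hw
          rw [Finset.mem_insert] at hw
          rw [Y.mem_cr]
          rcases hw with rfl | hw
          · exact hpos
          · have h2 := hs w
            rw [Y.bc_apply, if_pos hw, abs_le] at h2
            nlinarith [h2.1]
        have h3 := Finset.card_le_card hsub
        rw [Finset.card_insert_of_notMem hv, s.2.2] at h3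
        have h4 := Y.cx.card _ (Y.cr_mem x)
        omega
      exact Y.tame.bound s.1 s.2.1 x (Y.bc s) (2 * τ) hxs
        (fun v hv => by rw [Y.bc_apply, if_neg hv]) hs
    nlinarith

private theorem Bas_far {x y : Y.P} (h : ∃ v, 1 / 3 ≤ |x.1 v - y.1 v|) :
    8 * Y.ρ ≤ Y.d x y := by
  obtain ⟨v, hv⟩ := h
  have h1 := Y.tame.lip x y v
  have h2 := Y.ρ_eq
  have hA := Y.A_pos
  by_contra h3
  rw [not_le] at h3
  have h4 : Y.A * Y.d x y < Y.A * (8 * Y.ρ) := mul_lt_mul_of_pos_left h3 hA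
  linarith

private theorem Bas_sep (p q : Y.Pos) (hpq : p ≠ q) : 8 * Y.ρ ≤ Y.d (Y.pt p) (Y.pt q) := by
  classical
  refine Bas_far ?_
  cases p with
  | inl u =>
    cases q with
    | inl v =>
      have huv : u ≠ v := fun h => hpq (congrArg _ h)
      refine ⟨u, ?_⟩
      change 1 / 3 ≤ |(Y.vp u).1 u - (Y.vp v).1 u|
      rw [Y.vp_apply, Y.vp_apply, if_pos rfl, if_neg huv]
      norm_num
    | inr s =>
      refine ⟨u, ?_⟩
      change 1 / 3 ≤ |(Y.vp u).1 u - (Y.bc s).1 u|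
      rw [Y.vp_apply, Y.bc_apply, if_pos rfl]
      split_ifs <;> norm_num
  | inr s =>
    cases q with
    | inl u =>
      refine ⟨u, ?_⟩
      change 1 / 3 ≤ |(Y.bc s).1 u - (Y.vp u).1 u|
      rw [Y.vp_apply, Y.bc_apply, if_pos rfl]
      split_ifs <;> norm_num
    | inr s' =>
      have hss : s.1 ≠ s'.1 := fun h => hpq (congrArg _ (Subtype.ext h))
      have h1 : ¬ s.1 ⊆ s'.1 := by
        intro h2
        exact hss (Finset.eq_of_subset_of_card_le h2 (by rw [s.2.2, s'.2.2]))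
      rw [Finset.not_subset] at h1
      obtain ⟨v, hv, hv'⟩ := h1
      refine ⟨v, ?_⟩
      change 1 / 3 ≤ |(Y.bc s).1 v - (Y.bc s').1 v|
      rw [Y.bc_apply, Y.bc_apply, if_pos hv, if_neg hv']
      norm_num

private theorem Bas_cr {s : Y.T} {x : Y.P} (hx : ∀ v ∈ s.1, 0 < x.1 v) : Y.cr x = s.1 := by
  symm
  refine Finset.eq_of_subset_of_card_le (fun v hv => (Y.mem_cr x v).2 (hx v hv)) ?_
  rw [s.2.2]
  exact Y.cx.card _ (Y.cr_mem x)

private theorem Bas_bc_le (s : Y.T) (v : V) : (Y.bc s).1 v ≤ 1 / 3 := by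
  classical
  rw [Y.bc_apply]
  split_ifs <;> norm_num

private theorem Bas_bc_pos {s : Y.T} {v : V} (h : 0 < (Y.bc s).1 v) : v ∈ s.1 := by
  classical
  by_contra h1
  rw [Y.bc_apply, if_neg h1] at h
  exact lt_irrefl _ h

variable (h : Ch Y)

private theorem Bas_F_pt (p : Y.Pos) : h.F (Y.pt p) = p := by
  classical
  have h1 := h.lab (Y.pt p)
  cases hF : h.F (Y.pt p) with
  | inl w =>
    rw [hF] at h1
    change 1 / 3 < (Y.pt p).1 w at h1
    cases p with
    | inl v =>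
      change 1 / 3 < (Y.vp v).1 w at h1
      rw [Y.vp_apply] at h1
      by_cases hwv : w = v
      · rw [hwv]
      · rw [if_neg hwv] at h1
        norm_num at h1
    | inr s =>
      have h2 := Bas_bc_le s w
      change 1 / 3 < (Y.bc s).1 w at h1
      linarith
  | inr s =>
    rw [hF] at h1
    change Y.pt p = Y.bc s at h1
    by_contra hne
    have h2 := Bas_sep p (.inr s) (fun e => hne e.symm)
    have h3 : Y.pt p = Y.pt (.inr s) := h1
    rw [h3, Y.d_self] at h2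
    have := Y.ρ_pos
    linarith

private theorem Bas_F_ball (s : Y.T) (x : Y.P) (hx : ∀ v ∈ s.1, 0 < x.1 v) :
    (∃ w ∈ s.1, h.F x = .inl w) ∨ (h.F x = .inr s ∧ x = Y.bc s) := by
  have h1 := h.lab x
  cases hF : h.F x with
  | inl w =>
    rw [hF] at h1
    change 1 / 3 < x.1 w at h1
    left
    refine ⟨w, ?_, rfl⟩
    rw [← Bas_cr hx, Y.mem_cr]
    linarith
  | inr s' =>
    rw [hF] at h1
    change x = Y.bc s' at h1
    right
    have h2 : s = s' := by
      apply Subtype.ext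
      refine Finset.eq_of_subset_of_card_le (fun v hv => ?_) (by rw [s.2.2, s'.2.2])
      have h3 := hx v hv
      rw [h1] at h3
      exact Bas_bc_pos h3
    rw [h2]
    exact ⟨rfl, h1⟩

private theorem Bas_F_com (x : Y.P) (v : V) (hv : 1 / 3 < x.1 v) :
    ∃ w, h.F x = .inl w ∧ 1 / 3 < x.1 w := by
  have h1 := h.lab x
  cases hF : h.F x with
  | inl w =>
    rw [hF] at h1
    exact ⟨w, rfl, h1⟩
  | inr s =>
    rw [hF] at h1
    change x = Y.bc s at h1
    rw [h1] at hv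
    have := Bas_bc_le s v
    linarith

private theorem Bas_two (x : Y.P) (u v w : V) (hu : 1 / 3 < x.1 u) (hv : 1 / 3 < x.1 v)
    (hw : 1 / 3 < x.1 w) : u = v ∨ u = w ∨ v = w := by
  classical
  by_contra hne
  rw [not_or, not_or] at hne
  obtain ⟨h1, h2, h3⟩ := hne
  have h4 : ({u, v, w} : Finset V) ⊆ Y.cr x := by
    intro z hz
    rw [Finset.mem_insert, Finset.mem_insert, Finset.mem_singleton] at hz
    rw [Y.mem_cr]
    rcases hz with rfl | rfl | rfl <;> linarith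
  have h5 := Finset.sum_le_sum_of_subset_of_nonneg h4 (f := x.1) fun z _ _ => Y.nonneg x z
  have h6 := Y.sum_cr x
  rw [Finset.sum_insert (by simp [h1, h2]), Finset.sum_insert (by simp [h3]),
    Finset.sum_singleton] at h5
  linarith

private theorem Bas_al_eq (x y : Y.P) (v v' : V) (hv : Dat.Com v x y) (hv' : Dat.Com v' x y) :
    h.al v x y = h.al v' x y := by
  obtain ⟨w, hw, hw1⟩ := Bas_F_com h x v hv.1
  obtain ⟨w', hw', hw1'⟩ := Bas_F_com h y v hv.2
  by_cases hvv : v = v'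
  · rw [hvv]
  · unfold Ch.al
    rw [hw, hw']
    have h1 : w = v ∨ w = v' := by
      rcases Bas_two x w v v' hw1 hv.1 hv'.1 with e | e | e
      · exact Or.inl e
      · exact Or.inr e
      · exact (hvv e).elim
    have h2 : w' = v ∨ w' = v' := by
      rcases Bas_two y w' v v' hw1' hv.2 hv'.2 with e | e | e
      · exact Or.inl e
      · exact Or.inr e
      · exact (hvv e).elim
    rcases h1 with rfl | rfl <;> rcases h2 with rfl | rfl <;>
      simp only [h.e_self, h.e_mul, one_mul, mul_one]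

private theorem Bas_al_mul (x y z : Y.P) (v : V) : h.al v x y * h.al v y z = h.al v x z := by
  unfold Ch.al
  rw [mul_assoc, ← mul_assoc (h.e (.inl v) (h.F y)), h.e_mul, one_mul]

private theorem Bas_al_inv (x y : Y.P) (v : V) : h.al v y x = (h.al v x y)⁻¹ := by
  unfold Ch.al
  rw [mul_inv_rev, ← h.e_inv, ← h.e_inv]

private theorem Bas_e_k (s : Y.T) {w v : V} (hw : w ∈ s.1) (hv : v ∈ s.1) :
    ∃ m : ℤ, h.e (.inl w) (.inl v) = h.k s w * h.r s ^ m * (h.k s v)⁻¹ := by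
  have e1 := h.e_inv (.inl (h.a s)) (.inr s)
  have e2 := h.e_inv (.inl (h.a s)) (.inl (h.b s))
  have e3 := h.e_inv (.inl (h.b s)) (.inl (h.c s))
  have e4 := h.e_inv (.inl (h.c s)) (.inl (h.a s))
  rw [h.mem_iff] at hw hv
  rcases hw with rfl | rfl | rfl <;> rcases hv with rfl | rfl | rfl
  · exact ⟨0, by rw [h.e_self, zpow_zero, mul_one, mul_inv_cancel]⟩
  · exact ⟨0, by unfold Ch.k; rw [h.e_self, e2]; group⟩
  · exact ⟨0, by unfold Ch.k; rw [h.e_self, e4]; group⟩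
  · exact ⟨0, by unfold Ch.k; rw [h.e_self, e2]; group⟩
  · exact ⟨0, by rw [h.e_self, zpow_zero, mul_one, mul_inv_cancel]⟩
  · exact ⟨1, by unfold Ch.k; rw [zpow_one, h.r_eq, e2, e1]; group⟩
  · exact ⟨0, by unfold Ch.k; rw [h.e_self, zpow_zero, mul_one, one_mul]; group⟩
  · exact ⟨-1, by unfold Ch.k; rw [zpow_neg, zpow_one, h.r_eq, e2, e1, e3]; group⟩
  · exact ⟨0, by rw [h.e_self, zpow_zero, mul_one, mul_inv_cancel]⟩

private theorem Bas_κ {s : Y.T} {x : Y.P} {w : V} (hw : h.F x = .inl w) :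
    h.κ s x = h.k s w := by
  unfold Ch.κ
  rw [hw]

private theorem Bas_al_κ (s : Y.T) (x y : Y.P) (v : V) (hx : ∀ w ∈ s.1, 0 < x.1 w)
    (hy : ∀ w ∈ s.1, 0 < y.1 w) (hv : Dat.Com v x y) :
    ∃ m : ℤ, h.al v x y = h.κ s x * h.r s ^ m * (h.κ s y)⁻¹ := by
  obtain ⟨w, hw, hw1⟩ := Bas_F_com h x v hv.1
  obtain ⟨w', hw', hw1'⟩ := Bas_F_com h y v hv.2
  have hvs : v ∈ s.1 := by
    rw [← Bas_cr hx, Y.mem_cr]
    linarith [hv.1]
  have hws : w ∈ s.1 := by
    rw [← Bas_cr hx, Y.mem_cr]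
    linarith
  have hws' : w' ∈ s.1 := by
    rw [← Bas_cr hy, Y.mem_cr]
    linarith
  obtain ⟨m, hm⟩ := Bas_e_k h s hws hvs
  obtain ⟨m', hm'⟩ := Bas_e_k h s hvs hws'
  refine ⟨m + m', ?_⟩
  unfold Ch.al
  rw [hw, hw', hm, hm', Bas_κ h hw, Bas_κ h hw', zpow_add]
  group

private theorem Bas_isP {w v : V} {x : Y.P} (hw : 0 < x.1 w) (hv : 0 < x.1 v) :
    h.X.IsP (.inl w) (.inl v) (h.e (.inl w) (.inl v)) := by
  by_cases hwv : w = v
  · rw [hwv, h.e_self]
    exact h.X.isP_one _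
  · exact h.X.isP_ε (u := .inl w) (v := .inl v) (Dat.adj_of_pos hw hv hwv)

private theorem Bas_isP_al (x y : Y.P) (v : V) (hv : Dat.Com v x y) :
    h.X.IsP (h.F x) (h.F y) (h.al v x y) := by
  obtain ⟨w, hw, hw1⟩ := Bas_F_com h x v hv.1
  obtain ⟨w', hw', hw1'⟩ := Bas_F_com h y v hv.2
  unfold Ch.al
  rw [hw, hw']
  refine Cx.IsP.mul (v := .inl v) ?_ ?_
  · exact Bas_isP h (x := x) (by linarith) (by linarith [hv.1])
  · exact Bas_isP h (x := y) (by linarith [hv.2]) (by linarith)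

private theorem Bas_isP_κ (s : Y.T) (x : Y.P) (hx : ∀ v ∈ s.1, 0 < x.1 v) :
    h.X.IsP (h.F x) (.inr s) (h.κ s x) := by
  rcases Bas_F_ball h s x hx with ⟨w, hw, hF⟩ | ⟨hF, _⟩
  · rw [Bas_κ h hF, hF]
    unfold Ch.k
    refine Cx.IsP.mul (v := .inl (h.a s)) ?_ ?_
    · exact Bas_isP h (x := x) (hx w hw) (hx _ (h.mem_a s))
    · exact h.X.isP_ε (u := .inl (h.a s)) (v := .inr s) (show h.wAdj (.inl (h.a s)) (.inr s) from rfl)
  · have h1 : h.κ s x = 1 := by
      unfold Ch.κ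
      rw [hF]
    rw [h1, hF]
    exact h.X.isP_one _

/-- The basic facts. -/
theorem bas : Bas h where
  dic := Bas_dic
  near x := by
    have h1 := Y.η_eq
    have h2 := Y.η_le
    have hA := Y.A_pos
    rcases Bas_dic Y.ρ Y.ρ_pos le_rfl x with ⟨v, hv⟩ | ⟨s, hs⟩
    · left
      refine ⟨v, fun y hy => hv y ?_⟩
      have h3 : 6 * Y.A ^ 2 * Y.d x y < 6 * Y.A ^ 2 * (2 * Y.η) :=
        mul_lt_mul_of_pos_left hy (by positivity)
      linarith
    · right
      refine ⟨s, fun y hy => ?_⟩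
      have h3 := Y.cat.tri y x (Y.bc s)
      rw [Y.cat.symm y x] at h3
      have := Y.ρ_pos
      linarith
  ball s x hx v hv := by
    classical
    have h1 := Y.tame.lip x (Y.bc s) v
    rw [Y.bc_apply, if_pos hv, abs_le] at h1
    have h2 := Y.ρ_eq
    have h3 : Y.A * Y.d x (Y.bc s) < Y.A * (8 * Y.ρ) := mul_lt_mul_of_pos_left hx Y.A_pos
    linarith [h1.1]
  sep := Bas_sep
  F_pt := Bas_F_pt h
  F_ball := Bas_F_ball h
  F_com := Bas_F_com h
  two := Bas_two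
  al_eq := Bas_al_eq h
  al_mul := Bas_al_mul h
  al_inv := Bas_al_inv h
  κ_bc s := by
    have h1 := Bas_F_pt h (.inr s)
    unfold Ch.κ
    change h.F (Y.bc s) = .inr s at h1
    rw [h1]
  al_κ := Bas_al_κ h
  isP_al := Bas_isP_al h
  isP_κ := Bas_isP_κ h

end Pool.Agent.Sw
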