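import Pool.Agent.Lib.MP_8f66f0_al_Sw.GeoSpec

/-! Theorem L1 (note 3951), geometric half: the invariant choices exist. -/

set_option autoImplicit false

namespace Pool.Agent.Sw

open Pool.Agent.Cx2 Pool.Agent.LinAll

variable {G V : Type} [Group G] [MulAction G V]

/-- The edges. -/
private def Ch_E (Y : Dat G V) : Type := {s : Finset V // s ∈ Y.K ∧ s.card = 2}

open Classical in
private noncomputable instance Ch_act (Y : Dat G V) : MulAction G (Ch_E Y) where
  smul g s := ⟨s.1.image (fun v => g • v), Y.act_image g s.2.1, by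
    rw [Finset.card_image_of_injective _ (MulAction.injective g)]
    exact s.2.2⟩
  one_smul s := Subtype.ext (by
    change s.1.image (fun v => (1 : G) • v) = s.1
    simp only [one_smul, Finset.image_id'])
  mul_smul g h s := Subtype.ext (by
    change s.1.image (fun v => (g * h) • v) = (s.1.image (fun v => h • v)).image (fun v => g • v)
    rw [Finset.image_image]
    exact Finset.image_congr fun v _ => mul_smul g h v)

open Classical in
private theorem Ch_smul_val (Y : Dat G V) (g : G) (s : Ch_E Y) :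
    (g • s).1 = s.1.image (fun v => g • v) := rfl

open Classical in
private theorem Ch_T_val (Y : Dat G V) (g : G) (s : Y.T) :
    (g • s).1 = s.1.image (fun v => g • v) := rfl

open Classical in
private theorem Ch_cor (h1 : S_Eqc) (Y : Dat G V) : ∃ f : Y.T → V × V × V,
    (∀ s : Y.T, ((f s).1 ≠ (f s).2.1 ∧ (f s).2.1 ≠ (f s).2.2 ∧ (f s).2.2 ≠ (f s).1) ∧
      s.1 = {(f s).1, (f s).2.1, (f s).2.2}) ∧ ∀ (g : G) s, f (g • s) = g • f s := by
  refine h1 G Y.T (V × V × V) (fun s w => (w.1 ≠ w.2.1 ∧ w.2.1 ≠ w.2.2 ∧ w.2.2 ≠ w.1) ∧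
      s.1 = {w.1, w.2.1, w.2.2}) ?_ ?_
  · rintro g s ⟨a, b, c⟩ ⟨⟨hab, hbc, hca⟩, hs⟩
    change (g • a ≠ g • b ∧ g • b ≠ g • c ∧ g • c ≠ g • a) ∧ (g • s).1 = {g • a, g • b, g • c}
    refine ⟨⟨fun h => hab (MulAction.injective g h), fun h => hbc (MulAction.injective g h),
      fun h => hca (MulAction.injective g h)⟩, ?_⟩
    rw [Ch_T_val, show s.1 = {a, b, c} from hs, Finset.image_insert, Finset.image_insert,
      Finset.image_singleton]
  · intro s
    obtain ⟨a, b, c, hab, hac, hbc, hs⟩ := Finset.card_eq_three.1 s.2.2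
    refine ⟨(a, b, c), ⟨⟨hab, hbc, hac.symm⟩, hs⟩, fun g hg => ?_⟩
    have h2 : ∀ v ∈ s.1, g • v = v := Y.act.fix g s.1 s.2.1 fun v hv => by
      have h3 := (Y.mem_smul g s v).2 hv
      rwa [hg] at h3
    have ha : g • a = a := h2 a (by rw [hs]; simp)
    have hb : g • b = b := h2 b (by rw [hs]; simp)
    have hc : g • c = c := h2 c (by rw [hs]; simp)
    change (g • a, g • b, g • c) = (a, b, c)
    rw [ha, hb, hc]

open Classical in
private theorem Ch_or (h1 : S_Eqc) (Y : Dat G V) : ∃ f : Ch_E Y → V × V,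
    (∀ s : Ch_E Y, (f s).1 ≠ (f s).2 ∧ s.1 = {(f s).1, (f s).2}) ∧
      ∀ (g : G) s, f (g • s) = g • f s := by
  refine h1 G (Ch_E Y) (V × V) (fun s w => w.1 ≠ w.2 ∧ s.1 = {w.1, w.2}) ?_ ?_
  · rintro g s ⟨a, b⟩ ⟨hab, hs⟩
    change g • a ≠ g • b ∧ (g • s).1 = {g • a, g • b}
    refine ⟨fun h => hab (MulAction.injective g h), ?_⟩
    rw [Ch_smul_val, show s.1 = {a, b} from hs, Finset.image_insert, Finset.image_singleton]
  · intro s
    obtain ⟨a, b, hab, hs⟩ := Finset.card_eq_two.1 s.2.2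
    refine ⟨(a, b), ⟨hab, hs⟩, fun g hg => ?_⟩
    have h2 : ∀ v ∈ s.1, g • v = v := Y.act.fix g s.1 s.2.1 fun v hv => by
      have h3 : g • v ∈ (g • s).1 := Finset.mem_image_of_mem _ hv
      rwa [hg] at h3
    have ha : g • a = a := h2 a (by rw [hs]; simp)
    have hb : g • b = b := h2 b (by rw [hs]; simp)
    change (g • a, g • b) = (a, b)
    rw [ha, hb]

private theorem Ch_lab (h1 : S_Eqc) (Y : Dat G V) : ∃ F : Y.P → Y.Pos,
    (∀ x, Dat.IsLab x (F x)) ∧ ∀ (g : G) x, F (g • x) = g • F x := by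
  classical
  refine h1 G Y.P Y.Pos (fun x p => Dat.IsLab x p) ?_ ?_
  · intro g x p hp
    cases p with
    | inl v =>
      change 1 / 3 < (g • x : Y.P).1 (g • v)
      rw [Y.smul_apply]
      exact hp
    | inr s =>
      change (g • x : Y.P) = Y.bc (g • s)
      rw [← Y.smul_bc, show x = Y.bc s from hp]
  · intro x
    obtain ⟨p, hp⟩ := Dat.exists_lab x
    refine ⟨p, hp, fun g hg => ?_⟩
    cases p with
    | inl v =>
      have h2 : 1 / 3 < x.1 v := hp
      have h3 : g • v = v := Y.fix_cr hg (lt_trans (by norm_num) h2)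
      change (Sum.inl (g • v) : Y.Pos) = Sum.inl v
      rw [h3]
    | inr s =>
      have h2 : x = Y.bc s := hp
      rw [h2, Y.smul_bc] at hg
      change (Sum.inr (g • s) : Y.Pos) = Sum.inr s
      have h3 : g • s = s := by
        refine Subtype.ext (Finset.ext fun v => ?_)
        have h4 : (Y.bc (g • s)).1 v = (Y.bc s).1 v := by rw [hg]
        rw [Y.bc_apply, Y.bc_apply] at h4
        by_cases h5 : v ∈ (g • s).1
        · by_cases h6 : v ∈ s.1
          · exact iff_of_true h5 h6
          · rw [if_pos h5, if_neg h6] at h4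
            norm_num at h4
        · by_cases h6 : v ∈ s.1
          · rw [if_neg h5, if_pos h6] at h4
            norm_num at h4
          · exact iff_of_false h5 h6
      rw [h3]

theorem tCh (h1 : S_Eqc) (h2 : S_Con) : S_Ch := by
  classical
  intro G V _ _ _ Y
  obtain ⟨f, hf, hfs⟩ := Ch_cor h1 Y
  obtain ⟨f2, hf2, hf2s⟩ := Ch_or h1 Y
  obtain ⟨F, hF, hFs⟩ := Ch_lab h1 Y
  have hcard : ∀ {u v : V}, Y.Adj u v → ({u, v} : Finset V).card = 2 := fun h =>
    Finset.card_pair h.1
  refine ⟨{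
    a := fun s => (f s).1
    b := fun s => (f s).2.1
    c := fun s => (f s).2.2
    abc := fun s => (hf s).2
    ab := fun s => (hf s).1.1
    bc := fun s => (hf s).1.2.1
    ca := fun s => (hf s).1.2.2
    a_smul := fun g s => by rw [hfs]; rfl
    b_smul := fun g s => by rw [hfs]; rfl
    c_smul := fun g s => by rw [hfs]; rfl
    o := fun u v => ∃ he : Y.Adj u v, f2 ⟨{u, v}, he.2, Finset.card_pair he.1⟩ = (u, v)
    o_or := fun u v he => ?_
    o_adj := fun u v h => h.choose
    o_anti := fun u v h h' => ?_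
    o_smul := fun g u v h => ?_
    F := F
    lab := hF
    F_smul := hFs
    conn := h2 G V Y }⟩
  · have h3 := hf2 ⟨{u, v}, he.2, Finset.card_pair he.1⟩
    rcases hw : f2 ⟨{u, v}, he.2, Finset.card_pair he.1⟩ with ⟨a, b⟩
    rw [hw] at h3
    obtain ⟨h4, h5⟩ := h3
    have h6 : ({u, v} : Finset V) = {a, b} := h5
    have hab : a ≠ b := h4
    have hu : u = a ∨ u = b := by
      have : u ∈ ({a, b} : Finset V) := by rw [← h6]; simp
      simpa using this
    have hv : v = a ∨ v = b := by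
      have : v ∈ ({a, b} : Finset V) := by rw [← h6]; simp
      simpa using this
    rcases hu with hu | hu
    · rcases hv with hv | hv
      · exact absurd (hu.trans hv.symm) he.1
      · left
        refine ⟨he, ?_⟩
        rw [hw, hu, hv]
    · rcases hv with hv | hv
      · right
        refine ⟨Dat.adj_symm he, ?_⟩
        have h7 : (⟨{v, u}, (Dat.adj_symm he).2, Finset.card_pair (Dat.adj_symm he).1⟩ : Ch_E Y) =
            ⟨{u, v}, he.2, Finset.card_pair he.1⟩ := Subtype.ext (Finset.pair_comm v u)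
        rw [h7, hw, hu, hv]
      · exact absurd (hu.trans hv.symm) he.1
  · obtain ⟨he, h3⟩ := h
    obtain ⟨he', h4⟩ := h'
    have h7 : (⟨{v, u}, he'.2, Finset.card_pair he'.1⟩ : Ch_E Y) =
        ⟨{u, v}, he.2, Finset.card_pair he.1⟩ := Subtype.ext (Finset.pair_comm v u)
    rw [h7, h3] at h4
    exact he.1 (Prod.mk.inj h4).1
  · obtain ⟨he, h3⟩ := h
    refine ⟨Dat.adj_smul g he, ?_⟩
    have h7 : ∀ e0 : Ch_E Y, e0 = ⟨{u, v}, he.2, Finset.card_pair he.1⟩ →
        (⟨{g • u, g • v}, (Dat.adj_smul g he).2, Finset.card_pair (Dat.adj_smul g he).1⟩ :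
        Ch_E Y) = g • e0 := by
      intro e0 h8
      refine Subtype.ext ?_
      rw [Ch_smul_val, h8]
      change ({g • u, g • v} : Finset V) = Finset.image (fun v => g • v) {u, v}
      rw [Finset.image_insert, Finset.image_singleton]
    rw [h7 _ rfl, hf2s, h3]
    rfl

end Pool.Agent.Sw
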