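import Pool.Agent.Lib.MP_8f66f0_al_Sw.GeoSpec

/-! Theorem L1 (note 3951), geometric half, module `Chg`: the exponent of a step of the second kind
does not matter (author helper22). -/

set_option autoImplicit false

namespace Pool.Agent.Sw

open Pool.Agent.Cx2 Pool.Agent.LinAll

theorem tChg (h1 : S_Trb) (h2 : S_Toc) (h3 : S_Sho) (h4 : S_Mer) : S_Chg := by
  intro G V _ _ Y h hB D γ R _ j B hBd n hP o v s m m' x y l1 l2 g1 g2 t1 hx hy t2 hl hm
  obtain ⟨hcat, hrev, -, -, -⟩ := h1 G V Y h hB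
  have hr := Y.ρ_pos
  have he := Y.η_le
  have kx := h2 G V Y h hB D s x hx
  have ky := hrev _ _ _ _ (h2 G V Y h hB D s y hy)
  have ta : h.Tr (Y.pt o) (Y.pt (.inr s)) (l1 + Y.d x (Y.bc s)) (g1 * h.κ s x) :=
    hcat _ _ _ _ _ _ _ t1 kx
  have tb : h.Tr (Y.pt (.inr s)) (Y.pt v) (Y.d y (Y.bc s) + l2) ((h.κ s y)⁻¹ * g2) :=
    hcat _ _ _ _ _ _ _ ky t2
  by_cases ha : l1 + Y.ρ ≤ n * (2 * Y.ρ)
  · by_cases hb : l2 + Y.ρ ≤ n * (2 * Y.ρ)
    · have pa : j (g1 * h.κ s x) ∈ B o (.inr s) := hP _ _ _ _ ta (by linarith)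
      have pb : j ((h.κ s y)⁻¹ * g2) ∈ B (.inr s) v := hP _ _ _ _ tb (by linarith)
      have c1 := (h4 G V Y h γ R j B hBd s m' o v).2.2 _ pa _ pb
      have c2 := (h4 G V Y h γ R j B hBd s m o v).2.2 _ pa _ pb
      have c3 := AddSubgroup.sub_mem _ (AddSubgroup.add_mem _ hm c1) c2
      have c4 : j (g1 * (h.κ s x * h.r s ^ m' * (h.κ s y)⁻¹) * g2) =
          j (g1 * (h.κ s x * h.r s ^ m * (h.κ s y)⁻¹) * g2) +
            j (g1 * h.κ s x) * (j (h.r s ^ m') - 1) * j ((h.κ s y)⁻¹ * g2) -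
            j (g1 * h.κ s x) * (j (h.r s ^ m) - 1) * j ((h.κ s y)⁻¹ * g2) := by
        simp only [map_mul]
        noncomm_ring
      rw [c4]
      exact c3
    · rw [not_le] at hb
      have c1 : Y.d x (Y.bc s) + l1 < 8 * Y.ρ := by nlinarith
      obtain ⟨rfl, i, hi⟩ := h3 G V Y h hB s o x l1 _ (hrev _ _ _ _ t1) c1
      have c2 := (h4 G V Y h γ R j B hBd s (m' - m) (.inr s) v).2.1 _ hm
      have c3 : g1 = h.r s ^ (-i) * (h.κ s x)⁻¹ := by
        rw [← inv_inv g1, hi, mul_inv_rev, zpow_neg]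
      have c4 : g1 * (h.κ s x * h.r s ^ m' * (h.κ s y)⁻¹) * g2 =
          h.r s ^ (m' - m) * (g1 * (h.κ s x * h.r s ^ m * (h.κ s y)⁻¹) * g2) := by
        have c5 : h.r s ^ (m' - m) * (h.r s ^ (-i) * h.r s ^ m) = h.r s ^ (-i) * h.r s ^ m' := by
          rw [← zpow_add, ← zpow_add, ← zpow_add]
          congr 1
          ring
        calc g1 * (h.κ s x * h.r s ^ m' * (h.κ s y)⁻¹) * g2
            = h.r s ^ (-i) * h.r s ^ m' * ((h.κ s y)⁻¹ * g2) := by
              rw [c3]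
              group
          _ = h.r s ^ (m' - m) * (g1 * (h.κ s x * h.r s ^ m * (h.κ s y)⁻¹) * g2) := by
              rw [← c5, c3]
              group
      rw [c4, map_mul]
      exact c2
  · rw [not_le] at ha
    have c1 : Y.d y (Y.bc s) + l2 < 8 * Y.ρ := by nlinarith
    obtain ⟨rfl, i, hi⟩ := h3 G V Y h hB s v y l2 _ t2 c1
    have c2 := (h4 G V Y h γ R j B hBd s (m' - m) o (.inr s)).1 _ hm
    have c4 : g1 * (h.κ s x * h.r s ^ m' * (h.κ s y)⁻¹) * g2 =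
        g1 * (h.κ s x * h.r s ^ m * (h.κ s y)⁻¹) * g2 * h.r s ^ (m' - m) := by
      have c5 : h.r s ^ m * h.r s ^ i * h.r s ^ (m' - m) = h.r s ^ m' * h.r s ^ i := by
        rw [← zpow_add, ← zpow_add, ← zpow_add]
        congr 1
        ring
      calc g1 * (h.κ s x * h.r s ^ m' * (h.κ s y)⁻¹) * g2
          = g1 * h.κ s x * (h.r s ^ m' * h.r s ^ i) := by
            rw [hi]
            group
        _ = g1 * (h.κ s x * h.r s ^ m * (h.κ s y)⁻¹) * g2 * h.r s ^ (m' - m) := by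
            rw [← c5, hi]
            group
    rw [c4, map_mul]
    exact c2

end Pool.Agent.Sw
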