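import Pool.Agent.Lib.MP_8f66f0_al_Sw.GeoSpec

/-! The module `Con`: the 1-skeleton is connected (author helper12). -/

set_option autoImplicit false

namespace Pool.Agent.Sw

open Pool.Agent.Cx2 Pool.Agent.LinAll

section

variable {G V : Type} [Group G] [MulAction G V] (Y : Dat G V)

/-- A point has a coordinate which is at least `1/3`. -/
private theorem Con_third (x : Y.P) : ∃ v, 1 / 3 ≤ x.1 v := by
  by_contra h
  have h1 : ∀ v, x.1 v < 1 / 3 := fun v => not_le.1 fun h2 => h ⟨v, h2⟩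
  have h2 := Y.cx.card _ (Y.cr_mem x)
  have h3 := Y.sum_cr x
  have hne := Y.cx.nonempty _ (Y.cr_mem x)
  have h4 : ∑ v ∈ Y.cr x, x.1 v < ∑ _v ∈ Y.cr x, (1 / 3 : ℝ) :=
    Finset.sum_lt_sum_of_nonempty hne fun v _ => h1 v
  rw [Finset.sum_const, nsmul_eq_mul, h3] at h4
  have h6 : ((Y.cr x).card : ℝ) ≤ 3 := by exact_mod_cast h2
  linarith

/-- Close points have a common positive coordinate. -/
private theorem Con_step (x y : Y.P) (h : Y.d x y < Y.ρ) : ∃ v, 0 < x.1 v ∧ 0 < y.1 v := by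
  obtain ⟨v, hv⟩ := Con_third Y x
  have h1 := (abs_le.1 (Y.tame.lip x y v)).2
  have h2 := Y.ρ_eq
  have h3 := Y.A_pos
  have h4 : Y.A * Y.d x y < Y.A * Y.ρ := mul_lt_mul_of_pos_left h h3
  exact ⟨v, by linarith, by linarith⟩

private theorem Con_reach {x : Y.P} {u v : V} (hu : 0 < x.1 u) (hv : 0 < x.1 v) :
    Y.gr.Reachable u v := by
  by_cases h : u = v
  · subst h
    exact SimpleGraph.Reachable.refl _
  · exact SimpleGraph.Adj.reachable (show Y.Adj u v from Dat.adj_of_pos hu hv h)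

private theorem Con_seq (y : ℕ → Y.P) (hy : ∀ k, Y.d (y k) (y (k + 1)) < Y.ρ) {u : V}
    (hu : 0 < (y 0).1 u) (n : ℕ) : ∀ v, 0 < (y n).1 v → Y.gr.Reachable u v := by
  induction n with
  | zero => exact fun v hv => Con_reach Y hu hv
  | succ n ih =>
    intro v hv
    obtain ⟨w, hw, hw'⟩ := Con_step Y _ _ (hy n)
    exact (ih w hw).trans (Con_reach Y hw' hv)

private theorem Con_vp (v : V) : 0 < (Y.vp v).1 v := by
  classical
  rw [Y.vp_apply, if_pos rfl]
  exact one_pos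

end

theorem tCon (h1 : S_Gd) : S_Con := by
  intro G V _ _ _ Y
  obtain ⟨D⟩ := h1 G V Y
  refine { preconnected := fun u v => ?_, nonempty := inferInstance }
  have hη := Y.η_pos
  have hη2 : 0 < Y.η / 2 := by linarith
  have hρ := Y.η_le
  obtain ⟨n, hn⟩ := exists_nat_ge (Y.d (Y.vp u) (Y.vp v) / (Y.η / 2))
  rw [div_le_iff₀ hη2] at hn
  refine Con_seq Y (fun k : ℕ => D.c (Y.vp u) (Y.vp v) (k * (Y.η / 2))) (fun k => ?_) ?_ n v ?_
  · have h0 : (0 : ℝ) ≤ k * (Y.η / 2) := by positivity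
    have h2 : ((k + 1 : ℕ) : ℝ) * (Y.η / 2) = k * (Y.η / 2) + Y.η / 2 := by
      push_cast
      ring
    have h3 := D.dist (Y.vp u) (Y.vp v) (k * (Y.η / 2)) (((k + 1 : ℕ) : ℝ) * (Y.η / 2)) h0
      (by rw [h2]; linarith)
    change Y.d (D.c (Y.vp u) (Y.vp v) (k * (Y.η / 2)))
      (D.c (Y.vp u) (Y.vp v) (((k + 1 : ℕ) : ℝ) * (Y.η / 2))) < Y.ρ
    rw [h3, h2]
    have h4 : min (k * (Y.η / 2) + Y.η / 2) (Y.d (Y.vp u) (Y.vp v)) ≤
        min (k * (Y.η / 2)) (Y.d (Y.vp u) (Y.vp v)) + Y.η / 2 := by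
      rcases le_total (k * (Y.η / 2)) (Y.d (Y.vp u) (Y.vp v)) with h | h
      · rw [min_eq_left h]
        exact min_le_left _ _
      · rw [min_eq_right h]
        exact (min_le_right _ _).trans (by linarith)
    linarith
  · rw [Nat.cast_zero, zero_mul, D.zero]
    exact Con_vp Y u
  · rw [D.end_ _ _ _ hn]
    exact Con_vp Y v

end Pool.Agent.Sw
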