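import Pool.Agent.Lib.MP_8f66f0_al_Sw.GeoSpec

/-! # Theorem L1: the choice of the class of a step does not matter (module Cst) -/

set_option autoImplicit false

namespace Pool.Agent.Sw

open Pool.Agent.Cx2 Pool.Agent.LinAll

variable {G V : Type} [Group G] [MulAction G V] {Y : Dat G V}

private theorem Cst_sep {h : Ch Y} (hb : Bas h) {s s' : Y.T} {x : Y.P}
    (h1 : Y.d x (Y.bc s) < Y.ρ) (h2 : Y.d x (Y.bc s') < Y.ρ) : s = s' := by
  by_contra hne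
  have h3 := hb.sep (.inr s) (.inr s') fun e => hne (Sum.inr.inj e)
  have h4 := Y.cat.tri (Y.bc s) x (Y.bc s')
  rw [Y.cat.symm (Y.bc s) x] at h4
  change 8 * Y.ρ ≤ Y.d (Y.bc s) (Y.bc s') at h3
  have h6 := Y.ρ_pos
  linarith

private theorem Cst_form {h : Ch Y} (hb : Bas h) {s : Y.T} {x y : Y.P} {q : h.X.FG}
    (h1 : Y.d x (Y.bc s) < Y.ρ) (h2 : Y.d y (Y.bc s) < Y.ρ) (hq : h.St x y q) :
    ∃ m : ℤ, q = h.κ s x * h.r s ^ m * (h.κ s y)⁻¹ := by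
  have h6 := Y.ρ_pos
  rcases hq.2 with ⟨v, hv, rfl⟩ | ⟨s', m, h3, h4, h5⟩
  · exact hb.al_κ s x y v (hb.ball s x (by linarith)) (hb.ball s y (by linarith)) hv
  · obtain rfl := Cst_sep hb h1 h3
    exact ⟨m, h5⟩

/-- MODULE `Cst`: the choice of the class of a step does not matter. -/
theorem tCst (h1 : S_Chg) : S_Cst := by
  intro G V _ _ Y h hb D γ R _ j B hB n hP o v x y q q' l1 l2 g1 g2 ht1 hq hq' ht2 hl hj
  have key : ∀ s : Y.T, Y.d x (Y.bc s) < Y.ρ → Y.d y (Y.bc s) < Y.ρ → j (g1 * q' * g2) ∈ B o v := by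
    intro s h3 h4
    obtain ⟨m, rfl⟩ := Cst_form hb h3 h4 hq
    obtain ⟨m', rfl⟩ := Cst_form hb h3 h4 hq'
    exact h1 G V Y h hb D γ R j B hB n hP o v s m m' x y l1 l2 g1 g2 ht1 h3 h4 ht2 hl hj
  rcases hq.2 with ⟨u, hu, hqu⟩ | ⟨s, m, h3, h4, -⟩
  · rcases hq'.2 with ⟨u', hu', hqu'⟩ | ⟨s, m, h3, h4, -⟩
    · rw [hqu'] 
      rw [hqu] at hj
      rwa [hb.al_eq x y u' u hu' hu]
    · exact key s h3 h4
  · exact key s h3 h4

end Pool.Agent.Sw
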