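import Pool.Agent.Lib.MP_8f66f0_al_Sw.GeoSpec

/-! Theorem L1 (note 3951), geometric half: equivariant choice. -/

set_option autoImplicit false

namespace Pool.Agent.Sw

open Pool.Agent.Cx2 Pool.Agent.LinAll

theorem tEqc : S_Eqc := by
  intro G T W _ _ _ P hP hex
  choose w hw hfix using hex
  -- the representative of the orbit of `t`
  let rep : T → T := fun t => (Quotient.mk (MulAction.orbitRel G T) t).out
  have hrep : ∀ t, ∃ g : G, g • rep t = t := by
    intro t
    have h1 : (MulAction.orbitRel G T).r (rep t) t := Quotient.exact (Quotient.out_eq _)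
    have h2 : t ∈ MulAction.orbit G (rep t) := by
      have h3 := MulAction.orbitRel_apply.1 h1
      exact MulAction.mem_orbit_symm.1 h3
    exact h2
  choose c hc using hrep
  have hsame : ∀ (g : G) t, rep (g • t) = rep t := by
    intro g t
    change (Quotient.mk (MulAction.orbitRel G T) (g • t)).out =
      (Quotient.mk (MulAction.orbitRel G T) t).out
    congr 1
    exact Quotient.sound (MulAction.orbitRel_apply.2 ⟨g, rfl⟩)
  refine ⟨fun t => c t • w (rep t), fun t => ?_, fun g t => ?_⟩
  · have h1 := hP (c t) (rep t) (w (rep t)) (hw (rep t))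
    rw [hc t] at h1
    exact h1
  · change c (g • t) • w (rep (g • t)) = g • (c t • w (rep t))
    have h1 : c (g • t) • rep t = g • (c t • rep t) := by
      have h2 := hc (g • t)
      rw [hsame g t] at h2
      rw [h2, hc t]
    have h3 : ((c t)⁻¹ * g⁻¹ * c (g • t)) • rep t = rep t := by
      rw [mul_smul, h1, mul_smul, inv_smul_smul, inv_smul_smul]
    have h4 := hfix (rep t) _ h3
    rw [hsame g t]
    rw [mul_smul, mul_smul, inv_smul_eq_iff, inv_smul_eq_iff] at h4
    exact h4

end Pool.Agent.Sw
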