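import Pool.Agent.Lib.MP_8f66f0_al_Sw.GeoSpec

/-! Module `Equ` of Theorem L1 (note 3951): equivariance of the classes (author helper66). -/

set_option autoImplicit false

namespace Pool.Agent.Sw

open Pool.Agent.Cx2 Pool.Agent.LinAll

variable {G V : Type} [Group G] [MulAction G V] {Y : Dat G V} (h : Ch Y)

theorem Equ_e (g : G) (p q : Y.Pos) : h.X.φ g (h.e p q) = h.e (g • p) (g • q) := h.X.φ_ε g p q

theorem Equ_k (g : G) (s : Y.T) (w : V) : h.X.φ g (h.k s w) = h.k (g • s) (g • w) := by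
  unfold Ch.k
  rw [map_mul, Equ_e, Equ_e, h.a_smul]
  rfl

theorem Equ_κ (g : G) (s : Y.T) (x : Y.P) :
    h.X.φ g (h.κ s x) = h.κ (g • s) (g • x : Y.P) := by
  unfold Ch.κ
  rw [h.F_smul]
  cases h.F x with
  | inl w => exact Equ_k h g s w
  | inr _ => exact map_one _

theorem Equ_al (g : G) (v : V) (x y : Y.P) :
    h.X.φ g (h.al v x y) = h.al (g • v) (g • x : Y.P) (g • y : Y.P) := by
  unfold Ch.al
  rw [map_mul, Equ_e, Equ_e, h.F_smul, h.F_smul]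
  rfl

theorem Equ_com (g : G) {v : V} {x y : Y.P} (hc : Dat.Com v x y) :
    Dat.Com (g • v) (g • x : Y.P) (g • y : Y.P) := by
  unfold Dat.Com
  rw [Y.smul_apply, Y.smul_apply]
  exact hc

theorem Equ_St (g : G) {x y : Y.P} {q : h.X.FG} (hq : h.St x y q) :
    h.St (g • x : Y.P) (g • y : Y.P) (h.X.φ g q) := by
  obtain ⟨h1, h2⟩ := hq
  refine ⟨by rw [Y.d_smul]; exact h1, ?_⟩
  rcases h2 with ⟨v, hv, rfl⟩ | ⟨s, m, hx, hy, rfl⟩
  · exact Or.inl ⟨g • v, Equ_com g hv, Equ_al h g v x y⟩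
  · refine Or.inr ⟨g • s, m, ?_, ?_, ?_⟩
    · rw [← Y.smul_bc, Y.d_smul]
      exact hx
    · rw [← Y.smul_bc, Y.d_smul]
      exact hy
    · rw [map_mul, map_mul, map_inv, map_zpow, Equ_κ, Equ_κ, h.X.φ_r]

theorem Equ_dg (D : Gd Y) (g : G) (o x : Y.P) (n : ℕ) :
    Ch.dg D (g • o : Y.P) (g • x : Y.P) n = (g • Ch.dg D o x n : Y.P) :=
  (D.smul g o x _).symm

theorem Equ_Sq (D : Gd Y) (g : G) (o x : Y.P) {n : ℕ} {w : h.X.FG}
    (hw : h.Sq (Ch.dg D o x) n w) :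
    h.Sq (Ch.dg D (g • o : Y.P) (g • x : Y.P)) n (h.X.φ g w) := by
  induction hw with
  | zero =>
    rw [map_one]
    exact Ch.Sq.zero
  | succ _ hs ih =>
    rw [map_mul]
    refine Ch.Sq.succ ih ?_
    rw [Equ_dg, Equ_dg]
    exact Equ_St h g hs

/-- Equivariance. -/
theorem tEqu : S_Equ := by
  intro G V _ _ Y h D g
  refine ⟨fun x y q hq => Equ_St h g hq, fun o x w hw => ?_⟩
  obtain ⟨n, hn, hw⟩ := hw
  refine ⟨n, ?_, Equ_Sq h D g o x hw⟩
  rw [Y.d_smul]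
  exact hn

end Pool.Agent.Sw
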