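import Pool.Agent.Lib.MP_8f66f0_al_Sw.GeoSpec

/-! # Theorem L1, geometric half, module Exs: steps exist -/

set_option autoImplicit false

namespace Pool.Agent.Sw

open Pool.Agent.Cx2 Pool.Agent.LinAll

theorem tExs : S_Exs := by
  intro G V _ _ Y h hB
  have hη := Y.η_pos
  constructor
  · intro x y hxy
    rcases hB.near x with ⟨v, hv⟩ | ⟨s, hs⟩
    · refine ⟨h.al v x y, hxy, Or.inl ⟨v, ⟨hv x ?_, hv y ?_⟩, rfl⟩⟩
      · rw [Y.d_self]
        linarith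
      · linarith
    · refine ⟨h.κ s x * h.r s ^ (0 : ℤ) * (h.κ s y)⁻¹, hxy,
        Or.inr ⟨s, 0, hs x ?_, hs y ?_, rfl⟩⟩
      · rw [Y.d_self]
        linarith
      · linarith
  · intro x
    have h0 : Y.d x x < Y.η := by
      rw [Y.d_self]
      exact hη
    have h1 : Y.d x x < 2 * Y.η := by
      rw [Y.d_self]
      linarith
    rcases hB.near x with ⟨v, hv⟩ | ⟨s, hs⟩
    · refine ⟨h0, Or.inl ⟨v, ⟨hv x h1, hv x h1⟩, ?_⟩⟩
      unfold Ch.al
      rw [h.e_mul]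
    · refine ⟨h0, Or.inr ⟨s, 0, hs x h1, hs x h1, ?_⟩⟩
      rw [zpow_zero, mul_one, mul_inv_cancel]

end Pool.Agent.Sw
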