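import Pool.Agent.Lib.MP_8f66f0_al_Sw.GeoSpec
import Pool.Agent.Lib.MP_8f66f0_al_Sw.GeoEqu

/-! Module `Gam` of Theorem L1 (note 3951): the equivariant paths (author helper66). -/

set_option autoImplicit false

namespace Pool.Agent.Sw

open Pool.Agent.Cx2 Pool.Agent.LinAll

variable {G V : Type} [Group G] [MulAction G V] {Y : Dat G V} (h : Ch Y)

/-- An element which fixes the corners of a triangle fixes the triangle. -/
theorem Gam_fixT {g : G} {s : Y.T} (hg : ∀ v ∈ s.1, g • v = v) : g • s = s := by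
  classical
  refine Subtype.ext ?_
  change s.1.image (fun v => g • v) = s.1
  refine Eq.trans (Finset.image_congr fun v hv => ?_) Finset.image_id
  exact hg v hv

/-- A step has a class which is fixed by all elements which fix both end points. -/
theorem Gam_step (hB : Bas h) (x y : Y.P) (hd : Y.d x y < Y.η) :
    ∃ q, h.St x y q ∧ h.X.IsP (h.F x) (h.F y) q ∧
      ∀ g : G, (g • x : Y.P) = x → (g • y : Y.P) = y → h.X.φ g q = q := by
  have hη := Y.η_pos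
  have hρ := Y.ρ_pos
  have hx0 : Y.d x x < 2 * Y.η := by
    rw [Y.d_self]
    linarith
  have hy0 : Y.d x y < 2 * Y.η := by linarith
  rcases hB.near x with ⟨v, hv⟩ | ⟨s, hs⟩
  · have hc : Dat.Com v x y := ⟨hv x hx0, hv y hy0⟩
    refine ⟨h.al v x y, ⟨hd, Or.inl ⟨v, hc, rfl⟩⟩, hB.isP_al x y v hc, fun g hgx hgy => ?_⟩
    have hgv : g • v = v := Y.fix_cr hgx (lt_trans (by norm_num) hc.1)
    rw [Equ_al, hgx, hgy, hgv]
  · have hx1 := hs x hx0
    have hy1 := hs y hy0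
    have hx2 := hB.ball s x (by linarith)
    have hy2 := hB.ball s y (by linarith)
    refine ⟨h.κ s x * h.r s ^ (0 : ℤ) * (h.κ s y)⁻¹, ⟨hd, Or.inr ⟨s, 0, hx1, hy1, rfl⟩⟩, ?_,
      fun g hgx hgy => ?_⟩
    · rw [zpow_zero, mul_one]
      exact (hB.isP_κ s x hx2).mul (hB.isP_κ s y hy2).inv
    · have hgs : g • s = s := Gam_fixT fun v hv => Y.fix_cr hgx (hx2 v hv)
      rw [zpow_zero, mul_one, map_mul, map_inv, Equ_κ, Equ_κ, hgx, hgy, hgs]

/-- The steps of the discrete geodesic are short. -/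
theorem Gam_short (D : Gd Y) (o x : Y.P) (n : ℕ) :
    Y.d (Ch.dg D o x n) (Ch.dg D o x (n + 1)) < Y.η := by
  have hη := Y.η_pos
  have h0 : (0 : ℝ) ≤ n * (Y.η / 2) := by positivity
  have h1 : (n : ℝ) * (Y.η / 2) ≤ ((n + 1 : ℕ) : ℝ) * (Y.η / 2) := by
    push_cast
    nlinarith
  unfold Ch.dg
  rw [D.dist o x _ _ h0 h1]
  have h2 : ((n + 1 : ℕ) : ℝ) * (Y.η / 2) = n * (Y.η / 2) + Y.η / 2 := by
    push_cast
    ring
  rw [h2]
  rcases le_total ((n : ℝ) * (Y.η / 2)) (Y.d o x) with h3 | h3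
  · rw [min_eq_left h3]
    have h4 := min_le_left ((n : ℝ) * (Y.η / 2) + Y.η / 2) (Y.d o x)
    linarith
  · rw [min_eq_right h3]
    have h4 := min_le_right ((n : ℝ) * (Y.η / 2) + Y.η / 2) (Y.d o x)
    linarith

/-- The discrete geodesic has a class which is fixed by all elements which fix both end points. -/
theorem Gam_seq (hB : Bas h) (D : Gd Y) (o x : Y.P) (n : ℕ) :
    ∃ w, h.Sq (Ch.dg D o x) n w ∧
      h.X.IsP (h.F (Ch.dg D o x 0)) (h.F (Ch.dg D o x n)) w ∧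
      ∀ g : G, (g • o : Y.P) = o → (g • x : Y.P) = x → h.X.φ g w = w := by
  induction n with
  | zero => exact ⟨1, Ch.Sq.zero, h.X.isP_one _, fun g _ _ => map_one _⟩
  | succ n ih =>
    obtain ⟨w, hw1, hw2, hw3⟩ := ih
    obtain ⟨q, hq1, hq2, hq3⟩ := Gam_step h hB _ _ (Gam_short D o x n)
    refine ⟨w * q, Ch.Sq.succ hw1 hq1, hw2.mul hq2, fun g hgo hgx => ?_⟩
    have hfix : ∀ m : ℕ, (g • Ch.dg D o x m : Y.P) = Ch.dg D o x m := by
      intro m
      rw [← Equ_dg, hgo, hgx]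
    rw [map_mul, hw3 g hgo hgx, hq3 g (hfix n) (hfix (n + 1))]

theorem Gam_dg_zero (D : Gd Y) (o x : Y.P) : Ch.dg D o x 0 = o := by
  unfold Ch.dg
  rw [Nat.cast_zero, zero_mul, D.zero]

theorem Gam_dg_end (D : Gd Y) (o x : Y.P) {n : ℕ} (hn : Y.d o x ≤ n * (Y.η / 2)) :
    Ch.dg D o x n = x := D.end_ o x _ hn

/-- The class for a pair of positions. -/
theorem Gam_ex (hB : Bas h) (D : Gd Y) (p q : Y.Pos) :
    ∃ w, (h.Ge D (Y.pt p) (Y.pt q) w ∧ h.X.IsP p q w ∧ (p = q → w = 1)) ∧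
      ∀ g : G, g • p = p → g • q = q → h.X.φ g w = w := by
  by_cases hpq : p = q
  · subst hpq
    refine ⟨1, ⟨⟨0, ?_, Ch.Sq.zero⟩, h.X.isP_one p, fun _ => rfl⟩, fun g _ _ => map_one _⟩
    rw [Y.d_self, Nat.cast_zero, zero_mul]
  · obtain ⟨n, hn⟩ := exists_nat_ge (Y.d (Y.pt p) (Y.pt q) / (Y.η / 2))
    have hη := Y.η_pos
    have hn' : Y.d (Y.pt p) (Y.pt q) ≤ n * (Y.η / 2) := (div_le_iff₀ (by linarith)).1 hn
    obtain ⟨w, hw1, hw2, hw3⟩ := Gam_seq h hB D (Y.pt p) (Y.pt q) n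
    rw [Gam_dg_zero, Gam_dg_end D _ _ hn', hB.F_pt, hB.F_pt] at hw2
    refine ⟨w, ⟨⟨n, hn', hw1⟩, hw2, fun e => (hpq e).elim⟩, fun g hgp hgq => ?_⟩
    refine hw3 g ?_ ?_
    · rw [Y.smul_pt, hgp]
    · rw [Y.smul_pt, hgq]

/-- The equivariant paths. -/
theorem tGam (h1 : S_Eqc) (h2 : S_Equ) : S_Gam := by
  intro G V _ _ Y h D hB
  let _ : MulAction G h.X.FG := MulAction.compHom _ h.X.φ
  have hs : ∀ (g : G) (w : h.X.FG), g • w = h.X.φ g w := fun g w => rfl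
  obtain ⟨f, hf, hf'⟩ := h1 G (Y.Pos × Y.Pos) h.X.FG
    (fun t w => h.Ge D (Y.pt t.1) (Y.pt t.2) w ∧ h.X.IsP t.1 t.2 w ∧ (t.1 = t.2 → w = 1))
    (fun g t w hw => by
      obtain ⟨a1, a2, a3⟩ := hw
      refine ⟨?_, ?_, ?_⟩
      · rw [hs]
        change h.Ge D (Y.pt (g • t.1)) (Y.pt (g • t.2)) _
        rw [← Y.smul_pt, ← Y.smul_pt]
        exact (h2 G V Y h D g).2 _ _ _ a1
      · rw [hs]
        exact a2.smul g
      · intro e
        have e' : t.1 = t.2 := MulAction.injective g e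
        rw [hs, a3 e', map_one])
    (fun t => by
      obtain ⟨w, hw1, hw2⟩ := Gam_ex h hB D t.1 t.2
      refine ⟨w, hw1, fun g hg => ?_⟩
      rw [hs]
      exact hw2 g (congrArg Prod.fst hg) (congrArg Prod.snd hg))
  refine ⟨⟨fun p q => f (p, q), fun u => (hf (u, u)).2.2 rfl, fun u v => (hf (u, v)).2.1,
    fun g u v => ?_⟩, fun p q => (hf (p, q)).1⟩
  exact hf' g (u, v)

end Pool.Agent.Sw
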