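import Pool.Agent.Lib.MP_8f66f0_al_Sw.GeoSpec

/-!
# Theorem L1, geometric half: geodesics
-/

set_option autoImplicit false

namespace Pool.Agent.Sw

open Pool.Agent.Cx2 Pool.Agent.LinAll

section

variable {P : Type} {d : P → P → ℝ} (hd : IsCat0 d)

include hd

theorem Gd_nonneg (x y : P) : 0 ≤ d x y := by
  have h := hd.tri x y x
  rw [(hd.eq_zero x x).2 rfl, hd.symm y x] at h
  linarith

/-- the point at the distance `t` from `o` -/
theorem Gd_ex (o x : P) (t : ℝ) (h0 : 0 ≤ t) (h1 : t ≤ d o x) :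
    ∃ z, d o z = t ∧ d z x = d o x - t ∧ ∀ w, d o x * d w z ^ 2 ≤
      (d o x - t) * d w o ^ 2 + t * d w x ^ 2 - t * (d o x - t) * d o x := by
  obtain ⟨c, c0, c1, hc⟩ := hd.geo o x
  obtain ⟨D, hD⟩ : ∃ D, D = d o x := ⟨_, rfl⟩
  rw [← hD] at hc h1 ⊢
  have hoo := (hd.eq_zero o o).2 rfl
  have hxx := (hd.eq_zero x x).2 rfl
  rcases (h0.trans h1).eq_or_lt with h2 | h2
  · refine ⟨o, ?_, ?_, ?_⟩
    · rw [hoo]
      linarith
    · rw [← hD]
      linarith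
    · intro w
      have h3 : t = 0 := by linarith
      rw [← h2, h3]
      simp
  · obtain ⟨s, hs⟩ : ∃ s, s = t / D := ⟨_, rfl⟩
    have hsD : s * D = t := by
      rw [hs]
      field_simp
    have hs0 : 0 ≤ s := by
      rw [hs]
      positivity
    have hs1 : s ≤ 1 := by
      rw [hs, div_le_one h2]
      exact h1
    have h3 := hc s hs0 hs1 o
    have h4 := hc s hs0 hs1 x
    rw [hoo, ← hD] at h3
    rw [hxx, hd.symm x o, ← hD] at h4
    have h5 : d o (c s) ≤ t := by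
      refine le_of_sq_le_sq ?_ h0
      rw [← hsD]
      linarith [h3, (by ring : (1 - s) * (0 : ℝ) ^ 2 + s * D ^ 2 - s * (1 - s) * D ^ 2 =
        (s * D) ^ 2)]
    have h6 : d (c s) x ≤ D - t := by
      rw [hd.symm]
      refine le_of_sq_le_sq ?_ (by linarith)
      rw [← hsD]
      linarith [h4, (by ring : (1 - s) * D ^ 2 + s * (0 : ℝ) ^ 2 - s * (1 - s) * D ^ 2 =
        (D - s * D) ^ 2)]
    have h7 := hd.tri o (c s) x
    rw [← hD] at h7
    refine ⟨c s, by linarith, by linarith, ?_⟩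
    intro w
    have h8 := mul_le_mul_of_nonneg_left (hc s hs0 hs1 w) h2.le
    refine h8.trans (le_of_eq ?_)
    rw [← hsD]
    ring

/-- uniqueness -/
theorem Gd_uniq {o x z : P} {t : ℝ} (h0 : 0 ≤ t) (h1 : t ≤ d o x)
    (hz : ∀ w, d o x * d w z ^ 2 ≤
      (d o x - t) * d w o ^ 2 + t * d w x ^ 2 - t * (d o x - t) * d o x)
    (hz1 : d o z = t) {w : P} (hw1 : d o w = t) (hw2 : d w x = d o x - t) : w = z := by
  rcases (h0.trans h1).eq_or_lt with h2 | h2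
  · have h3 : t = 0 := by linarith
    rw [h3] at hz1 hw1
    rw [← (hd.eq_zero o w).1 hw1, ← (hd.eq_zero o z).1 hz1]
  · have h3 := hz w
    rw [hd.symm w o, hw1, hw2] at h3
    have h4 : d o x * d w z ^ 2 ≤ d o x * 0 := by
      refine h3.trans (le_of_eq ?_)
      ring
    have h5 := le_of_mul_le_mul_left h4 h2
    have h6 : d w z = 0 := by
      have := sq_nonneg (d w z)
      exact pow_eq_zero_iff (two_ne_zero) |>.mp (le_antisymm h5 this)
    exact (hd.eq_zero w z).1 h6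

/-- the distance of two points of the geodesic -/
theorem Gd_dist {o x z z' : P} {t t' : ℝ} (h0 : 0 ≤ t) (h1 : t ≤ t') (h2 : t' ≤ d o x)
    (hz1 : d o z = t) (hz2 : d z x = d o x - t) (hz1' : d o z' = t')
    (hz' : ∀ w, d o x * d w z' ^ 2 ≤
      (d o x - t') * d w o ^ 2 + t' * d w x ^ 2 - t' * (d o x - t') * d o x) :
    d z z' = t' - t := by
  have h3 := hd.tri o z z'
  rw [hz1, hz1'] at h3
  refine le_antisymm ?_ (by linarith)
  rcases (h0.trans (h1.trans h2)).eq_or_lt with h4 | h4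
  · have h5 : t = 0 := by linarith
    have h6 : t' = 0 := by linarith
    rw [h5] at hz1
    rw [h6] at hz1'
    rw [← (hd.eq_zero o z).1 hz1, ← (hd.eq_zero o z').1 hz1', (hd.eq_zero o o).2 rfl, h5, h6]
    simp
  · have h5 := hz' z
    rw [hd.symm z o, hz1, hz2] at h5
    have h6 : d o x * d z z' ^ 2 ≤ d o x * (t' - t) ^ 2 := by
      refine h5.trans (le_of_eq ?_)
      ring
    exact le_of_sq_le_sq (le_of_mul_le_mul_left h6 h4) (by linarith)

/-- geodesics from one point, the longer one is the second -/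
theorem Gd_lip1 {o x x' z z' : P} {t : ℝ} (h0 : 0 < t) (h1 : t ≤ d o x) (h2 : d o x ≤ d o x')
    (hz : ∀ w, d o x * d w z ^ 2 ≤
      (d o x - t) * d w o ^ 2 + t * d w x ^ 2 - t * (d o x - t) * d o x)
    (hz1' : d o z' = t)
    (hz' : ∀ w, d o x' * d w z' ^ 2 ≤
      (d o x' - t) * d w o ^ 2 + t * d w x' ^ 2 - t * (d o x' - t) * d o x') :
    d z z' ≤ d x x' := by
  have e1 := hz z'
  have e2 := hz' x
  rw [hd.symm z' o, hz1'] at e1
  rw [hd.symm x o] at e2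
  rw [hd.symm z z']
  rw [hd.symm z' x] at e1
  obtain ⟨D, hD⟩ : ∃ D, D = d o x := ⟨_, rfl⟩
  obtain ⟨D', hD'⟩ : ∃ D', D' = d o x' := ⟨_, rfl⟩
  obtain ⟨u, hu⟩ : ∃ u, u = d z' z ^ 2 := ⟨_, rfl⟩
  obtain ⟨v, hv⟩ : ∃ v, v = d x z' ^ 2 := ⟨_, rfl⟩
  have hδ := Gd_nonneg hd x x'
  rw [← hD, ← hu, ← hv] at e1
  rw [← hD, ← hD', ← hv] at e2
  rw [← hD] at h1 h2
  rw [← hD'] at h2
  have hDp : 0 < D := by linarith
  have hD'p : 0 < D' := by linarith
  refine le_of_sq_le_sq ?_ hδ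
  rw [← hu]
  have e3 := mul_le_mul_of_nonneg_left e1 hD'p.le
  have e4 := mul_le_mul_of_nonneg_left e2 h0.le
  have e5 : D * D' * u ≤ t ^ 2 * d x x' ^ 2 - t ^ 2 * (D' - D) ^ 2 := by
    linarith [e3, e4, (by ring : D' * (D * u) = D * D' * u),
      (by ring : D' * ((D - t) * t ^ 2 + t * v - t * (D - t) * D) =
        D' * (D - t) * t ^ 2 + t * (D' * v) - D' * (t * (D - t) * D)),
      (by ring : D' * (D - t) * t ^ 2 +
        t * ((D' - t) * D ^ 2 + t * d x x' ^ 2 - t * (D' - t) * D') - D' * (t * (D - t) * D) =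
        t ^ 2 * d x x' ^ 2 - t ^ 2 * (D' - D) ^ 2)]
  have e6 : t ^ 2 ≤ D * D' := by
    rw [sq]
    exact mul_le_mul h1 (h1.trans h2) h0.le hDp.le
  have e7 : D * D' * u ≤ D * D' * d x x' ^ 2 := by
    have e8 := mul_le_mul_of_nonneg_right e6 (sq_nonneg (d x x'))
    have e9 : 0 ≤ t ^ 2 * (D' - D) ^ 2 := by positivity
    linarith
  exact le_of_mul_le_mul_left e7 (mul_pos hDp hD'p)

/-- the shorter geodesic is constant -/
theorem Gd_lip2 {o x x' z' : P} {t : ℝ} (h0 : 0 ≤ t) (h1 : d o x ≤ t) (h2 : t < d o x')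
    (hz' : ∀ w, d o x' * d w z' ^ 2 ≤
      (d o x' - t) * d w o ^ 2 + t * d w x' ^ 2 - t * (d o x' - t) * d o x') :
    d x z' ≤ d x x' := by
  have e2 := hz' x
  rw [hd.symm x o] at e2
  have hδ := Gd_nonneg hd x x'
  have hx := Gd_nonneg hd o x
  refine le_of_sq_le_sq ?_ hδ
  have e3 : d o x ^ 2 ≤ t * d o x' := by
    rw [sq]
    exact mul_le_mul h1 (h1.trans h2.le) hx h0
  have e4 := mul_le_mul_of_nonneg_left e3 (by linarith : 0 ≤ d o x' - t)
  have e5 := mul_le_mul_of_nonneg_right h2.le (sq_nonneg (d x x'))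
  have e6 : d o x' * d x z' ^ 2 ≤ d o x' * d x x' ^ 2 := by
    linarith [(by ring : (d o x' - t) * (t * d o x') = t * (d o x' - t) * d o x')]
  exact le_of_mul_le_mul_left e6 (by linarith)

end

open Classical in
/-- the geodesics -/
noncomputable def Gd_c {P : Type} {d : P → P → ℝ} (hd : IsCat0 d) (o x : P) (t : ℝ) : P :=
  if h : 0 ≤ t ∧ t ≤ d o x then (Gd_ex hd o x t h.1 h.2).choose else if t < 0 then o else x

section

variable {P : Type} {d : P → P → ℝ} (hd : IsCat0 d)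

theorem Gd_c_spec {o x : P} {t : ℝ} (h0 : 0 ≤ t) (h1 : t ≤ d o x) :
    d o (Gd_c hd o x t) = t ∧ d (Gd_c hd o x t) x = d o x - t ∧ ∀ w,
      d o x * d w (Gd_c hd o x t) ^ 2 ≤
        (d o x - t) * d w o ^ 2 + t * d w x ^ 2 - t * (d o x - t) * d o x := by
  unfold Gd_c
  rw [dif_pos ⟨h0, h1⟩]
  exact (Gd_ex hd o x t h0 h1).choose_spec

theorem Gd_c_neg {o x : P} {t : ℝ} (h0 : t < 0) : Gd_c hd o x t = o := by
  unfold Gd_c
  rw [dif_neg fun h => absurd h.1 (by linarith), if_pos h0]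

theorem Gd_c_ge {o x : P} {t : ℝ} (h1 : d o x ≤ t) : Gd_c hd o x t = x := by
  have h2 := Gd_nonneg hd o x
  rcases h1.eq_or_lt with h3 | h3
  · obtain ⟨-, e2, -⟩ := Gd_c_spec hd (h2.trans h1) h3.ge
    rw [h3, sub_self] at e2
    exact (hd.eq_zero _ _).1 e2
  · unfold Gd_c
    rw [dif_neg fun h => absurd h.2 (by linarith), if_neg (by linarith)]

theorem Gd_lip (o x x' : P) (t : ℝ) (h0 : 0 ≤ t) (h2 : d o x ≤ d o x') :
    d (Gd_c hd o x t) (Gd_c hd o x' t) ≤ d x x' := by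
  have hδ := Gd_nonneg hd x x'
  by_cases h3 : d o x' ≤ t
  · rw [Gd_c_ge hd h3, Gd_c_ge hd (h2.trans h3)]
  rw [not_le] at h3
  obtain ⟨a1, -, a3⟩ := Gd_c_spec hd (x := x') h0 h3.le
  by_cases h4 : d o x ≤ t
  · rw [Gd_c_ge hd h4]
    exact Gd_lip2 hd h0 h4 h3 a3
  rw [not_le] at h4
  obtain ⟨b1, -, b3⟩ := Gd_c_spec hd (x := x) h0 h4.le
  rcases h0.eq_or_lt with h5 | h5
  · rw [← h5] at a1 b1 ⊢
    rw [← (hd.eq_zero _ _).1 a1, ← (hd.eq_zero _ _).1 b1, (hd.eq_zero o o).2 rfl]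
    exact hδ
  · exact Gd_lip1 hd h5 h4.le h2 b3 a1 a3

end

theorem tGd : S_Gd := by
  intro G V _ _ Y
  refine ⟨⟨Gd_c Y.cat, ?_, ?_, ?_, ?_, ?_⟩⟩
  · intro o x
    obtain ⟨h, -, -⟩ := Gd_c_spec Y.cat (o := o) (x := x) le_rfl (Gd_nonneg Y.cat o x)
    exact ((Y.cat.eq_zero _ _).1 h).symm
  · intro o x t h
    exact Gd_c_ge Y.cat h
  · intro o x t t' h0 h1
    by_cases h2 : t' ≤ Y.d o x
    · obtain ⟨a1, a2, -⟩ := Gd_c_spec Y.cat (o := o) (x := x) h0 (h1.trans h2)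
      obtain ⟨b1, -, b3⟩ := Gd_c_spec Y.cat (o := o) (x := x) (h0.trans h1) h2
      rw [min_eq_left h2, min_eq_left (h1.trans h2)]
      exact Gd_dist Y.cat h0 h1 h2 a1 a2 b1 b3
    · rw [not_le] at h2
      rw [Gd_c_ge Y.cat h2.le, min_eq_right h2.le]
      by_cases h3 : t ≤ Y.d o x
      · obtain ⟨-, a2, -⟩ := Gd_c_spec Y.cat (o := o) (x := x) h0 h3
        rw [min_eq_left h3]
        exact a2
      · rw [not_le] at h3
        rw [Gd_c_ge Y.cat h3.le, min_eq_right h3.le, sub_self]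
        exact (Y.cat.eq_zero _ _).2 rfl
  · intro o x x' t h0
    rcases le_total (Y.d o x) (Y.d o x') with h1 | h1
    · exact Gd_lip Y.cat o x x' t h0 h1
    · rw [Y.cat.symm, Y.cat.symm x x']
      exact Gd_lip Y.cat o x' x t h0 h1
  · intro g o x t
    by_cases h0 : t < 0
    · rw [Gd_c_neg Y.cat h0, Gd_c_neg Y.cat h0]
    rw [not_lt] at h0
    by_cases h1 : Y.d o x ≤ t
    · rw [Gd_c_ge Y.cat h1, Gd_c_ge Y.cat (by rw [Y.d_smul]; exact h1)]
    rw [not_le] at h1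
    obtain ⟨a1, a2, -⟩ := Gd_c_spec Y.cat (o := o) (x := x) h0 h1.le
    have h2 : t ≤ Y.d (g • o) (g • x) := by
      rw [Y.d_smul]
      exact h1.le
    obtain ⟨b1, -, b3⟩ := Gd_c_spec Y.cat (o := g • o) (x := g • x) h0 h2
    refine Gd_uniq Y.cat h0 h2 b3 b1 ?_ ?_
    · rw [Y.d_smul]
      exact a1
    · rw [Y.d_smul, Y.d_smul]
      exact a2

end Pool.Agent.Sw
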