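import Pool.Agent.Lib.MP_8f66f0_al_Sw.GeoSpec

/-! Theorem L1, geometric half: generation (the sweep from every base point and induction on the
length of the discrete paths). -/

set_option autoImplicit false

namespace Pool.Agent.Sw

open Pool.Agent.Cx2 Pool.Agent.LinAll

private theorem Gen_len {G V : Type} [Group G] [MulAction G V] {Y : Dat G V} (h : Ch Y)
    {x y : Y.P} {l : ℝ} {g : h.X.FG} (t : h.Tr x y l g) : 0 ≤ l := by
  induction t with
  | nil x => exact le_refl 0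
  | cons hst ht ih => exact add_nonneg (Y.d_nonneg _ _) ih

private theorem Gen_PP (h2 : S_Swp) (h3 : S_Geu) {G V : Type} [Group G] [MulAction G V]
    {Y : Dat G V} (h : Ch Y) (hb : Bas h) (D : Gd Y) (γ : Gam h.X)
    (hγ : ∀ p q : Y.Pos, h.Ge D (Y.pt p) (Y.pt q) (γ.γ p q)) (R : Type) [Ring R]
    (j : h.X.FG →* R) (B : Y.Pos → Y.Pos → AddSubgroup R) (hB : Bdg γ j B) :
    ∀ n : ℕ, PP h j B n := by
  intro n
  induction n with
  | zero =>
    intro o v l g t hl
    have h5 := Gen_len h t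
    rw [Nat.cast_zero, zero_mul] at hl
    exact absurd hl (not_lt.2 h5)
  | succ n ih =>
    intro o v l g t hl
    have key : ∀ (x z : Y.P) (l : ℝ) (g : h.X.FG), h.Tr x z l g → z = Y.pt v →
        Y.d (Y.pt o) x + l < (n + 1) * (2 * Y.ρ) → ∀ g1, h.Ge D (Y.pt o) x g1 →
          j (g1 * g) ∈ B o v := by
      intro x z l g t
      induction t with
      | nil x =>
        intro hz hl g1 hg
        rw [mul_one]
        rw [hz] at hg hl
        rw [add_zero] at hl
        exact h3 G V Y h hb D γ R j B hB n ih o v (γ.γ o v) g1 hl (hγ o v) hg (hB.gam o v)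
      | @cons x y z q g l hst ht IH =>
        intro hz hl g1 hg
        have h5 := Y.cat.tri (Y.pt o) x y
        have h6 := IH hz (by linarith)
        rw [hz] at ht
        exact h2 G V Y h hb D γ R j B hB n ih o v x y q g l hst ht (by linarith) h6 g1 hg
    have h5 : h.Ge D (Y.pt o) (Y.pt o) 1 := by
      refine ⟨0, ?_, Ch.Sq.zero⟩
      rw [Y.d_self, Nat.cast_zero, zero_mul]
    have h6 := key (Y.pt o) (Y.pt v) l g t rfl (by
      rw [Y.d_self, zero_add]
      rw [Nat.cast_succ] at hl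
      exact hl) 1 h5
    rwa [one_mul] at h6

private theorem Gen_walk (h1 : S_Trb) (h4 : S_Rea) {G V : Type} [Group G] [MulAction G V]
    {Y : Dat G V} (h : Ch Y) (hb : Bas h) {o v : Y.Pos} (p : h.X.Γ.Walk o v) :
    ∃ l, h.Tr (Y.pt o) (Y.pt v) l (h.X.val p) := by
  induction p with
  | nil => exact ⟨0, Ch.Tr.nil _⟩
  | cons e p ih =>
    obtain ⟨l, hl⟩ := ih
    obtain ⟨l', hl'⟩ := h4 G V Y h hb _ _ e
    exact ⟨l' + l, (h1 G V Y h hb).1 _ _ _ _ _ _ _ hl' hl⟩

theorem tGen (h1 : S_Trb) (h2 : S_Swp) (h3 : S_Geu) (h4 : S_Rea) : S_Gen := by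
  intro G V _ _ Y h hb D γ hγ R _ j B hB o v p
  obtain ⟨l, hl⟩ := Gen_walk h1 h4 h hb p
  obtain ⟨n, hn⟩ := exists_nat_gt (l / (2 * Y.ρ))
  have h5 : 0 < 2 * Y.ρ := mul_pos two_pos Y.ρ_pos
  exact Gen_PP h2 h3 h hb D γ hγ R j B hB n o v l _ hl ((div_lt_iff₀ h5).1 hn)

end Pool.Agent.Sw
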