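import Pool.Agent.Lib.MP_8f66f0_al_Sw.GeoSpec

/-! # Theorem L1, geometric half, module Geu: all classes of the discrete geodesic -/

set_option autoImplicit false

namespace Pool.Agent.Sw

open Pool.Agent.Cx2 Pool.Agent.LinAll

private theorem Geu_cases {G V : Type} [Group G] [MulAction G V] {Y : Dat G V} {h : Ch Y}
    {y : ℕ → Y.P} {n : ℕ} {a : h.X.FG} (ha : h.Sq y (n + 1) a) :
    ∃ b q, h.Sq y n b ∧ h.St (y n) (y (n + 1)) q ∧ a = b * q := by
  cases ha with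
  | succ h1 h2 => exact ⟨_, _, h1, h2, rfl⟩

private theorem Geu_zero {G V : Type} [Group G] [MulAction G V] {Y : Dat G V} {h : Ch Y}
    {y : ℕ → Y.P} {a : h.X.FG} (ha : h.Sq y 0 a) : a = 1 := by
  cases ha with
  | zero => rfl

theorem tGeu (h1 : S_Exs) (h2 : S_Cst) (h3 : S_Sqt) (h4 : S_Sqb) : S_Geu := by
  intro G V _ _ Y h hb D γ R _ j B hB n hP o v g g' hd hg hg' hj
  have hη := Y.η_pos
  have key : ∀ (k m : ℕ) (a b c : h.X.FG), Y.d (Y.pt o) (Y.pt v) ≤ ((k + m : ℕ) : ℝ) * (Y.η / 2) →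
      h.Sq (Ch.dg D (Y.pt o) (Y.pt v)) k a → h.Sq (Ch.dg D (Y.pt o) (Y.pt v)) k b →
      h.Sq (fun i => Ch.dg D (Y.pt o) (Y.pt v) (k + i)) m c → j (a * c) ∈ B o v →
      j (b * c) ∈ B o v := by
    intro k
    induction k with
    | zero =>
      intro m a b c _ ha hb' _ hj'
      rw [Geu_zero ha] at hj'
      rw [Geu_zero hb']
      exact hj'
    | succ k ih =>
      intro m a b c hm ha hb' hc hj'
      obtain ⟨a0, q, ha0, hq, rfl⟩ := Geu_cases ha
      obtain ⟨b0, q', hb0, hq', rfl⟩ := Geu_cases hb'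
      have hc1 : h.Sq (fun i => Ch.dg D (Y.pt o) (Y.pt v) (k + i)) (m + 1) (q * c) := by
        refine (h4 G V Y h (fun i => Ch.dg D (Y.pt o) (Y.pt v) (k + i))).2.1 m q c hq ?_
        have he : (fun i => Ch.dg D (Y.pt o) (Y.pt v) (k + (1 + i))) =
            (fun i => Ch.dg D (Y.pt o) (Y.pt v) (k + 1 + i)) := by
          funext i
          rw [add_assoc]
        exact he.symm ▸ hc
      have h5 : j (b0 * (q * c)) ∈ B o v := by
        refine ih (m + 1) a0 b0 (q * c) ?_ ha0 hb0 hc1 ?_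
        · rw [show k + (m + 1) = k + 1 + m by omega]
          exact hm
        · rw [← mul_assoc]
          exact hj'
      have h6 := (h3 G V Y h hb D (Y.pt o) (Y.pt v)).1 k b0 hb0
      have h7 := (h3 G V Y h hb D (Y.pt o) (Y.pt v)).2 (k + 1) m c hc
      have h8 : Ch.dg D (Y.pt o) (Y.pt v) (k + 1 + m) = Y.pt v := D.end_ _ _ _ hm
      rw [h8] at h7
      refine h2 G V Y h hb D γ R j B hB n hP o v _ _ q q' _ _ b0 c h6 hq hq' h7 ?_ ?_
      · have h9 : min ((k : ℝ) * (Y.η / 2)) (Y.d (Y.pt o) (Y.pt v)) ≤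
            min (((k + 1 : ℕ) : ℝ) * (Y.η / 2)) (Y.d (Y.pt o) (Y.pt v)) := by
          refine min_le_min ?_ le_rfl
          push_cast
          nlinarith
        have h10 : min (((k + 1 + m : ℕ) : ℝ) * (Y.η / 2)) (Y.d (Y.pt o) (Y.pt v)) ≤
            Y.d (Y.pt o) (Y.pt v) := min_le_right _ _
        push_cast at h9 h10 ⊢
        linarith
      · rw [mul_assoc]
        exact h5
  obtain ⟨n1, hn1, hs1⟩ := hg
  obtain ⟨n2, hn2, hs2⟩ := hg'
  have hend : ∀ N : ℕ, Y.d (Y.pt o) (Y.pt v) ≤ (N : ℝ) * (Y.η / 2) → ∀ i, N ≤ i →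
      Ch.dg D (Y.pt o) (Y.pt v) i = Y.pt v := by
    intro N hN i hi
    refine D.end_ _ _ _ (hN.trans ?_)
    have : (N : ℝ) ≤ i := by exact_mod_cast hi
    nlinarith
  have hext : ∀ (N m : ℕ) (a : h.X.FG), Y.d (Y.pt o) (Y.pt v) ≤ (N : ℝ) * (Y.η / 2) →
      h.Sq (Ch.dg D (Y.pt o) (Y.pt v)) N a → h.Sq (Ch.dg D (Y.pt o) (Y.pt v)) (N + m) a := by
    intro N m a hN ha
    refine (h4 G V Y h (Ch.dg D (Y.pt o) (Y.pt v))).2.2.1 N m a ha (fun i hi => ?_) ?_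
    · rw [hend N hN i hi, hend N hN N le_rfl]
    · exact (h1 G V Y h hb).2 _
  have hs1' := hext n1 n2 g hn1 hs1
  have hs2' := hext n2 n1 g' hn2 hs2
  rw [add_comm n2 n1] at hs2'
  have hM : Y.d (Y.pt o) (Y.pt v) ≤ ((n1 + n2 + 0 : ℕ) : ℝ) * (Y.η / 2) := by
    refine hn1.trans ?_
    push_cast
    have : (0 : ℝ) ≤ n2 := Nat.cast_nonneg _
    nlinarith
  have := key (n1 + n2) 0 g g' 1 hM hs1' hs2' Ch.Sq.zero (by rw [mul_one]; exact hj)
  rwa [mul_one] at this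

end Pool.Agent.Sw
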