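import Pool.Agent.Lib.MP_8f66f0_al_Sw.GeoSpec

/-! # Theorem L1, geometric half, module `Grd`: a grid -/

set_option autoImplicit false

namespace Pool.Agent.Sw

open Pool.Agent.Cx2 Pool.Agent.LinAll

private theorem Grd_row {G V : Type} [Group G] [MulAction G V] {Y : Dat G V} (h : Ch Y)
    (hm : ∀ x y z v, 1 / 3 < x.1 v → 1 / 3 < y.1 v → 1 / 3 < z.1 v →
      h.alf x y * h.alf y z = h.alf x z) (f g : ℕ → Y.P) (M : ℕ)
    (hc : ∀ i, i < M → ∃ v, 1 / 3 < (f i).1 v ∧ 1 / 3 < (f (i + 1)).1 v ∧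
      1 / 3 < (g i).1 v ∧ 1 / 3 < (g (i + 1)).1 v) :
    h.pr f M * h.alf (f M) (g M) = h.alf (f 0) (g 0) * h.pr g M := by
  induction M with
  | zero =>
    change 1 * h.alf (f 0) (g 0) = h.alf (f 0) (g 0) * 1
    rw [one_mul, mul_one]
  | succ M ih =>
    obtain ⟨v, h1, h2, h3, h4⟩ := hc M (Nat.lt_succ_self M)
    have ih' := ih fun i hi => hc i (Nat.lt_succ_of_lt hi)
    change h.pr f M * h.alf (f M) (f (M + 1)) * h.alf (f (M + 1)) (g (M + 1)) =
      h.alf (f 0) (g 0) * (h.pr g M * h.alf (g M) (g (M + 1)))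
    rw [mul_assoc, hm (f M) (f (M + 1)) (g (M + 1)) v h1 h2 h4,
      ← hm (f M) (g M) (g (M + 1)) v h1 h3 h4, ← mul_assoc, ih', mul_assoc]

theorem tGrd (h1 : S_Alf) : S_Grd := by
  intro G V _ _ Y h hb M N H hc
  obtain ⟨-, hm, -, -⟩ := h1 G V Y h hb
  induction N with
  | zero =>
    change h.pr (fun i => H i 0) M * 1 = 1 * h.pr (fun i => H i 0) M
    rw [one_mul, mul_one]
  | succ N ih =>
    have ih' := ih fun i j hi hj => hc i j hi (Nat.lt_succ_of_lt hj)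
    have h2 := Grd_row h hm (fun i => H i N) (fun i => H i (N + 1)) M fun i hi => by
      obtain ⟨v, e1, e2, e3, e4⟩ := hc i N hi (Nat.lt_succ_self N)
      exact ⟨v, e1, e2, e3, e4⟩
    change h.pr (fun i => H i 0) M * (h.pr (fun j => H M j) N * h.alf (H M N) (H M (N + 1))) =
      h.pr (fun j => H 0 j) N * h.alf (H 0 N) (H 0 (N + 1)) * h.pr (fun i => H i (N + 1)) M
    rw [← mul_assoc, ih', mul_assoc, h2, mul_assoc]

end Pool.Agent.Sw
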