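import Pool.Agent.Lib.MP_8f66f0_al_Sw.GeoSpec

/-! Theorem L1, module Ind (helper59). -/

set_option autoImplicit false

namespace Pool.Agent.Sw

open Pool.Agent.Cx2 Pool.Agent.LinAll

variable {G V : Type} [Group G] [MulAction G V] {Y : Dat G V}

/-- The homomorphism with the values `θ` on the edges. -/
private noncomputable def Ind_L (h : Ch Y) (θ : Y.Pos → Y.Pos → Multiplicative ℤ) :
    h.X.FG →* Multiplicative ℤ := FreeGroup.lift (fun e : h.X.E => θ e.1.1 e.1.2)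

private theorem Ind_lift (h : Ch Y) (θ : Y.Pos → Y.Pos → Multiplicative ℤ)
    (hθ : ∀ p q, θ q p = (θ p q)⁻¹) (p q : Y.Pos) (hpq : h.wAdj p q) :
    Ind_L h θ (h.e p q) = θ p q := by
  rcases h.X.ori_or p q hpq with h1 | h1
  · rw [show h.e p q = FreeGroup.of ⟨(p, q), h1⟩ from h.X.ε_ori h1]
    exact FreeGroup.lift_apply_of
  · rw [show h.e p q = (FreeGroup.of ⟨(q, p), h1⟩)⁻¹ from h.X.ε_ori' h1, map_inv, hθ q p]
    exact congrArg _ FreeGroup.lift_apply_of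

open Classical in
/-- The values of `ω`. -/
private noncomputable def Ind_θ (h : Ch Y) (s : Y.T) (p q : Y.Pos) : Multiplicative ℤ :=
  if p = .inl (h.a s) ∧ q = .inl (h.b s) then Multiplicative.ofAdd 1
  else if p = .inl (h.b s) ∧ q = .inl (h.a s) then (Multiplicative.ofAdd 1)⁻¹ else 1

private theorem Ind_θ_inv (h : Ch Y) (s : Y.T) (p q : Y.Pos) :
    Ind_θ h s q p = (Ind_θ h s p q)⁻¹ := by
  have hab : (Sum.inl (h.a s) : Y.Pos) ≠ Sum.inl (h.b s) := fun e => h.ab s (Sum.inl.inj e)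
  unfold Ind_θ
  by_cases h1 : p = .inl (h.a s) ∧ q = .inl (h.b s)
  · rw [if_pos h1, if_neg fun h2 => hab (h2.1.symm.trans h1.2), if_pos ⟨h1.2, h1.1⟩]
  · rw [if_neg h1]
    by_cases h2 : p = .inl (h.b s) ∧ q = .inl (h.a s)
    · rw [if_pos h2, if_pos ⟨h2.2, h2.1⟩, inv_inv]
    · rw [if_neg h2, if_neg fun h3 => h2 ⟨h3.2, h3.1⟩, if_neg fun h3 => h1 ⟨h3.2, h3.1⟩, inv_one]

private theorem Ind_θ_ab (h : Ch Y) (s : Y.T) :
    Ind_θ h s (.inl (h.a s)) (.inl (h.b s)) = Multiplicative.ofAdd 1 := if_pos ⟨rfl, rfl⟩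

private theorem Ind_θ_bc (h : Ch Y) (s : Y.T) :
    Ind_θ h s (.inl (h.b s)) (.inl (h.c s)) = 1 := by
  unfold Ind_θ
  rw [if_neg fun h1 => h.ab s (Sum.inl.inj h1.1).symm,
    if_neg fun h1 => h.ca s (Sum.inl.inj h1.2)]

private theorem Ind_θ_ca (h : Ch Y) (s : Y.T) :
    Ind_θ h s (.inl (h.c s)) (.inl (h.a s)) = 1 := by
  unfold Ind_θ
  rw [if_neg fun h1 => h.ab s (Sum.inl.inj h1.2),
    if_neg fun h1 => h.bc s (Sum.inl.inj h1.1).symm]

open Classical in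
/-- The values of `W s`. -/
private noncomputable def Ind_w (h : Ch Y) (D : Gd Y) (s : Y.T) (N : ℕ) :
    Y.Pos → Y.Pos → Multiplicative ℤ
  | .inl u, .inl v => if Y.Adj u v then Ind_L h (Ind_θ h s) (h.pr (pth D s N u v) N) else 1
  | .inl _, .inr _ => 1
  | .inr _, .inl _ => 1
  | .inr _, .inr _ => 1

private theorem Ind_pth (D : Gd Y) (s : Y.T) (N : ℕ) (hN : 0 < N) (u v : V) (huv : Y.Adj u v)
    (i : ℕ) (hi : i ≤ N) : pth D s N v u i = pth D s N u v (N - i) := by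
  classical
  have hN' : (0 : ℝ) < N := by exact_mod_cast hN
  have hi' : (i : ℝ) ≤ N := by exact_mod_cast hi
  have h0 : (0 : ℝ) ≤ i / N := by positivity
  have h1 : (i : ℝ) / N ≤ 1 := (div_le_one hN').2 hi'
  have h2 : ((N - i : ℕ) : ℝ) / N = 1 - i / N := by
    rw [Nat.cast_sub hi]
    field_simp
  unfold pth
  rw [h2]
  refine congrArg (fun x => D.c (Y.bc s) x Y.ρ) (Y.ext fun w => ?_)
  have h3 : ∀ x, x ∉ ({u, v} : Finset V) → (Y.vp u).1 x = 0 ∧ (Y.vp v).1 x = 0 := by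
    intro x hx
    rw [Finset.mem_insert, Finset.mem_singleton, not_or] at hx
    rw [Y.vp_apply, Y.vp_apply, if_neg hx.1, if_neg hx.2]
    exact ⟨rfl, rfl⟩
  rw [Y.ln_apply huv.2 (fun x hx => ⟨(h3 x hx).2, (h3 x hx).1⟩) h0 h1,
    Y.ln_apply huv.2 h3 (by linarith) (by linarith)]
  ring

private theorem Ind_w_inv (h1 : S_Alf) (h2 : S_Rev) (h : Ch Y) (hB : Bas h) (D : Gd Y) (s : Y.T)
    (N : ℕ) (hN : 0 < N) (p q : Y.Pos) : Ind_w h D s N q p = (Ind_w h D s N p q)⁻¹ := by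
  classical
  have _ := h1
  cases p with
  | inl u =>
    cases q with
    | inl v =>
      change (if Y.Adj v u then Ind_L h (Ind_θ h s) (h.pr (pth D s N v u) N) else 1) =
        (if Y.Adj u v then Ind_L h (Ind_θ h s) (h.pr (pth D s N u v) N) else 1)⁻¹
      by_cases huv : Y.Adj u v
      · rw [if_pos huv, if_pos (Dat.adj_symm huv), ← map_inv]
        exact congrArg _ (h2 G V Y h hB _ _ N fun i hi => Ind_pth D s N hN u v huv i hi)
      · rw [if_neg huv, if_neg fun h3 => huv (Dat.adj_symm h3), inv_one]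
    | inr _ => exact inv_one.symm
  | inr _ =>
    cases q with
    | inl _ => exact inv_one.symm
    | inr _ => exact inv_one.symm

theorem tInd (h1 : S_Alf) (h2 : S_Rev) (h3 : S_Trg) (h4 : S_Rad) (h5 : S_Lin) : S_Ind := by
  intro G V _ _ Y h hB D k _
  classical
  obtain ⟨N, hN⟩ := exists_nat_gt (36 * Y.A ^ 5 / Y.ρ)
  have hρ := Y.ρ_pos
  have hA := Y.A_pos
  have hN1 : 36 * Y.A ^ 5 < Y.ρ * N := by
    rw [div_lt_iff₀ hρ] at hN
    linarith
  have hN0 : 0 < N := by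
    have h6 : (0 : ℝ) < N := lt_of_le_of_lt (by positivity) hN
    exact_mod_cast h6
  have hinv := Ind_w_inv h1 h2 h hB D
  have hW : ∀ (s : Y.T) (p q : Y.Pos), h.wAdj p q →
      Ind_L h (Ind_w h D s N) (h.e p q) = Ind_w h D s N p q := fun s p q hpq =>
    Ind_lift h _ (fun p q => hinv s N hN0 p q) p q hpq
  have hw : ∀ (s : Y.T) (u v : V), Y.Adj u v → Ind_w h D s N (.inl u) (.inl v) =
      Ind_L h (Ind_θ h s) (h.pr (pth D s N u v) N) := fun s u v huv => if_pos huv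
  have hr : ∀ s s' : Y.T, Ind_L h (Ind_w h D s N) (h.X.r s') =
      Ind_w h D s N (.inl (h.a s')) (.inl (h.b s')) *
      Ind_w h D s N (.inl (h.b s')) (.inl (h.c s')) *
      Ind_w h D s N (.inl (h.c s')) (.inl (h.a s')) := by
    intro s s'
    rw [show h.X.r s' = _ from h.r_eq s', map_mul, map_mul, map_mul, map_mul,
      hW s _ _ (show h.wAdj (.inr s') (.inl (h.a s')) from rfl),
      hW s _ _ (show h.wAdj (.inl (h.a s')) (.inl (h.b s')) from
        Dat.adj_of_mem s'.2.1 (h.mem_a s') (h.mem_b s') (h.ab s')),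
      hW s _ _ (show h.wAdj (.inl (h.b s')) (.inl (h.c s')) from
        Dat.adj_of_mem s'.2.1 (h.mem_b s') (h.mem_c s') (h.bc s')),
      hW s _ _ (show h.wAdj (.inl (h.c s')) (.inl (h.a s')) from
        Dat.adj_of_mem s'.2.1 (h.mem_c s') (h.mem_a s') (h.ca s')),
      hW s _ _ (show h.wAdj (.inl (h.a s')) (.inr s') from rfl)]
    change 1 * (_ * (_ * (_ * 1))) = _
    rw [one_mul, mul_one, mul_assoc]
  refine h5 h.X.E Y.T h.X.r (fun s => Ind_L h (Ind_w h D s N)) (fun s => ?_)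
    (fun s s' hs => ?_) k
  · obtain ⟨R, hR⟩ := h4 G V Y h hB D s N hN1
    have hab := Dat.adj_of_mem s.2.1 (h.mem_a s) (h.mem_b s) (h.ab s)
    have hbc := Dat.adj_of_mem s.2.1 (h.mem_b s) (h.mem_c s) (h.bc s)
    have hca := Dat.adj_of_mem s.2.1 (h.mem_c s) (h.mem_a s) (h.ca s)
    change Ind_L h (Ind_w h D s N) (h.X.r s) = _
    rw [hr s s, hw s _ _ hab, hw s _ _ hbc, hw s _ _ hca,
      hR _ (h.mem_a s) _ (h.mem_b s) (h.ab s), hR _ (h.mem_b s) _ (h.mem_c s) (h.bc s),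
      hR _ (h.mem_c s) _ (h.mem_a s) (h.ca s)]
    simp only [map_mul, map_inv]
    rw [Ind_lift h _ (Ind_θ_inv h s) (.inl (h.a s)) (.inl (h.b s)) hab,
      Ind_lift h _ (Ind_θ_inv h s) (.inl (h.b s)) (.inl (h.c s)) hbc,
      Ind_lift h _ (Ind_θ_inv h s) (.inl (h.c s)) (.inl (h.a s)) hca,
      Ind_θ_ab, Ind_θ_bc, Ind_θ_ca]
    generalize Ind_L h (Ind_θ h s) (R (h.a s)) = x
    generalize Ind_L h (Ind_θ h s) (R (h.b s)) = y
    generalize Ind_L h (Ind_θ h s) (R (h.c s)) = z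
    generalize (Multiplicative.ofAdd (1 : ℤ)) = m
    rw [mul_one, mul_one]
    have e1 : x⁻¹ * m * y * (y⁻¹ * z) * (z⁻¹ * x) = x⁻¹ * m * x := by group
    rw [e1, mul_comm x⁻¹ m, inv_mul_cancel_right]
  · change Ind_L h (Ind_w h D s N) (h.X.r s') = 1
    have hab := Dat.adj_of_mem s'.2.1 (h.mem_a s') (h.mem_b s') (h.ab s')
    have hbc := Dat.adj_of_mem s'.2.1 (h.mem_b s') (h.mem_c s') (h.bc s')
    have hca := Dat.adj_of_mem s'.2.1 (h.mem_c s') (h.mem_a s') (h.ca s')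
    have h6 := h3 G V Y h hB D s N hN1 s'.1 s'.2.1 (fun e => hs (Subtype.ext e)) _ (h.mem_a s')
      _ (h.mem_b s') _ (h.mem_c s')
    rw [hr s s', hinv s N hN0 (.inl (h.a s')) (.inl (h.c s')), hw s _ _ hab, hw s _ _ hbc,
      hw s _ _ (Dat.adj_symm hca), ← map_mul, h6, mul_inv_cancel]

end Pool.Agent.Sw
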