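import Pool.Agent.Lib.MP_8f66f0_al_Sw.GeoSpec

set_option autoImplicit false

namespace Pool.Agent.Sw

open Pool.Agent.Cx2 Pool.Agent.LinAll

/-- The linear functional of a homomorphism `FreeGroup E →* Multiplicative ℤ`. -/
private noncomputable def Lin_L (k : Type) [CommRing k] {E : Type}
    (W : FreeGroup E →* Multiplicative ℤ) : (E →₀ k) →ₗ[k] k :=
  Finsupp.lift k k E fun e => ((Multiplicative.toAdd (W (FreeGroup.of e)) : ℤ) : k)

private theorem Lin_single (k : Type) [CommRing k] {E : Type}
    (W : FreeGroup E →* Multiplicative ℤ) (e : E) :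
    Lin_L k W (Finsupp.single e 1) = ((Multiplicative.toAdd (W (FreeGroup.of e)) : ℤ) : k) := by
  rw [Lin_L, Finsupp.lift_apply, Finsupp.sum_single_index, one_smul]
  exact zero_smul k _

/-- The value of the functional at the chain of a word. -/
private theorem Lin_chain (k : Type) [CommRing k] {E : Type}
    (W : FreeGroup E →* Multiplicative ℤ) (x : FreeGroup E) :
    Lin_L k W (chain k x) = ((Multiplicative.toAdd (W x) : ℤ) : k) := by
  induction x using FreeGroup.induction_on with
  | C1 =>
    rw [chain, (FreeGroup.lift _).map_one, W.map_one, toAdd_one, toAdd_one, map_zero,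
      Int.cast_zero]
  | of e => rw [chain, FreeGroup.lift_apply_of, toAdd_ofAdd, Lin_single]
  | inv_of e h =>
    rw [chain, map_inv, toAdd_inv, map_neg, map_inv, toAdd_inv, Int.cast_neg, ← h, chain]
  | mul x y hx hy =>
    rw [chain, map_mul, toAdd_mul, map_add, map_mul, toAdd_mul, Int.cast_add, ← hx, ← hy, chain,
      chain]

theorem tLin : S_Lin := by
  intro E C r W h1 h2 k _
  rw [linearIndependent_iff']
  intro s g hg c hc
  have h := congrArg (Lin_L k (W c)) hg
  rw [map_sum, map_zero, Finset.sum_eq_single c] at h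
  · rw [map_smul, Lin_chain, h1, toAdd_ofAdd, Int.cast_one, smul_eq_mul, mul_one] at h
    exact h
  · intro c' _ hne
    rw [map_smul, Lin_chain, h2 c c' hne, toAdd_one, Int.cast_zero, smul_zero]
  · exact fun h => absurd hc h

end Pool.Agent.Sw
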