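import Pool.Agent.Lib.MP_8f66f0_al_Sw.GeoSpec

/-! Theorem L1, geometric half, module Mer (helper87): powers of the boundary elements. -/

set_option autoImplicit false

namespace Pool.Agent.Sw

open Pool.Agent.Cx2 Pool.Agent.LinAll

section

variable {G V C : Type} [Group G] [MulAction G V] [MulAction G C] {X : Cx G V C} {γ : Gam X}
  {R : Type} [Ring R] {j : X.FG →* R} {B : V → V → AddSubgroup R}

private theorem Mer_one (hB : Bdg γ j B) (u : V) : (1 : R) ∈ B u u := by
  have h := hB.gam u u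
  rwa [γ.one, map_one] at h

private theorem Mer_r (hB : Bdg γ j B) (c : C) {o : V} {a : R} (ha : a ∈ B o (X.bv c)) :
    a * j (X.r c) ∈ B o (X.bv c) := by
  have h := (B o (X.bv c)).add_mem (hB.cell o c (X.bv c) a 1 ha (Mer_one hB _)) ha
  have e : a * (j (X.r c) - 1) * 1 + a = a * j (X.r c) := by noncomm_ring
  rwa [e] at h

private theorem Mer_r' (hB : Bdg γ j B) (c : C) {o : V} {a : R} (ha : a ∈ B o (X.bv c)) :
    a * j (X.r c)⁻¹ ∈ B o (X.bv c) := by
  have h := (B o (X.bv c)).add_mem (hB.cell' o c (X.bv c) a 1 ha (Mer_one hB _)) ha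
  have e : a * (j (X.r c)⁻¹ - 1) * 1 + a = a * j (X.r c)⁻¹ := by noncomm_ring
  rwa [e] at h

private theorem Mer_l (hB : Bdg γ j B) (c : C) {v : V} {b : R} (hb : b ∈ B (X.bv c) v) :
    j (X.r c) * b ∈ B (X.bv c) v := by
  have h := (B (X.bv c) v).add_mem (hB.cell (X.bv c) c v 1 b (Mer_one hB _) hb) hb
  have e : 1 * (j (X.r c) - 1) * b + b = j (X.r c) * b := by noncomm_ring
  rwa [e] at h

private theorem Mer_l' (hB : Bdg γ j B) (c : C) {v : V} {b : R} (hb : b ∈ B (X.bv c) v) :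
    j (X.r c)⁻¹ * b ∈ B (X.bv c) v := by
  have h := (B (X.bv c) v).add_mem (hB.cell' (X.bv c) c v 1 b (Mer_one hB _) hb) hb
  have e : 1 * (j (X.r c)⁻¹ - 1) * b + b = j (X.r c)⁻¹ * b := by noncomm_ring
  rwa [e] at h

private theorem Mer_rz (hB : Bdg γ j B) (c : C) {o : V} (m : ℤ) : ∀ a ∈ B o (X.bv c),
    a * j (X.r c ^ m) ∈ B o (X.bv c) := by
  induction m using Int.induction_on with
  | zero =>
    intro a ha
    rwa [zpow_zero, map_one, mul_one]
  | succ i ih =>
    intro a ha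
    rw [zpow_add_one, map_mul, ← mul_assoc]
    exact Mer_r hB c (ih a ha)
  | pred i ih =>
    intro a ha
    rw [zpow_sub_one, map_mul, ← mul_assoc]
    exact Mer_r' hB c (ih a ha)

private theorem Mer_lz (hB : Bdg γ j B) (c : C) {v : V} (m : ℤ) : ∀ b ∈ B (X.bv c) v,
    j (X.r c ^ m) * b ∈ B (X.bv c) v := by
  induction m using Int.induction_on with
  | zero =>
    intro b hb
    rwa [zpow_zero, map_one, one_mul]
  | succ i ih =>
    intro b hb
    rw [zpow_add_one, map_mul, mul_assoc]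
    exact ih _ (Mer_l hB c hb)
  | pred i ih =>
    intro b hb
    rw [zpow_sub_one, map_mul, mul_assoc]
    exact ih _ (Mer_l' hB c hb)

private theorem Mer_z (hB : Bdg γ j B) (c : C) {o v : V} {a b : R} (ha : a ∈ B o (X.bv c))
    (hb : b ∈ B (X.bv c) v) (m : ℤ) : a * (j (X.r c ^ m) - 1) * b ∈ B o v := by
  induction m using Int.induction_on with
  | zero =>
    rw [zpow_zero, map_one, sub_self, mul_zero, zero_mul]
    exact (B o v).zero_mem
  | succ i ih =>
    have h := (B o v).add_mem (hB.cell o c v _ b (Mer_rz hB c i a ha) hb) ih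
    rw [zpow_add_one, map_mul]
    have e : a * j (X.r c ^ (i : ℤ)) * (j (X.r c) - 1) * b + a * (j (X.r c ^ (i : ℤ)) - 1) * b =
      a * (j (X.r c ^ (i : ℤ)) * j (X.r c) - 1) * b := by noncomm_ring
    rwa [e] at h
  | pred i ih =>
    have h := (B o v).add_mem (hB.cell' o c v _ b (Mer_rz hB c (-i) a ha) hb) ih
    rw [zpow_sub_one, map_mul]
    have e : a * j (X.r c ^ (-(i : ℤ))) * (j (X.r c)⁻¹ - 1) * b +
      a * (j (X.r c ^ (-(i : ℤ))) - 1) * b =
      a * (j (X.r c ^ (-(i : ℤ))) * j (X.r c)⁻¹ - 1) * b := by noncomm_ring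
    rwa [e] at h

end

theorem tMer : S_Mer := by
  intro G V _ _ Y h γ R _ j B hB s m o v
  exact ⟨Mer_rz hB s m, Mer_lz hB s m, fun a ha b hb => Mer_z hB s ha hb m⟩

end Pool.Agent.Sw
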