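import Pool.Agent.Lib.MP_8f66f0_al_Sw.GeoSpec

/-! Module `Nea` (helper46): points which are not too close to the barycentre. -/

set_option autoImplicit false

namespace Pool.Agent.Sw

open Pool.Agent.Cx2 Pool.Agent.LinAll

theorem tNea : S_Nea := by
  intro G V _ _ Y h hB D s
  have hA := Y.one_le
  have hρ := Y.ρ_pos
  have hA2 : 1 ≤ Y.A ^ 2 := one_le_pow₀ hA
  have hA2p : 0 < 3 * Y.A ^ 2 := by linarith
  have key : ∀ z : Y.P, Y.d z (Y.bc s) ≤ Y.ρ → Y.ρ ≤ 3 * Y.A ^ 2 * Y.d z (Y.bc s) →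
      ∃ v, ∀ y, 18 * Y.A ^ 4 * Y.d z y < Y.ρ → 1 / 3 < y.1 v := by
    intro z hz1 hz2
    have hr : 3 * Y.A ^ 2 * (Y.ρ / (3 * Y.A ^ 2)) = Y.ρ := mul_div_cancel₀ _ hA2p.ne'
    set r : ℝ := Y.ρ / (3 * Y.A ^ 2) with hrd
    have hr0 : 0 < r := div_pos hρ hA2p
    have hr1 : r ≤ Y.ρ := by
      rw [hrd, div_le_iff₀ hA2p]
      nlinarith
    rcases hB.dic r hr0 hr1 z with ⟨v, hv⟩ | ⟨s', hs'⟩
    · refine ⟨v, fun y hy => hv y ?_⟩
      have h1 : 3 * Y.A ^ 2 * (6 * Y.A ^ 2 * Y.d z y) < 3 * Y.A ^ 2 * r := by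
        rw [hr]
        calc 3 * Y.A ^ 2 * (6 * Y.A ^ 2 * Y.d z y) = 18 * Y.A ^ 4 * Y.d z y := by ring
          _ < Y.ρ := hy
      exact lt_of_mul_lt_mul_left h1 hA2p.le
    · exfalso
      by_cases hss : s' = s
      · subst hss
        have h1 : 3 * Y.A ^ 2 * Y.d z (Y.bc s') ≤ 3 * Y.A ^ 2 * (r / 2) :=
          mul_le_mul_of_nonneg_left hs' hA2p.le
        have h2 : 3 * Y.A ^ 2 * (r / 2) = Y.ρ / 2 := by
          rw [← mul_div_assoc, hr]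
        linarith
      · have h1 := hB.sep (.inr s) (.inr s') (fun e => hss (Sum.inr.inj e).symm)
        have h2 : Y.d (Y.bc s) (Y.bc s') ≤ Y.d (Y.bc s) z + Y.d z (Y.bc s') :=
          Y.cat.tri _ _ _
        rw [Y.cat.symm (Y.bc s) z] at h2
        change 8 * Y.ρ ≤ Y.d (Y.bc s) (Y.bc s') at h1
        linarith
  refine ⟨key, fun x hx => ?_⟩
  have hd : Y.d (D.c (Y.bc s) x Y.ρ) (Y.bc s) = min Y.ρ (Y.d x (Y.bc s)) := by
    have h1 := D.dist (Y.bc s) x 0 Y.ρ le_rfl hρ.le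
    rw [D.zero, min_eq_left (Y.d_nonneg _ _), sub_zero] at h1
    rw [Y.cat.symm, h1, Y.cat.symm (Y.bc s) x]
  obtain ⟨v, hv⟩ := key (D.c (Y.bc s) x Y.ρ) (by rw [hd]; exact min_le_left _ _) (by
    rw [hd]
    rcases min_choice Y.ρ (Y.d x (Y.bc s)) with h1 | h1
    · rw [h1]
      nlinarith
    · rw [h1]
      exact hx)
  refine ⟨v, fun y hy => hv _ (lt_of_le_of_lt ?_ hy)⟩
  refine mul_le_mul_of_nonneg_left (D.lip _ _ _ _ hρ.le) ?_
  positivity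

end Pool.Agent.Sw
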