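import Pool.Agent.Lib.MP_8f66f0_al_Sw.GeoSpec

/-! Module `Rad` of the geometric half of Theorem L1: the edges of the triangle `s` itself. -/

set_option autoImplicit false

namespace Pool.Agent.Sw

open Pool.Agent.Cx2 Pool.Agent.LinAll

section RadAux

variable {G V : Type} [Group G] [MulAction G V] {Y : Dat G V}

private theorem Rad_pr_congr (h : Ch Y) (y y' : ℕ → Y.P) :
    ∀ n : ℕ, (∀ i, i ≤ n → y i = y' i) → h.pr y n = h.pr y' n := by
  intro n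
  induction n with
  | zero => exact fun _ => rfl
  | succ n ih =>
    intro hy
    change h.pr y n * h.alf (y n) (y (n + 1)) = h.pr y' n * h.alf (y' n) (y' (n + 1))
    rw [ih fun i hi => hy i (Nat.le_succ_of_le hi), hy n (Nat.le_succ n), hy (n + 1) (le_refl _)]

private theorem Rad_vp_zero {s : Y.T} {u : V} (hu : u ∈ s.1) {w : V} (hw : w ∉ s.1) :
    (Y.vp u).1 w = 0 := by
  classical
  rw [Y.vp_apply]
  exact if_neg fun e : w = u => hw (by rw [e]; exact hu)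

private theorem Rad_bc_zero {s : Y.T} {w : V} (hw : w ∉ s.1) : (Y.bc s).1 w = 0 := by
  classical
  rw [Y.bc_apply]
  exact if_neg hw

private theorem Rad_bc_mem {s : Y.T} {w : V} (hw : w ∈ s.1) : (Y.bc s).1 w = 1 / 3 := by
  classical
  rw [Y.bc_apply]
  exact if_pos hw

private theorem Rad_vp_self (u : V) : (Y.vp u).1 u = 1 := by
  classical
  rw [Y.vp_apply]
  exact if_pos rfl

private theorem Rad_vp_ne {u w : V} (hw : w ≠ u) : (Y.vp u).1 w = 0 := by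
  classical
  rw [Y.vp_apply]
  exact if_neg hw

private theorem Rad_in (s : Y.T) {u v : V} (hu : u ∈ s.1) (hv : v ∈ s.1) {a : ℝ} (ha : 0 ≤ a)
    (ha1 : a ≤ 1) (w : V) :
    (Y.ln (Y.vp u) (Y.vp v) a).1 w = (1 - a) * (Y.vp u).1 w + a * (Y.vp v).1 w :=
  Y.ln_apply s.2.1 (fun _ hw => ⟨Rad_vp_zero hu hw, Rad_vp_zero hv hw⟩) ha ha1 w

private theorem Rad_in_zero (s : Y.T) {u v : V} (hu : u ∈ s.1) (hv : v ∈ s.1) {a : ℝ} (ha : 0 ≤ a)
    (ha1 : a ≤ 1) {w : V} (hw : w ∉ s.1) : (Y.ln (Y.vp u) (Y.vp v) a).1 w = 0 := by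
  rw [Rad_in s hu hv ha ha1, Rad_vp_zero hu hw, Rad_vp_zero hv hw]
  ring

private theorem Rad_co (s : Y.T) {u v : V} (hu : u ∈ s.1) (hv : v ∈ s.1) {a t : ℝ} (ha : 0 ≤ a)
    (ha1 : a ≤ 1) (ht : 0 ≤ t) (ht1 : t ≤ 1) (w : V) :
    (Y.ln (Y.bc s) (Y.ln (Y.vp u) (Y.vp v) a) t).1 w =
      (1 - t) * (Y.bc s).1 w + t * ((1 - a) * (Y.vp u).1 w + a * (Y.vp v).1 w) := by
  rw [Y.ln_apply s.2.1 (fun _ hw => ⟨Rad_bc_zero hw, Rad_in_zero s hu hv ha ha1 hw⟩) ht ht1 w,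
    Rad_in s hu hv ha ha1]

private theorem Rad_co_zero (s : Y.T) {u v : V} (hu : u ∈ s.1) (hv : v ∈ s.1) {a t : ℝ}
    (ha : 0 ≤ a) (ha1 : a ≤ 1) (ht : 0 ≤ t) (ht1 : t ≤ 1) (w : V) (hw : w ∉ s.1) :
    (Y.ln (Y.bc s) (Y.ln (Y.vp u) (Y.vp v) a) t).1 w = 0 := by
  rw [Rad_co s hu hv ha ha1 ht ht1, Rad_bc_zero hw, Rad_vp_zero hu hw, Rad_vp_zero hv hw]
  ring

private theorem Rad_diff {b p q a a' t t' ε : ℝ} (hb : 0 ≤ b) (hb1 : b ≤ 1) (hp : 0 ≤ p)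
    (hp1 : p ≤ 1) (hq : 0 ≤ q) (hq1 : q ≤ 1) (ha' : 0 ≤ a') (ha1' : a' ≤ 1) (ht : 0 ≤ t)
    (ht1 : t ≤ 1) (h1 : |a' - a| ≤ ε) (h2 : |t' - t| ≤ ε) :
    |((1 - t') * b + t' * ((1 - a') * p + a' * q)) - ((1 - t) * b + t * ((1 - a) * p + a * q))| ≤
      2 * ε := by
  have e : ((1 - t') * b + t' * ((1 - a') * p + a' * q)) -
      ((1 - t) * b + t * ((1 - a) * p + a * q)) =
      (t' - t) * ((1 - a') * p + a' * q - b) + (a' - a) * (t * (q - p)) := by ring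
  rw [e]
  have h3 : |(1 - a') * p + a' * q - b| ≤ 1 := by
    have h5 : 0 ≤ (1 - a') * p := mul_nonneg (by linarith) hp
    have h6 : 0 ≤ a' * q := mul_nonneg ha' hq
    have h7 : (1 - a') * p ≤ (1 - a') * 1 := mul_le_mul_of_nonneg_left hp1 (by linarith)
    have h8 : a' * q ≤ a' * 1 := mul_le_mul_of_nonneg_left hq1 ha'
    rw [abs_le]
    constructor <;> linarith
  have h4 : |t * (q - p)| ≤ 1 := by
    rw [abs_mul, abs_of_nonneg ht]
    have h5 : |q - p| ≤ 1 := by rw [abs_le]; constructor <;> linarith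
    have h6 : 0 ≤ |q - p| := abs_nonneg _
    nlinarith
  have hε : 0 ≤ ε := le_trans (abs_nonneg _) h1
  calc |(t' - t) * ((1 - a') * p + a' * q - b) + (a' - a) * (t * (q - p))|
      ≤ |(t' - t) * ((1 - a') * p + a' * q - b)| + |(a' - a) * (t * (q - p))| := abs_add_le _ _
    _ = |t' - t| * |(1 - a') * p + a' * q - b| + |a' - a| * |t * (q - p)| := by
        rw [abs_mul, abs_mul]
    _ ≤ ε * 1 + ε * 1 := by
        refine add_le_add (mul_le_mul h2 h3 (abs_nonneg _) hε) (mul_le_mul h1 h4 (abs_nonneg _) hε)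
    _ = 2 * ε := by ring

/-- distances in the grid -/
private theorem Rad_dist (s : Y.T) {u v : V} (hu : u ∈ s.1) (hv : v ∈ s.1) {a a' t t' ε : ℝ}
    (ha : 0 ≤ a) (ha1 : a ≤ 1) (ht : 0 ≤ t) (ht1 : t ≤ 1) (ha' : 0 ≤ a') (ha1' : a' ≤ 1)
    (ht' : 0 ≤ t') (ht1' : t' ≤ 1) (h1 : |a - a'| ≤ ε) (h2 : |t - t'| ≤ ε) :
    Y.d (Y.ln (Y.bc s) (Y.ln (Y.vp u) (Y.vp v) a) t)
      (Y.ln (Y.bc s) (Y.ln (Y.vp u) (Y.vp v) a') t') ≤ Y.A * (2 * ε) := by
  refine Y.tame.bound s.1 s.2.1 _ _ _ (Rad_co_zero s hu hv ha ha1 ht ht1)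
    (Rad_co_zero s hu hv ha' ha1' ht' ht1') (fun w => ?_)
  rw [Rad_co s hu hv ha ha1 ht ht1, Rad_co s hu hv ha' ha1' ht' ht1']
  exact Rad_diff (Y.nonneg _ _) (Y.le_one _ _) (Y.nonneg _ _) (Y.le_one _ _) (Y.nonneg _ _)
    (Y.le_one _ _) ha ha1 ht' ht1' h1 h2

private theorem Rad_third (s : Y.T) {u v : V} (hu : u ∈ s.1) (hv : v ∈ s.1) (huv : u ≠ v) :
    ∃ w ∈ s.1, w ≠ u ∧ w ≠ v := by
  classical
  have h1 : ((s.1.erase u).erase v).card = 1 := by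
    rw [Finset.card_erase_of_mem (Finset.mem_erase.2 ⟨huv.symm, hv⟩),
      Finset.card_erase_of_mem hu, s.2.2]
  obtain ⟨w, hw⟩ := Finset.card_pos.1 (by rw [h1]; exact one_pos)
  rw [Finset.mem_erase, Finset.mem_erase] at hw
  exact ⟨w, hw.2.2, hw.2.1, hw.1⟩

/-- the distance from the barycentre -/
private theorem Rad_low (s : Y.T) {u v : V} (hu : u ∈ s.1) (hv : v ∈ s.1) (huv : u ≠ v) {a t : ℝ}
    (ha : 0 ≤ a) (ha1 : a ≤ 1) (ht : Y.ρ / Y.A ≤ t) (ht1 : t ≤ 1) :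
    Y.ρ ≤ 3 * Y.A ^ 2 * Y.d (Y.ln (Y.bc s) (Y.ln (Y.vp u) (Y.vp v) a) t) (Y.bc s) := by
  obtain ⟨w, hw, hwu, hwv⟩ := Rad_third s hu hv huv
  have hA := Y.A_pos
  have ht0 : 0 ≤ t := le_trans (div_nonneg Y.ρ_pos.le hA.le) ht
  have h1 := Y.tame.lip (Y.ln (Y.bc s) (Y.ln (Y.vp u) (Y.vp v) a) t) (Y.bc s) w
  rw [Rad_co s hu hv ha ha1 ht0 ht1, Rad_bc_mem hw, Rad_vp_ne hwu, Rad_vp_ne hwv] at h1
  have h2 : (1 - t) * (1 / 3) + t * ((1 - a) * 0 + a * 0) - 1 / 3 = -(t / 3) := by ring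
  rw [h2, abs_neg, abs_of_nonneg (by positivity)] at h1
  rw [div_le_iff₀ hA] at ht
  have h3 : Y.A * t ≤ 3 * Y.A ^ 2 * Y.d (Y.ln (Y.bc s) (Y.ln (Y.vp u) (Y.vp v) a) t) (Y.bc s) := by
    have := mul_le_mul_of_nonneg_left h1 (by positivity : 0 ≤ 3 * Y.A)
    nlinarith [this]
  linarith

private theorem Rad_e3 (h : Ch Y) (P Q p q r : Y.Pos) (hp : p = P ∨ p = Q) (hq : q = P ∨ q = Q)
    (hr : r = P ∨ r = Q) : h.e p q * h.e q r = h.e p r := by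
  rcases hp with rfl | rfl <;> rcases hq with rfl | rfl <;> rcases hr with rfl | rfl <;>
    simp only [h.e_self, h.e_mul, one_mul, mul_one]

/-- the path close to the barycentre -/
private theorem Rad_small (h : Ch Y) (hal : ∀ x y v, Dat.Com v x y → h.alf x y = h.al v x y)
    (s : Y.T) {u v : V} (hu : u ∈ s.1) (hv : v ∈ s.1) (huv : u ≠ v) (N : ℕ) (hN : 0 < N) (t : ℝ)
    (ht : 0 < t) (ht1 : t < 1) (x : ℕ → Y.P)
    (hx : ∀ i, x i = Y.ln (Y.bc s) (Y.ln (Y.vp u) (Y.vp v) (i / N)) t)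
    (hc : ∀ i, i < N → ∃ w, 1 / 3 < (x i).1 w ∧ 1 / 3 < (x (i + 1)).1 w) :
    h.pr x N = h.e (.inl u) (.inl v) := by
  classical
  have hN0 : (0 : ℝ) < N := by exact_mod_cast hN
  have hfr : ∀ i : ℕ, i ≤ N → (0 : ℝ) ≤ (i : ℝ) / N ∧ (i : ℝ) / N ≤ 1 := by
    intro i hi
    have hi' : (i : ℝ) ≤ N := by exact_mod_cast hi
    exact ⟨by positivity, (div_le_one hN0).2 hi'⟩
  have hcx : ∀ i, i ≤ N → ∀ w, (x i).1 w = (1 - t) * (Y.bc s).1 w +
      t * ((1 - (i : ℝ) / N) * (Y.vp u).1 w + (i : ℝ) / N * (Y.vp v).1 w) := by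
    intro i hi w
    rw [hx i, Rad_co s hu hv (hfr i hi).1 (hfr i hi).2 ht.le ht1.le]
  have hmaj : ∀ i, i ≤ N → ∀ w, 1 / 3 < (x i).1 w → w = u ∨ w = v := by
    intro i hi w hw
    by_contra hno
    have h1 : w ≠ u := fun e => hno (Or.inl e)
    have h2 : w ≠ v := fun e => hno (Or.inr e)
    rw [hcx i hi w, Rad_vp_ne h1, Rad_vp_ne h2] at hw
    by_cases hs : w ∈ s.1
    · rw [Rad_bc_mem hs] at hw
      have : (1 - t) * (1 / 3) + t * ((1 - (i : ℝ) / N) * 0 + (i : ℝ) / N * 0) = (1 - t) / 3 := by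
        ring
      rw [this] at hw
      linarith
    · rw [Rad_bc_zero hs] at hw
      have : (1 - t) * 0 + t * ((1 - (i : ℝ) / N) * 0 + (i : ℝ) / N * 0) = 0 := by ring
      rw [this] at hw
      linarith
  obtain ⟨w3, hw3, hw3u, hw3v⟩ := Rad_third s hu hv huv
  have hF : ∀ i, i ≤ N → ∃ w, (w = u ∨ w = v) ∧ h.F (x i) = .inl w ∧ 1 / 3 < (x i).1 w := by
    intro i hi
    have hl := h.lab (x i)
    cases hFx : h.F (x i) with
    | inl w =>
      rw [hFx] at hl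
      have hl' : 1 / 3 < (x i).1 w := hl
      exact ⟨w, hmaj i hi w hl', rfl, hl'⟩
    | inr s' =>
      exfalso
      rw [hFx] at hl
      have hl' : x i = Y.bc s' := hl
      have h3 := hcx i hi w3
      rw [Rad_vp_ne hw3u, Rad_vp_ne hw3v, Rad_bc_mem hw3, hl'] at h3
      by_cases h4 : w3 ∈ s'.1
      · rw [Rad_bc_mem h4] at h3
        linarith
      · rw [Rad_bc_zero h4] at h3
        linarith
  have hpr : ∀ i, i ≤ N → h.pr x i = h.e (.inl u) (h.F (x i)) := by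
    intro i
    induction i with
    | zero =>
      intro hi
      change 1 = _
      obtain ⟨w, hw, hFw, hw3⟩ := hF 0 hi
      rw [hFw]
      rcases hw with rfl | rfl
      · rw [h.e_self]
      · exfalso
        rw [hcx 0 hi, Rad_bc_mem hv, Rad_vp_ne huv.symm, Rad_vp_self] at hw3
        have : (1 - t) * (1 / 3) + t * ((1 - ((0 : ℕ) : ℝ) / N) * 0 + ((0 : ℕ) : ℝ) / N * 1) =
            (1 - t) / 3 := by
          rw [Nat.cast_zero, zero_div]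
          ring
        rw [this] at hw3
        linarith
    | succ i ih =>
      intro hi
      have hi' : i ≤ N := Nat.le_of_succ_le hi
      change h.pr x i * h.alf (x i) (x (i + 1)) = _
      rw [ih hi']
      obtain ⟨w, hw1, hw2⟩ := hc i hi
      rw [hal (x i) (x (i + 1)) w ⟨hw1, hw2⟩]
      have hwm := hmaj i hi' w hw1
      obtain ⟨a, ha, hFa, _⟩ := hF i hi'
      obtain ⟨b, hb, hFb, _⟩ := hF (i + 1) hi
      unfold Ch.al
      rw [hFa, hFb]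
      have key : ∀ c : V, (c = u ∨ c = v) →
          ((.inl c : Y.Pos) = .inl u ∨ (.inl c : Y.Pos) = .inl v) := by
        rintro c (rfl | rfl)
        · exact Or.inl rfl
        · exact Or.inr rfl
      rw [Rad_e3 h (.inl u) (.inl v) _ _ _ (key a ha) (key w hwm) (key b hb),
        Rad_e3 h (.inl u) (.inl v) _ _ _ (Or.inl rfl) (key a ha) (key b hb)]
  rw [hpr N (le_refl _)]
  obtain ⟨w, hw, hFw, hw3⟩ := hF N (le_refl _)
  rw [hFw]
  rcases hw with rfl | rfl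
  · exfalso
    rw [hcx N (le_refl _), Rad_bc_mem hu, Rad_vp_self, Rad_vp_ne huv] at hw3
    have : (1 - t) * (1 / 3) + t * ((1 - (N : ℝ) / N) * 1 + (N : ℝ) / N * 0) = (1 - t) / 3 := by
      rw [div_self hN0.ne']
      ring
    rw [this] at hw3
    linarith
  · rfl

end RadAux

theorem tRad (h1 : S_Alf) (h2 : S_Grd) (h3 : S_Nea) : S_Rad := by
  intro G V _ _ Y h B D s N hN
  obtain ⟨hal, _, _, _⟩ := h1 G V Y h B
  have hgrd := h2 G V Y h B N N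
  obtain ⟨_, hn2⟩ := h3 G V Y h B D s
  have hA := Y.A_pos
  have hA1 := Y.one_le
  have hρ := Y.ρ_pos
  have hNpos : 0 < N := by
    rcases Nat.eq_zero_or_pos N with h0 | h0
    · exfalso
      rw [h0, Nat.cast_zero, mul_zero] at hN
      have : 0 < 36 * Y.A ^ 5 := by positivity
      linarith
    · exact h0
  have hN0 : (0 : ℝ) < N := by exact_mod_cast hNpos
  have hρ1 : Y.ρ < 1 := by
    have := Y.ρ_eq
    nlinarith
  set t0 : ℝ := Y.ρ / Y.A with ht0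
  have ht0p : 0 < t0 := div_pos hρ hA
  have ht01 : t0 < 1 := by
    rw [ht0, div_lt_one hA]
    linarith
  set τ : ℕ → ℝ := fun j => t0 + (1 - t0) * ((j : ℝ) / N) with hτ
  have hfr : ∀ i : ℕ, i ≤ N → (0 : ℝ) ≤ (i : ℝ) / N ∧ (i : ℝ) / N ≤ 1 := by
    intro i hi
    have hi' : (i : ℝ) ≤ N := by exact_mod_cast hi
    exact ⟨by positivity, (div_le_one hN0).2 hi'⟩
  have hτ0 : ∀ j, j ≤ N → t0 ≤ τ j ∧ τ j ≤ 1 := by
    intro j hj
    have h4 := hfr j hj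
    have h5 : 0 ≤ 1 - t0 := by linarith
    have h6 := mul_nonneg h5 h4.1
    have h7 := mul_le_mul_of_nonneg_left h4.2 h5
    simp only [hτ]
    constructor <;> linarith
  have hstep : ∀ i : ℕ, |(i : ℝ) / N - ((i + 1 : ℕ) : ℝ) / N| ≤ 1 / N := by
    intro i
    have : (i : ℝ) / N - ((i + 1 : ℕ) : ℝ) / N = -(1 / N) := by
      push_cast
      ring
    rw [this, abs_neg, abs_of_pos (by positivity)]
  have hstepτ : ∀ j : ℕ, |τ j - τ (j + 1)| ≤ 1 / N := by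
    intro j
    have h4 : τ j - τ (j + 1) = (1 - t0) * ((j : ℝ) / N - ((j + 1 : ℕ) : ℝ) / N) := by
      simp only [hτ]
      ring
    rw [h4, abs_mul, abs_of_pos (by linarith : 0 < 1 - t0)]
    have h5 := hstep j
    have h6 : 0 ≤ |(j : ℝ) / N - ((j + 1 : ℕ) : ℝ) / N| := abs_nonneg _
    nlinarith
  have hzero : ∀ z : ℝ, |z - z| ≤ 1 / (N : ℝ) := by
    intro z
    rw [sub_self, abs_zero]
    positivity
  refine ⟨fun u => h.pr (fun j => D.c (Y.bc s) (Y.ln (Y.bc s) (Y.vp u) (τ j)) Y.ρ) N, ?_⟩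
  intro u hu v hv huv
  let xx : ℕ → ℕ → Y.P := fun i j =>
    Y.ln (Y.bc s) (Y.ln (Y.vp u) (Y.vp v) ((i : ℝ) / N)) (τ j)
  let H : ℕ → ℕ → Y.P := fun i j => D.c (Y.bc s) (xx i j) Y.ρ
  have hdist : ∀ i j i' j', i ≤ N → j ≤ N → i' ≤ N → j' ≤ N →
      |(i : ℝ) / N - (i' : ℝ) / N| ≤ 1 / N → |τ j - τ j'| ≤ 1 / N →
      18 * Y.A ^ 4 * Y.d (xx i j) (xx i' j') < Y.ρ := by
    intro i j i' j' hi hj hi' hj' h4 h5
    have h6 := Rad_dist s hu hv (hfr i hi).1 (hfr i hi).2 (le_trans ht0p.le (hτ0 j hj).1)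
      (hτ0 j hj).2 (hfr i' hi').1 (hfr i' hi').2 (le_trans ht0p.le (hτ0 j' hj').1)
      (hτ0 j' hj').2 h4 h5
    have h7 : 18 * Y.A ^ 4 * Y.d (xx i j) (xx i' j') ≤ 18 * Y.A ^ 4 * (Y.A * (2 * (1 / N))) :=
      mul_le_mul_of_nonneg_left h6 (by positivity)
    have h8 : 18 * Y.A ^ 4 * (Y.A * (2 * (1 / N))) = 36 * Y.A ^ 5 / N := by
      field_simp
      ring
    rw [h8] at h7
    have h9 : 36 * Y.A ^ 5 / N < Y.ρ := by
      rw [div_lt_iff₀ hN0]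
      exact hN
    linarith
  have hkey : ∀ i j, i < N → j < N → ∃ w, 1 / 3 < (H i j).1 w ∧
      1 / 3 < (H (i + 1) j).1 w ∧ 1 / 3 < (H i (j + 1)).1 w ∧
      1 / 3 < (H (i + 1) (j + 1)).1 w := by
    intro i j hi hj
    obtain ⟨w, hw⟩ := hn2 (xx i j) (Rad_low s hu hv huv (hfr i hi.le).1 (hfr i hi.le).2
      (hτ0 j hj.le).1 (hτ0 j hj.le).2)
    exact ⟨w, hw _ (hdist i j i j hi.le hj.le hi.le hj.le (hzero _) (hzero _)),
      hw _ (hdist i j (i + 1) j hi.le hj.le hi hj.le (hstep i) (hzero _)),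
      hw _ (hdist i j i (j + 1) hi.le hj.le hi.le hj (hzero _) (hstepτ j)),
      hw _ (hdist i j (i + 1) (j + 1) hi.le hj.le hi hj (hstep i) (hstepτ j))⟩
  have hG := hgrd H hkey
  have hτz : τ 0 = t0 := by
    simp only [hτ, Nat.cast_zero, zero_div, mul_zero, add_zero]
  have hτN : τ N = 1 := by
    simp only [hτ, div_self hN0.ne']
    ring
  -- the four sides
  have e1 : ∀ j, j ≤ N → H N j = D.c (Y.bc s) (Y.ln (Y.bc s) (Y.vp v) (τ j)) Y.ρ := by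
    intro j _
    change D.c (Y.bc s) (Y.ln (Y.bc s) (Y.ln (Y.vp u) (Y.vp v) ((N : ℝ) / N)) (τ j)) Y.ρ = _
    have : Y.ln (Y.vp u) (Y.vp v) ((N : ℝ) / N) = Y.vp v := by
      refine Y.ext fun w => ?_
      rw [Rad_in s hu hv (hfr N (le_refl _)).1 (hfr N (le_refl _)).2, div_self hN0.ne']
      ring
    rw [this]
  have e2 : ∀ j, j ≤ N → H 0 j = D.c (Y.bc s) (Y.ln (Y.bc s) (Y.vp u) (τ j)) Y.ρ := by
    intro j _
    change D.c (Y.bc s) (Y.ln (Y.bc s) (Y.ln (Y.vp u) (Y.vp v) (((0 : ℕ) : ℝ) / N)) (τ j)) Y.ρ = _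
    have : Y.ln (Y.vp u) (Y.vp v) (((0 : ℕ) : ℝ) / N) = Y.vp u := by
      refine Y.ext fun w => ?_
      rw [Rad_in s hu hv (hfr 0 (Nat.zero_le _)).1 (hfr 0 (Nat.zero_le _)).2, Nat.cast_zero,
        zero_div]
      ring
    rw [this]
  have e3 : ∀ i, i ≤ N → H i N = pth D s N u v i := by
    intro i hi
    change D.c (Y.bc s) (Y.ln (Y.bc s) (Y.ln (Y.vp u) (Y.vp v) ((i : ℝ) / N)) (τ N)) Y.ρ =
      D.c (Y.bc s) (Y.ln (Y.vp u) (Y.vp v) ((i : ℝ) / N)) Y.ρ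
    have : Y.ln (Y.bc s) (Y.ln (Y.vp u) (Y.vp v) ((i : ℝ) / N)) (τ N) =
        Y.ln (Y.vp u) (Y.vp v) ((i : ℝ) / N) := by
      refine Y.ext fun w => ?_
      rw [hτN, Rad_co s hu hv (hfr i hi).1 (hfr i hi).2 zero_le_one (le_refl _),
        Rad_in s hu hv (hfr i hi).1 (hfr i hi).2]
      ring
    rw [this]
  have e4 : ∀ i, i ≤ N → H i 0 = xx i 0 := by
    intro i hi
    change D.c (Y.bc s) (xx i 0) Y.ρ = xx i 0
    apply D.end_
    have hz := Rad_co_zero s hu hv (hfr i hi).1 (hfr i hi).2 ht0p.le ht01.le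
    have h5 : Y.d (Y.bc s) (xx i 0) ≤ Y.A * t0 := by
      change Y.d (Y.bc s) (Y.ln (Y.bc s) (Y.ln (Y.vp u) (Y.vp v) ((i : ℝ) / N)) (τ 0)) ≤ _
      rw [hτz]
      refine Y.tame.bound s.1 s.2.1 _ _ _ (fun w hw => Rad_bc_zero hw) hz (fun w => ?_)
      rw [Rad_co s hu hv (hfr i hi).1 (hfr i hi).2 ht0p.le ht01.le]
      have h6 : (Y.bc s).1 w - ((1 - t0) * (Y.bc s).1 w + t0 * ((1 - (i : ℝ) / N) * (Y.vp u).1 w +
          (i : ℝ) / N * (Y.vp v).1 w)) = t0 * ((Y.bc s).1 w - ((1 - (i : ℝ) / N) * (Y.vp u).1 w +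
          (i : ℝ) / N * (Y.vp v).1 w)) := by ring
      rw [h6, abs_mul, abs_of_pos ht0p]
      have h7 : |(Y.bc s).1 w - ((1 - (i : ℝ) / N) * (Y.vp u).1 w +
          (i : ℝ) / N * (Y.vp v).1 w)| ≤ 1 := by
        have b1 := Y.nonneg (Y.bc s) w
        have b2 := Y.le_one (Y.bc s) w
        have b3 := Y.nonneg (Y.vp u) w
        have b4 := Y.le_one (Y.vp u) w
        have b5 := Y.nonneg (Y.vp v) w
        have b6 := Y.le_one (Y.vp v) w
        obtain ⟨b7, b8⟩ := hfr i hi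
        have c1 := mul_nonneg (sub_nonneg.2 b8) b3
        have c2 := mul_nonneg b7 b5
        have c3 := mul_le_mul_of_nonneg_left b4 (sub_nonneg.2 b8)
        have c4 := mul_le_mul_of_nonneg_left b6 b7
        rw [abs_le]
        constructor <;> linarith
      have := mul_le_mul_of_nonneg_left h7 ht0p.le
      linarith
    have h8 : Y.A * t0 = Y.ρ := by
      rw [ht0]
      field_simp
    linarith
  have p1 : h.pr (fun j => H N j) N =
      h.pr (fun j => D.c (Y.bc s) (Y.ln (Y.bc s) (Y.vp v) (τ j)) Y.ρ) N :=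
    Rad_pr_congr h _ _ N e1
  have p2 : h.pr (fun j => H 0 j) N =
      h.pr (fun j => D.c (Y.bc s) (Y.ln (Y.bc s) (Y.vp u) (τ j)) Y.ρ) N :=
    Rad_pr_congr h _ _ N e2
  have p3 : h.pr (fun i => H i N) N = h.pr (pth D s N u v) N := Rad_pr_congr h _ _ N e3
  have p4 : h.pr (fun i => H i 0) N = h.e (.inl u) (.inl v) := by
    rw [Rad_pr_congr h (fun i => H i 0) (fun i => xx i 0) N e4]
    refine Rad_small h hal s hu hv huv N hNpos t0 ht0p ht01 (fun i => xx i 0) (fun i => ?_) ?_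
    · change Y.ln (Y.bc s) (Y.ln (Y.vp u) (Y.vp v) ((i : ℝ) / N)) (τ 0) = _
      rw [hτz]
    · intro i hi
      obtain ⟨w, hw1, hw2, _, _⟩ := hkey i 0 hi hNpos
      rw [e4 i hi.le] at hw1
      rw [e4 (i + 1) hi] at hw2
      exact ⟨w, hw1, hw2⟩
  rw [p1, p2, p3, p4] at hG
  rw [mul_assoc, hG, inv_mul_cancel_left]

end Pool.Agent.Sw
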