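import Pool.Agent.Lib.MP_8f66f0_al_Sw.GeoSpec

/-! Theorem L1, module Rea: the edges are discrete paths. -/

set_option autoImplicit false

namespace Pool.Agent.Sw

open Pool.Agent.Cx2 Pool.Agent.LinAll

section rea

variable {G V : Type} [Group G] [MulAction G V] {Y : Dat G V}

private theorem Rea_chain (h : Ch Y)
    (ht : ∀ x y z l l' g g', h.Tr x y l g → h.Tr y z l' g' → h.Tr x z (l + l') (g * g'))
    (y : ℕ → Y.P) (w : ℕ → h.X.FG) (N : ℕ)
    (hs : ∀ i, i < N → h.St (y i) (y (i + 1)) ((w i)⁻¹ * w (i + 1))) :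
    ∃ l, h.Tr (y 0) (y N) l ((w 0)⁻¹ * w N) := by
  induction N with
  | zero =>
    refine ⟨0, ?_⟩
    rw [inv_mul_cancel]
    exact Ch.Tr.nil _
  | succ N ih =>
    obtain ⟨l, hl⟩ := ih fun i hi => hs i (Nat.lt_succ_of_lt hi)
    have h1 := Ch.Tr.cons (hs N (Nat.lt_succ_self N)) (Ch.Tr.nil (h := h) (y (N + 1)))
    have h2 := ht _ _ _ _ _ _ _ hl h1
    refine ⟨l + (Y.d (y N) (y (N + 1)) + 0), ?_⟩
    have h3 : (w 0)⁻¹ * w (N + 1) = (w 0)⁻¹ * w N * ((w N)⁻¹ * w (N + 1) * 1) := by group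
    rw [h3]
    exact h2

private theorem Rea_ln0 {x x' : Y.P} {s : Finset V} (hs : s ∈ Y.K)
    (hx : ∀ v, v ∉ s → x.1 v = 0 ∧ x'.1 v = 0) : Y.ln x x' 0 = x := by
  refine Y.ext fun v => ?_
  rw [Y.ln_apply hs hx le_rfl zero_le_one]
  ring

private theorem Rea_ln1 {x x' : Y.P} {s : Finset V} (hs : s ∈ Y.K)
    (hx : ∀ v, v ∉ s → x.1 v = 0 ∧ x'.1 v = 0) : Y.ln x x' 1 = x' := by
  refine Y.ext fun v => ?_
  rw [Y.ln_apply hs hx zero_le_one le_rfl]
  ring

private theorem Rea_par {N i : ℕ} (hN : 4 ≤ N) (hi : i ≤ N) :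
    (0 : ℝ) ≤ (i : ℝ) / N ∧ (i : ℝ) / N ≤ 1 := by
  have h1 : (0 : ℝ) < N := by exact_mod_cast (by omega : 0 < N)
  have h2 : (i : ℝ) ≤ N := by exact_mod_cast hi
  exact ⟨by positivity, (div_le_one h1).2 h2⟩

private theorem Rea_dist {x x' : Y.P} {s : Finset V} (hs : s ∈ Y.K)
    (hx : ∀ v, v ∉ s → x.1 v = 0 ∧ x'.1 v = 0) {N : ℕ} (hN : 4 ≤ N) (hA : Y.A / N < Y.η)
    {i : ℕ} (hi : i < N) : Y.d (Y.ln x x' (i / N)) (Y.ln x x' ((i + 1 : ℕ) / N)) < Y.η := by
  have hN0 : (0 : ℝ) < N := by exact_mod_cast (by omega : 0 < N)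
  obtain ⟨a1, a2⟩ := Rea_par hN hi.le
  obtain ⟨b1, b2⟩ := Rea_par (N := N) (i := i + 1) hN hi
  refine lt_of_le_of_lt ?_ hA
  have h1 : Y.A / N = Y.A * (1 / N) := by ring
  rw [h1]
  refine Y.tame.bound s hs _ _ _ (fun v hv => ?_) (fun v hv => ?_) fun v => ?_
  · rw [Y.ln_apply hs hx a1 a2, (hx v hv).1, (hx v hv).2]
    ring
  · rw [Y.ln_apply hs hx b1 b2, (hx v hv).1, (hx v hv).2]
    ring
  · rw [Y.ln_apply hs hx a1 a2, Y.ln_apply hs hx b1 b2]
    have h2 : (1 - (i : ℝ) / N) * x.1 v + (i : ℝ) / N * x'.1 v -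
        ((1 - ((i + 1 : ℕ) : ℝ) / N) * x.1 v + ((i + 1 : ℕ) : ℝ) / N * x'.1 v) =
        (1 / N) * (x.1 v - x'.1 v) := by
      push_cast
      field_simp
      ring
    rw [h2, abs_mul, abs_of_pos (by positivity : (0 : ℝ) < 1 / N)]
    have h3 : |x.1 v - x'.1 v| ≤ 1 := by
      rw [abs_le]
      have c1 := Y.nonneg x v
      have c2 := Y.nonneg x' v
      have c3 := Y.le_one x v
      have c4 := Y.le_one x' v
      constructor <;> linarith
    have h4 : (0 : ℝ) ≤ 1 / N := by positivity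
    calc (1 / (N : ℝ)) * |x.1 v - x'.1 v| ≤ (1 / N) * 1 := mul_le_mul_of_nonneg_left h3 h4
      _ = 1 / N := mul_one _

private theorem Rea_N (Y : Dat G V) : ∃ N : ℕ, 4 ≤ N ∧ Y.A / N < Y.η := by
  obtain ⟨n, hn⟩ := exists_nat_gt (Y.A / Y.η)
  refine ⟨max n 4, le_max_right _ _, ?_⟩
  have h1 : (n : ℝ) ≤ ((max n 4 : ℕ) : ℝ) := by exact_mod_cast le_max_left n 4
  have h2 : (0 : ℝ) < ((max n 4 : ℕ) : ℝ) := by
    exact_mod_cast (lt_of_lt_of_le (by norm_num) (le_max_right n 4) : 0 < max n 4)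
  have h3 := Y.η_pos
  rw [div_lt_iff₀ h2]
  rw [div_lt_iff₀ h3] at hn
  calc Y.A < n * Y.η := hn
    _ ≤ ((max n 4 : ℕ) : ℝ) * Y.η := mul_le_mul_of_nonneg_right h1 h3.le
    _ = Y.η * ((max n 4 : ℕ) : ℝ) := mul_comm _ _

/-- `e p q * e q r = e p r` for `p, q, r` in a set of two neighbours -/
private theorem Rea_tri (h : Ch Y) (P Q : Y.Pos) (p q r : Y.Pos) (hp : p = P ∨ p = Q)
    (hq : q = P ∨ q = Q) (hr : r = P ∨ r = Q) : h.e p q * h.e q r = h.e p r := by
  rcases hp with rfl | rfl <;> rcases hq with rfl | rfl <;> rcases hr with rfl | rfl <;>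
    simp only [h.e_self, h.e_mul, one_mul, mul_one]

/-- the edges of the 1-skeleton -/
private theorem Rea_uv (h : Ch Y) (hb : Bas h)
    (ht : ∀ x y z l l' g g', h.Tr x y l g → h.Tr y z l' g' → h.Tr x z (l + l') (g * g'))
    (u v : V) (hadj : Y.Adj u v) :
    ∃ l, h.Tr (Y.pt (.inl u)) (Y.pt (.inl v)) l (h.e (.inl u) (.inl v)) := by
  classical
  obtain ⟨N, hN, hA⟩ := Rea_N Y
  obtain ⟨s, hsd⟩ : ∃ s : Finset V, s = {u, v} := ⟨_, rfl⟩
  have hs : s ∈ Y.K := by
    have h1 := hadj.2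
    rw [hsd]
    convert h1
  have hne : u ≠ v := hadj.1
  have hx : ∀ w, w ∉ s → (Y.vp u).1 w = 0 ∧ (Y.vp v).1 w = 0 := by
    intro w hw
    rw [hsd, Finset.mem_insert, Finset.mem_singleton, not_or] at hw
    exact ⟨by rw [Y.vp_apply, if_neg hw.1], by rw [Y.vp_apply, if_neg hw.2]⟩
  obtain ⟨y, hy⟩ : ∃ y : ℕ → Y.P, y = fun i : ℕ => Y.ln (Y.vp u) (Y.vp v) ((i : ℝ) / N) := ⟨_, rfl⟩
  have hN0 : (0 : ℝ) < N := by exact_mod_cast (by omega : 0 < N)
  have cu : ∀ i, i ≤ N → (y i).1 u = 1 - (i : ℝ) / N := by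
    intro i hi
    obtain ⟨a1, a2⟩ := Rea_par hN hi
    rw [hy]
    simp only
    rw [Y.ln_apply hs hx a1 a2, Y.vp_apply, Y.vp_apply, if_pos rfl, if_neg hne]
    ring
  have cv : ∀ i, i ≤ N → (y i).1 v = (i : ℝ) / N := by
    intro i hi
    obtain ⟨a1, a2⟩ := Rea_par hN hi
    rw [hy]
    simp only
    rw [Y.ln_apply hs hx a1 a2, Y.vp_apply, Y.vp_apply, if_pos rfl, if_neg hne.symm]
    ring
  have co : ∀ i, i ≤ N → ∀ w, w ≠ u → w ≠ v → (y i).1 w = 0 := by
    intro i hi w h1 h2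
    obtain ⟨a1, a2⟩ := Rea_par hN hi
    rw [hy]
    simp only
    rw [Y.ln_apply hs hx a1 a2, Y.vp_apply, Y.vp_apply, if_neg h1, if_neg h2]
    ring
  have hF : ∀ i, i ≤ N → h.F (y i) = .inl u ∨ h.F (y i) = .inl v := by
    intro i hi
    have h1 := h.lab (y i)
    cases hFi : h.F (y i) with
    | inl w =>
      rw [hFi] at h1
      have h2 : 1 / 3 < (y i).1 w := h1
      by_cases h3 : w = u
      · exact Or.inl (by rw [h3])
      · by_cases h4 : w = v
        · exact Or.inr (by rw [h4])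
        · exfalso
          rw [co i hi w h3 h4] at h2
          norm_num at h2
    | inr t =>
      exfalso
      rw [hFi] at h1
      have h2 : y i = Y.bc t := h1
      have h3 : ∀ w ∈ t.1, w = u ∨ w = v := by
        intro w hw
        by_contra h4
        rw [not_or] at h4
        have h5 := co i hi w h4.1 h4.2
        rw [h2, Y.bc_apply, if_pos hw] at h5
        norm_num at h5
      have h4 : t.1 ⊆ {u, v} := by
        intro w hw
        rw [Finset.mem_insert, Finset.mem_singleton]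
        exact h3 w hw
      have h5 := Finset.card_le_card h4
      have h6 := Finset.card_le_two (a := u) (b := v)
      have h7 := t.2.2
      omega
  have hstep : ∀ i, i < N → h.St (y i) (y (i + 1))
      ((h.e (.inl u) (h.F (y i)))⁻¹ * h.e (.inl u) (h.F (y (i + 1)))) := by
    intro i hi
    refine ⟨?_, Or.inl ?_⟩
    · have h1 := Rea_dist hs hx hN hA hi
      rw [hy]
      exact h1
    · have h0 : (h.e (.inl u) (h.F (y i)))⁻¹ * h.e (.inl u) (h.F (y (i + 1))) =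
          h.e (h.F (y i)) (h.F (y (i + 1))) := by
        rw [← h.e_inv]
        exact Rea_tri h (.inl u) (.inl v) _ _ _ (hF i hi.le) (Or.inl rfl) (hF (i + 1) hi)
      rw [h0]
      have hi4 : (1 : ℝ) / N ≤ 1 / 4 := by
        apply one_div_le_one_div_of_le (by norm_num)
        exact_mod_cast hN
      have hc : (((i + 1 : ℕ) : ℝ)) / N = (i : ℝ) / N + 1 / N := by
        push_cast
        ring
      have hp1 : (0 : ℝ) < 1 / N := by positivity
      by_cases hlt : ((i + 1 : ℕ) : ℝ) / N < 2 / 3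
      · refine ⟨u, ⟨?_, ?_⟩, ?_⟩
        · rw [cu i hi.le]
          rw [hc] at hlt
          linarith
        · rw [cu (i + 1) hi]
          linarith
        · exact (Rea_tri h (.inl u) (.inl v) _ _ _ (hF i hi.le) (Or.inl rfl) (hF (i + 1) hi)).symm
      · rw [not_lt] at hlt
        refine ⟨v, ⟨?_, ?_⟩, ?_⟩
        · rw [cv i hi.le]
          rw [hc] at hlt
          linarith
        · rw [cv (i + 1) hi]
          linarith
        · exact (Rea_tri h (.inl u) (.inl v) _ _ _ (hF i hi.le) (Or.inr rfl) (hF (i + 1) hi)).symm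
  have h0 : y 0 = Y.vp u := by
    rw [hy]
    simp only [Nat.cast_zero, zero_div]
    exact Rea_ln0 hs hx
  have h1 : y N = Y.vp v := by
    rw [hy]
    simp only
    rw [div_self hN0.ne']
    exact Rea_ln1 hs hx
  obtain ⟨l, hl⟩ := Rea_chain h ht y (fun i => h.e (.inl u) (h.F (y i))) N hstep
  refine ⟨l, ?_⟩
  rw [h0, h1] at hl
  have f0 : h.F (Y.vp u) = .inl u := hb.F_pt (.inl u)
  have f1 : h.F (Y.vp v) = .inl v := hb.F_pt (.inl v)
  rw [f0, f1, h.e_self, inv_one, one_mul] at hl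
  exact hl

/-- the whiskers -/
private theorem Rea_wh (h : Ch Y) (hb : Bas h)
    (ht : ∀ x y z l l' g g', h.Tr x y l g → h.Tr y z l' g' → h.Tr x z (l + l') (g * g'))
    (s : Y.T) :
    ∃ l, h.Tr (Y.pt (.inr s)) (Y.pt (.inl (h.a s))) l (h.e (.inr s) (.inl (h.a s))) := by
  classical
  obtain ⟨N, hN, hA⟩ := Rea_N Y
  have hs : s.1 ∈ Y.K := s.2.1
  have hx : ∀ w, w ∉ s.1 → (Y.bc s).1 w = 0 ∧ (Y.vp (h.a s)).1 w = 0 := by
    intro w hw
    refine ⟨by rw [Y.bc_apply, if_neg hw], ?_⟩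
    rw [Y.vp_apply, if_neg]
    rintro rfl
    exact hw (h.mem_a s)
  obtain ⟨y, hy⟩ : ∃ y : ℕ → Y.P, y = fun i : ℕ => Y.ln (Y.bc s) (Y.vp (h.a s)) ((i : ℝ) / N) :=
    ⟨_, rfl⟩
  have hN0 : (0 : ℝ) < N := by exact_mod_cast (by omega : 0 < N)
  have ca : ∀ i, i ≤ N → (y i).1 (h.a s) = 1 / 3 + 2 / 3 * ((i : ℝ) / N) := by
    intro i hi
    obtain ⟨a1, a2⟩ := Rea_par hN hi
    rw [hy]
    simp only
    rw [Y.ln_apply hs hx a1 a2, Y.vp_apply, Y.bc_apply, if_pos rfl, if_pos (h.mem_a s)]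
    ring
  have co : ∀ i, i ≤ N → ∀ w, w ≠ h.a s → (y i).1 w ≤ 1 / 3 := by
    intro i hi w h1
    obtain ⟨a1, a2⟩ := Rea_par hN hi
    rw [hy]
    simp only
    rw [Y.ln_apply hs hx a1 a2, Y.vp_apply, Y.bc_apply, if_neg h1]
    split_ifs
    · linarith
    · norm_num
  have hF : ∀ i, i ≤ N → 0 < i → h.F (y i) = .inl (h.a s) := by
    intro i hi hi0
    have hi1 : (0 : ℝ) < (i : ℝ) / N := by
      have : (0 : ℝ) < i := by exact_mod_cast hi0
      positivity
    have h1 := h.lab (y i)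
    cases hFi : h.F (y i) with
    | inl w =>
      rw [hFi] at h1
      have h2 : 1 / 3 < (y i).1 w := h1
      by_cases h3 : w = h.a s
      · rw [h3]
      · exfalso
        have := co i hi w h3
        linarith
    | inr t =>
      exfalso
      rw [hFi] at h1
      have h2 : y i = Y.bc t := h1
      have h3 := ca i hi
      rw [h2, Y.bc_apply] at h3
      split_ifs at h3
      · linarith
      · linarith
  have h0 : y 0 = Y.bc s := by
    rw [hy]
    simp only [Nat.cast_zero, zero_div]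
    exact Rea_ln0 hs hx
  have hNN : y N = Y.vp (h.a s) := by
    rw [hy]
    simp only
    rw [div_self hN0.ne']
    exact Rea_ln1 hs hx
  have f0 : h.F (Y.bc s) = .inr s := hb.F_pt (.inr s)
  have hstep : ∀ i, i < N → h.St (y i) (y (i + 1))
      ((h.e (.inr s) (h.F (y i)))⁻¹ * h.e (.inr s) (h.F (y (i + 1)))) := by
    intro i hi
    have hd : Y.d (y i) (y (i + 1)) < Y.η := by
      have h1 := Rea_dist hs hx hN hA hi
      rw [hy]
      exact h1
    refine ⟨hd, ?_⟩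
    rcases Nat.eq_zero_or_pos i with hi0 | hi0
    · subst hi0
      right
      have hρ := Y.ρ_pos
      have hη := Y.η_pos
      have hηρ := Y.η_le
      refine ⟨s, 0, ?_, ?_, ?_⟩
      · rw [h0, Y.d_self]
        exact hρ
      · rw [← h0, Y.cat.symm]
        linarith
      · have h1 : h.κ s (y (0 + 1)) = h.e (.inl (h.a s)) (.inr s) := by
          unfold Ch.κ
          rw [hF (0 + 1) hi (by norm_num)]
          change h.e (.inl (h.a s)) (.inl (h.a s)) * h.e (.inl (h.a s)) (.inr s) = _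
          rw [h.e_self, one_mul]
        have h2 : h.κ s (y 0) = 1 := by
          rw [h0]
          exact hb.κ_bc s
        rw [h1, h2, h0, f0, hF (0 + 1) hi (by norm_num), h.e_self, inv_one, one_mul, zpow_zero,
          one_mul, ← h.e_inv, one_mul]
    · left
      refine ⟨h.a s, ⟨?_, ?_⟩, ?_⟩
      · rw [ca i hi.le]
        have : (0 : ℝ) < i := by exact_mod_cast hi0
        have : (0 : ℝ) < (i : ℝ) / N := by positivity
        linarith
      · rw [ca (i + 1) hi]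
        have : (0 : ℝ) < ((i + 1 : ℕ) : ℝ) := by exact_mod_cast Nat.succ_pos i
        have : (0 : ℝ) < ((i + 1 : ℕ) : ℝ) / N := by positivity
        linarith
      · unfold Ch.al
        rw [hF i hi.le hi0, hF (i + 1) hi (Nat.succ_pos i), h.e_self, inv_mul_cancel, one_mul]
  obtain ⟨l, hl⟩ := Rea_chain h ht y (fun i => h.e (.inr s) (h.F (y i))) N hstep
  refine ⟨l, ?_⟩
  rw [h0, hNN] at hl
  have f1 : h.F (Y.vp (h.a s)) = .inl (h.a s) := hb.F_pt (.inl (h.a s))
  rw [f0, f1, h.e_self, inv_one, one_mul] at hl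
  exact hl

end rea

theorem tRea (h1 : S_Trb) : S_Rea := by
  intro G V _ _ Y h hb p q hpq
  obtain ⟨ht, hr, -, -, -⟩ := h1 G V Y h hb
  cases p with
  | inl u =>
    cases q with
    | inl v => exact Rea_uv h hb ht u v hpq
    | inr s =>
      have h2 : u = h.a s := hpq
      subst h2
      obtain ⟨l, hl⟩ := Rea_wh h hb ht s
      refine ⟨l, ?_⟩
      rw [h.e_inv (.inr s) (.inl (h.a s))]
      exact hr _ _ _ _ hl
  | inr s =>
    cases q with
    | inl v =>
      have h2 : v = h.a s := hpq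
      subst h2
      exact Rea_wh h hb ht s
    | inr s' => exact hpq.elim

end Pool.Agent.Sw
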