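import Pool.Agent.Lib.MP_8f66f0_al_Sw.GeoSpec

set_option autoImplicit false

namespace Pool.Agent.Sw

open Pool.Agent.Cx2 Pool.Agent.LinAll

private theorem Rev_front {G V : Type} [Group G] [MulAction G V] {Y : Dat G V} (h : Ch Y)
    (n : ℕ) : ∀ y : ℕ → Y.P,
      h.pr y (n + 1) = h.alf (y 0) (y 1) * h.pr (fun i => y (1 + i)) n := by
  induction n with
  | zero =>
    intro y
    change 1 * h.alf (y 0) (y (0 + 1)) = h.alf (y 0) (y 1) * 1
    rw [one_mul, mul_one, Nat.zero_add]
  | succ n ih =>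
    intro y
    have e1 : h.pr y (n + 1 + 1) = h.pr y (n + 1) * h.alf (y (n + 1)) (y (n + 1 + 1)) := rfl
    have e2 : h.pr (fun i => y (1 + i)) (n + 1) =
        h.pr (fun i => y (1 + i)) n * h.alf (y (1 + n)) (y (1 + (n + 1))) := rfl
    rw [e1, ih y, e2, Nat.add_comm 1 n, Nat.add_comm 1 (n + 1), mul_assoc]

theorem tRev (h1 : S_Alf) : S_Rev := by
  intro G V _ _ Y h hB y y' N
  have hinv := (h1 G V Y h hB).2.2.1
  induction N generalizing y y' with
  | zero =>
    intro _
    change (1 : h.X.FG) = 1⁻¹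
    rw [inv_one]
  | succ N ih =>
    intro hy
    have e0 : y' N = y 1 := by
      rw [hy N (by omega)]
      congr 1
      omega
    have e1 : y' (N + 1) = y 0 := by
      rw [hy (N + 1) le_rfl]
      congr 1
      omega
    have e2 : h.pr y' N = (h.pr (fun i => y (1 + i)) N)⁻¹ := by
      refine ih (fun i => y (1 + i)) y' ?_
      intro i hi
      rw [hy i (by omega)]
      congr 1
      omega
    have e3 : h.pr y' (N + 1) = h.pr y' N * h.alf (y' N) (y' (N + 1)) := rfl
    rw [e3, e2, e0, e1, Rev_front h N y, mul_inv_rev, hinv (y 0) (y 1)]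

end Pool.Agent.Sw
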