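import Pool.Agent.Lib.MP_8f66f0_al_Sw.GeoSpec

/-! # Theorem L1, geometric half: module `Sho` (short paths near a barycentre) -/

set_option autoImplicit false

namespace Pool.Agent.Sw

open Pool.Agent.Cx2 Pool.Agent.LinAll

variable {G V : Type} [Group G] [MulAction G V] {Y : Dat G V}

private theorem Sho_nonneg (h : Ch Y) {x z : Y.P} {l : ℝ} {g : h.X.FG} (t : h.Tr x z l g) :
    0 ≤ l := by
  induction t with
  | nil x => exact le_refl 0
  | cons _ _ ih => exact add_nonneg (Y.d_nonneg _ _) ih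

/-- The triangle which contains the point `x` in its interior is unique. -/
private theorem Sho_tri {x : Y.P} {s s' : Y.T} (hs : ∀ w ∈ s.1, 0 < x.1 w)
    (hs' : ∀ w ∈ s'.1, 0 < x.1 w) : s' = s := by
  have h1 : ∀ u : Y.T, (∀ w ∈ u.1, 0 < x.1 w) → u.1 = Y.cr x := by
    intro u hu
    refine Finset.eq_of_subset_of_card_le (fun w hw => (Y.mem_cr x w).2 (hu w hw)) ?_
    rw [u.2.2]
    exact Y.cx.card _ (Y.cr_mem x)
  exact Subtype.ext ((h1 s' hs').trans (h1 s hs).symm)

private theorem Sho_main (h : Ch Y) (hb : Bas h) (s : Y.T) (v : Y.Pos) {x z : Y.P} {l : ℝ}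
    {g : h.X.FG} (t : h.Tr x z l g) : z = Y.pt v → Y.d x (Y.bc s) + l < 8 * Y.ρ →
      v = .inr s ∧ ∃ m : ℤ, g = h.κ s x * h.r s ^ m := by
  induction t with
  | nil x =>
    rintro rfl hl
    have hv : v = .inr s := by
      by_contra hne
      have h1 := hb.sep v (.inr s) hne
      change 8 * Y.ρ ≤ Y.d (Y.pt v) (Y.bc s) at h1
      linarith
    refine ⟨hv, 0, ?_⟩
    rw [hv]
    change (1 : h.X.FG) = h.κ s (Y.bc s) * h.r s ^ (0 : ℤ)
    rw [hb.κ_bc, zpow_zero, mul_one]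
  | @cons x y z q g l hst ht ih =>
    intro hz hl
    have hl0 := Sho_nonneg h ht
    have hxy := Y.d_nonneg x y
    have htri := Y.cat.tri y x (Y.bc s)
    rw [Y.cat.symm y x] at htri
    obtain ⟨hv, m, hm⟩ := ih hz (by linarith)
    refine ⟨hv, ?_⟩
    have hx : ∀ w ∈ s.1, 0 < x.1 w := hb.ball s x (by linarith)
    have hy : ∀ w ∈ s.1, 0 < y.1 w := hb.ball s y (by linarith)
    have key : ∃ m' : ℤ, q = h.κ s x * h.r s ^ m' * (h.κ s y)⁻¹ := by
      rcases hst.2 with ⟨v0, hc, hq⟩ | ⟨s', m', h1, _, hq⟩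
      · obtain ⟨m', hm'⟩ := hb.al_κ s x y v0 hx hy hc
        exact ⟨m', hq.trans hm'⟩
      · have hρ := Y.ρ_pos
        have he : s' = s := Sho_tri hx (hb.ball s' x (by linarith))
        subst he
        exact ⟨m', hq⟩
    obtain ⟨m', hm'⟩ := key
    refine ⟨m' + m, ?_⟩
    rw [hm', hm, zpow_add]
    simp only [mul_assoc, inv_mul_cancel_left]

theorem tSho : S_Sho := by
  intro G V _ _ Y h hb s v x l g ht hl
  exact Sho_main h hb s v ht rfl hl

end Pool.Agent.Sw
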