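import Pool.Agent.Lib.MP_8f66f0_al_Sw.GeoSpec

/-! MP_8f66f0_al, module Sw/GeoSqb: operations with sequences. -/

set_option autoImplicit false

namespace Pool.Agent.Sw

open Pool.Agent.Cx2 Pool.Agent.LinAll

variable {G V : Type} [Group G] [MulAction G V] {Y : Dat G V} {h : Ch Y}

private theorem Sqb_step {y : ℕ → Y.P} {n : ℕ} {q g g' : h.X.FG} (h1 : h.Sq y n g)
    (h2 : h.St (y n) (y (n + 1)) q) (h3 : g' = g * q) : h.Sq y (n + 1) g' := by
  rw [h3]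
  exact Ch.Sq.succ h1 h2

private theorem Sqb_app {y : ℕ → Y.P} {n : ℕ} {g : h.X.FG} (h1 : h.Sq y n g) :
    ∀ (m : ℕ) (g' : h.X.FG), h.Sq (fun i => y (n + i)) m g' → h.Sq y (n + m) (g * g') := by
  intro m g' h2
  induction h2 with
  | zero => rwa [mul_one]
  | succ _ h3 ih => exact Sqb_step ih h3 (mul_assoc _ _ _).symm

private theorem Sqb_cons {y : ℕ → Y.P} {n : ℕ} {q g : h.X.FG} (h1 : h.St (y 0) (y 1) q)
    (h2 : h.Sq (fun i => y (1 + i)) n g) : h.Sq y (n + 1) (q * g) := by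
  have h3 : h.Sq y (0 + 1) q := Sqb_step Ch.Sq.zero h1 (one_mul q).symm
  rw [add_comm]
  exact Sqb_app h3 n g h2

private theorem Sqb_const {y : ℕ → Y.P} {n : ℕ} {g : h.X.FG} (h1 : h.Sq y n g)
    (h2 : ∀ i, n ≤ i → y i = y n) (h3 : h.St (y n) (y n) 1) (m : ℕ) : h.Sq y (n + m) g := by
  induction m with
  | zero => exact h1
  | succ m ih =>
    refine Sqb_step ih ?_ (mul_one g).symm
    change h.St (y (n + m)) (y (n + m + 1)) 1
    rw [h2 (n + m) (by omega), h2 (n + m + 1) (by omega)]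
    exact h3

private theorem Sqb_cas {y : ℕ → Y.P} {n : ℕ} {g : h.X.FG} (h1 : h.Sq y (n + 1) g) :
    ∃ q g', h.Sq y n g' ∧ h.St (y n) (y (n + 1)) q ∧ g = g' * q := by
  cases h1 with
  | succ h2 h3 => exact ⟨_, _, h2, h3, rfl⟩

private theorem Sqb_zero {y : ℕ → Y.P} {g : h.X.FG} (h1 : h.Sq y 0 g) : g = 1 := by
  cases h1
  rfl

private theorem Sqb_uncons {y : ℕ → Y.P} (n : ℕ) : ∀ g : h.X.FG, h.Sq y (n + 1) g →
    ∃ q g', h.St (y 0) (y 1) q ∧ h.Sq (fun i => y (1 + i)) n g' ∧ g = q * g' := by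
  induction n with
  | zero =>
    intro g h1
    obtain ⟨q, g', h2, h3, h4⟩ := Sqb_cas h1
    refine ⟨q, 1, h3, Ch.Sq.zero, ?_⟩
    rw [h4, Sqb_zero h2, one_mul, mul_one]
  | succ n ih =>
    intro g h1
    obtain ⟨q, g', h2, h3, h4⟩ := Sqb_cas h1
    obtain ⟨q', g'', h5, h6, h7⟩ := ih g' h2
    refine ⟨q', g'' * q, h5, Ch.Sq.succ h6 ?_, ?_⟩
    · rw [add_comm 1 n, add_comm 1 (n + 1)]
      exact h3
    · rw [h4, h7, mul_assoc]

theorem tSqb : S_Sqb := by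
  intro G V _ _ Y h y
  exact ⟨fun n m g g' h1 h2 => Sqb_app h1 m g' h2, fun n q g h1 h2 => Sqb_cons h1 h2,
    fun n m g h1 h2 h3 => Sqb_const h1 h2 h3 m, fun n g h1 => Sqb_uncons n g h1⟩

end Pool.Agent.Sw
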