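import Pool.Agent.Lib.MP_8f66f0_al_Sw.GeoSpec

/-! # Theorem L1: discrete geodesics are discrete paths (module Sqt) -/

set_option autoImplicit false

namespace Pool.Agent.Sw

open Pool.Agent.Cx2 Pool.Agent.LinAll

variable {G V : Type} [Group G] [MulAction G V] {Y : Dat G V}

private theorem Sqt_aux (hT : S_Trb) {h : Ch Y} (hb : Bas h) (D : Gd Y) (o x : Y.P) (k m : ℕ)
    (g : h.X.FG) (hg : h.Sq (fun i => Ch.dg D o x (k + i)) m g) :
    h.Tr (Ch.dg D o x k) (Ch.dg D o x (k + m))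
      (min ((k + m : ℕ) * (Y.η / 2)) (Y.d o x) - min (k * (Y.η / 2)) (Y.d o x)) g := by
  obtain ⟨t1, -⟩ := hT G V Y h hb
  have hη := Y.η_pos
  induction hg with
  | zero =>
    rw [Nat.add_zero, sub_self]
    exact Ch.Tr.nil _
  | @succ m q g _ hst ih =>
    have h1 := t1 _ _ _ _ _ _ _ ih (Ch.Tr.cons hst (Ch.Tr.nil _))
    rw [mul_one, add_zero] at h1
    have hd : Y.d (Ch.dg D o x (k + m)) (Ch.dg D o x (k + (m + 1))) =
        min ((k + (m + 1) : ℕ) * (Y.η / 2)) (Y.d o x) -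
          min ((k + m : ℕ) * (Y.η / 2)) (Y.d o x) := by
      refine D.dist o x _ _ (by positivity) ?_
      refine mul_le_mul_of_nonneg_right ?_ (by positivity)
      exact_mod_cast Nat.le_succ (k + m)
    have h2 : (min ((k + (m + 1) : ℕ) * (Y.η / 2)) (Y.d o x) - min (k * (Y.η / 2)) (Y.d o x)) =
        (min ((k + m : ℕ) * (Y.η / 2)) (Y.d o x) - min (k * (Y.η / 2)) (Y.d o x)) +
          Y.d (Ch.dg D o x (k + m)) (Ch.dg D o x (k + (m + 1))) := by
      rw [hd]
      ring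
    rw [h2]
    exact h1

/-- MODULE `Sqt`: discrete geodesics are discrete paths. -/
theorem tSqt (h1 : S_Trb) : S_Sqt := by
  intro G V _ _ Y h hb D o x
  refine ⟨fun n g hg => ?_, fun k m g hg => Sqt_aux h1 hb D o x k m g hg⟩
  have hη := Y.η_pos
  have h2 := Sqt_aux h1 hb D o x 0 n g (by
    have h3 : (fun i => Ch.dg D o x (0 + i)) = Ch.dg D o x := by
      funext i
      rw [Nat.zero_add]
    rw [h3]
    exact hg)
  have h4 : Ch.dg D o x 0 = o := by
    unfold Ch.dg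
    rw [Nat.cast_zero, zero_mul]
    exact D.zero o x
  have h5 : min (((0 : ℕ) : ℝ) * (Y.η / 2)) (Y.d o x) = 0 := by
    rw [Nat.cast_zero, zero_mul]
    exact min_eq_left (Y.d_nonneg o x)
  rw [h4, h5, Nat.zero_add, sub_zero] at h2
  exact h2

end Pool.Agent.Sw
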