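import Pool.Agent.Lib.MP_8f66f0_al_Sw.GeoSpec

/-! # Theorem L1: the sweep (module Swp) -/

set_option autoImplicit false

namespace Pool.Agent.Sw

open Pool.Agent.Cx2 Pool.Agent.LinAll

variable {G V : Type} [Group G] [MulAction G V] {Y : Dat G V}

private theorem Swp_trans {h : Ch Y} {x y z : Y.P} {l l' : ℝ} {g g' : h.X.FG}
    (h1 : h.Tr x y l g) (h2 : h.Tr y z l' g') : h.Tr x z (l + l') (g * g') := by
  induction h1 with
  | nil x =>
    rw [zero_add, one_mul]
    exact h2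
  | cons hst _ ih =>
    rw [add_assoc, mul_assoc]
    exact Ch.Tr.cons hst (ih h2)

private theorem Swp_dg_zero (D : Gd Y) (o x : Y.P) : Ch.dg D o x 0 = o := by
  unfold Ch.dg
  rw [Nat.cast_zero, zero_mul]
  exact D.zero o x

private theorem Swp_dg_end (D : Gd Y) (o x : Y.P) {n : ℕ} (h : Y.d o x ≤ n * (Y.η / 2)) :
    Ch.dg D o x n = x := D.end_ o x _ h

/-- the length of the rest of a discrete geodesic together with a path `g2` -/
private theorem Swp_rest (hS : S_Sqt) {h : Ch Y} (hb : Bas h) (D : Gd Y) (o x v : Y.P)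
    {M k : ℕ} (hM : Y.d o x ≤ M * (Y.η / 2)) (hk : k ≤ M) {l : ℝ} {g' g2 : h.X.FG}
    (hg : h.Sq (fun i => Ch.dg D o x (k + i)) (M - k) g') (ht : h.Tr x v l g2) :
    h.Tr (Ch.dg D o x k) v (Y.d o x - min (k * (Y.η / 2)) (Y.d o x) + l) (g' * g2) := by
  have h1 := (hS G V Y h hb D o x).2 k (M - k) g' hg
  rw [Nat.add_sub_cancel' hk, Swp_dg_end D o x hM, min_eq_right hM] at h1
  exact Swp_trans h1 ht

private theorem Swp_len {a b d d' δ : ℝ} (hab : a ≤ b) (hd : d' ≤ d + δ) :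
    min a d + (d' - min b d') ≤ d + δ ∨ min a d + (d' - min b d') ≤ d := by
  rcases le_total d' b with h | h
  · right
    rw [min_eq_right h]
    have := min_le_right a d
    linarith
  · left
    rw [min_eq_left h]
    have := min_le_left a d
    linarith

/-- MODULE `Swp`: the sweep. -/
theorem tSwp (h1 : S_Exs) (h2 : S_Cst) (h3 : S_Qud) (h4 : S_Sqt) (h5 : S_Sqb) : S_Swp := by
  intro G V _ _ Y h hb D γ R _ j B hB n hP o v x x' q g2 l hst ht hl hyp g hg
  obtain ⟨n₁, hn₁, hg⟩ := hg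
  have hη := Y.η_pos
  obtain ⟨hex, hcon⟩ := h1 G V Y h hb
  obtain ⟨m₁, hm₁⟩ := exists_nat_ge (Y.d (Y.pt o) x' / (Y.η / 2))
  obtain ⟨M, hM⟩ : ∃ M : ℕ, M = n₁ + m₁ := ⟨_, rfl⟩
  have hδ0 := Y.d_nonneg x x'
  have hM1 : Y.d (Y.pt o) x ≤ M * (Y.η / 2) := by
    refine hn₁.trans (mul_le_mul_of_nonneg_right ?_ (by positivity))
    exact_mod_cast (by omega : n₁ ≤ M)
  have hM2 : Y.d (Y.pt o) x' ≤ M * (Y.η / 2) := by
    rw [div_le_iff₀ (by positivity)] at hm₁
    refine hm₁.trans (mul_le_mul_of_nonneg_right ?_ (by positivity))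
    exact_mod_cast (by omega : m₁ ≤ M)
  have hMg : h.Sq (Ch.dg D (Y.pt o) x) M g := by
    rw [hM]
    refine (h5 G V Y h (Ch.dg D (Y.pt o) x)).2.2.1 n₁ m₁ g hg (fun i hi => ?_) (hcon _)
    rw [Swp_dg_end D _ x hn₁, Swp_dg_end D _ x]
    refine hn₁.trans (mul_le_mul_of_nonneg_right ?_ (by positivity))
    exact_mod_cast hi
  have hD' : Y.d (Y.pt o) x' ≤ Y.d (Y.pt o) x + Y.d x x' := Y.cat.tri _ _ _
  have H : ∀ k : ℕ, k ≤ M → ∀ g q g' : h.X.FG, h.Sq (Ch.dg D (Y.pt o) x) k g →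
      h.St (Ch.dg D (Y.pt o) x k) (Ch.dg D (Y.pt o) x' k) q →
      h.Sq (fun i => Ch.dg D (Y.pt o) x' (k + i)) (M - k) g' → j (g * q * (g' * g2)) ∈ B o v := by
    intro k
    induction k with
    | zero =>
      intro _ g q g' hgk hq hg'
      cases hgk
      rw [Swp_dg_zero, Swp_dg_zero] at hq
      have hr := Swp_rest h4 hb D (Y.pt o) x' (Y.pt v) hM2 (Nat.zero_le M) hg' ht
      rw [Swp_dg_zero, Nat.cast_zero, zero_mul, min_eq_left (Y.d_nonneg _ _), sub_zero] at hr
      refine h2 G V Y h hb D γ R j B hB n hP o v (Y.pt o) (Y.pt o) 1 q 0 _ 1 (g' * g2)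
        (Ch.Tr.nil _) (hcon _) hq hr (by linarith) ?_
      rw [one_mul, one_mul]
      refine hyp g' ⟨M, hM2, ?_⟩
      have h6 : (fun i => Ch.dg D (Y.pt o) x' (0 + i)) = Ch.dg D (Y.pt o) x' := by
        funext i
        rw [Nat.zero_add]
      rw [h6, Nat.sub_zero] at hg'
      exact hg'
    | succ k ih =>
      intro hk g t g' hgk ht1 hg'
      cases hgk with
      | @succ _ s g₀ hg₀ hs =>
        have ha : (k : ℝ) * (Y.η / 2) ≤ ((k + 1 : ℕ) : ℝ) * (Y.η / 2) := by
          refine mul_le_mul_of_nonneg_right ?_ (by positivity)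
          exact_mod_cast Nat.le_succ k
        have hd1 : Y.d (Ch.dg D (Y.pt o) x k) (Ch.dg D (Y.pt o) x' k) < Y.η :=
          lt_of_le_of_lt (D.lip _ _ _ _ (by positivity)) hst.1
        have hd2 : Y.d (Ch.dg D (Y.pt o) x' k) (Ch.dg D (Y.pt o) x' (k + 1)) ≤ Y.η / 2 := by
          unfold Ch.dg
          rw [D.dist _ _ _ _ (by positivity) ha]
          have h6 : ((k + 1 : ℕ) : ℝ) * (Y.η / 2) = k * (Y.η / 2) + Y.η / 2 := by
            push_cast
            ring
          rw [h6]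
          rcases le_total (k * (Y.η / 2)) (Y.d (Y.pt o) x') with h7 | h7
          · rw [min_eq_left h7]
            have := min_le_left (k * (Y.η / 2) + Y.η / 2) (Y.d (Y.pt o) x')
            linarith
          · rw [min_eq_right h7]
            have := min_le_right (k * (Y.η / 2) + Y.η / 2) (Y.d (Y.pt o) x')
            linarith
        obtain ⟨s₁, hs₁⟩ := hex _ _ hd1
        obtain ⟨t₁, ht₁⟩ := hex _ _ (lt_of_le_of_lt hd2 (by linarith : Y.η / 2 < Y.η))
        have h6 : h.Sq (fun i => Ch.dg D (Y.pt o) x' (k + i)) (M - k) (t₁ * g') := by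
          have h7 := (h5 G V Y h (fun i => Ch.dg D (Y.pt o) x' (k + i))).2.1 (M - (k + 1)) t₁ g'
            ht₁ (by
              have h8 : (fun i => (fun i => Ch.dg D (Y.pt o) x' (k + i)) (1 + i)) =
                  fun i => Ch.dg D (Y.pt o) x' (k + 1 + i) := by
                funext i
                change Ch.dg D (Y.pt o) x' (k + (1 + i)) = _
                rw [Nat.add_assoc]
              rw [h8]
              exact hg')
          have h9 : M - (k + 1) + 1 = M - k := by omega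
          rwa [h9] at h7
        have h10 := ih (by omega) g₀ s₁ (t₁ * g') hg₀ hs₁ h6
        have hr := Swp_rest h4 hb D (Y.pt o) x' (Y.pt v) hM2 hk hg' ht
        have hl1 := (h4 G V Y h hb D (Y.pt o) x).1 k g₀ hg₀
        have h11 : Y.d (Ch.dg D (Y.pt o) x k) (Ch.dg D (Y.pt o) x' (k + 1)) < 2 * Y.η := by
          have := Y.cat.tri (Ch.dg D (Y.pt o) x k) (Ch.dg D (Y.pt o) x' k)
            (Ch.dg D (Y.pt o) x' (k + 1))
          linarith
        have h12 : j (g₀ * (s₁ * t₁) * (g' * g2)) ∈ B o v := by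
          have h13 : g₀ * (s₁ * t₁) * (g' * g2) = g₀ * s₁ * (t₁ * g' * g2) := by
            simp only [mul_assoc]
          rw [h13]
          exact h10
        have h14 := h3 G V Y h hb D γ R j B hB n hP o v _ _ _ _ s t s₁ t₁ _ _ g₀ (g' * g2)
          hl1 hs ht1 hs₁ ht₁ h11 hr (by
            rcases Swp_len ha hD' with h15 | h15 <;> linarith) h12
        rwa [← mul_assoc g₀ s t] at h14
  have h6 := H M le_rfl g q 1 hMg (by
    rw [Swp_dg_end D _ x hM1, Swp_dg_end D _ x' hM2]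
    exact hst) (by
    rw [Nat.sub_self]
    exact Ch.Sq.zero)
  rwa [one_mul, mul_assoc] at h6

end Pool.Agent.Sw
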