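import Pool.Agent.Lib.MP_8f66f0_al_Sw.GeoSpec

/-! Theorem L1, module Toc: the way to the barycentre. -/

set_option autoImplicit false

namespace Pool.Agent.Sw

open Pool.Agent.Cx2 Pool.Agent.LinAll

theorem tToc (h1 : S_Trb) : S_Toc := by
  intro G V _ _ Y h hb D s x hx
  have hη := Y.η_pos
  have hρ := Y.ρ_pos
  have hL := Y.d_nonneg x (Y.bc s)
  have hend : D.c x (Y.bc s) (Y.d x (Y.bc s)) = Y.bc s := D.end_ _ _ _ le_rfl
  -- all points of the geodesic are close to the barycentre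
  have hnear : ∀ t : ℝ, 0 ≤ t → Y.d (D.c x (Y.bc s) t) (Y.bc s) < Y.ρ := by
    intro t ht
    rcases le_total t (Y.d x (Y.bc s)) with h2 | h2
    · have h3 := D.dist x (Y.bc s) t (Y.d x (Y.bc s)) ht h2
      rw [hend, min_self, min_eq_left h2] at h3
      rw [h3]
      linarith
    · rw [D.end_ x (Y.bc s) t h2, Y.d_self]
      exact hρ
  -- the class and the length up to the `k`-th point
  have key : ∀ k : ℕ, h.Tr x (D.c x (Y.bc s) (k * (Y.η / 2)))
      (min (k * (Y.η / 2)) (Y.d x (Y.bc s)))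
      (h.κ s x * (h.κ s (D.c x (Y.bc s) (k * (Y.η / 2))))⁻¹) := by
    intro k
    induction k with
    | zero =>
      have e0 : ((0 : ℕ) : ℝ) * (Y.η / 2) = 0 := by rw [Nat.cast_zero, zero_mul]
      rw [e0, D.zero, mul_inv_cancel, min_eq_left hL]
      exact Ch.Tr.nil x
    | succ k ih =>
      have hk0 : (0 : ℝ) ≤ (k : ℝ) * (Y.η / 2) := by positivity
      have hk1 : (0 : ℝ) ≤ ((k + 1 : ℕ) : ℝ) * (Y.η / 2) := by positivity
      have hle : (k : ℝ) * (Y.η / 2) ≤ ((k + 1 : ℕ) : ℝ) * (Y.η / 2) := by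
        push_cast
        linarith
      have hd := D.dist x (Y.bc s) _ _ hk0 hle
      have hlt : Y.d (D.c x (Y.bc s) (k * (Y.η / 2)))
          (D.c x (Y.bc s) ((k + 1 : ℕ) * (Y.η / 2))) < Y.η := by
        rw [hd]
        push_cast
        rcases le_total ((k : ℝ) * (Y.η / 2)) (Y.d x (Y.bc s)) with h2 | h2
        · rw [min_eq_left h2]
          have h3 := min_le_left (((k : ℝ) + 1) * (Y.η / 2)) (Y.d x (Y.bc s))
          linarith
        · rw [min_eq_right h2]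
          have h3 := min_le_right (((k : ℝ) + 1) * (Y.η / 2)) (Y.d x (Y.bc s))
          linarith
      have hst : h.St (D.c x (Y.bc s) (k * (Y.η / 2))) (D.c x (Y.bc s) ((k + 1 : ℕ) * (Y.η / 2)))
          (h.κ s (D.c x (Y.bc s) (k * (Y.η / 2))) * h.r s ^ (0 : ℤ) *
            (h.κ s (D.c x (Y.bc s) ((k + 1 : ℕ) * (Y.η / 2))))⁻¹) :=
        ⟨hlt, Or.inr ⟨s, 0, hnear _ hk0, hnear _ hk1, rfl⟩⟩
      have htr := (h1 G V Y h hb).1 _ _ _ _ _ _ _ ih (Ch.Tr.cons hst (Ch.Tr.nil _))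
      have e1 : min ((k : ℝ) * (Y.η / 2)) (Y.d x (Y.bc s)) +
          (Y.d (D.c x (Y.bc s) (k * (Y.η / 2))) (D.c x (Y.bc s) ((k + 1 : ℕ) * (Y.η / 2))) + 0) =
          min (((k + 1 : ℕ) : ℝ) * (Y.η / 2)) (Y.d x (Y.bc s)) := by
        rw [hd]
        ring
      have e2 : h.κ s x * (h.κ s (D.c x (Y.bc s) (k * (Y.η / 2))))⁻¹ *
          (h.κ s (D.c x (Y.bc s) (k * (Y.η / 2))) * h.r s ^ (0 : ℤ) *
            (h.κ s (D.c x (Y.bc s) ((k + 1 : ℕ) * (Y.η / 2))))⁻¹ * 1) =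
          h.κ s x * (h.κ s (D.c x (Y.bc s) ((k + 1 : ℕ) * (Y.η / 2))))⁻¹ := by
        group
      rw [e1, e2] at htr
      exact htr
  obtain ⟨k, hk⟩ := exists_nat_ge (Y.d x (Y.bc s) / (Y.η / 2))
  have hk2 : Y.d x (Y.bc s) ≤ (k : ℝ) * (Y.η / 2) := by
    rwa [div_le_iff₀ (by linarith)] at hk
  have h3 := key k
  rw [D.end_ x (Y.bc s) _ hk2, min_eq_right hk2, hb.κ_bc, inv_one, mul_one] at h3
  exact h3

end Pool.Agent.Sw
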