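import Pool.Agent.Lib.MP_8f66f0_al_Sw.GeoSpec

/-! # Theorem L1, module `Trb`: basic properties of discrete paths -/

set_option autoImplicit false

namespace Pool.Agent.Sw

open Pool.Agent.Cx2 Pool.Agent.LinAll

variable {G V : Type} [Group G] [MulAction G V] {Y : Dat G V} (h : Ch Y)

private theorem Trb_symm (hb : Bas h) (x y : Y.P) (q : h.X.FG) (hs : h.St x y q) :
    h.St y x q⁻¹ := by
  obtain ⟨hd, h1⟩ := hs
  refine ⟨by rw [Y.cat.symm]; exact hd, ?_⟩
  rcases h1 with ⟨v, hv, rfl⟩ | ⟨s, m, hx, hy, rfl⟩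
  · exact Or.inl ⟨v, ⟨hv.2, hv.1⟩, (hb.al_inv x y v).symm⟩
  · refine Or.inr ⟨s, -m, hy, hx, ?_⟩
    rw [mul_inv_rev, mul_inv_rev, inv_inv, zpow_neg, mul_assoc]

private theorem Trb_zpow (s : Y.T) (m : ℤ) :
    h.X.IsP (.inr s) (.inr s) (h.r s ^ m) := by
  have h1 : h.X.IsP (.inr s) (.inr s) (h.r s) := h.X.isP_r s
  have h2 : ∀ n : ℕ, h.X.IsP (.inr s) (.inr s) (h.r s ^ n) := by
    intro n
    induction n with
    | zero =>
      rw [pow_zero]
      exact h.X.isP_one _
    | succ n ih =>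
      rw [pow_succ]
      exact ih.mul h1
  obtain ⟨n, rfl | rfl⟩ := m.eq_nat_or_neg
  · rw [zpow_natCast]
    exact h2 n
  · rw [zpow_neg, zpow_natCast]
    exact (h2 n).inv

private theorem Trb_isP (hb : Bas h) (x y : Y.P) (q : h.X.FG) (hs : h.St x y q) :
    h.X.IsP (h.F x) (h.F y) q := by
  obtain ⟨_, h1⟩ := hs
  rcases h1 with ⟨v, hv, rfl⟩ | ⟨s, m, hx, hy, rfl⟩
  · exact hb.isP_al x y v hv
  · have h8 : Y.ρ < 8 * Y.ρ := by linarith [Y.ρ_pos]
    exact ((hb.isP_κ s x (hb.ball s x (hx.trans h8))).mul (Trb_zpow h s m)).mul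
      (hb.isP_κ s y (hb.ball s y (hy.trans h8))).inv

private theorem Trb_trans {x y z : Y.P} {l l' : ℝ} {g g' : h.X.FG} (h1 : h.Tr x y l g)
    (h2 : h.Tr y z l' g') : h.Tr x z (l + l') (g * g') := by
  induction h1 with
  | nil x =>
    rw [zero_add, one_mul]
    exact h2
  | cons hs _ ih =>
    rw [add_assoc, mul_assoc]
    exact .cons hs (ih h2)

theorem tTrb : S_Trb := by
  intro G V _ _ Y h hb
  refine ⟨fun x y z l l' g g' h1 h2 => Trb_trans h h1 h2, ?_, ?_, ?_, Trb_symm h hb⟩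
  · intro x y l g h1
    induction h1 with
    | nil x =>
      rw [inv_one]
      exact .nil x
    | @cons x y z q g l hs _ ih =>
      have h3 : h.Tr z x (l + (Y.d y x + 0)) (g⁻¹ * (q⁻¹ * 1)) :=
        Trb_trans h ih (.cons (Trb_symm h hb x y q hs) (.nil x))
      rw [add_zero, mul_one, ← mul_inv_rev, Y.cat.symm y x, add_comm] at h3
      exact h3
  · intro x y l g h1
    induction h1 with
    | nil x => exact (Y.d_self x).le
    | @cons x y z q g l hs _ ih =>
      have h3 := Y.cat.tri x y z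
      linarith
  · intro x y l g h1
    induction h1 with
    | nil x => exact h.X.isP_one _
    | @cons x y z q g l hs _ ih => exact (Trb_isP h hb x y q hs).mul ih

end Pool.Agent.Sw
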