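import Pool.Agent.Lib.MP_8f66f0_al_Sw.GeoAlf
import Pool.Agent.Lib.MP_8f66f0_al_Sw.GeoBas
import Pool.Agent.Lib.MP_8f66f0_al_Sw.GeoCh
import Pool.Agent.Lib.MP_8f66f0_al_Sw.GeoChg
import Pool.Agent.Lib.MP_8f66f0_al_Sw.GeoCon
import Pool.Agent.Lib.MP_8f66f0_al_Sw.GeoCst
import Pool.Agent.Lib.MP_8f66f0_al_Sw.GeoEqc
import Pool.Agent.Lib.MP_8f66f0_al_Sw.GeoEqu
import Pool.Agent.Lib.MP_8f66f0_al_Sw.GeoExs
import Pool.Agent.Lib.MP_8f66f0_al_Sw.GeoFin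
import Pool.Agent.Lib.MP_8f66f0_al_Sw.GeoGam
import Pool.Agent.Lib.MP_8f66f0_al_Sw.GeoGd
import Pool.Agent.Lib.MP_8f66f0_al_Sw.GeoGen
import Pool.Agent.Lib.MP_8f66f0_al_Sw.GeoGeu
import Pool.Agent.Lib.MP_8f66f0_al_Sw.GeoGrd
import Pool.Agent.Lib.MP_8f66f0_al_Sw.GeoInd
import Pool.Agent.Lib.MP_8f66f0_al_Sw.GeoLin
import Pool.Agent.Lib.MP_8f66f0_al_Sw.GeoMer
import Pool.Agent.Lib.MP_8f66f0_al_Sw.GeoNea
import Pool.Agent.Lib.MP_8f66f0_al_Sw.GeoQud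
import Pool.Agent.Lib.MP_8f66f0_al_Sw.GeoRad
import Pool.Agent.Lib.MP_8f66f0_al_Sw.GeoRea
import Pool.Agent.Lib.MP_8f66f0_al_Sw.GeoRev
import Pool.Agent.Lib.MP_8f66f0_al_Sw.GeoSho
import Pool.Agent.Lib.MP_8f66f0_al_Sw.GeoSqb
import Pool.Agent.Lib.MP_8f66f0_al_Sw.GeoSqt
import Pool.Agent.Lib.MP_8f66f0_al_Sw.GeoSwp
import Pool.Agent.Lib.MP_8f66f0_al_Sw.GeoToc
import Pool.Agent.Lib.MP_8f66f0_al_Sw.GeoTrb
import Pool.Agent.Lib.MP_8f66f0_al_Sw.GeoTrg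

/-! Theorem L1: groups which act on 2-dimensional CAT(0) complexes (all modules together). -/

set_option autoImplicit false

namespace Pool.Agent.Sw

open Pool.Agent.Cx2 Pool.Agent.LinAll Pool.Agent.TreeC Pool.Agent.Wald Pool.Agent.WaldL

theorem gCon : S_Con := tCon tGd

theorem gCh : S_Ch := tCh tEqc gCon

theorem gGam : S_Gam := tGam tEqc tEqu

theorem gToc : S_Toc := tToc tTrb

theorem gChg : S_Chg := tChg tTrb gToc tSho tMer

theorem gCst : S_Cst := tCst gChg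

theorem gQud : S_Qud := tQud tTrb gChg gCst

theorem gSqt : S_Sqt := tSqt tTrb

theorem gSwp : S_Swp := tSwp tExs gCst gQud gSqt tSqb

theorem gGeu : S_Geu := tGeu tExs gCst gSqt tSqb

theorem gRea : S_Rea := tRea tTrb

theorem gGen : S_Gen := tGen tTrb gSwp gGeu gRea

theorem gGrd : S_Grd := tGrd tAlf

theorem gRev : S_Rev := tRev tAlf

theorem gTrg : S_Trg := tTrg tAlf gGrd tNea

theorem gRad : S_Rad := tRad tAlf gGrd tNea

theorem gInd : S_Ind := tInd tAlf gRev gTrg gRad tLin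

/-- **Theorem L1.** Let `Γ` act on the CAT(0) complex `K` of dimension at most two, and let
`f : G' → Γ` be a homomorphism such that the preimages of the vertex stabilizers are hereditarily
in `KS`. Then `G'` is hereditarily in `KS`. -/
theorem cat_all (Γ V : Type) [Group Γ] [MulAction Γ V] [Nonempty V] (K : Set (Finset V))
    (d : Real2 K → Real2 K → ℝ) (A : ℝ) (h1 : IsCplx2 K) (h2 : IsCat0 d) (h3 : IsTame K d A)
    (h4 : IsAct Γ K d) (G' : Type) [Group G'] (f : G' →* Γ)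
    (hv : ∀ v : V, Hd KS ((MulAction.stabilizer Γ v).comap f)) : Hd KS G' :=
  cat_main tGd gCh (fun G V _ _ Y h => bas h) gGam gGen gInd Γ V K d A h1 h2 h3 h4 G' f hv

end Pool.Agent.Sw
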