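import Pool.Agent.Lib.MP_8f66f0_al_Sw.SpecC
import Pool.Agent.Lib.MP_8f66f0_al_Hier.BlkD

/-! Part C: the input of the patching theorem. -/

set_option autoImplicit false

namespace Pool.Agent.Sw

open Pool.Agent.Wald Pool.Agent.Hier Pool.Agent.Cx2

section Gen

private theorem blo_rp {G C : Type} [Group G] [MulAction G C] (f : C) :
    ∃ rp : G → G, IsRp f rp := by
  classical
  let s := QuotientGroup.rightRel (MulAction.stabilizer G f)
  refine ⟨fun g => (Quotient.mk s g).out, ?_, ?_⟩
  · intro g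
    have h : s ((Quotient.mk s g).out) g := Quotient.mk_out (s := s) g
    rw [QuotientGroup.rightRel_apply] at h
    have h1 := inv_mem h
    rwa [mul_inv_rev, inv_inv] at h1
  · intro d hd g
    have h : Quotient.mk s (d * g) = Quotient.mk s g := by
      refine Quotient.sound ?_
      change s (d * g) g
      rw [QuotientGroup.rightRel_apply, mul_inv_rev, mul_inv_cancel_left]
      exact inv_mem hd
    simp only [h]

private theorem blo_eps {k G T : Type} [CommRing k] [Group G] [Ring T] [Algebra k T]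
    (D : Subgroup G) (L : Subalgebra k T) (π : T →ₐ[k] MonoidAlgebra k G)
    (h : ∀ x ∈ L, ∃ a : MonoidAlgebra k D,
      MonoidAlgebra.mapDomainAlgHom k k D.subtype a = π x) :
    ∃ eps : L →ₐ[k] MonoidAlgebra k D, ∀ x : L,
      MonoidAlgebra.mapDomainAlgHom k k D.subtype (eps x) = π x := by
  have hinj : Function.Injective (MonoidAlgebra.mapDomainAlgHom k k D.subtype) :=
    MonoidAlgebra.mapDomain_injective D.subtype_injective
  let e := AlgEquiv.ofInjective _ hinj
  let g : L →ₐ[k] (MonoidAlgebra.mapDomainAlgHom k k D.subtype).range :=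
    (π.comp L.val).codRestrict _ (fun x => h x x.2)
  refine ⟨(e.symm : _ →ₐ[k] _).comp g, fun x => ?_⟩
  have h1 := e.apply_symm_apply (g x)
  exact congrArg Subtype.val h1

private theorem blo_smul {k T : Type} [CommRing k] [Ring T] [Algebra k T] (Z : Set T)
    (hZ : ∀ (c : k), ∀ z ∈ Z, c • z ∈ Z) (c : k) (x : T) (hx : x ∈ AddSubgroup.closure Z) :
    c • x ∈ AddSubgroup.closure Z := by
  induction hx using AddSubgroup.closure_induction with
  | mem x h => exact AddSubgroup.subset_closure (hZ c x h)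
  | zero =>
    rw [smul_zero]
    exact zero_mem _
  | add x y _ _ h h' =>
    rw [smul_add]
    exact add_mem h h'
  | neg x _ h =>
    rw [smul_neg]
    exact neg_mem h

end Gen

section Elems

variable {G V C : Type} [Group G] [MulAction G V] [MulAction G C] (X : Cx G V C) (f : C)

private theorem blo_sm (g : G) (w : X.FG) :
    (SemidirectProduct.inr g * SemidirectProduct.inl w : X.HH) =
      SemidirectProduct.inl (X.φ g w) * SemidirectProduct.inr g := by
  rw [SemidirectProduct.inl_aut, map_inv, inv_mul_cancel_right]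

private theorem blo_memr : (SemidirectProduct.inl (X.r f) : X.HH) ∈ X.G1 (X.bv f) := by
  rw [X.mem_G1, SemidirectProduct.right_inl, one_smul]
  exact X.isP_r f

private theorem blo_fix {d : G} (hd : d ∈ MulAction.stabilizer G f) : d • X.bv f = X.bv f := by
  rw [← X.bv_smul, MulAction.mem_stabilizer_iff.1 hd]

private theorem blo_memd {d : G} (hd : d ∈ MulAction.stabilizer G f) :
    (SemidirectProduct.inr d : X.HH) ∈ X.G1 (X.bv f) := by
  rw [X.mem_G1, SemidirectProduct.right_inr, blo_fix X f hd]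
  exact X.isP_one _

private def blo_td : MulAction.stabilizer G f →* X.G1 (X.bv f) :=
  (SemidirectProduct.inr.comp (MulAction.stabilizer G f).subtype).codRestrict (X.G1 (X.bv f))
    fun d => blo_memd X f d.2

private theorem blo_cm {d : G} (hd : d ∈ MulAction.stabilizer G f) :
    (SemidirectProduct.inr d * SemidirectProduct.inl (X.r f) : X.HH) =
      SemidirectProduct.inl (X.r f) * SemidirectProduct.inr d := by
  rw [blo_sm, X.φ_r, MulAction.mem_stabilizer_iff.1 hd]

private noncomputable def blo_t : MulAction.stabilizer G f × Multiplicative ℤ →* X.G1 (X.bv f) :=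
  MonoidHom.noncommCoprod (blo_td X f) (zpowersHom _ ⟨_, blo_memr X f⟩) (by
    intro d n
    change Commute (blo_td X f d)
      ((⟨SemidirectProduct.inl (X.r f), blo_memr X f⟩ : X.G1 (X.bv f)) ^ (Multiplicative.toAdd n))
    refine Commute.zpow_right ?_ _
    exact Subtype.ext (blo_cm X f d.2))

private theorem blo_t_val (d : MulAction.stabilizer G f) (n : Multiplicative ℤ) :
    (blo_t X f (d, n) : X.HH) =
      SemidirectProduct.inr (d : G) * SemidirectProduct.inl (X.r f ^ Multiplicative.toAdd n) := by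
  rw [blo_t, MonoidHom.noncommCoprod_apply, Subgroup.coe_mul]
  rw [map_zpow]
  rfl

variable (k : Type) [CommRing k]

private theorem blo_of_t (d : MulAction.stabilizer G f) (n : Multiplicative ℤ) :
    MonoidAlgebra.of k X.HH (blo_t X f (d, n)) =
      X.sg k d * X.pa k (X.r f ^ Multiplicative.toAdd n) := by
  rw [blo_t_val, map_mul]
  rfl

private theorem blo_cmk {d : G} (hd : d ∈ MulAction.stabilizer G f) (n : ℤ) :
    X.sg k d * X.pa k (X.r f ^ n) = X.pa k (X.r f ^ n) * X.sg k d := by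
  have h : (SemidirectProduct.inr d * SemidirectProduct.inl (X.r f ^ n) : X.HH) =
      SemidirectProduct.inl (X.r f ^ n) * SemidirectProduct.inr d := by
    rw [blo_sm, map_zpow, X.φ_r, MulAction.mem_stabilizer_iff.1 hd]
  unfold Cx.sg Cx.pa
  rw [← map_mul, ← map_mul, h]

private theorem blo_pa_mul (w w' : X.FG) : X.pa k (w * w') = X.pa k w * X.pa k w' := by
  unfold Cx.pa
  rw [map_mul, map_mul]

private theorem blo_pa_one : X.pa k 1 = 1 := by
  unfold Cx.pa
  rw [map_one, map_one]

private theorem blo_sg_one : X.sg k 1 = 1 := by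
  unfold Cx.sg
  rw [map_one, map_one]

private theorem blo_sg_mul (g h : G) : X.sg k (g * h) = X.sg k g * X.sg k h := by
  unfold Cx.sg
  rw [map_mul, map_mul]

/-- `r ^ n - 1` is a right multiple of `r - 1`. -/
private theorem blo_zpow (n : ℤ) : ∃ y, X.pa k (X.r f ^ n) - 1 = (X.pa k (X.r f) - 1) * y := by
  induction n using Int.induction_on with
  | zero => exact ⟨0, by rw [zpow_zero, blo_pa_one, sub_self, mul_zero]⟩
  | succ n ih =>
    obtain ⟨y, hy⟩ := ih
    refine ⟨y * X.pa k (X.r f) + 1, ?_⟩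
    rw [zpow_add_one, blo_pa_mul, mul_add, mul_one, ← mul_assoc, ← hy]
    noncomm_ring
  | pred n ih =>
    obtain ⟨y, hy⟩ := ih
    refine ⟨y * X.pa k (X.r f)⁻¹ - X.pa k (X.r f)⁻¹, ?_⟩
    have h1 : X.pa k (X.r f) * X.pa k (X.r f)⁻¹ = 1 := by
      rw [← blo_pa_mul, mul_inv_cancel, blo_pa_one]
    rw [zpow_sub_one, blo_pa_mul, mul_sub, ← mul_assoc, ← hy, sub_mul, sub_mul, one_mul, h1]
    abel

/-- The words with at least one letter are right multiples of `r - 1`. -/
private theorem blo_word (γ : Gam X) {d : G} (hd : d ∈ MulAction.stabilizer G f) (n : ℤ)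
    (x : List (C × ℤ) × G × ℤ) (u : List (List (C × ℤ) × G × ℤ)) :
    ∃ y, wog k f γ d n (x :: u) = (X.pa k (X.r f) - 1) * y := by
  induction u generalizing x with
  | nil =>
    refine ⟨X.sg k d * X.pa k (X.r f ^ n) * (X.io k (PPg k γ (X.bv f) x.1) *
      X.pa k (γ.γ (X.en (X.bv f) x.1) (x.2.1 • X.bv f)) * X.sg k x.2.1 *
        X.pa k (X.r f ^ x.2.2)), ?_⟩
    have h1 : X.sg k d * X.pa k (X.r f) = X.pa k (X.r f) * X.sg k d := by
      have h2 := blo_cmk X f k hd 1
      rwa [zpow_one] at h2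
    have h2 : X.sg k d * X.pa k (X.r f ^ n) * (X.pa k (X.r f) - 1) =
        (X.pa k (X.r f) - 1) * (X.sg k d * X.pa k (X.r f ^ n)) := by
      rw [mul_sub, sub_mul, mul_one, one_mul, mul_assoc, ← blo_pa_mul, ← zpow_add_one,
        add_comm n 1, zpow_add, zpow_one, blo_pa_mul, ← mul_assoc, h1, mul_assoc]
    unfold wog
    change X.sg k d * X.pa k (X.r f ^ n) * (1 * lvg k f γ x) = _
    unfold lvg
    rw [one_mul]
    generalize X.sg k d * X.pa k (X.r f ^ n) = A at h2 ⊢
    generalize X.pa k (X.r f) - 1 = R at h2 ⊢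
    simp only [mul_assoc]
    rw [← mul_assoc A R, h2, mul_assoc]
  | cons x' u ih =>
    obtain ⟨y, hy⟩ := ih x'
    refine ⟨y * lvg k f γ x, ?_⟩
    rw [← mul_assoc, ← hy]
    unfold wog
    change X.sg k d * X.pa k (X.r f ^ n) * (wd (lvg k f γ) (x' :: u) * lvg k f γ x) = _
    rw [mul_assoc]
    simp only [mul_assoc]

private theorem blo_wo_nil (γ : Gam X) (d : G) (n : ℤ) :
    wog k f γ d n [] = X.sg k d * X.pa k (X.r f ^ n) := mul_one _

private theorem blo_wo_one (γ : Gam X) (x : List (C × ℤ) × G × ℤ) :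
    wog k f γ 1 0 [x] = lvg k f γ x := by
  unfold wog
  change X.sg k 1 * X.pa k (X.r f ^ (0 : ℤ)) * (1 * lvg k f γ x) = _
  rw [blo_sg_one, zpow_zero, blo_pa_one, one_mul, one_mul, one_mul]

private theorem blo_wo_cons (γ : Gam X) (d : G) (n : ℤ) (x : List (C × ℤ) × G × ℤ)
    (u : List (List (C × ℤ) × G × ℤ)) :
    wog k f γ d n (x :: u) = wog k f γ d n u * lvg k f γ x := by
  unfold wog
  change _ * (wd (lvg k f γ) u * lvg k f γ x) = _
  rw [mul_assoc, mul_assoc, mul_assoc]

end Elems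

section Main

variable {G V C : Type} [Group G] [MulAction G V] [MulAction G C] {X : Cx G V C} {f : C}
  {k : Type} [CommRing k] {K : Set C} {γ : Gam X} {rp : G → G}

private theorem blo_wo_mem {d : G} (hd : d ∈ MulAction.stabilizer G f) (n : ℤ)
    (u : List (List (C × ℤ) × G × ℤ)) (hu : ∀ x ∈ u, IsLet f K rp x) :
    wog k f γ d n u ∈ WAg k f γ K rp :=
  Submodule.subset_span ⟨d, hd, n, u, hu, rfl⟩

private theorem blo_lv_mem {x : List (C × ℤ) × G × ℤ} (hx : IsLet f K rp x) :
    lvg k f γ x ∈ WAg k f γ K rp := by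
  rw [← blo_wo_one]
  refine blo_wo_mem (one_mem _) 0 [x] ?_
  intro y hy
  rw [List.mem_singleton] at hy
  rwa [hy]

private theorem blo_d_mem {d : G} (hd : d ∈ MulAction.stabilizer G f) (n : ℤ) :
    X.sg k d * X.pa k (X.r f ^ n) ∈ WAg k f γ K rp := by
  rw [← blo_wo_nil X f k γ]
  exact blo_wo_mem hd n [] fun x hx => absurd hx List.not_mem_nil

private theorem blo_one_mem : (1 : MonoidAlgebra k X.HH) ∈ WAg k f γ K rp := by
  have h := blo_d_mem (k := k) (γ := γ) (K := K) (rp := rp) (X := X) (f := f) (one_mem _) 0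
  rwa [blo_sg_one, zpow_zero, blo_pa_one, one_mul] at h

/-- The algebra of the words. -/
private theorem blo_L
    (p1 : ∀ h : X.G1 (X.bv f), X.Pi k K (X.bv f) (MonoidAlgebra.of k X.HH h.1) =
      MonoidAlgebra.of k (X.GK K (X.bv f)) (QuotientGroup.mk h))
    (p2 : ∀ x y, x ∈ X.Ar k (X.bv f) (X.bv f) → X.Pi k K (X.bv f) (x * y) =
      X.Pi k K (X.bv f) x * X.Pi k K (X.bv f) y)
    (w2 : ∀ x ∈ WAg k f γ K rp, ∀ y ∈ WAg k f γ K rp, x * y ∈ WAg k f γ K rp)
    (w3 : ∀ x ∈ WAg k f γ K rp, x ∈ X.Ar k (X.bv f) (X.bv f)) :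
    ∃ L : Subalgebra k (MonoidAlgebra k (X.GK K (X.bv f))),
      ∀ t, t ∈ L ↔ ∃ x ∈ WAg k f γ K rp, X.Pi k K (X.bv f) x = t := by
  have h1 : X.Pi k K (X.bv f) 1 = 1 := by
    have h := p1 1
    rw [QuotientGroup.mk_one, map_one, OneMemClass.coe_one, map_one] at h
    exact h
  have h2 : (1 : MonoidAlgebra k (X.GK K (X.bv f))) ∈
      Submodule.map (X.Pi k K (X.bv f)) (WAg k f γ K rp) :=
    Submodule.mem_map.2 ⟨1, blo_one_mem, h1⟩
  have h3 : ∀ x y, x ∈ Submodule.map (X.Pi k K (X.bv f)) (WAg k f γ K rp) →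
      y ∈ Submodule.map (X.Pi k K (X.bv f)) (WAg k f γ K rp) →
      x * y ∈ Submodule.map (X.Pi k K (X.bv f)) (WAg k f γ K rp) := by
    intro x y hx hy
    rw [Submodule.mem_map] at hx hy ⊢
    obtain ⟨x, hx, rfl⟩ := hx
    obtain ⟨y, hy, rfl⟩ := hy
    exact ⟨x * y, w2 x hx y hy, p2 x y (w3 x hx)⟩
  refine ⟨(Submodule.map (X.Pi k K (X.bv f)) (WAg k f γ K rp)).toSubalgebra h2 h3, fun t => ?_⟩
  rw [Submodule.mem_toSubalgebra, Submodule.mem_map]

/-- The group algebra of the stabilizer in the algebra of `GK`. -/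
private noncomputable def blo_J (X : Cx G V C) (f : C) (k : Type) [CommRing k] (K : Set C) :
    MonoidAlgebra k (MulAction.stabilizer G f) →ₐ[k] MonoidAlgebra k (X.GK K (X.bv f)) :=
  MonoidAlgebra.mapDomainAlgHom k k
    ((QuotientGroup.mk' (X.NK K (X.bv f))).comp (blo_td X f))

/-- The projection to the group algebra of `G`. -/
private noncomputable def blo_pi (X : Cx G V C) (f : C) (k : Type) [CommRing k] (K : Set C) :
    MonoidAlgebra k (X.GK K (X.bv f)) →ₐ[k] MonoidAlgebra k G :=
  MonoidAlgebra.mapDomainAlgHom k k (X.q K (X.bv f))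

private theorem blo_J_single (d : MulAction.stabilizer G f) :
    blo_J X f k K (MonoidAlgebra.single d 1) =
      MonoidAlgebra.of k (X.GK K (X.bv f)) (QuotientGroup.mk (blo_td X f d)) := by
  unfold blo_J
  rw [MonoidAlgebra.mapDomainAlgHom_apply, MonoidAlgebra.mapDomain_single]
  rfl

private theorem blo_pi_J (a : MonoidAlgebra k (MulAction.stabilizer G f)) :
    blo_pi X f k K (blo_J X f k K a) =
      MonoidAlgebra.mapDomainAlgHom k k (MulAction.stabilizer G f).subtype a := by
  induction a using MonoidAlgebra.induction_linear with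
  | zero => rw [map_zero, map_zero, map_zero]
  | add a b ha hb => rw [map_add, map_add, map_add, ha, hb]
  | single d c =>
    unfold blo_pi blo_J
    simp only [MonoidAlgebra.mapDomainAlgHom_apply, MonoidAlgebra.mapDomain_single]
    rfl

private theorem blo_pi_r :
    blo_pi X f k K (MonoidAlgebra.of k (X.GK K (X.bv f))
      (QuotientGroup.mk (⟨SemidirectProduct.inl (X.r f), blo_memr X f⟩ : X.G1 (X.bv f)))) = 1 := by
  unfold blo_pi
  rw [MonoidAlgebra.of_apply, MonoidAlgebra.mapDomainAlgHom_apply, MonoidAlgebra.mapDomain_single]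
  rfl

section P

variable (p1 : ∀ h : X.G1 (X.bv f), X.Pi k K (X.bv f) (MonoidAlgebra.of k X.HH h.1) =
      MonoidAlgebra.of k (X.GK K (X.bv f)) (QuotientGroup.mk h))
    (p2 : ∀ x y, x ∈ X.Ar k (X.bv f) (X.bv f) → X.Pi k K (X.bv f) (x * y) =
      X.Pi k K (X.bv f) x * X.Pi k K (X.bv f) y)
    (w3 : ∀ x ∈ WAg k f γ K rp, x ∈ X.Ar k (X.bv f) (X.bv f))

include p1 in
private theorem blo_Pi_one : X.Pi k K (X.bv f) 1 = 1 := by
  have h := p1 1
  rw [QuotientGroup.mk_one, map_one, OneMemClass.coe_one, map_one] at h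
  exact h

include p1 in
private theorem blo_Pi_d (d : MulAction.stabilizer G f) :
    X.Pi k K (X.bv f) (X.sg k (d : G)) = blo_J X f k K (MonoidAlgebra.single d 1) := by
  rw [blo_J_single]
  exact p1 (blo_td X f d)

include w3 in
private theorem blo_r1 : X.pa k (X.r f) - 1 ∈ X.Ar k (X.bv f) (X.bv f) := by
  refine w3 _ (Submodule.sub_mem _ ?_ blo_one_mem)
  have h := blo_d_mem (k := k) (γ := γ) (K := K) (rp := rp) (X := X) (f := f) (one_mem _) 1
  rwa [blo_sg_one, zpow_one, one_mul] at h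

include p1 p2 w3 in
private theorem blo_Pi_r (y : MonoidAlgebra k X.HH) :
    X.Pi k K (X.bv f) ((X.pa k (X.r f) - 1) * y) =
      (X.Pi k K (X.bv f) (X.pa k (X.r f)) - 1) * X.Pi k K (X.bv f) y := by
  rw [p2 _ _ (blo_r1 w3), map_sub, blo_Pi_one p1]

include p1 in
private theorem blo_Pi_pr :
    blo_pi X f k K (X.Pi k K (X.bv f) (X.pa k (X.r f))) = 1 := by
  have h := p1 ⟨SemidirectProduct.inl (X.r f), blo_memr X f⟩
  change X.Pi k K (X.bv f) (X.pa k (X.r f)) = _ at h
  rw [h, blo_pi_r]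

include p1 p2 w3 in
/-- The elements of the algebra of the words modulo the right ideal of `ρ - 1`. -/
private theorem blo_dec (z : MonoidAlgebra k X.HH) (hz : z ∈ WAg k f γ K rp) :
    ∃ (a : MonoidAlgebra k (MulAction.stabilizer G f)) (s : MonoidAlgebra k (X.GK K (X.bv f))),
      X.Pi k K (X.bv f) z = blo_J X f k K a + (X.Pi k K (X.bv f) (X.pa k (X.r f)) - 1) * s := by
  unfold WAg at hz
  induction hz using Submodule.span_induction with
  | mem z h =>
    obtain ⟨d, hd, n, u, -, rfl⟩ := h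
    rcases u with _ | ⟨x, u⟩
    · obtain ⟨y, hy⟩ := blo_zpow X f k n
      refine ⟨MonoidAlgebra.single ⟨d, hd⟩ 1, X.Pi k K (X.bv f) (y * X.sg k d), ?_⟩
      rw [← blo_Pi_d p1, ← blo_Pi_r p1 p2 w3, ← mul_assoc, ← hy, sub_mul, one_mul, ← map_add,
        add_sub_cancel, blo_wo_nil, blo_cmk X f k hd]
    · obtain ⟨y, hy⟩ := blo_word X f k γ hd n x u
      refine ⟨0, X.Pi k K (X.bv f) y, ?_⟩
      rw [hy, blo_Pi_r p1 p2 w3, map_zero, zero_add]
  | zero => exact ⟨0, 0, by rw [map_zero, map_zero, mul_zero, add_zero]⟩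
  | add z z' _ _ h h' =>
    obtain ⟨a, s, h⟩ := h
    obtain ⟨a', s', h'⟩ := h'
    refine ⟨a + a', s + s', ?_⟩
    rw [map_add, h, h', map_add, mul_add]
    abel
  | smul c z _ h =>
    obtain ⟨a, s, h⟩ := h
    refine ⟨c • a, c • s, ?_⟩
    rw [map_smul, h, map_smul, mul_smul_comm, smul_add]

include p1 in
/-- The projection to a larger set of cells. -/
private theorem blo_pr {K' : Set C} (hKK : K ⊆ K')
    (p1' : ∀ h : X.G1 (X.bv f), X.Pi k K' (X.bv f) (MonoidAlgebra.of k X.HH h.1) =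
      MonoidAlgebra.of k (X.GK K' (X.bv f)) (QuotientGroup.mk h))
    (x : MonoidAlgebra k X.HH) (hx : x ∈ X.Ar k (X.bv f) (X.bv f)) :
    MonoidAlgebra.mapDomainAlgHom k k (X.prK hKK (X.bv f)) (X.Pi k K (X.bv f) x) =
      X.Pi k K' (X.bv f) x := by
  unfold Cx.Ar at hx
  induction hx using Submodule.span_induction with
  | mem x h =>
    obtain ⟨h, hh, rfl⟩ := h
    have e1 := p1 ⟨h, hh⟩
    have e2 := p1' ⟨h, hh⟩
    change X.Pi k K (X.bv f) (MonoidAlgebra.of k X.HH h) = _ at e1
    change X.Pi k K' (X.bv f) (MonoidAlgebra.of k X.HH h) = _ at e2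
    change MonoidAlgebra.mapDomainAlgHom k k (X.prK hKK (X.bv f))
      (X.Pi k K (X.bv f) (MonoidAlgebra.of k X.HH h)) =
        X.Pi k K' (X.bv f) (MonoidAlgebra.of k X.HH h)
    rw [e1, e2, MonoidAlgebra.of_apply, MonoidAlgebra.of_apply,
      MonoidAlgebra.mapDomainAlgHom_apply, MonoidAlgebra.mapDomain_single]
    rfl
  | zero => rw [map_zero, map_zero, map_zero]
  | add x y _ _ h h' => rw [map_add, map_add, map_add, h, h']
  | smul c x _ h => rw [map_smul, map_smul, map_smul, h]

end P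

end Main

theorem blo (_h1 : S_pp) (_h2 : S_hh) (h3 : S_pi) (h4 : S_inj) (h5 : S_wa) (h6 : S_spn) :
    S_blo := by
  classical
  intro G V C _ _ _ X γ hW k _ _ hI K f hK hf
  obtain ⟨rp, hrp⟩ := blo_rp (G := G) f
  obtain ⟨p1, p2, p3, -, p5, -⟩ := h3 G V C X k K (X.bv f) hK
  obtain ⟨w1, w2, w3, w4⟩ := h5 G V C X γ k K f rp hrp hK
  have hin := h4 G V C X γ k K f rp hW hI hrp hK hf
  have hsp := h6 G V C X γ k K f rp hW hrp hK hf
  have hK' : ∀ (g : G), ∀ c ∈ K ∪ MulAction.orbit G f, g • c ∈ K ∪ MulAction.orbit G f := by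
    rintro g c (hc | hc)
    · exact Or.inl (hK g c hc)
    · exact Or.inr ((MulAction.mem_orbit_of_mem_orbit g hc))
  obtain ⟨p1', -, -, -, p5', p6'⟩ := h3 G V C X k (K ∪ MulAction.orbit G f) (X.bv f) hK'
  obtain ⟨L, hL⟩ := blo_L p1 p2 w2 w3
  set r1 := X.Pi k K (X.bv f) (X.pa k (X.r f)) with hr1
  have hdec := fun z hz => blo_dec (γ := γ) (rp := rp) p1 p2 w3 z hz
  have hpr := blo_Pi_r (γ := γ) (rp := rp) p1 p2 w3
  have hpi1 : blo_pi X f k K r1 = 1 := blo_Pi_pr p1
  -- the right ideal of `ρ - 1` is in `L`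
  have hri : ∀ s : MonoidAlgebra k (X.GK K (X.bv f)), (r1 - 1) * s ∈ L := by
    intro s
    obtain ⟨a, ha, rfl⟩ := p3 s
    obtain ⟨w, hw, κ, hκ, e⟩ := Submodule.mem_sup.1 (hsp a ha)
    refine (hL _).2 ⟨w, hw, ?_⟩
    rw [← hpr, ← e, map_add, p5 κ hκ, add_zero]
  obtain ⟨eps, heps⟩ := blo_eps (MulAction.stabilizer G f) L (blo_pi X f k K) (by
    intro x hx
    obtain ⟨z, hz, rfl⟩ := (hL x).1 hx
    obtain ⟨a, s, e⟩ := hdec z hz
    refine ⟨a, ?_⟩
    rw [e, map_add, map_mul, map_sub, map_one, hpi1, sub_self, zero_mul, add_zero, blo_pi_J])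
  have hinj : Function.Injective
      (MonoidAlgebra.mapDomainAlgHom k k (MulAction.stabilizer G f).subtype) :=
    MonoidAlgebra.mapDomain_injective (MulAction.stabilizer G f).subtype_injective
  have heps0 : ∀ s : MonoidAlgebra k (X.GK K (X.bv f)), eps ⟨(r1 - 1) * s, hri s⟩ = 0 := by
    intro s
    apply hinj
    rw [heps, map_zero]
    change blo_pi X f k K ((r1 - 1) * s) = 0
    rw [map_mul, map_sub, map_one, hpi1, sub_self, zero_mul]
  have hker : ∀ x : L, eps x = 0 → ∃ s : MonoidAlgebra k (X.GK K (X.bv f)),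
      (x : MonoidAlgebra k (X.GK K (X.bv f))) = (r1 - 1) * s := by
    intro x hx
    obtain ⟨z, hz, ez⟩ := (hL x).1 x.2
    obtain ⟨a, s, e⟩ := hdec z hz
    have h := heps x
    rw [hx, map_zero, ← ez, e, map_add, map_mul, map_sub, map_one, hpi1, sub_self, zero_mul,
      add_zero, blo_pi_J] at h
    have ha : a = 0 := hinj (by rw [map_zero, ← h])
    refine ⟨s, ?_⟩
    rw [← ez, e, ha, map_zero, zero_add]
  -- the homomorphism `ρ`
  have hρ : ∀ c : MulAction.stabilizer G f × Multiplicative ℤ,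
      MonoidAlgebra.of k (X.GK K (X.bv f)) (QuotientGroup.mk' (X.NK K (X.bv f)) (blo_t X f c)) =
        X.Pi k K (X.bv f) (X.sg k (c.1 : G) * X.pa k (X.r f ^ Multiplicative.toAdd c.2)) := by
    intro c
    have h := p1 (blo_t X f c)
    rw [blo_of_t] at h
    exact h.symm
  have hρL : ∀ c : MulAction.stabilizer G f × Multiplicative ℤ,
      MonoidAlgebra.of k (X.GK K (X.bv f)) (QuotientGroup.mk' (X.NK K (X.bv f)) (blo_t X f c)) ∈
        L := by
    intro c
    rw [hρ]
    exact (hL _).2 ⟨_, blo_d_mem c.1.2 _, rfl⟩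
  let ρ : MulAction.stabilizer G f × Multiplicative ℤ →* L :=
    { toFun := fun c => ⟨MonoidAlgebra.of k (X.GK K (X.bv f))
        (QuotientGroup.mk' (X.NK K (X.bv f)) (blo_t X f c)), hρL c⟩
      map_one' := Subtype.ext (by
        change MonoidAlgebra.of k (X.GK K (X.bv f)) _ = 1
        rw [map_one, map_one, map_one])
      map_mul' := fun a b => Subtype.ext (by
        change MonoidAlgebra.of k (X.GK K (X.bv f)) _ = MonoidAlgebra.of k (X.GK K (X.bv f)) _ *
          MonoidAlgebra.of k (X.GK K (X.bv f)) _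
        rw [map_mul, map_mul, map_mul]) }
  have hρv : ∀ c, (ρ c : MonoidAlgebra k (X.GK K (X.bv f))) =
      X.Pi k K (X.bv f) (X.sg k (c.1 : G) * X.pa k (X.r f ^ Multiplicative.toAdd c.2)) := hρ
  let b : Letr f K rp → L := fun x => ⟨X.Pi k K (X.bv f) (lvg k f γ x.1),
    (hL _).2 ⟨_, blo_lv_mem x.2, rfl⟩⟩
  refine ⟨L, ρ, Letr f K rp, b, eps, ?_, ?_, ?_, ?_, ?_⟩
  · have hval : ∀ (c : MulAction.stabilizer G f × Multiplicative ℤ) (u : List (Letr f K rp)),
        ((ρ c * wd b u : L) : MonoidAlgebra k (X.GK K (X.bv f))) = X.Pi k K (X.bv f)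
          (wog k f γ c.1 (Multiplicative.toAdd c.2) (u.map Subtype.val)) := by
      intro c u
      induction u with
      | nil =>
        change ((ρ c * 1 : L) : MonoidAlgebra k (X.GK K (X.bv f))) = _
        rw [mul_one, hρv, List.map_nil, blo_wo_nil]
      | cons x u ih =>
        change ((ρ c * (wd b u * b x) : L) : MonoidAlgebra k (X.GK K (X.bv f))) = _
        rw [← mul_assoc, MulMemClass.coe_mul, ih, List.map_cons, blo_wo_cons, p2 _ _
          (w4 _ c.1.2 _ _ ?_)]
        intro y hy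
        obtain ⟨y', -, rfl⟩ := List.mem_map.1 hy
        exact y'.2
    refine ⟨(LB.freeW_iff_basis ρ b).2 ⟨?_, ?_⟩, ?_⟩
    · have he : Function.Injective (fun p : List (Letr f K rp) ×
          (MulAction.stabilizer G f × Multiplicative ℤ) =>
            (p.1, (p.2.1, Multiplicative.toAdd p.2.2))) := by
        rintro ⟨u, d, n⟩ ⟨u', d', n'⟩ h
        simp only [Prod.mk.injEq] at h
        obtain ⟨h1, h2, h3⟩ := h
        rw [h1, h2, Multiplicative.toAdd.injective h3]
      have h7 := hin.comp _ he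
      have h8 : (⇑L.val.toLinearMap ∘ fun p : List (Letr f K rp) ×
          (MulAction.stabilizer G f × Multiplicative ℤ) => ρ p.2 * wd b p.1) =
          (fun p : List (Letr f K rp) × (MulAction.stabilizer G f × ℤ) =>
            X.Pi k K (X.bv f) (wog k f γ p.2.1 p.2.2 (p.1.map Subtype.val))) ∘
          (fun p : List (Letr f K rp) × (MulAction.stabilizer G f × Multiplicative ℤ) =>
            (p.1, (p.2.1, Multiplicative.toAdd p.2.2))) := by
        funext p
        exact hval p.2 p.1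
      refine LinearIndependent.of_comp L.val.toLinearMap ?_
      rw [h8]
      exact h7
    · intro x
      obtain ⟨z, hz, ez⟩ := (hL x).1 x.2
      suffices h8 : ∀ z ∈ WAg k f γ K rp, ∃ y, ((Finsupp.linearCombination k
          (fun p : List (Letr f K rp) × (MulAction.stabilizer G f × Multiplicative ℤ) =>
            ρ p.2 * wd b p.1) y : L) : MonoidAlgebra k (X.GK K (X.bv f))) =
              X.Pi k K (X.bv f) z by
        obtain ⟨y, hy⟩ := h8 z hz
        exact ⟨y, Subtype.ext (hy.trans ez)⟩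
      intro z hz
      unfold WAg at hz
      induction hz using Submodule.span_induction with
      | mem z h =>
        obtain ⟨d, hd, n, u, hu, rfl⟩ := h
        lift u to List (Letr f K rp) using hu
        refine ⟨Finsupp.single (u, (⟨d, hd⟩, Multiplicative.ofAdd n)) 1, ?_⟩
        rw [Finsupp.linearCombination_single, one_smul, hval]
        rfl
      | zero => exact ⟨0, by rw [map_zero, map_zero, ZeroMemClass.coe_zero]⟩
      | add z z' _ _ h h' =>
        obtain ⟨y, hy⟩ := h
        obtain ⟨y', hy'⟩ := h'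
        exact ⟨y + y', by rw [map_add, map_add, AddMemClass.coe_add, hy, hy']⟩
      | smul c z _ h =>
        obtain ⟨y, hy⟩ := h
        exact ⟨c • y, by rw [map_smul, map_smul, Subalgebra.coe_smul, hy]⟩
    · intro x c
      obtain ⟨d', hd', x', hx', e⟩ := w1 x.1 x.2 c.1 c.1.2 (Multiplicative.toAdd c.2)
      refine ⟨Finsupp.single ⟨x', hx'⟩ (MonoidAlgebra.single (⟨d', hd'⟩, 1) 1), 0, ?_,
        fun _ _ => rfl, fun u hu => ?_⟩
      · rw [lin, Finsupp.sum_single_index (by rw [map_zero, zero_mul]), ev,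
          Finsupp.sum_zero_index, add_zero]
        change b x * ρ c = gr k ρ (MonoidAlgebra.single (⟨d', hd'⟩, 1) 1) * b ⟨x', hx'⟩
        rw [MonoidAlgebra.lift_single, one_smul]
        apply Subtype.ext
        rw [MulMemClass.coe_mul, MulMemClass.coe_mul, hρv, hρv]
        change X.Pi k K (X.bv f) (lvg k f γ x.1) * _ = _ * X.Pi k K (X.bv f) (lvg k f γ x')
        rw [← p2 _ _ (w3 _ (blo_lv_mem x.2)), ← p2 _ _ (w3 _ (blo_d_mem hd' _)), e, toAdd_one,
          zpow_zero, blo_pa_one, mul_one]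
      · rw [Finsupp.support_zero] at hu
        exact absurd hu (Finset.notMem_empty _)
  · intro d
    apply hinj
    rw [heps, hρv]
    change blo_pi X f k K (X.Pi k K (X.bv f) (X.sg k (d : G) * X.pa k (X.r f ^ (0 : ℤ)))) = _
    rw [zpow_zero, blo_pa_one, mul_one, blo_Pi_d p1, blo_pi_J]
  · intro x hx t
    obtain ⟨s, e⟩ := hker x hx
    refine ⟨⟨(r1 - 1) * (s * t), hri _⟩, heps0 _, ?_⟩
    rw [e, mul_assoc]
  · intro x hx
    obtain ⟨s, e⟩ := hker x hx
    have h1 : X.pa k (X.r f) ∈ X.Ar k (X.bv f) (X.bv f) := by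
      have h := blo_d_mem (k := k) (γ := γ) (K := K) (rp := rp) (X := X) (f := f) (one_mem _) 1
      rw [blo_sg_one, zpow_one, one_mul] at h
      exact w3 _ h
    have h2 := blo_pr p1 Set.subset_union_left p1' _ h1
    have h3 : X.Pi k (K ∪ MulAction.orbit G f) (X.bv f) (X.pa k (X.r f)) = 1 := by
      have h := p1' ⟨SemidirectProduct.inl (X.r f), blo_memr X f⟩
      have h4 : ((⟨SemidirectProduct.inl (X.r f), blo_memr X f⟩ : X.G1 (X.bv f)) :
          X.GK (K ∪ MulAction.orbit G f) (X.bv f)) = 1 := by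
        refine (QuotientGroup.eq_one_iff _).2 (Subgroup.subset_normalClosure
          ⟨f, Or.inr (MulAction.mem_orbit_self f), 1, X.isP_one _, ?_⟩)
        rw [one_mul, inv_one, mul_one]
      rw [h4, map_one] at h
      exact h
    rw [e, map_mul, map_sub, h2, h3, map_one, sub_self, zero_mul]
  · intro t ht
    obtain ⟨a, ha, rfl⟩ := p3 t
    rw [blo_pr p1 Set.subset_union_left p1' a ha] at ht
    have hk := p6' a ha ht
    clear ht ha
    unfold Cx.Kl at hk
    induction hk using Submodule.span_induction with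
    | mem z h =>
      obtain ⟨c, hc, w, hw, h, hh, rfl⟩ := h
      rcases hc with hc | hc
      · rw [p5 _ (Submodule.subset_span ⟨c, hc, w, hw, h, hh, rfl⟩)]
        exact zero_mem _
      · obtain ⟨g, rfl⟩ := MulAction.mem_orbit_iff.1 hc
        have e1 : X.pa k (X.r (g • f)) * X.sg k g = X.sg k g * X.pa k (X.r f) := by
          have h5 := blo_sm X g (X.r f)
          rw [X.φ_r] at h5
          unfold Cx.pa Cx.sg
          rw [← map_mul, ← map_mul, h5]
        have e2 : X.sg k g * X.sg k g⁻¹ = 1 := by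
          rw [← blo_sg_mul, mul_inv_cancel, blo_sg_one]
        have e3 : X.pa k w * (X.pa k (X.r (g • f)) - 1) * MonoidAlgebra.of k X.HH h =
            (X.pa k w * X.sg k g) * ((X.pa k (X.r f) - 1) *
              (X.sg k g⁻¹ * MonoidAlgebra.of k X.HH h)) := by
          have e4 : X.sg k g * (X.pa k (X.r f) - 1) * X.sg k g⁻¹ =
              X.pa k (X.r (g • f)) - 1 := by
            rw [mul_sub, ← e1, mul_one, sub_mul, mul_assoc, e2, mul_one]
          rw [← e4]
          simp only [mul_assoc]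
        have e5 : X.pa k w * X.sg k g ∈ X.Ar k (X.bv f) (X.bv f) := by
          refine Submodule.subset_span ⟨SemidirectProduct.inl w * SemidirectProduct.inr g, ?_, ?_⟩
          · change X.IsP _ ((SemidirectProduct.inl w * SemidirectProduct.inr g :
              X.HH).right • X.bv f) (SemidirectProduct.inl w * SemidirectProduct.inr g : X.HH).left
            rw [SemidirectProduct.mul_right, SemidirectProduct.right_inl,
              SemidirectProduct.right_inr, one_mul, SemidirectProduct.mul_left,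
              SemidirectProduct.left_inl, SemidirectProduct.left_inr, map_one, mul_one,
              ← X.bv_smul]
            exact hw
          · unfold Cx.pa Cx.sg
            rw [← map_mul]
        rw [e3, p2 _ _ e5, hpr]
        exact AddSubgroup.subset_closure ⟨_, ⟨_, hri _⟩, heps0 _, rfl⟩
    | zero =>
      rw [map_zero]
      exact zero_mem _
    | add x y _ _ h h' =>
      rw [map_add]
      exact add_mem h h'
    | smul c x _ h =>
      rw [map_smul]
      refine blo_smul _ ?_ c _ h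
      rintro c _ ⟨s, x, hx, rfl⟩
      exact ⟨c • s, x, hx, by rw [smul_mul_assoc]⟩

end Pool.Agent.Sw
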