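import Pool.Agent.Lib.MP_8f66f0_al_Sw.SpecD
import Pool.Agent.Lib.MP_8f66f0_al_Cx.Comp
import Pool.Agent.Lib.MP_8f66f0_al_Tree.AllK
import Pool.Agent.Lib.MP_8f66f0_al_Tree.Hd

/-! Restriction of the action along a homomorphism. -/

set_option autoImplicit false

namespace Pool.Agent.Sw

open Pool.Agent.Wald Pool.Agent.Hier Pool.Agent.WaldL Pool.Agent.Ind Pool.Agent.TreeC
  Pool.Agent.Cx2

variable {G V C : Type} [Group G] [MulAction G V] [MulAction G C] (X : Cx G V C)
  {G' : Type} [Group G'] (f : G' →* G)

private theorem comp_val {u v : V} (p : X.Γ.Walk u v) :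
    @Cx.val G' V C _ (MulAction.compHom V f) (MulAction.compHom C f) (X.comp f) u v p =
      X.val p := by
  induction p with
  | nil => rfl
  | cons h p ih => exact congrArg (fun z => X.ε _ _ * z) ih

private theorem comp_cy (b : V) (l : List V) : ∀ u : V,
    @Cx.cy G' V C _ (MulAction.compHom V f) (MulAction.compHom C f) (X.comp f) b u l =
      X.cy b u l := by
  induction l with
  | nil => exact fun u => rfl
  | cons x l ih => exact fun u => congrArg (fun z => X.ε u x * z) (ih x)

private theorem comp_r (c : C) :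
    @Cx.r G' V C _ (MulAction.compHom V f) (MulAction.compHom C f) (X.comp f) c = X.r c :=
  comp_cy X f _ _ _

/-- The paths, with the action of `G'` through `f`. -/
@[reducible] def Gam.comp {X : Cx G V C} (γ : Gam X) (f : G' →* G) :
    @Gam G' V C _ (MulAction.compHom V f) (MulAction.compHom C f) (X.comp f) :=
  let _ := MulAction.compHom V f
  let _ := MulAction.compHom C f
  { γ := γ.γ
    one := γ.one
    path := fun u v => by
      obtain ⟨p, hp⟩ := γ.path u v
      exact ⟨p, (comp_val X f p).trans hp⟩
    smul := fun g u v => γ.smul (f g) u v }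

theorem Gen.comp {X : Cx G V C} {γ : Gam X} (h : Gen γ) (f : G' →* G) :
    @Gen G' V C _ (MulAction.compHom V f) (MulAction.compHom C f) (X.comp f) (γ.comp f) := by
  let _ := MulAction.compHom V f
  let _ := MulAction.compHom C f
  intro R _ j B hB o v p
  have h1 : Bdg γ j B := by
    refine ⟨hB.gam, ?_, ?_⟩
    · intro o c v a b ha hb
      have h2 := hB.cell o c v a b ha hb
      rw [comp_r X f] at h2
      exact h2
    · intro o c v a b ha hb
      have h2 := hB.cell' o c v a b ha hb
      rw [comp_r X f] at h2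
      exact h2
  have h2 := h R j B h1 o v p
  rw [comp_val X f]
  exact h2

theorem ind_comp {X : Cx G V C} (k : Type) [CommRing k] (h : X.Ind k) (f : G' →* G) :
    @Cx.Ind G' V C _ (MulAction.compHom V f) (MulAction.compHom C f) (X.comp f) k _ := by
  unfold Cx.Ind
  have h1 : (fun c => chain k (@Cx.r G' V C _ (MulAction.compHom V f) (MulAction.compHom C f)
      (X.comp f) c)) = fun c => chain k (X.r c) := by
    funext c
    rw [comp_r]
    rfl
  rw [h1]
  exact h

/-- `KS` for a group which acts through `f`, if the preimages of the stabilizers are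
hereditarily in `KS`. -/
theorem ks_comp (h5 : S_orb) (h6 : S_res) {X : Cx G V C} (γ : Gam X) (hG : Gen γ)
    (hI : ∀ (k : Type) [CommRing k] [IsDomain k], X.Ind k) (f : G' →* G)
    (hv : ∀ v : V, Hd KS ((MulAction.stabilizer G v).comap f)) : KS G' := by
  let _ := MulAction.compHom V f
  let _ := MulAction.compHom C f
  have hv' : ∀ v : V, Hd KS (MulAction.stabilizer G' v) := fun v => hv v
  exact ⟨h5 G' V C (X.comp f) (γ.comp f) (hG.comp f) (fun k _ _ => ind_comp k (hI k) f) hv',
    h6 G' V C (X.comp f) (γ.comp f) (hG.comp f) (ind_comp ℤ (hI ℤ) f) hv'⟩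

/-- Subgroups of the preimage of a subgroup. -/
private theorem comp_hd {G₁ G₂ : Type} [Group G₁] [Group G₂] (f : G₁ →* G₂) (K : Subgroup G₂)
    (H : Subgroup G₁) (h : Hd KS (K.comap f)) : Hd KS (K.comap (f.comp H.subtype)) := by
  have h1 : TClv (Hd KS) := hd KS ks_tcl
  have h2 : ((K.comap (f.comp H.subtype)).map H.subtype) ≤ K.comap f := by
    rintro _ ⟨x, hx, rfl⟩
    exact hx
  have e : (K.comap (f.comp H.subtype)) ≃*
      ((K.comap (f.comp H.subtype)).map H.subtype).subgroupOf (K.comap f) :=
    ((K.comap (f.comp H.subtype)).equivMapOfInjective H.subtype H.subtype_injective).trans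
      (Subgroup.subgroupOfEquivOfLe h2).symm
  exact h1.iso _ _ e.symm (h1.sub _ _ h)

/-- The theorem for the class `Hd KS`, with the action through a homomorphism. -/
theorem hd_comp (h5 : S_orb) (h6 : S_res) {X : Cx G V C} (γ : Gam X) (hG : Gen γ)
    (hI : ∀ (k : Type) [CommRing k] [IsDomain k], X.Ind k) (f : G' →* G)
    (hv : ∀ v : V, Hd KS ((MulAction.stabilizer G v).comap f)) : Hd KS G' := fun H =>
  ks_comp h5 h6 γ hG hI (f.comp H.subtype) fun v => comp_hd f _ H (hv v)

end Pool.Agent.Sw
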