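import Pool.Agent.Lib.MP_8f66f0_al_Sw.Defs

/-! Part C of `MP_8f66f0_al_Cx` for arbitrary equivariant paths (statements; the proofs are those
of the folder `MP_8f66f0_al_Cx`). -/

set_option autoImplicit false

namespace Pool.Agent.Sw

open Pool.Agent.Wald Pool.Agent.Hier Pool.Agent.Cx2

/-- C1 (Pp). Formal properties of the products of beads.

Proof. (1) `gm γ o (L.head?.map fst) c = γ (en o L) (bv c)` (cases on `L`). (2), (3) induction on
the list, with (1). (4) `φ g (γ u v) = γ (g u) (g v)`, `φ g (r c) = r (g c)`. (5) `γ u u = 1`: the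
geodesic walk from `u` to `u` has length `0`, so it is `nil`. (6) `γ u v` and `r_c^n` are paths. -/
def S_pp : Prop :=
  ∀ (G V C : Type) [Group G] [MulAction G V] [MulAction G C] (X : Cx G V C) (γ : Gam X)
    (k : Type) [CommRing k],
    (∀ o c n L, PPg k γ o ((c, n) :: L) = PPg k γ o L *
      (MonoidAlgebra.of k _ (γ.γ (X.en o L) (X.bv c)) * MonoidAlgebra.of k _ (X.r c ^ n) *
        (MonoidAlgebra.of k _ (X.r c) - 1))) ∧
    (∀ o L₁ L₂, PPg k γ o (L₂ ++ L₁) = PPg k γ o L₁ * PPg k γ (X.en o L₁) L₂) ∧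
    (∀ o L₁ L₂, X.en o (L₂ ++ L₁) = X.en (X.en o L₁) L₂) ∧
    (∀ g o L, X.ac k g (PPg k γ o L) = PPg k γ (g • o) (sm g L) ∧
      X.en (g • o) (sm g L) = g • X.en o L) ∧
    (∀ u, γ.γ u u = 1) ∧
    (∀ u v, X.IsP u v (γ.γ u v)) ∧
    (∀ o L, PPg k γ o L ∈ Submodule.span k
      ((fun w => MonoidAlgebra.of k X.FG w) '' {w | X.IsP o (X.en o L) w}))


/-- C2 (Gsp). Paths are combinations of beads followed by a geodesic.

Proof. `Gen` for `R = MonoidAlgebra k X.FG`, `j = MonoidAlgebra.of`, `B o v` = the span (as an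
additive subgroup). `geo`: the empty list. `cell`: it suffices to take
`a = P_o(L₁) γ(e_o(L₁), bv c)`, `b = P_{bv c}(L₂) γ(e(L₂), v)`; then
`a (r_c - 1) b = P_o(L₂ ++ (c, 0) :: L₁) γ(.., v)` by S_pp. `cell'`:
`a (r_c⁻¹ - 1) b = - a r_c⁻¹ (r_c - 1) b = - P_o(L₂ ++ (c, -1) :: L₁) γ(.., v)`. -/
def S_gsp : Prop :=
  ∀ (G V C : Type) [Group G] [MulAction G V] [MulAction G C] (X : Cx G V C) (γ : Gam X)
    (k : Type) [CommRing k], Gen γ → ∀ (o v : V) (w : X.FG), X.IsP o v w →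
    MonoidAlgebra.of k X.FG w ∈ Submodule.span k
      (Set.range fun L => PPg k γ o L * MonoidAlgebra.of k _ (γ.γ (X.en o L) v))


/-- C3 (Mrg). Lists of beads can be made reduced.

Proof. Induction on `L = (c, n) :: L₁`. Apply the induction hypothesis to `L₁`; the lists `L'` have
the same head cell, so the same end point. If the head cell of `L'` is not `c` (or `L'` is empty)
then `(c, n) :: L'` is reduced. If `L' = (c, m) :: L''`, then (`γ (bv c) (bv c) = 1`)
`P_o((c, n) :: (c, m) :: L'') = P_o(L'') γ r^m (r - 1) r^n (r - 1) =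
P_o((c, m + n + 1) :: L'') - P_o((c, m + n) :: L'')`. -/
def S_mrg : Prop :=
  ∀ (G V C : Type) [Group G] [MulAction G V] [MulAction G C] (X : Cx G V C) (γ : Gam X)
    (k : Type) [CommRing k] (o : V) (L : List (C × ℤ)),
    PPg k γ o L ∈ Submodule.span k (PPg k γ o '' {L' | Ch L' ∧
      (L'.map Prod.fst).head? = (L.map Prod.fst).head? ∧
      ∀ c, c ∈ L'.map Prod.fst ↔ c ∈ L.map Prod.fst})


/-- C4 (Hh). The algebra of `HH`.

Proof. (1)-(4) on group elements (`SemidirectProduct.inl_aut`). (5) The `k`-linear maps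
`MonoidAlgebra k HH → MonoidAlgebra k FG`, `(w, g') ↦ w` if `g' = g` and `0` otherwise, give the
coefficient of `s_g`: from a relation `∑ a(L, g) io(P_o(L)) s_g = 0` we get
`∑_L a(L, g) P_o(L) = 0` for every `g`; use `S_indep` with `gm γ o`. -/
def S_hh : Prop :=
  ∀ (G V C : Type) [Group G] [MulAction G V] [MulAction G C] (X : Cx G V C) (γ : Gam X)
    (k : Type) [CommRing k] [IsDomain k],
    (∀ g x, X.sg k g * X.io k x = X.io k (X.ac k g x) * X.sg k g) ∧
    (X.sg k 1 = 1 ∧ ∀ g h, X.sg k (g * h) = X.sg k g * X.sg k h) ∧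
    (X.pa k 1 = 1 ∧ ∀ w w', X.pa k (w * w') = X.pa k w * X.pa k w') ∧
    (∀ w, X.io k (MonoidAlgebra.of k _ w) = X.pa k w) ∧
    (∀ g w, X.ac k g (MonoidAlgebra.of k _ w) = MonoidAlgebra.of k _ (X.φ g w)) ∧
    (X.Ind k → ∀ o, LinearIndependent k fun p : {L : List (C × ℤ) // Ch L} × G =>
      X.io k (PPg k γ o p.1.1) * X.sg k p.2)


/-- C6 (Kil). The elements of `Kl` times `r_f - 1` are combinations of beads with a cell in `K`.

Proof. A generator `[w] ([r_c] - 1) h`, `h = (w', g)`, `w'` a path from `bv c` to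
`g o = bv (g f)`. `s_g ([r_f] - 1) = ([r_{g f}] - 1) s_g`. By S_gsp `w = ∑ P_o(L₁) γ(.., bv c)` and
`w' = ∑ P_{bv c}(L₂) γ(.., bv (g f))`, so the product is a combination of
`io (P_o((g f, 0) :: L₂ ++ (c, 0) :: L₁)) s_g`; make these lists reduced with S_mrg. -/
def S_kil : Prop :=
  ∀ (G V C : Type) [Group G] [MulAction G V] [MulAction G C] (X : Cx G V C) (γ : Gam X)
    (k : Type) [CommRing k] (K : Set C) (f : C), Gen γ →
    ∀ x ∈ X.Kl k K (X.bv f) (X.bv f), x * (X.pa k (X.r f) - 1) ∈ Submodule.span k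
      {z | ∃ (L : List (C × ℤ)) (g : G), Ch L ∧ (∃ a ∈ L, a.1 ∈ K) ∧
        z = X.io k (PPg k γ (X.bv f) L) * X.sg k g}


/-- C8 (Frm). The formula.

Proof. Induction on `u`. `u = []`: `d • bv f = bv f`, `γ (bv f) (bv f) = 1`,
`φ d (r f) = r (d • f) = r f`. `x :: u`, `x = (l, g, m)`, `(L', h) = cod f d n u`: by the induction
hypothesis and `wd ℓ (x :: u) = wd ℓ u * ℓ x` the left side is
`io(P_o(L')) s_h io(P_o(l)) [γ(e_o(l), g o)] s_g [r_f^m] ([r_f] - 1)`; move `s_h`, `s_g` to the right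
(S_hh, S_pp): `io(P_o(L') P_{h o}(sm h l) γ(h e_o(l), h g o) r_{hgf}^m (r_{hgf} - 1)) s_{hg}`;
`e_o(L') = h o` because the head of `L'` is a bead of `h • f`. -/
def S_frm : Prop :=
  ∀ (G V C : Type) [Group G] [MulAction G V] [MulAction G C] (X : Cx G V C) (γ : Gam X)
    (k : Type) [CommRing k] (f : C) (d : G) (n : ℤ) (u : List (List (C × ℤ) × G × ℤ)),
    d ∈ MulAction.stabilizer G f →
    wog k f γ d n u * (X.pa k (X.r f) - 1) =
      X.io k (PPg k γ (X.bv f) (cod f d n u).1) * X.sg k (cod f d n u).2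


/-- C9 (Inj). Independence of the words in the algebra of `GK`.

Proof. `z = ∑ x(p) wo(p)` is in `Ar o o` (each factor is an arrow or a combination of arrows:
S_wa) and `Pi z = 0`, so `z ∈ Kl K o o` (S_pi), and `z ([r_f] - 1) = ∑ x(p) io(P_o(L_p)) s_{g_p}`,
`(L_p, g_p) = cod f ..`, is by S_kil a combination of elements `io(P_o(L)) s_g`, `L` reduced with
a cell in `K`. The `(L_p, g_p)` are different, reduced and have no cell in `K` (S_cod), so by
independence (S_hh) `x = 0`. -/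
def S_inj : Prop :=
  ∀ (G V C : Type) [Group G] [MulAction G V] [MulAction G C] (X : Cx G V C) (γ : Gam X)
    (k : Type) [CommRing k] [IsDomain k] (K : Set C) (f : C) (rp : G → G), Gen γ → X.Ind k →
    IsRp f rp → (∀ (g : G), ∀ c ∈ K, g • c ∈ K) → f ∉ K →
    LinearIndependent k fun p : List (Letr f K rp) × (MulAction.stabilizer G f × ℤ) =>
      X.Pi k K (X.bv f) (wog k f γ p.2.1 p.2.2 (p.1.map Subtype.val))


/-- C10 (Wa). The span of the words is a ring.

Proof. (1) `lv (l, g, n) s_d [r_f^m] = ([r_f] - 1) io(P_o(l)) [γ(e_o(l), g o)] s_{g d} [r_f^{n+m}]`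
(`φ d r_f = r_f`); let `g' = rp (g d)`, `g d = d' g'`, `d' ∈ D`; moving `s_{d'}` to the left
(`d' o = o`, `φ d' r_f = r_f`) this is `s_{d'} lv (sm d'⁻¹ l, g', n + m)`
(`P_o(l) = ac d' (P_o(sm d'⁻¹ l))`, `γ(e_o(l), g d o) = φ d' γ(e_o(sm d'⁻¹ l), g' o)`, and
`g d o = g o`). It is a letter: `sm d'⁻¹ l` is reduced, avoids `K` and the orbit; `rp g' = g'`;
if `sm d'⁻¹ l = []` then `l = []` and `g' ∈ D ⟺ g ∈ D`. (2) By (1) and induction the product of
two elements `wo` is an element `wo`. (3) `[r_f]`, `s_d` (`d o = o`), and the letters are in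
`Ar o o`: `P_o(l)` is a combination of paths from `o` to `e_o(l)` (S_pp), `s_g` is an arrow from
`g o` to `o`. -/
def S_wa : Prop :=
  ∀ (G V C : Type) [Group G] [MulAction G V] [MulAction G C] (X : Cx G V C) (γ : Gam X)
    (k : Type) [CommRing k] (K : Set C) (f : C) (rp : G → G),
    IsRp f rp → (∀ (g : G), ∀ c ∈ K, g • c ∈ K) →
    (∀ x, IsLet f K rp x → ∀ d ∈ MulAction.stabilizer G f, ∀ m : ℤ,
      ∃ d' ∈ MulAction.stabilizer G f, ∃ x', IsLet f K rp x' ∧
        lvg k f γ x * (X.sg k d * X.pa k (X.r f ^ m)) = X.sg k d' * lvg k f γ x') ∧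
    (∀ x ∈ WAg k f γ K rp, ∀ y ∈ WAg k f γ K rp, x * y ∈ WAg k f γ K rp) ∧
    (∀ x ∈ WAg k f γ K rp, x ∈ X.Ar k (X.bv f) (X.bv f)) ∧
    (∀ d ∈ MulAction.stabilizer G f, ∀ (n : ℤ) (u : List (List (C × ℤ) × G × ℤ)),
      (∀ x ∈ u, IsLet f K rp x) → wog k f γ d n u ∈ X.Ar k (X.bv f) (X.bv f))


/-- C11 (Spn). `(r_f - 1) a` is a combination of words, modulo `Kl`.

Proof. `a = [w] s_g`, `w` a path from `o` to `g o`; S_gsp and S_mrg: `w` is a combination of
`P_o(L) γ(e_o(L), g o)` with `L` reduced. CLAIM: `z = ([r_f] - 1) io(P_o(L)) [γ(e_o(L), g o)] s_g`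
is in `WA + Kl`, for every reduced `L` and every `g`. If `L` contains a cell `c ∈ K`,
`L = L₂ ++ (c, n) :: L₁`, then `z ∈ Kl`: it is `x [r_c^n] ([r_c] - 1) y`, `x ∈ Ar o (bv c)` a
combination of paths, `y ∈ Ar (bv c) o`. Otherwise induction on the length of `L`. If `L` has no
cell in the orbit of `f`: `g = d g'`, `g' = rp g`, `d ∈ D`, and
`z = s_d lv (sm d⁻¹ L, g', 0)` as in S_wa; if this is not a letter then `L = []` and `g ∈ D`, so
`γ(o, g o) = 1` and `z = ([r_f] - 1) s_g ∈ WA` (words of length `0`). If `L = l ++ (h f, n) :: L'`,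
`l` without cells in the orbit of `f` (the segment at the head), then
`z = {([r_f] - 1) io(P_o(L')) [γ(e_o(L'), h o)] s_h} [r_f^n]
{([r_f] - 1) io(P_o(sm h⁻¹ l)) [γ(.., h⁻¹ g o)] s_{h⁻¹ g}}`; the first factor is in `WA + Kl` by
induction, `[r_f^n] ∈ WA`, the last factor is in `WA` by the first case; `Kl K o o * Ar o o ≤ Kl`
and `WA * WA ≤ WA`. -/
def S_spn : Prop :=
  ∀ (G V C : Type) [Group G] [MulAction G V] [MulAction G C] (X : Cx G V C) (γ : Gam X)
    (k : Type) [CommRing k] (K : Set C) (f : C) (rp : G → G), Gen γ →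
    IsRp f rp → (∀ (g : G), ∀ c ∈ K, g • c ∈ K) → f ∉ K →
    ∀ a ∈ X.Ar k (X.bv f) (X.bv f),
      (X.pa k (X.r f) - 1) * a ∈ WAg k f γ K rp ⊔ X.Kl k K (X.bv f) (X.bv f)


/-- C12 (Blo). The input of the patching theorem, for killing the orbit of `f`.

Proof. `T = MonoidAlgebra k (GK K o)`, `o = bv f`, `D` = the stabilizer of `f`. In `T` we have
`ρ = Pi [r_f]` (invertible) and `d ↦ Pi s_d`, which commute; `ρ₀ (d, n) = Pi (s_d [r_f^n])`. `L` =
the set of all `Pi x`, `x ∈ WA` (a subalgebra by S_wa and S_pi). By S_spn (and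
`s_d [r_f^n] = s_d + s_d ([r_f^n] - 1)`, `[r_f^n] - 1` a multiple of `[r_f] - 1`, letters start
with `[r_f] - 1`, `s_d` commutes with `[r_f]`) `L` is the sum of the `Pi s_d` (`d ∈ D`) and of
the right ideal `I = (ρ - 1) T`. Blocks: `β = Letr f K rp`, `b x = Pi (lv x)`; `FreeW` by
`LB.freeW_iff_basis` (Hier/BlkD): injectivity is S_inj, surjectivity the definition of `L`;
`tri` by S_wa (1) with `y = single x' (single (d', 1) 1)` and `z = 0`
(`lv x s_d [r_f^m] = s_{d'} lv x'`). `eps`: let `π : T → MonoidAlgebra k G` be induced by `q`;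
`π (ρ) = 1`, so `π` maps `L` to the span of the `d ∈ D`; `eps x` = the element of
`MonoidAlgebra k D` with image `π x`. `eps x = 0` iff `x ∈ I`: if `x = ∑ a_d Pi s_d + i`,
`i ∈ I`, then `eps x = ∑ a_d d`. The right ideal property is clear. Kernel of
`T → MonoidAlgebra k (GK (K ∪ orbit f) o)`: `Pi` for both sets and S_pi (5), (6): an element of
`Kl (K ∪ orbit) o o` is a sum of an element of `Kl K o o` and of elements
`[w] ([r_{g f}] - 1) h = ([w] s_g) ([r_f] - 1) (s_{g⁻¹} h)` with `[w] s_g ∈ Ar o o`,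
`s_{g⁻¹} h ∈ Ar o o`. -/
def S_blo : Prop :=
  ∀ (G V C : Type) [Group G] [MulAction G V] [MulAction G C] (X : Cx G V C) (γ : Gam X),
    Gen γ → ∀ (k : Type) [CommRing k] [IsDomain k], X.Ind k → ∀ (K : Set C) (f : C),
    (∀ (g : G), ∀ c ∈ K, g • c ∈ K) → f ∉ K →
    ∃ (L : Subalgebra k (MonoidAlgebra k (X.GK K (X.bv f))))
      (ρ : MulAction.stabilizer G f × Multiplicative ℤ →* L) (β : Type) (b : β → L)
      (eps : L →ₐ[k] MonoidAlgebra k (MulAction.stabilizer G f)),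
      Blk k ρ b (fun _ => 0) ∧ (∀ d, eps (ρ (d, 1)) = MonoidAlgebra.single d 1) ∧
      (∀ x : L, eps x = 0 → ∀ t : MonoidAlgebra k (X.GK K (X.bv f)), ∃ x' : L, eps x' = 0 ∧
        (x : MonoidAlgebra k (X.GK K (X.bv f))) * t = (x' : MonoidAlgebra k (X.GK K (X.bv f)))) ∧
      (∀ x : L, eps x = 0 → MonoidAlgebra.mapDomainAlgHom k k
        (X.prK (Set.subset_union_left (s := K) (t := MulAction.orbit G f)) (X.bv f))
          (x : MonoidAlgebra k (X.GK K (X.bv f))) = 0) ∧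
      ∀ t : MonoidAlgebra k (X.GK K (X.bv f)), MonoidAlgebra.mapDomainAlgHom k k
        (X.prK (Set.subset_union_left (s := K) (t := MulAction.orbit G f)) (X.bv f)) t = 0 →
        t ∈ AddSubgroup.closure {z | ∃ s, ∃ x : L, eps x = 0 ∧
          z = s * (x : MonoidAlgebra k (X.GK K (X.bv f)))}


end Pool.Agent.Sw
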