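import Pool.Agent.Lib.MP_8f66f0_al_Sw.SpecC

/-! Paths are combinations of beads followed by a geodesic. -/

set_option autoImplicit false

namespace Pool.Agent.Sw

open Pool.Agent.Wald Pool.Agent.Hier Pool.Agent.Cx2

section

variable {G V C : Type} [Group G] [MulAction G V] [MulAction G C] {X : Cx G V C} (γ : Gam X)
  (k : Type) [CommRing k]

/-- The span of the products of beads followed by a geodesic. -/
private noncomputable def gspS (o v : V) : Submodule k (MonoidAlgebra k X.FG) :=
  Submodule.span k (Set.range fun L => PPg k γ o L * MonoidAlgebra.of k _ (γ.γ (X.en o L) v))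

private theorem gsp_gen (h : S_pp) (o : V) (c : C) (v : V) (n : ℤ) (L₁ L₂ : List (C × ℤ)) :
    PPg k γ o L₁ * MonoidAlgebra.of k _ (γ.γ (X.en o L₁) (X.bv c)) *
      (MonoidAlgebra.of k _ (X.r c ^ n) * (MonoidAlgebra.of k _ (X.r c) - 1)) *
      (PPg k γ (X.bv c) L₂ * MonoidAlgebra.of k _ (γ.γ (X.en (X.bv c) L₂) v)) ∈
      gspS γ k o v := by
  obtain ⟨h1, h2, h3, -⟩ := h G V C X γ k
  refine Submodule.subset_span ⟨L₂ ++ (c, n) :: L₁, ?_⟩
  change PPg k γ o (L₂ ++ (c, n) :: L₁) *
    MonoidAlgebra.of k _ (γ.γ (X.en o (L₂ ++ (c, n) :: L₁)) v) = _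
  rw [h2, h3, h1]
  have e : X.en o ((c, n) :: L₁) = X.bv c := rfl
  rw [e]
  simp only [mul_assoc]

private theorem gsp_mul (h : S_pp) (o : V) (c : C) (v : V) (n : ℤ) (a b : MonoidAlgebra k X.FG)
    (ha : a ∈ gspS γ k o (X.bv c)) (hb : b ∈ gspS γ k (X.bv c) v) :
    a * (MonoidAlgebra.of k _ (X.r c ^ n) * (MonoidAlgebra.of k _ (X.r c) - 1)) * b ∈
      gspS γ k o v := by
  unfold gspS at ha
  induction ha using Submodule.span_induction with
  | zero =>
    rw [zero_mul, zero_mul]
    exact Submodule.zero_mem _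
  | add x y _ _ hx hy =>
    rw [add_mul, add_mul]
    exact Submodule.add_mem _ hx hy
  | smul t x _ hx =>
    rw [smul_mul_assoc, smul_mul_assoc]
    exact Submodule.smul_mem _ t hx
  | mem x hx =>
    obtain ⟨L₁, rfl⟩ := hx
    unfold gspS at hb
    induction hb using Submodule.span_induction with
    | zero =>
      rw [mul_zero]
      exact Submodule.zero_mem _
    | add x y _ _ hx hy =>
      rw [mul_add]
      exact Submodule.add_mem _ hx hy
    | smul t x _ hx =>
      rw [mul_smul_comm]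
      exact Submodule.smul_mem _ t hx
    | mem y hy =>
      obtain ⟨L₂, rfl⟩ := hy
      exact gsp_gen γ k h o c v n L₁ L₂

end

theorem gsp (h : S_pp) : S_gsp := by
  intro G V C _ _ _ X γ k _ hG o v w hw
  obtain ⟨p, rfl⟩ := hw
  refine hG (MonoidAlgebra k X.FG) (MonoidAlgebra.of k X.FG)
    (fun o v => (gspS γ k o v).toAddSubgroup) ?_ o v p
  refine ⟨?_, ?_, ?_⟩
  · intro o v
    refine Submodule.subset_span ⟨[], ?_⟩
    change PPg k γ o [] * MonoidAlgebra.of k _ (γ.γ (X.en o []) v) = _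
    have e1 : PPg k γ o [] = 1 := rfl
    have e2 : X.en o ([] : List (C × ℤ)) = o := rfl
    rw [e1, e2, one_mul]
  · intro o c v a b ha hb
    have h1 := gsp_mul γ k h o c v 0 a b ha hb
    rw [zpow_zero, map_one, one_mul] at h1
    exact h1
  · intro o c v a b ha hb
    have h1 := gsp_mul γ k h o c v (-1) a b ha hb
    have e : MonoidAlgebra.of k _ (X.r c ^ (-1 : ℤ)) * (MonoidAlgebra.of k _ (X.r c) - 1) =
        -(MonoidAlgebra.of k _ (X.r c)⁻¹ - 1) := by
      rw [zpow_neg_one, mul_sub, mul_one, ← map_mul, inv_mul_cancel, map_one, neg_sub]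
    rw [e, mul_neg, neg_mul] at h1
    have h2 := Submodule.neg_mem _ h1
    rw [neg_neg] at h2
    exact h2

end Pool.Agent.Sw
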