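import Pool.Agent.Lib.MP_8f66f0_al_Sw.SpecC

/-! C9 (Inj). Independence of the words in the algebra of `GK`. (helper47) -/

set_option autoImplicit false

namespace Pool.Agent.Sw

open Pool.Agent.Wald Pool.Agent.Hier Pool.Agent.Cx2

/-- A combination of members of an independent family outside `S` which lies in the span of the
members in `S` is zero. -/
private theorem inj_ind {k A I P : Type} [CommRing k] [AddCommGroup A] [Module k A] {v : I → A}
    (hv : LinearIndependent k v) (S : Set I) (φ : P → I) (hφ : Function.Injective φ)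
    (hS : ∀ p, φ p ∉ S) (x : P →₀ k)
    (hx : Finsupp.linearCombination k (fun p => v (φ p)) x ∈ Submodule.span k (v '' S)) :
    x = 0 := by
  obtain ⟨l, hl, hl'⟩ := (Finsupp.mem_span_image_iff_linearCombination k).1 hx
  have h1 : Finsupp.linearCombination k v (x.mapDomain φ) =
      Finsupp.linearCombination k (fun p => v (φ p)) x := by
    rw [Finsupp.linearCombination_mapDomain]
    rfl
  rw [← h1] at hl'
  have h2 : l = x.mapDomain φ := hv hl'
  ext p
  have h3 : (x.mapDomain φ) (φ p) = x p := Finsupp.mapDomain_apply hφ x p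
  rw [← h3, ← h2, Finsupp.coe_zero, Pi.zero_apply]
  by_contra h4
  exact hS p ((Finsupp.mem_supported k l).1 hl (Finset.mem_coe.2 (Finsupp.mem_support_iff.2 h4)))

theorem inj (h1 : S_pi) (h2 : S_kil) (h3 : S_cod) (h4 : S_frm) (h5 : S_hh) (h6 : S_wa) :
    S_inj := by
  intro G V C _ _ _ X γ k _ _ K f rp hG hI hrp hK hf
  rw [linearIndependent_iff]
  intro x hx
  have hlet : ∀ p : List (Letr f K rp) × (MulAction.stabilizer G f × ℤ),
      ∀ y ∈ p.1.map Subtype.val, IsLet f K rp y := by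
    intro p y hy
    obtain ⟨a, -, rfl⟩ := List.mem_map.1 hy
    exact a.2
  obtain ⟨c1, c2⟩ := h3 G C K f rp hrp hK hf
  set w : List (Letr f K rp) × (MulAction.stabilizer G f × ℤ) → MonoidAlgebra k X.HH :=
    fun p => wog k f γ p.2.1 p.2.2 (p.1.map Subtype.val) with hw
  have hz : Finsupp.linearCombination k w x ∈ X.Ar k (X.bv f) (X.bv f) := by
    rw [Finsupp.linearCombination_apply]
    refine Submodule.sum_mem _ fun p _ => Submodule.smul_mem _ _ ?_
    exact (h6 G V C X γ k K f rp hrp hK).2.2.2 p.2.1 p.2.1.2 p.2.2 _ (hlet p)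
  have hz0 : X.Pi k K (X.bv f) (Finsupp.linearCombination k w x) = 0 := by
    rw [← hx, Finsupp.linearCombination_apply, Finsupp.linearCombination_apply, Finsupp.sum,
      Finsupp.sum, map_sum]
    refine Finset.sum_congr rfl fun p _ => ?_
    rw [map_smul]
  have hz1 := (h1 G V C X k K (X.bv f) hK).2.2.2.2.2 _ hz hz0
  have hz2 := h2 G V C X γ k K f hG _ hz1
  have hv := (h5 G V C X γ k).2.2.2.2.2 hI (X.bv f)
  refine inj_ind hv {p | ∃ a ∈ p.1.1, a.1 ∈ K}
    (fun p => (⟨(cod f (p.2.1 : G) p.2.2 (p.1.map Subtype.val)).1,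
      (c1 p.2.1 p.2.2 _ (hlet p)).1⟩, (cod f (p.2.1 : G) p.2.2 (p.1.map Subtype.val)).2))
    ?_ ?_ x ?_
  · intro p p' hp
    obtain ⟨e1, e2⟩ := Prod.mk.inj hp
    have e3 := Subtype.mk.inj e1
    obtain ⟨a1, a2, a3⟩ := c2 p.2.1 p'.2.1 p.2.2 p'.2.2 _ _ p.2.1.2 p'.2.1.2 (hlet p) (hlet p')
      (Prod.ext e3 e2)
    refine Prod.ext ?_ (Prod.ext (Subtype.ext a1) a2)
    exact (List.map_injective_iff.2 Subtype.val_injective) a3
  · rintro p ⟨a, ha, ha'⟩
    exact (c1 p.2.1 p.2.2 _ (hlet p)).2 a ha ha'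
  · have hs : Finsupp.linearCombination k (fun p : List (Letr f K rp) ×
        (MulAction.stabilizer G f × ℤ) =>
        X.io k (PPg k γ (X.bv f) (cod f (p.2.1 : G) p.2.2 (p.1.map Subtype.val)).1) *
          X.sg k (cod f (p.2.1 : G) p.2.2 (p.1.map Subtype.val)).2) x =
        Finsupp.linearCombination k w x * (X.pa k (X.r f) - 1) := by
      rw [Finsupp.linearCombination_apply, Finsupp.linearCombination_apply, Finsupp.sum,
        Finsupp.sum, Finset.sum_mul]
      refine Finset.sum_congr rfl fun p _ => ?_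
      rw [smul_mul_assoc, hw]
      rw [h4 G V C X γ k f p.2.1 p.2.2 (p.1.map Subtype.val) p.2.1.2]
    refine Eq.mpr (congrArg (fun t => t ∈ _) hs) ?_
    refine Submodule.span_mono ?_ hz2
    rintro _ ⟨L, g, a1, a2, rfl⟩
    exact ⟨(⟨L, a1⟩, g), a2, rfl⟩

end Pool.Agent.Sw
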