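import Pool.Agent.Lib.MP_8f66f0_al_Sw.SpecC

/-! C6 (Kil). The elements of `Kl` times `r_f - 1`. (helper47) -/

set_option autoImplicit false

namespace Pool.Agent.Sw

open Pool.Agent.Wald Pool.Agent.Hier Pool.Agent.Cx2

section

private theorem kil_mul {k A : Type} [CommRing k] [Ring A] [Algebra k A] {S T U : Set A}
    (h : ∀ s ∈ S, ∀ t ∈ T, s * t ∈ Submodule.span k U) {x y : A}
    (hx : x ∈ Submodule.span k S) (hy : y ∈ Submodule.span k T) :
    x * y ∈ Submodule.span k U := by
  induction hx using Submodule.span_induction with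
  | mem x hx =>
    induction hy using Submodule.span_induction with
    | mem y hy => exact h x hx y hy
    | zero => rw [mul_zero]; exact Submodule.zero_mem _
    | add a b _ _ ha hb => rw [mul_add]; exact Submodule.add_mem _ ha hb
    | smul c a _ ha => rw [mul_smul_comm]; exact Submodule.smul_mem _ c ha
  | zero => rw [zero_mul]; exact Submodule.zero_mem _
  | add a b _ _ ha hb => rw [add_mul]; exact Submodule.add_mem _ ha hb
  | smul c a _ ha => rw [smul_mul_assoc]; exact Submodule.smul_mem _ c ha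

variable {G V C : Type} [Group G] [MulAction G V] [MulAction G C] (X : Cx G V C) (γ : Gam X)
  (k : Type) [CommRing k]

private theorem kil_step (h1 : S_gsp) (h2 : S_pp) (hG : Gen γ) (o : V) (c : C) (w : X.FG)
    (hw : X.IsP o (X.bv c) w) :
    MonoidAlgebra.of k X.FG w * (MonoidAlgebra.of k _ (X.r c) - 1) ∈
      Submodule.span k (Set.range fun L => PPg k γ o ((c, 0) :: L)) := by
  have h := h1 G V C X γ k hG o (X.bv c) w hw
  have h3 : MonoidAlgebra.of k X.FG (X.r c) - 1 ∈
      Submodule.span k {MonoidAlgebra.of k X.FG (X.r c) - 1} :=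
    Submodule.mem_span_singleton_self _
  refine kil_mul ?_ h h3
  rintro _ ⟨L, rfl⟩ _ rfl
  refine Submodule.subset_span ⟨L, ?_⟩
  change PPg k γ o ((c, 0) :: L) =
    PPg k γ o L * MonoidAlgebra.of k _ (γ.γ (X.en o L) (X.bv c)) *
      (MonoidAlgebra.of k _ (X.r c) - 1)
  rw [(h2 G V C X γ k).1, zpow_zero, map_one, mul_one, mul_assoc]

/-- The product of the two halves. -/
private theorem kil_two (h1 : S_gsp) (h2 : S_pp) (h3 : S_mrg) (hG : Gen γ) (K : Set C) (o : V)
    (c c' : C) (hc : c ∈ K) (w w' : X.FG) (hw : X.IsP o (X.bv c) w)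
    (hw' : X.IsP (X.bv c) (X.bv c') w') :
    MonoidAlgebra.of k X.FG w * (MonoidAlgebra.of k _ (X.r c) - 1) *
      (MonoidAlgebra.of k X.FG w' * (MonoidAlgebra.of k _ (X.r c') - 1)) ∈
      Submodule.span k {z | ∃ L : List (C × ℤ), Ch L ∧ (∃ a ∈ L, a.1 ∈ K) ∧
        z = PPg k γ o L} := by
  refine kil_mul ?_ (kil_step X γ k h1 h2 hG o c w hw) (kil_step X γ k h1 h2 hG _ c' w' hw')
  rintro _ ⟨L₁, rfl⟩ _ ⟨L₂, rfl⟩
  change PPg k γ o ((c, 0) :: L₁) * PPg k γ (X.bv c) ((c', 0) :: L₂) ∈ _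
  have h4 := (h2 G V C X γ k).2.1 o ((c, 0) :: L₁) ((c', 0) :: L₂)
  have h5 : X.en o ((c, 0) :: L₁) = X.bv c := rfl
  rw [h5] at h4
  rw [← h4]
  have h6 := h3 G V C X γ k o (((c', 0) :: L₂) ++ ((c, 0) :: L₁))
  refine Submodule.span_mono ?_ h6
  rintro _ ⟨L', ⟨h7, -, h8⟩, rfl⟩
  refine ⟨L', h7, ?_, rfl⟩
  have h9 : c ∈ L'.map Prod.fst := by
    refine (h8 c).2 ?_
    rw [List.map_append]
    refine List.mem_append_right _ ?_
    rw [List.map_cons]
    exact List.mem_cons_self
  obtain ⟨a, ha, ha'⟩ := List.mem_map.1 h9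
  refine ⟨a, ha, ?_⟩
  rw [ha']
  exact hc

private theorem kil_io (w : X.FG) : X.io k (MonoidAlgebra.of k _ w) = X.pa k w :=
  MonoidAlgebra.mapDomain_single

private theorem kil_comm (g : G) (w : X.FG) :
    X.sg k g * X.pa k w = X.pa k (X.φ g w) * X.sg k g := by
  unfold Cx.sg Cx.pa
  rw [← map_mul, ← map_mul]
  congr 1
  refine SemidirectProduct.ext ?_ ?_
  · simp
  · simp

private theorem kil_arr (h : X.HH) :
    MonoidAlgebra.of k X.HH h = X.pa k h.left * X.sg k h.right := by
  unfold Cx.sg Cx.pa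
  rw [← map_mul, SemidirectProduct.inl_left_mul_inr_right]

private theorem kil_push (K : Set C) (o : V) (g : G) (y : MonoidAlgebra k X.FG)
    (hy : y ∈ Submodule.span k {z | ∃ L : List (C × ℤ), Ch L ∧ (∃ a ∈ L, a.1 ∈ K) ∧
        z = PPg k γ o L}) :
    X.io k y * X.sg k g ∈ Submodule.span k
      {z | ∃ (L : List (C × ℤ)) (g : G), Ch L ∧ (∃ a ∈ L, a.1 ∈ K) ∧
        z = X.io k (PPg k γ o L) * X.sg k g} := by
  induction hy using Submodule.span_induction with
  | mem y hy =>
    obtain ⟨L, h8, h9, rfl⟩ := hy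
    exact Submodule.subset_span ⟨L, g, h8, h9, rfl⟩
  | zero => rw [map_zero, zero_mul]; exact Submodule.zero_mem _
  | add a b _ _ ha hb => rw [map_add, add_mul]; exact Submodule.add_mem _ ha hb
  | smul c a _ ha =>
    rw [map_smul, smul_mul_assoc]
    exact Submodule.smul_mem _ c ha

end

theorem kil (h1 : S_gsp) (h2 : S_pp) (h3 : S_mrg) (h4 : S_hh) : S_kil := by
  intro G V C _ _ _ X γ k _ K f hG x hx
  induction hx using Submodule.span_induction with
  | mem x hx =>
    obtain ⟨c, hc, w, hw, h, hh, rfl⟩ := hx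
    have h5 : X.IsP (X.bv c) (X.bv (h.right • f)) h.left := by
      rw [X.bv_smul]
      exact hh
    have h6 := kil_two X γ k h1 h2 h3 hG K (X.bv f) c (h.right • f) hc w h.left hw h5
    have h7 : X.pa k w * (X.pa k (X.r c) - 1) * MonoidAlgebra.of k X.HH h *
        (X.pa k (X.r f) - 1) = X.io k (MonoidAlgebra.of k X.FG w *
          (MonoidAlgebra.of k _ (X.r c) - 1) * (MonoidAlgebra.of k X.FG h.left *
            (MonoidAlgebra.of k _ (X.r (h.right • f)) - 1))) * X.sg k h.right := by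
      rw [map_mul, map_mul, map_mul, map_sub, map_sub, map_one, kil_io, kil_io, kil_io, kil_io,
        kil_arr, ← X.φ_r]
      have h8 : X.sg k h.right * (X.pa k (X.r f) - 1) =
          (X.pa k (X.φ h.right (X.r f)) - 1) * X.sg k h.right := by
        rw [mul_sub, sub_mul, mul_one, one_mul, kil_comm]
      rw [mul_assoc _ _ (X.pa k (X.r f) - 1), mul_assoc (X.pa k h.left), h8]
      simp only [mul_assoc]
    rw [h7]
    exact kil_push X γ k K (X.bv f) h.right _ h6
  | zero => rw [zero_mul]; exact Submodule.zero_mem _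
  | add a b _ _ ha hb => rw [add_mul]; exact Submodule.add_mem _ ha hb
  | smul c a _ ha => rw [smul_mul_assoc]; exact Submodule.smul_mem _ c ha

end Pool.Agent.Sw
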