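import Pool.Agent.Lib.MP_8f66f0_al_Sw.SpecC

/-! C3 (Mrg). Lists of beads can be made reduced. (helper57) -/

set_option autoImplicit false

namespace Pool.Agent.Sw

open Pool.Agent.Wald Pool.Agent.Hier Pool.Agent.Cx2

section

variable {G V C : Type} [Group G] [MulAction G V] [MulAction G C] (X : Cx G V C)

private theorem mrg_en (o : V) (L L' : List (C × ℤ))
    (h : (L'.map Prod.fst).head? = (L.map Prod.fst).head?) : X.en o L' = X.en o L := by
  cases L' with
  | nil =>
    cases L with
    | nil => rfl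
    | cons a L => exact absurd h (by simp)
  | cons b L' =>
    cases L with
    | nil => exact absurd h (by simp)
    | cons a L =>
      have h1 : b.1 = a.1 := by simpa using h
      change X.bv b.1 = X.bv a.1
      rw [h1]

private theorem mrg_ch (c : C) (m n : ℤ) (L : List (C × ℤ)) (h : Ch ((c, m) :: L)) :
    Ch ((c, n) :: L) := by
  cases L with
  | nil => exact List.isChain_singleton _
  | cons a L =>
    unfold Ch at h ⊢
    rw [List.isChain_cons_cons] at h ⊢
    exact h

private theorem mrg_id {R : Type} [Ring R] {F : Type} [Group F] (φ : F →* R) (p : R) (g r : F)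
    (m n : ℤ) : p * (φ g * φ (r ^ m) * (φ r - 1)) * (φ 1 * φ (r ^ n) * (φ r - 1)) =
      p * (φ g * φ (r ^ (m + n + 1)) * (φ r - 1)) - p * (φ g * φ (r ^ (m + n)) * (φ r - 1)) := by
  have h1 : r * r ^ n = r ^ n * r := by rw [← zpow_one_add, ← zpow_add_one, add_comm]
  have h2 : (φ r - 1) * φ (r ^ n) = φ (r ^ n) * (φ r - 1) := by
    rw [sub_mul, mul_sub, one_mul, mul_one, ← map_mul, ← map_mul, h1]
  have h3 : φ (r ^ (m + n)) = φ (r ^ m) * φ (r ^ n) := by rw [← map_mul, ← zpow_add]
  have h4 : φ (r ^ (m + n + 1)) = φ (r ^ m) * φ (r ^ n) * φ r := by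
    rw [← map_mul, ← map_mul, ← zpow_add, ← zpow_add_one]
  rw [h3, h4, map_one, one_mul, ← mul_sub, ← sub_mul, ← mul_sub]
  have h5 : φ (r ^ m) * φ (r ^ n) * φ r - φ (r ^ m) * φ (r ^ n) =
      φ (r ^ m) * φ (r ^ n) * (φ r - 1) := by rw [mul_sub, mul_one]
  rw [h5]
  have h6 : p * (φ g * φ (r ^ m) * (φ r - 1)) * (φ (r ^ n) * (φ r - 1)) =
      p * (φ g * (φ (r ^ m) * ((φ r - 1) * φ (r ^ n)) * (φ r - 1))) := by
    simp only [mul_assoc]
  rw [h6, h2]
  simp only [mul_assoc]

end

theorem mrg (h : S_pp) : S_mrg := by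
  intro G V C _ _ _ X γ k _ o L
  obtain ⟨hcons, -, -, -, hself, -, -⟩ := h G V C X γ k
  induction L with
  | nil =>
    exact Submodule.subset_span ⟨[], ⟨List.isChain_nil, rfl, fun c => Iff.rfl⟩, rfl⟩
  | cons a L₁ ih =>
    obtain ⟨c, n⟩ := a
    rw [hcons]
    generalize PPg k γ o L₁ = x at ih ⊢
    induction ih using Submodule.span_induction with
    | zero => rw [zero_mul]; exact Submodule.zero_mem _
    | add a b _ _ ha hb => rw [add_mul]; exact Submodule.add_mem _ ha hb
    | smul t a _ ha => rw [smul_mul_assoc]; exact Submodule.smul_mem _ t ha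
    | mem x hx =>
      obtain ⟨L', ⟨h1, h2, h3⟩, rfl⟩ := hx
      rw [← mrg_en X o L₁ L' h2]
      rcases L' with _ | ⟨⟨c', m⟩, L''⟩
      · rw [← hcons]
        refine Submodule.subset_span ⟨[(c, n)], ⟨List.isChain_singleton _, rfl, fun e => ?_⟩, rfl⟩
        have h4 := h3 e
        simp only [List.map_nil, List.not_mem_nil, false_iff] at h4
        simp only [List.map_cons, List.map_nil, List.mem_cons, List.not_mem_nil, or_false]
        exact ⟨fun h => Or.inl h, fun h => h.resolve_right h4⟩
      · by_cases hc : c = c'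
        · subst hc
          have h5 : X.en o ((c, m) :: L'') = X.bv c := rfl
          rw [h5, hself, hcons, mrg_id (MonoidAlgebra.of k X.FG), ← hcons, ← hcons]
          have h6 : ∀ m' : ℤ, PPg k γ o ((c, m') :: L'') ∈ Submodule.span k
              (PPg k γ o '' {L' | Ch L' ∧
                (L'.map Prod.fst).head? = (((c, n) :: L₁).map Prod.fst).head? ∧
                ∀ e, e ∈ L'.map Prod.fst ↔ e ∈ ((c, n) :: L₁).map Prod.fst}) := by
            intro m'
            refine Submodule.subset_span ⟨(c, m') :: L'', ⟨mrg_ch c m m' L'' h1, rfl,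
              fun e => ?_⟩, rfl⟩
            have h4 := h3 e
            simp only [List.map_cons, List.mem_cons] at h4 ⊢
            rw [← h4]
            exact ⟨fun h => Or.inr h, fun h => h.elim Or.inl id⟩
          exact Submodule.sub_mem _ (h6 _) (h6 _)
        · rw [← hcons]
          refine Submodule.subset_span ⟨(c, n) :: (c', m) :: L'', ⟨?_, rfl, fun e => ?_⟩, rfl⟩
          · exact List.isChain_cons_cons.2 ⟨hc, h1⟩
          · have h4 := h3 e
            simp only [List.map_cons, List.mem_cons] at h4 ⊢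
            rw [← h4]

end Pool.Agent.Sw
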