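import Pool.Agent.Lib.MP_8f66f0_al_Sw.Fml2

/-! C10 (Wa). The span of the words is a ring. (helper36) -/

set_option autoImplicit false

namespace Pool.Agent.Sw

open Pool.Agent.Wald Pool.Agent.Hier Pool.Agent.Cx2

section

variable {G V C : Type} [Group G] [MulAction G V] [MulAction G C] (X : Cx G V C)
  (k : Type) [CommRing k]

private theorem wa_one (h1 : S_pp) (γ : Gam X) (K : Set C) (f : C) (rp : G → G)
    (hrp : IsRp f rp) (hK : ∀ (g : G), ∀ c ∈ K, g • c ∈ K) (x : List (C × ℤ) × G × ℤ)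
    (hx : IsLet f K rp x) (d : G) (hd : d ∈ MulAction.stabilizer G f) (m : ℤ) :
    ∃ d' ∈ MulAction.stabilizer G f, ∃ x', IsLet f K rp x' ∧
      lvg k f γ x * (X.sg k d * X.pa k (X.r f ^ m)) = X.sg k d' * lvg k f γ x' := by
  obtain ⟨l, g, n⟩ := x
  obtain ⟨x1, x2, x3, x4⟩ := hx
  rw [fml_lv_right X k γ f d hd]
  refine fml_letter X k h1 γ K f rp hrp hK l (g * d) (n + m) x1 x2 ?_
  rintro ⟨h2, h3⟩
  apply x4
  refine ⟨h2, ?_⟩
  have h4 := (MulAction.stabilizer G f).mul_mem h3 ((MulAction.stabilizer G f).inv_mem hd)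
  rwa [mul_inv_cancel_right] at h4

private theorem wa_word (h1 : S_pp) (γ : Gam X) (K : Set C) (f : C) (rp : G → G)
    (hrp : IsRp f rp) (hK : ∀ (g : G), ∀ c ∈ K, g • c ∈ K)
    (u : List (List (C × ℤ) × G × ℤ)) :
    (∀ x ∈ u, IsLet f K rp x) → ∀ (d : G), d ∈ MulAction.stabilizer G f → ∀ m : ℤ,
    ∃ d' ∈ MulAction.stabilizer G f, ∃ (n' : ℤ) (u' : List (List (C × ℤ) × G × ℤ)),
      (∀ x ∈ u', IsLet f K rp x) ∧
      wd (lvg k f γ) u * (X.sg k d * X.pa k (X.r f ^ m)) = wog k f γ d' n' u' := by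
  induction u with
  | nil =>
    intro _ d hd m
    refine ⟨d, hd, m, [], by simp, ?_⟩
    unfold wog
    rw [show wd (lvg k f γ) [] = 1 from rfl, one_mul, mul_one]
  | cons x u ih =>
    intro hu d hd m
    obtain ⟨d1, hd1, x', hx', e1⟩ := wa_one X k h1 γ K f rp hrp hK x (hu x (by simp)) d hd m
    obtain ⟨d2, hd2, n2, u2, hu2, e2⟩ := ih (fun y hy => hu y (List.mem_cons_of_mem _ hy)) d1 hd1 0
    refine ⟨d2, hd2, n2, x' :: u2, ?_, ?_⟩
    · intro y hy
      rcases List.mem_cons.1 hy with rfl | hy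
      · exact hx'
      · exact hu2 y hy
    · rw [zpow_zero, fml_pa_one, mul_one] at e2
      rw [show wd (lvg k f γ) (x :: u) = wd (lvg k f γ) u * lvg k f γ x from rfl, mul_assoc,
        e1, ← mul_assoc, e2]
      unfold wog
      rw [show wd (lvg k f γ) (x' :: u2) = wd (lvg k f γ) u2 * lvg k f γ x' from rfl]
      simp only [mul_assoc]

private theorem wa_mul (h1 : S_pp) (γ : Gam X) (K : Set C) (f : C) (rp : G → G)
    (hrp : IsRp f rp) (hK : ∀ (g : G), ∀ c ∈ K, g • c ∈ K)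
    (d : G) (hd : d ∈ MulAction.stabilizer G f) (n : ℤ) (u : List (List (C × ℤ) × G × ℤ))
    (hu : ∀ x ∈ u, IsLet f K rp x)
    (d' : G) (hd' : d' ∈ MulAction.stabilizer G f) (n' : ℤ) (u' : List (List (C × ℤ) × G × ℤ))
    (hu' : ∀ x ∈ u', IsLet f K rp x) :
    wog k f γ d n u * wog k f γ d' n' u' ∈ WAg k f γ K rp := by
  obtain ⟨d2, hd2, n2, u2, hu2, e2⟩ := wa_word X k h1 γ K f rp hrp hK u hu d' hd' n'
  refine Submodule.subset_span ⟨d * d2, (MulAction.stabilizer G f).mul_mem hd hd2, n + n2,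
    u' ++ u2, ?_, ?_⟩
  · intro x hx
    rcases List.mem_append.1 hx with hx | hx
    · exact hu' x hx
    · exact hu2 x hx
  · have e3 : wog k f γ d n u * wog k f γ d' n' u' =
        X.sg k d * X.pa k (X.r f ^ n) *
          (wd (lvg k f γ) u * (X.sg k d' * X.pa k (X.r f ^ n'))) * wd (lvg k f γ) u' := by
      unfold wog
      simp only [mul_assoc]
    have e4 := fml_comm X k d2 (X.r f ^ n) (by rw [map_zpow, fml_stab X f d2 hd2])
    rw [e3, e2]
    unfold wog
    rw [fml_wd_append, fml_sg_mul, zpow_add, fml_pa_mul]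
    calc X.sg k d * X.pa k (X.r f ^ n) * (X.sg k d2 * X.pa k (X.r f ^ n2) *
          wd (lvg k f γ) u2) * wd (lvg k f γ) u'
        = X.sg k d * (X.pa k (X.r f ^ n) * X.sg k d2) * X.pa k (X.r f ^ n2) *
          wd (lvg k f γ) u2 * wd (lvg k f γ) u' := by simp only [mul_assoc]
      _ = _ := by
          rw [← e4]
          simp only [mul_assoc]

private theorem wa_lv_mem (h1 : S_pp) (γ : Gam X) (f : C)
    (hAr : ∀ (u v w : V) (x y : MonoidAlgebra k X.HH), x ∈ X.Ar k u v → y ∈ X.Ar k v w →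
      x * y ∈ X.Ar k u w) (x : List (C × ℤ) × G × ℤ) :
    lvg k f γ x ∈ X.Ar k (X.bv f) (X.bv f) := by
  obtain ⟨l, g, m⟩ := x
  have hγ := (h1 G V C X γ k).2.2.2.2.2.1
  have e1 : X.pa k (X.r f) - 1 ∈ X.Ar k (X.bv f) (X.bv f) := by
    refine Submodule.sub_mem _ (fml_pa_mem X k (X.isP_r f)) ?_
    rw [← fml_pa_one X k]
    exact fml_pa_mem X k (X.isP_one _)
  have e2 := fml_PP_mem X k h1 γ (X.bv f) l
  have e3 := fml_pa_mem X k (hγ (X.en (X.bv f) l) (g • X.bv f))
  have e4 := fml_sg_mem X k g (X.bv f)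
  have e5 := fml_pa_mem X k (fml_isP_zpow X (X.isP_r f) m)
  exact hAr _ _ _ _ _ (hAr _ _ _ _ _ (hAr _ _ _ _ _ e1 (hAr _ _ _ _ _ e2 e3)) e4) e5

private theorem wa_wd_mem (h1 : S_pp) (γ : Gam X) (f : C)
    (hAr : ∀ (u v w : V) (x y : MonoidAlgebra k X.HH), x ∈ X.Ar k u v → y ∈ X.Ar k v w →
      x * y ∈ X.Ar k u w) (u : List (List (C × ℤ) × G × ℤ)) :
    wd (lvg k f γ) u ∈ X.Ar k (X.bv f) (X.bv f) := by
  induction u with
  | nil =>
    rw [show wd (lvg k f γ) [] = 1 from rfl, ← fml_pa_one X k]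
    exact fml_pa_mem X k (X.isP_one _)
  | cons x u ih => exact hAr _ _ _ _ _ ih (wa_lv_mem X k h1 γ f hAr x)

private theorem wa_wo_mem (h1 : S_pp) (γ : Gam X) (f : C)
    (hAr : ∀ (u v w : V) (x y : MonoidAlgebra k X.HH), x ∈ X.Ar k u v → y ∈ X.Ar k v w →
      x * y ∈ X.Ar k u w) (d : G) (hd : d ∈ MulAction.stabilizer G f) (n : ℤ)
    (u : List (List (C × ℤ) × G × ℤ)) :
    wog k f γ d n u ∈ X.Ar k (X.bv f) (X.bv f) := by
  have e1 := fml_sg_mem X k d (X.bv f)
  rw [fml_stab_bv X f d hd] at e1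
  exact hAr _ _ _ _ _ (hAr _ _ _ _ _ e1 (fml_pa_mem X k (fml_isP_zpow X (X.isP_r f) n)))
    (wa_wd_mem X k h1 γ f hAr u)

end

theorem wa (h1 : S_pp) (_h2 : S_hh) (h3 : S_pi) : S_wa := by
  intro G V C _ _ _ X γ k _ K f rp hrp hK
  have hAr := (h3 G V C X k K (X.bv f) hK).2.2.2.1
  refine ⟨fun x hx d hd m => wa_one X k h1 γ K f rp hrp hK x hx d hd m, ?_, ?_,
    fun d hd n u _ => wa_wo_mem X k h1 γ f hAr d hd n u⟩
  · intro x hx y hy
    induction hx using Submodule.span_induction with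
    | mem x hx =>
      obtain ⟨d, hd, n, u, hu, rfl⟩ := hx
      induction hy using Submodule.span_induction with
      | mem y hy =>
        obtain ⟨d', hd', n', u', hu', rfl⟩ := hy
        exact wa_mul X k h1 γ K f rp hrp hK d hd n u hu d' hd' n' u' hu'
      | zero => rw [mul_zero]; exact Submodule.zero_mem _
      | add a b _ _ ha hb => rw [mul_add]; exact Submodule.add_mem _ ha hb
      | smul c a _ ha => rw [mul_smul_comm]; exact Submodule.smul_mem _ c ha
    | zero => rw [zero_mul]; exact Submodule.zero_mem _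
    | add a b _ _ ha hb => rw [add_mul]; exact Submodule.add_mem _ ha hb
    | smul c a _ ha => rw [smul_mul_assoc]; exact Submodule.smul_mem _ c ha
  · intro x hx
    induction hx using Submodule.span_induction with
    | mem x hx =>
      obtain ⟨d, hd, n, u, hu, rfl⟩ := hx
      exact wa_wo_mem X k h1 γ f hAr d hd n u
    | zero => exact Submodule.zero_mem _
    | add a b _ _ ha hb => exact Submodule.add_mem _ ha hb
    | smul c a _ ha => exact Submodule.smul_mem _ c ha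

end Pool.Agent.Sw
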