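import Pool.Agent.Lib.MP_8f66f0_al_Cx.AllC
import Pool.Agent.Lib.MP_8f66f0_al_Cx.Dz
import Pool.Agent.Lib.MP_8f66f0_al_Sw.Blo
import Pool.Agent.Lib.MP_8f66f0_al_Sw.Comp
import Pool.Agent.Lib.MP_8f66f0_al_Sw.Frm
import Pool.Agent.Lib.MP_8f66f0_al_Sw.Gsp
import Pool.Agent.Lib.MP_8f66f0_al_Sw.Hh
import Pool.Agent.Lib.MP_8f66f0_al_Sw.Inj
import Pool.Agent.Lib.MP_8f66f0_al_Sw.Kil
import Pool.Agent.Lib.MP_8f66f0_al_Sw.Mrg
import Pool.Agent.Lib.MP_8f66f0_al_Sw.Orb
import Pool.Agent.Lib.MP_8f66f0_al_Sw.Pp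
import Pool.Agent.Lib.MP_8f66f0_al_Sw.Res
import Pool.Agent.Lib.MP_8f66f0_al_Sw.Spn
import Pool.Agent.Lib.MP_8f66f0_al_Sw.Stp
import Pool.Agent.Lib.MP_8f66f0_al_Sw.Uni
import Pool.Agent.Lib.MP_8f66f0_al_Sw.Wa

/-! Theorem 2D for arbitrary equivariant paths `γ` (with `Gen γ` and `H_2 = 0`): assembly. -/

set_option autoImplicit false

namespace Pool.Agent.Sw

open Pool.Agent.Wald Pool.Agent.Hier Pool.Agent.WaldL Pool.Agent.Ind Pool.Agent.TreeC
  Pool.Agent.Cx2

theorem all_gsp : S_gsp := gsp pp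

theorem all_mrg : S_mrg := mrg pp

theorem all_hh : S_hh := hh all_indep

theorem all_wa : S_wa := wa pp all_hh pi_all

theorem all_kil : S_kil := kil all_gsp pp all_mrg all_hh

theorem all_inj : S_inj := inj pi_all all_kil cod_all (frm pp all_hh) all_hh all_wa

theorem all_spn : S_spn := spn all_gsp pp all_mrg all_hh pi_all all_wa

theorem all_blo : S_blo := blo pp all_hh pi_all all_inj all_wa all_spn

theorem all_stp : S_stp := stp all_blo all_psf all_patch

theorem all_orb : S_orb := orb all_stp bpt (uni pi_all) all_go dz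

theorem all_res : S_res := res (uni pi_all)

/-- **The theorem** for the class `Hd KS`: let `G` act on a 2-complex `X` with equivariant paths
`γ` between the vertices which generate (`Gen γ`), such that the chains of the boundaries of the
cells are linearly independent. If all stabilizers of vertices are hereditarily in `KS` then so is
`G`. -/
theorem main (G V C : Type) [Group G] [MulAction G V] [MulAction G C] (X : Cx G V C)
    (γ : Gam X) (hG : Gen γ) (hI : ∀ (k : Type) [CommRing k] [IsDomain k], X.Ind k)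
    (hv : ∀ v : V, Hd KS (MulAction.stabilizer G v)) : Hd KS G :=
  hd_comp all_orb all_res γ hG hI (MonoidHom.id G) hv

/-- The theorem, with the action through a homomorphism `f`. -/
theorem main_comp (G V C : Type) [Group G] [MulAction G V] [MulAction G C] (X : Cx G V C)
    (γ : Gam X) (hG : Gen γ) (hI : ∀ (k : Type) [CommRing k] [IsDomain k], X.Ind k)
    (G' : Type) [Group G'] (f : G' →* G)
    (hv : ∀ v : V, Hd KS ((MulAction.stabilizer G v).comap f)) : Hd KS G' :=
  hd_comp all_orb all_res γ hG hI f hv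

end Pool.Agent.Sw
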