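import Pool.Agent.Lib.MP_8f66f0_al_Cx.DefsC
import Pool.Agent.Lib.MP_8f66f0_al_Cx.SpecC

/-! Theorem 2D for arbitrary equivariant paths `γ` between the vertices (they need not be
geodesics of the graph): definitions. -/

set_option autoImplicit false

namespace Pool.Agent.Sw

open Pool.Agent.Wald Pool.Agent.Cx2

/-- Equivariant paths between the vertices. -/
structure Gam {G V C : Type} [Group G] [MulAction G V] [MulAction G C] (X : Cx G V C) where
  γ : V → V → X.FG
  one : ∀ u, γ u u = 1
  path : ∀ u v, X.IsP u v (γ u v)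
  smul : ∀ (g : G) (u v : V), γ (g • u) (g • v) = X.φ g (γ u v)

section Gen

variable {G V C : Type} [Group G] [MulAction G V] [MulAction G C] {X : Cx G V C} (γ : Gam X)
  {R : Type} [Ring R] (j : X.FG →* R) (B : V → V → AddSubgroup R)

/-- The closure properties of the family `B`. -/
structure Bdg : Prop where
  gam : ∀ o v, j (γ.γ o v) ∈ B o v
  cell : ∀ o c v a b, a ∈ B o (X.bv c) → b ∈ B (X.bv c) v → a * (j (X.r c) - 1) * b ∈ B o v
  cell' : ∀ o c v a b, a ∈ B o (X.bv c) → b ∈ B (X.bv c) v → a * (j (X.r c)⁻¹ - 1) * b ∈ B o v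

/-- GENERATION: every family `B` with the closure properties contains all walks. -/
def Gen {G V C : Type} [Group G] [MulAction G V] [MulAction G C] {X : Cx G V C} (γ : Gam X) :
    Prop :=
  ∀ (R : Type) [Ring R] (j : X.FG →* R) (B : V → V → AddSubgroup R), Bdg γ j B →
    ∀ (o v : V) (p : X.Γ.Walk o v), j (X.val p) ∈ B o v

end Gen

section Beads

variable {G V C : Type} [Group G] [MulAction G V] [MulAction G C] {X : Cx G V C}

/-- The paths between the cells. -/
def gmg (γ : Gam X) (o : V) : Option C → C → X.FG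
  | none, c => γ.γ o (X.bv c)
  | some c, c' => γ.γ (X.bv c) (X.bv c')

variable (k : Type) [CommRing k]

/-- The product of the beads `L` which start at `o`: a combination of paths from `o` to
`en o L`. -/
noncomputable def PPg (γ : Gam X) (o : V) (L : List (C × ℤ)) : MonoidAlgebra k X.FG :=
  PM k X.r (gmg γ o) L

variable (f : C)

/-- The value of a letter: `(r_f - 1) l γ g r_f^n`. -/
noncomputable def lvg (γ : Gam X) (x : List (C × ℤ) × G × ℤ) : MonoidAlgebra k X.HH :=
  (X.pa k (X.r f) - 1) * (X.io k (PPg k γ (X.bv f) x.1) *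
    X.pa k (γ.γ (X.en (X.bv f) x.1) (x.2.1 • X.bv f))) * X.sg k x.2.1 * X.pa k (X.r f ^ x.2.2)

/-- The element `d r_f^n` times the word `u` of letters. -/
noncomputable def wog (γ : Gam X) (d : G) (n : ℤ)
    (u : List (List (C × ℤ) × G × ℤ)) : MonoidAlgebra k X.HH :=
  X.sg k d * X.pa k (X.r f ^ n) * Hier.wd (lvg k f γ) u

/-- The combinations of the elements `wog` of words of letters. -/
noncomputable def WAg (γ : Gam X) (K : Set C) (rp : G → G) :
    Submodule k (MonoidAlgebra k X.HH) :=
  Submodule.span k {z | ∃ d ∈ MulAction.stabilizer G f, ∃ (n : ℤ)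
    (u : List (List (C × ℤ) × G × ℤ)), (∀ x ∈ u, IsLet f K rp x) ∧ z = wog k f γ d n u}

end Beads

end Pool.Agent.Sw
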