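import Pool.Agent.Lib.MP_8f66f0_al_Sw.GeoSpec

/-! # Theorem L1, geometric half, module `Alf`: the classes of the steps -/

set_option autoImplicit false

namespace Pool.Agent.Sw

open Pool.Agent.Cx2 Pool.Agent.LinAll

private theorem Alf_eq {G V : Type} [Group G] [MulAction G V] {Y : Dat G V} (h : Ch Y) (b : Bas h)
    (x y : Y.P) (v : V) (hv : Dat.Com v x y) : h.alf x y = h.al v x y := by
  have hc : ∃ v, Dat.Com v x y := ⟨v, hv⟩
  unfold Ch.alf
  rw [dif_pos hc]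
  exact b.al_eq x y _ _ hc.choose_spec hv

private theorem Alf_no {G V : Type} [Group G] [MulAction G V] {Y : Dat G V} (h : Ch Y)
    (x y : Y.P) (hc : ¬ ∃ v, Dat.Com v x y) : h.alf x y = 1 := by
  unfold Ch.alf
  rw [dif_neg hc]

theorem tAlf : S_Alf := by
  intro G V _ _ Y h b
  refine ⟨Alf_eq h b, ?_, ?_, ?_⟩
  · intro x y z v hx hy hz
    rw [Alf_eq h b x y v ⟨hx, hy⟩, Alf_eq h b y z v ⟨hy, hz⟩, Alf_eq h b x z v ⟨hx, hz⟩]
    exact b.al_mul x y z v
  · intro x y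
    by_cases hc : ∃ v, Dat.Com v x y
    · obtain ⟨v, hv⟩ := hc
      rw [Alf_eq h b x y v hv, Alf_eq h b y x v ⟨hv.2, hv.1⟩]
      exact b.al_inv x y v
    · have hc' : ¬ ∃ v, Dat.Com v y x := fun ⟨v, hv⟩ => hc ⟨v, hv.2, hv.1⟩
      rw [Alf_no h x y hc, Alf_no h y x hc', inv_one]
  · intro x
    by_cases hc : ∃ v, Dat.Com v x x
    · obtain ⟨v, hv⟩ := hc
      rw [Alf_eq h b x x v hv]
      have h1 := b.al_mul x x x v
      exact mul_eq_left.1 h1
    · exact Alf_no h x x hc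

end Pool.Agent.Sw
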