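import Pool.Agent.Lib.MP_8f66f0_al_Sw.Defs
import Pool.Agent.Lib.MP_8f66f0_al_LQ2.Defs

/-! Theorem L1 (note 3951): groups acting on CAT(0) complexes of dimension two. Definitions of the
geometric half (discrete version; author helper60). -/

set_option autoImplicit false

namespace Pool.Agent.Sw

open Pool.Agent.Cx2 Pool.Agent.LinAll

/-- All the data together. -/
structure Dat (G V : Type) [Group G] [MulAction G V] where
  K : Set (Finset V)
  d : Real2 K → Real2 K → ℝ
  A : ℝ
  one_le : 1 ≤ A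
  cx : IsCplx2 K
  cat : IsCat0 d
  tame : IsTame K d A
  act : IsAct G K d

variable {G V : Type} [Group G] [MulAction G V] (Y : Dat G V)

/-- The points. -/
abbrev Dat.P : Type := Real2 Y.K

/-- The triangles. -/
def Dat.T : Type := {s : Finset V // s ∈ Y.K ∧ s.card = 3}

theorem Dat.d_nonneg (x y : Y.P) : 0 ≤ Y.d x y := by
  have h := Y.cat.tri x y x
  rw [(Y.cat.eq_zero x x).2 rfl, Y.cat.symm y x] at h
  linarith

theorem Dat.d_self (x : Y.P) : Y.d x x = 0 := (Y.cat.eq_zero x x).2 rfl

theorem Dat.ext {x y : Y.P} (h : ∀ v, x.1 v = y.1 v) : x = y := Subtype.ext (funext h)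

/-! ### Constants -/

/-- The radius of the small balls around the barycentres. -/
noncomputable def Dat.ρ : ℝ := 1 / (24 * Y.A)

/-- The size of the steps. -/
noncomputable def Dat.η : ℝ := 1 / (288 * Y.A ^ 3)

theorem Dat.A_pos : 0 < Y.A := lt_of_lt_of_le one_pos Y.one_le

theorem Dat.ρ_pos : 0 < Y.ρ := by
  have := Y.A_pos
  unfold Dat.ρ
  positivity

theorem Dat.η_pos : 0 < Y.η := by
  have := Y.A_pos
  unfold Dat.η
  positivity

/-- `12 A² η = ρ` -/
theorem Dat.η_eq : 12 * Y.A ^ 2 * Y.η = Y.ρ := by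
  have := Y.A_pos
  unfold Dat.η Dat.ρ
  field_simp
  norm_num

theorem Dat.ρ_eq : 24 * Y.A * Y.ρ = 1 := by
  have := Y.A_pos
  unfold Dat.ρ
  field_simp

theorem Dat.η_le : 12 * Y.η ≤ Y.ρ := by
  have h1 := Y.one_le
  have h2 := Y.η_pos
  have h3 := Y.η_eq
  nlinarith [mul_nonneg (by nlinarith : 0 ≤ Y.A ^ 2 - 1) h2.le]

/-! ### Carriers and points -/

/-- The carrier of a point: the simplex which contains the point in its interior. -/
noncomputable def Dat.cr (x : Y.P) : Finset V := x.2.choose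

theorem Dat.cr_mem (x : Y.P) : Y.cr x ∈ Y.K := x.2.choose_spec.1

theorem Dat.mem_cr (x : Y.P) (v : V) : v ∈ Y.cr x ↔ 0 < x.1 v := x.2.choose_spec.2.1 v

theorem Dat.nonneg (x : Y.P) (v : V) : 0 ≤ x.1 v := x.2.choose_spec.2.2.1 v

theorem Dat.sum_cr (x : Y.P) : ∑ v ∈ Y.cr x, x.1 v = 1 := x.2.choose_spec.2.2.2

theorem Dat.not_mem_cr (x : Y.P) {v : V} (h : v ∉ Y.cr x) : x.1 v = 0 :=
  le_antisymm (not_lt.1 fun h1 => h ((Y.mem_cr x v).2 h1)) (Y.nonneg x v)

theorem Dat.le_one (x : Y.P) (v : V) : x.1 v ≤ 1 := by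
  by_cases h : v ∈ Y.cr x
  · have h1 := Finset.single_le_sum (f := x.1) (fun w _ => Y.nonneg x w) h
    have h2 := Y.sum_cr x
    linarith
  · rw [Y.not_mem_cr x h]
    exact zero_le_one

open Classical in
/-- The point with the coordinates `f`. -/
noncomputable def Dat.pnt (t : Finset V) (ht : t ∈ Y.K) (f : V → ℝ) (h0 : ∀ v, 0 ≤ f v)
    (h1 : ∀ v, v ∉ t → f v = 0) (h2 : ∑ v ∈ t, f v = 1) : Y.P :=
  ⟨f, t.filter (fun v => 0 < f v), by
    refine Y.cx.sub t ht _ (Finset.filter_subset _ _) ?_
    by_contra h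
    rw [Finset.not_nonempty_iff_eq_empty, Finset.filter_eq_empty_iff] at h
    have h3 : ∑ v ∈ t, f v = 0 :=
      Finset.sum_eq_zero fun v hv => le_antisymm (not_lt.1 (h hv)) (h0 v)
    rw [h3] at h2
    exact zero_ne_one h2, by
    refine ⟨fun v => ?_, h0, ?_⟩
    · rw [Finset.mem_filter]
      refine ⟨fun h => h.2, fun h => ⟨?_, h⟩⟩
      by_contra h3
      rw [h1 v h3] at h
      exact lt_irrefl _ h
    · rw [← h2, Finset.sum_filter_of_ne]
      intro v _ h3
      exact lt_of_le_of_ne (h0 v) (Ne.symm h3)⟩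

open Classical in
/-- The vertex `v` as a point. -/
noncomputable def Dat.vp (v : V) : Y.P :=
  Y.pnt {v} (Y.cx.single v) (fun w => if w = v then 1 else 0)
    (fun w => by split_ifs <;> norm_num)
    (fun w hw => if_neg fun h => hw (Finset.mem_singleton.2 h))
    (by rw [Finset.sum_singleton, if_pos rfl])

open Classical in
/-- The barycentre of a triangle. -/
noncomputable def Dat.bc (s : Y.T) : Y.P :=
  Y.pnt s.1 s.2.1 (fun w => if w ∈ s.1 then 1 / 3 else 0)
    (fun w => by split_ifs <;> norm_num)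
    (fun w hw => if_neg hw)
    (by
      rw [Finset.sum_congr rfl fun w hw => if_pos hw, Finset.sum_const, s.2.2]
      norm_num)

open Classical in
theorem Dat.vp_apply (v w : V) : (Y.vp v).1 w = if w = v then 1 else 0 := rfl

open Classical in
theorem Dat.bc_apply (s : Y.T) (w : V) : (Y.bc s).1 w = if w ∈ s.1 then 1 / 3 else 0 := rfl

/-- The positions: vertices and (barycentres of) triangles. -/
abbrev Dat.Pos : Type := V ⊕ Y.T

/-- The point of a position. -/
noncomputable def Dat.pt : Y.Pos → Y.P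
  | .inl v => Y.vp v
  | .inr s => Y.bc s

open Classical in
/-- The point at the parameter `t` of the segment from `x` to `y` (in barycentric coordinates),
for `x`, `y` in a closed simplex. -/
noncomputable def Dat.ln (x y : Y.P) (t : ℝ) : Y.P :=
  if h : ∃ s ∈ Y.K, (∀ v, v ∉ s → x.1 v = 0 ∧ y.1 v = 0) ∧ 0 ≤ t ∧ t ≤ 1 then
    Y.pnt h.choose h.choose_spec.1 (fun v => (1 - t) * x.1 v + t * y.1 v)
      (fun v => by
        have h1 := h.choose_spec.2.2
        have h2 := Y.nonneg x v
        have h3 := Y.nonneg y v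
        have h4 : 0 ≤ 1 - t := by linarith [h1.2]
        have h5 : 0 ≤ t := h1.1
        positivity)
      (fun v hv => by
        rw [(h.choose_spec.2.1 v hv).1, (h.choose_spec.2.1 v hv).2]
        ring)
      (by
        have h1 : ∀ z : Y.P, (∀ v, v ∉ h.choose → z.1 v = 0) → ∑ v ∈ h.choose, z.1 v = 1 := by
          intro z hz
          refine Eq.trans (Eq.symm ?_) (Y.sum_cr z)
          refine Finset.sum_subset (fun v hv => ?_) fun v _ hv => Y.not_mem_cr z hv
          by_contra h3
          rw [Y.mem_cr, hz v h3] at hv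
          exact lt_irrefl _ hv
        rw [Finset.sum_add_distrib, ← Finset.mul_sum, ← Finset.mul_sum,
          h1 x fun v hv => (h.choose_spec.2.1 v hv).1, h1 y fun v hv => (h.choose_spec.2.1 v hv).2]
        ring)
  else x

theorem Dat.ln_apply {x y : Y.P} {s : Finset V} (hs : s ∈ Y.K)
    (h : ∀ v, v ∉ s → x.1 v = 0 ∧ y.1 v = 0) {t : ℝ} (h0 : 0 ≤ t) (h1 : t ≤ 1) (v : V) :
    (Y.ln x y t).1 v = (1 - t) * x.1 v + t * y.1 v := by
  have h2 : ∃ s ∈ Y.K, (∀ v, v ∉ s → x.1 v = 0 ∧ y.1 v = 0) ∧ 0 ≤ t ∧ t ≤ 1 :=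
    ⟨s, hs, h, h0, h1⟩
  unfold Dat.ln
  rw [dif_pos h2]
  rfl

/-! ### The action -/

open Classical in
theorem Dat.act_image (g : G) {s : Finset V} (hs : s ∈ Y.K) :
    s.image (fun v => g • v) ∈ Y.K := by
  have h := Y.act.smul g s hs
  rwa [Finset.map_eq_image] at h

open Classical in
noncomputable instance : MulAction G Y.T where
  smul g s := ⟨s.1.image (fun v => g • v), Y.act_image g s.2.1, by
    rw [Finset.card_image_of_injective _ (MulAction.injective g)]
    exact s.2.2⟩
  one_smul s := Subtype.ext (by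
    change s.1.image (fun v => (1 : G) • v) = s.1
    simp only [one_smul, Finset.image_id'])
  mul_smul g h s := Subtype.ext (by
    change s.1.image (fun v => (g * h) • v) = (s.1.image (fun v => h • v)).image (fun v => g • v)
    rw [Finset.image_image]
    exact Finset.image_congr fun v _ => mul_smul g h v)

theorem Dat.mem_smul (g : G) (s : Y.T) (v : V) : g • v ∈ (g • s).1 ↔ v ∈ s.1 := by
  classical
  change g • v ∈ s.1.image (fun v => g • v) ↔ v ∈ s.1
  rw [Finset.mem_image]
  constructor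
  · rintro ⟨w, hw, h⟩
    rwa [← MulAction.injective g h]
  · exact fun h => ⟨v, h, rfl⟩

open Classical in
noncomputable instance : MulAction G (Real2 Y.K) where
  smul g x := ⟨fun v => x.1 (g⁻¹ • v), by
    obtain ⟨s, hs, h1, h2, h3⟩ := x.2
    refine ⟨s.image (fun v => g • v), Y.act_image g hs, fun v => ?_, fun v => h2 _, ?_⟩
    · rw [← h1, Finset.mem_image]
      constructor
      · rintro ⟨w, hw, rfl⟩
        rwa [inv_smul_smul]
      · exact fun h => ⟨_, h, smul_inv_smul g v⟩
    · rw [Finset.sum_image fun v _ w _ h => MulAction.injective g h]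
      refine Eq.trans (Finset.sum_congr rfl fun v _ => ?_) h3
      rw [inv_smul_smul]⟩
  one_smul x := Subtype.ext (funext fun v => by
    change x.1 ((1 : G)⁻¹ • v) = x.1 v
    rw [inv_one, one_smul])
  mul_smul g h x := Subtype.ext (funext fun v => by
    change x.1 ((g * h)⁻¹ • v) = x.1 (h⁻¹ • g⁻¹ • v)
    rw [mul_inv_rev, mul_smul])

theorem Dat.smul_apply (g : G) (x : Y.P) (v : V) : (g • x : Y.P).1 (g • v) = x.1 v := by
  change x.1 (g⁻¹ • g • v) = x.1 v
  rw [inv_smul_smul]

theorem Dat.d_smul (g : G) (x y : Y.P) : Y.d (g • x) (g • y) = Y.d x y :=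
  Y.act.isom g x _ y _ (Y.smul_apply g x) (Y.smul_apply g y)

theorem Dat.smul_vp (g : G) (v : V) : (g • Y.vp v : Y.P) = Y.vp (g • v) := by
  classical
  refine Y.ext fun w => ?_
  obtain ⟨u, rfl⟩ := MulAction.surjective g w
  rw [Y.smul_apply, Y.vp_apply, Y.vp_apply]
  exact if_congr (MulAction.injective g).eq_iff.symm rfl rfl

theorem Dat.smul_bc (g : G) (s : Y.T) : (g • Y.bc s : Y.P) = Y.bc (g • s) := by
  classical
  refine Y.ext fun w => ?_
  obtain ⟨u, rfl⟩ := MulAction.surjective g w
  rw [Y.smul_apply, Y.bc_apply, Y.bc_apply]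
  exact if_congr (Y.mem_smul g s u).symm rfl rfl

theorem Dat.smul_pt (g : G) (p : Y.Pos) : (g • Y.pt p : Y.P) = Y.pt (g • p) := by
  cases p with
  | inl v => exact Y.smul_vp g v
  | inr s => exact Y.smul_bc g s

/-- An element which fixes a point fixes all vertices of its carrier. -/
theorem Dat.fix_cr {g : G} {x : Y.P} (h : (g • x : Y.P) = x) {v : V} (hv : 0 < x.1 v) :
    g • v = v := by
  refine Y.act.fix g (Y.cr x) (Y.cr_mem x) (fun u hu => ?_) v ((Y.mem_cr x v).2 hv)
  rw [Y.mem_cr] at hu ⊢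
  rw [← h, Y.smul_apply]
  exact hu

/-! ### The graph, the choices and the complex with whiskers -/

open Classical in
/-- Neighbours in the 1-skeleton. -/
def Dat.Adj (u v : V) : Prop := u ≠ v ∧ {u, v} ∈ Y.K

open Classical in
/-- The 1-skeleton. -/
def Dat.gr : SimpleGraph V where
  Adj := Y.Adj
  symm := ⟨fun u v h => ⟨h.1.symm, by rw [Finset.pair_comm]; exact h.2⟩⟩
  loopless := ⟨fun u h => h.1 rfl⟩

/-- `p` is a label of the point `x`. -/
def Dat.IsLab {Y : Dat G V} (x : Y.P) : Y.Pos → Prop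
  | .inl v => 1 / 3 < x.1 v
  | .inr s => x = Y.bc s

theorem Dat.exists_lab {Y : Dat G V} (x : Y.P) : ∃ p, Dat.IsLab x p := by
  classical
  by_cases h : ∃ v, 1 / 3 < x.1 v
  · obtain ⟨v, hv⟩ := h
    exact ⟨.inl v, hv⟩
  · have h1 : ∀ v, x.1 v ≤ 1 / 3 := fun v => not_lt.1 fun h2 => h ⟨v, h2⟩
    have h2 := Y.cx.card _ (Y.cr_mem x)
    have h3 := Y.sum_cr x
    have h4 : ∑ v ∈ Y.cr x, x.1 v ≤ ∑ _v ∈ Y.cr x, (1 / 3 : ℝ) :=
      Finset.sum_le_sum fun v _ => h1 v
    rw [Finset.sum_const, nsmul_eq_mul, h3] at h4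
    have h5 : (Y.cr x).card = 3 := by
      have h6 : (3 : ℝ) ≤ (Y.cr x).card := by linarith
      have h7 : 3 ≤ (Y.cr x).card := by exact_mod_cast h6
      omega
    refine ⟨.inr ⟨Y.cr x, Y.cr_mem x, h5⟩, Y.ext fun v => ?_⟩
    change x.1 v = if v ∈ Y.cr x then (1 / 3 : ℝ) else 0
    by_cases hv : v ∈ Y.cr x
    · rw [if_pos hv]
      refine le_antisymm (h1 v) ?_
      by_contra hlt
      rw [not_le] at hlt
      have h6 : ∑ v ∈ Y.cr x, x.1 v < ∑ _v ∈ Y.cr x, (1 / 3 : ℝ) :=
        Finset.sum_lt_sum (fun v _ => h1 v) ⟨v, hv, hlt⟩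
      rw [Finset.sum_const, nsmul_eq_mul, h3, h5] at h6
      norm_num at h6
    · rw [if_neg hv, Y.not_mem_cr x hv]

open Classical in
/-- Invariant choices: the cyclic order of the corners of the triangles, with a first corner `a`;
an orientation `o` of the edges; labels `F` of the points. -/
structure Ch where
  a : Y.T → V
  b : Y.T → V
  c : Y.T → V
  abc : ∀ s : Y.T, s.1 = {a s, b s, c s}
  ab : ∀ s, a s ≠ b s
  bc : ∀ s, b s ≠ c s
  ca : ∀ s, c s ≠ a s
  a_smul : ∀ (g : G) s, a (g • s) = g • a s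
  b_smul : ∀ (g : G) s, b (g • s) = g • b s
  c_smul : ∀ (g : G) s, c (g • s) = g • c s
  o : V → V → Prop
  o_or : ∀ u v, Y.Adj u v → o u v ∨ o v u
  o_adj : ∀ u v, o u v → Y.Adj u v
  o_anti : ∀ u v, o u v → ¬ o v u
  o_smul : ∀ (g : G) u v, o u v → o (g • u) (g • v)
  F : Y.P → Y.Pos
  lab : ∀ x, Dat.IsLab x (F x)
  F_smul : ∀ (g : G) x, F (g • x) = g • F x
  conn : Y.gr.Connected

variable {Y}

theorem Dat.adj_symm {u v : V} (h : Y.Adj u v) : Y.Adj v u := Y.gr.symm.1 u v h

theorem Dat.adj_smul (g : G) {u v : V} (h : Y.Adj u v) : Y.Adj (g • u) (g • v) := by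
  classical
  refine ⟨fun h1 => h.1 (MulAction.injective g h1), ?_⟩
  have h1 := Y.act_image g h.2
  rwa [Finset.image_insert, Finset.image_singleton] at h1

/-- Two vertices of a simplex are neighbours. -/
theorem Dat.adj_of_mem {s : Finset V} (hs : s ∈ Y.K) {u v : V} (hu : u ∈ s) (hv : v ∈ s)
    (h : u ≠ v) : Y.Adj u v := by
  classical
  refine ⟨h, Y.cx.sub s hs _ ?_ ⟨u, Finset.mem_insert_self _ _⟩⟩
  rw [Finset.insert_subset_iff, Finset.singleton_subset_iff]
  exact ⟨hu, hv⟩

/-- Two vertices with positive coordinates are neighbours. -/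
theorem Dat.adj_of_pos {x : Y.P} {u v : V} (hu : 0 < x.1 u) (hv : 0 < x.1 v) (h : u ≠ v) :
    Y.Adj u v := Dat.adj_of_mem (Y.cr_mem x) ((Y.mem_cr x u).2 hu) ((Y.mem_cr x v).2 hv) h

namespace Ch

variable (h : Ch Y)

theorem mem_a (s : Y.T) : h.a s ∈ s.1 := by
  classical
  rw [h.abc s]
  exact Finset.mem_insert_self _ _

theorem mem_b (s : Y.T) : h.b s ∈ s.1 := by
  classical
  rw [h.abc s]
  exact Finset.mem_insert_of_mem (Finset.mem_insert_self _ _)

theorem mem_c (s : Y.T) : h.c s ∈ s.1 := by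
  classical
  rw [h.abc s]
  exact Finset.mem_insert_of_mem (Finset.mem_insert_of_mem (Finset.mem_singleton_self _))

theorem mem_iff (s : Y.T) (v : V) : v ∈ s.1 ↔ v = h.a s ∨ v = h.b s ∨ v = h.c s := by
  classical
  rw [h.abc s, Finset.mem_insert, Finset.mem_insert, Finset.mem_singleton]

/-- Neighbours in the 1-skeleton with whiskers: the barycentre of `s` is joined to `a s`. -/
def wAdj : Y.Pos → Y.Pos → Prop
  | .inl u, .inl v => Y.Adj u v
  | .inl u, .inr s => u = h.a s
  | .inr s, .inl u => u = h.a s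
  | .inr _, .inr _ => False

/-- The 1-skeleton with whiskers. -/
def wgr : SimpleGraph Y.Pos where
  Adj := h.wAdj
  symm := ⟨fun p q e => by
    cases p with
    | inl u =>
      cases q with
      | inl v => exact Dat.adj_symm e
      | inr s => exact e
    | inr s =>
      cases q with
      | inl v => exact e
      | inr s' => exact e⟩
  loopless := ⟨fun p e => by
    cases p with
    | inl u => exact e.1 rfl
    | inr s => exact e⟩

/-- The orientation of the edges of the 1-skeleton with whiskers. -/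
def wo : Y.Pos → Y.Pos → Prop
  | .inl u, .inl v => h.o u v
  | .inl _, .inr _ => False
  | .inr s, .inl u => u = h.a s
  | .inr _, .inr _ => False

theorem wconn : h.wgr.Connected := by
  have h1 : ∀ u v : V, h.wgr.Reachable (.inl u) (.inl v) := by
    intro u v
    obtain ⟨p⟩ := h.conn.preconnected u v
    induction p with
    | nil => exact SimpleGraph.Reachable.refl _
    | cons e _ ih =>
      refine SimpleGraph.Reachable.trans (SimpleGraph.Adj.reachable ?_) ih
      exact e
  have h2 : ∀ s : Y.T, h.wgr.Reachable (.inr s) (.inl (h.a s)) := fun s =>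
    SimpleGraph.Adj.reachable (show h.wAdj (.inr s) (.inl (h.a s)) from rfl)
  have h3 := h.conn.nonempty
  refine { preconnected := fun p q => ?_, nonempty := ⟨.inl (Classical.arbitrary V)⟩ }
  cases p with
  | inl u =>
    cases q with
    | inl v => exact h1 u v
    | inr s => exact (h1 u (h.a s)).trans (h2 s).symm
  | inr s =>
    cases q with
    | inl v => exact (h2 s).trans (h1 _ v)
    | inr s' => exact ((h2 s).trans (h1 _ (h.a s'))).trans (h2 s').symm

/-- The complex with whiskers. -/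
def X : Cx G Y.Pos Y.T where
  Γ := h.wgr
  conn := h.wconn
  adj_smul g p q e := by
    cases p with
    | inl u =>
      cases q with
      | inl v => exact Dat.adj_smul g e
      | inr s =>
        change g • u = h.a (g • s)
        rw [h.a_smul, show u = h.a s from e]
    | inr s =>
      cases q with
      | inl v =>
        change g • v = h.a (g • s)
        rw [h.a_smul, show v = h.a s from e]
      | inr s' => exact e
  ori := h.wo
  ori_or p q e := by
    cases p with
    | inl u =>
      cases q with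
      | inl v => exact h.o_or u v e
      | inr s => exact Or.inr e
    | inr s =>
      cases q with
      | inl v => exact Or.inl e
      | inr s' => exact Or.inl e
  ori_adj p q e := by
    cases p with
    | inl u =>
      cases q with
      | inl v => exact h.o_adj u v e
      | inr s => exact e.elim
    | inr s =>
      cases q with
      | inl v => exact e
      | inr s' => exact e
  ori_anti p q e := by
    cases p with
    | inl u =>
      cases q with
      | inl v => exact h.o_anti u v e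
      | inr s => exact e.elim
    | inr s =>
      cases q with
      | inl v => exact fun e' => e'
      | inr s' => exact fun e' => e'
  ori_smul g p q e := by
    cases p with
    | inl u =>
      cases q with
      | inl v => exact h.o_smul g u v e
      | inr s => exact e
    | inr s =>
      cases q with
      | inl v =>
        change g • v = h.a (g • s)
        rw [h.a_smul, show v = h.a s from e]
      | inr s' => exact e
  bv s := .inr s
  rs s := [.inl (h.a s), .inl (h.b s), .inl (h.c s), .inl (h.a s)]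
  bv_smul g s := rfl
  rs_smul g s := by
    change [Sum.inl (h.a (g • s)), Sum.inl (h.b (g • s)), Sum.inl (h.c (g • s)),
      Sum.inl (h.a (g • s))] = [Sum.inl (g • h.a s), Sum.inl (g • h.b s), Sum.inl (g • h.c s),
      Sum.inl (g • h.a s)]
    rw [h.a_smul, h.b_smul, h.c_smul]
  bd_adj s := by
    change List.IsChain h.wgr.Adj [Sum.inr s, Sum.inl (h.a s), Sum.inl (h.b s), Sum.inl (h.c s),
      Sum.inl (h.a s), Sum.inr s]
    simp only [List.isChain_cons_cons, List.isChain_singleton, and_true]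
    exact ⟨rfl, Dat.adj_of_mem s.2.1 (h.mem_a s) (h.mem_b s) (h.ab s),
      Dat.adj_of_mem s.2.1 (h.mem_b s) (h.mem_c s) (h.bc s),
      Dat.adj_of_mem s.2.1 (h.mem_c s) (h.mem_a s) (h.ca s), rfl⟩

/-- The element of an edge. -/
noncomputable abbrev e (p q : Y.Pos) : h.X.FG := h.X.ε p q

/-- The boundary of the triangle `s`, a closed path at the barycentre. -/
noncomputable abbrev r (s : Y.T) : h.X.FG := h.X.r s

theorem r_eq (s : Y.T) : h.r s = h.e (.inr s) (.inl (h.a s)) *
    (h.e (.inl (h.a s)) (.inl (h.b s)) * (h.e (.inl (h.b s)) (.inl (h.c s)) *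
      (h.e (.inl (h.c s)) (.inl (h.a s)) * h.e (.inl (h.a s)) (.inr s)))) := rfl

theorem e_self (p : Y.Pos) : h.e p p = 1 := by
  have h1 : ¬ h.X.ori p p := fun h1 => h.X.ori_anti _ _ h1 h1
  unfold e Cx.ε
  rw [dif_neg h1, dif_neg h1]

theorem e_inv (p q : Y.Pos) : h.e q p = (h.e p q)⁻¹ := h.X.ε_inv p q

theorem e_mul (p q : Y.Pos) : h.e p q * h.e q p = 1 := by rw [h.e_inv p q, mul_inv_cancel]

end Ch

/-! ### Labels and classes of discrete paths -/

/-- `x` and `y` have a common coordinate larger than `1/3`. -/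
def Dat.Com (v : V) (x y : Y.P) : Prop := 1 / 3 < x.1 v ∧ 1 / 3 < y.1 v

namespace Ch

variable (h : Ch Y)

/-- The path from the vertex `w` of the triangle `s` to the barycentre. -/
noncomputable def k (s : Y.T) (w : V) : h.X.FG :=
  h.e (.inl w) (.inl (h.a s)) * h.e (.inl (h.a s)) (.inr s)

/-- The class from a point of the open triangle `s` to the barycentre. -/
noncomputable def κ (s : Y.T) (x : Y.P) : h.X.FG :=
  match h.F x with
  | .inl w => h.k s w
  | .inr _ => 1

/-- The class of a step with the common coordinate `v`. -/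
noncomputable def al (v : V) (x y : Y.P) : h.X.FG :=
  h.e (h.F x) (.inl v) * h.e (.inl v) (h.F y)

/-- `q` is a class of the step from `x` to `y`, of the first kind. -/
def StA (x y : Y.P) (q : h.X.FG) : Prop := ∃ v, Dat.Com v x y ∧ q = h.al v x y

/-- `q` is a class of the step from `x` to `y`, of the second kind. -/
def StB (x y : Y.P) (q : h.X.FG) : Prop :=
  ∃ (s : Y.T) (m : ℤ), Y.d x (Y.bc s) < Y.ρ ∧ Y.d y (Y.bc s) < Y.ρ ∧
    q = h.κ s x * h.r s ^ m * (h.κ s y)⁻¹

/-- `q` is a class of the short step from `x` to `y`. -/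
def St (x y : Y.P) (q : h.X.FG) : Prop := Y.d x y < Y.η ∧ (h.StA x y q ∨ h.StB x y q)

/-- There is a discrete path from `x` to `y` of length `l` with the class `g`. -/
inductive Tr : Y.P → Y.P → ℝ → h.X.FG → Prop
  | nil (x : Y.P) : Tr x x 0 1
  | cons {x y z : Y.P} {q g : h.X.FG} {l : ℝ} : h.St x y q → Tr y z l g →
      Tr x z (Y.d x y + l) (q * g)

/-- `g` is a class of the discrete path `y 0, …, y n`. -/
inductive Sq (y : ℕ → Y.P) : ℕ → h.X.FG → Prop
  | zero : Sq y 0 1
  | succ {n : ℕ} {q g : h.X.FG} : Sq y n g → h.St (y n) (y (n + 1)) q → Sq y (n + 1) (g * q)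

end Ch

/-- Geodesics: `c o x t` is the point at the distance `min t (d o x)` from `o` on the geodesic
from `o` to `x`. -/
structure Gd (Y : Dat G V) where
  c : Y.P → Y.P → ℝ → Y.P
  zero : ∀ o x, c o x 0 = o
  end_ : ∀ o x t, Y.d o x ≤ t → c o x t = x
  dist : ∀ o x t t', 0 ≤ t → t ≤ t' → Y.d (c o x t) (c o x t') = min t' (Y.d o x) - min t (Y.d o x)
  lip : ∀ o x x' t, 0 ≤ t → Y.d (c o x t) (c o x' t) ≤ Y.d x x'
  smul : ∀ (g : G) o x t, (g • c o x t : Y.P) = c (g • o) (g • x) t

namespace Ch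

variable (h : Ch Y)

/-- The discrete geodesic. -/
noncomputable def dg (D : Gd Y) (o x : Y.P) (n : ℕ) : Y.P := D.c o x (n * (Y.η / 2))

/-- `g` is a class of the discrete geodesic from `o` to `x`. -/
def Ge (D : Gd Y) (o x : Y.P) (g : h.X.FG) : Prop :=
  ∃ n : ℕ, Y.d o x ≤ n * (Y.η / 2) ∧ h.Sq (dg D o x) n g

end Ch

end Pool.Agent.Sw
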