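import Pool.Agent.Lib.MP_8f66f0_al_Sw.GeoSpec
import Pool.Agent.Lib.MP_8f66f0_al_Sw.All

/-! Theorem L1: groups which act on 2-dimensional CAT(0) complexes (assembly). -/

set_option autoImplicit false

namespace Pool.Agent.Sw

open Pool.Agent.Cx2 Pool.Agent.LinAll Pool.Agent.TreeC Pool.Agent.Wald Pool.Agent.WaldL

private theorem fin_inl {G V T : Type} [Group G] [MulAction G V] [MulAction G T] (v : V) :
    MulAction.stabilizer G (Sum.inl v : V ⊕ T) = MulAction.stabilizer G v := by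
  ext g
  rw [MulAction.mem_stabilizer_iff, MulAction.mem_stabilizer_iff]
  exact ⟨fun h => Sum.inl_injective h, fun h => congrArg Sum.inl h⟩

private theorem fin_inr {G V : Type} [Group G] [MulAction G V] {Y : Dat G V} (h : Ch Y)
    (s : Y.T) : MulAction.stabilizer G (Sum.inr s : Y.Pos) ≤ MulAction.stabilizer G (h.a s) := by
  intro g hg
  rw [MulAction.mem_stabilizer_iff] at hg ⊢
  rw [← h.a_smul, Sum.inr_injective (a₁ := g • s) (a₂ := s) hg]

private theorem fin_le {G : Type} [Group G] {H K : Subgroup G} (hle : H ≤ K) (h : Hd KS K) :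
    Hd KS H := by
  have h1 : TClv (Hd KS) := hd KS ks_tcl
  exact h1.iso _ _ (Subgroup.subgroupOfEquivOfLe hle) (h1.sub _ _ h)

/-- **Theorem L1.** Let `Γ` act on the CAT(0) complex `K` of dimension at most two, and let
`f : G' → Γ` be a homomorphism such that the preimages of the vertex stabilizers are hereditarily
in `KS`. Then `G'` is hereditarily in `KS`. -/
theorem cat_main (hGd : S_Gd) (hCh : S_Ch)
    (hBas : ∀ (G V : Type) [Group G] [MulAction G V] (Y : Dat G V) (h : Ch Y), Bas h)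
    (hGam : S_Gam) (hGen : S_Gen) (hInd : S_Ind)
    (Γ V : Type) [Group Γ] [MulAction Γ V] [Nonempty V] (K : Set (Finset V))
    (d : Real2 K → Real2 K → ℝ) (A : ℝ) (h1 : IsCplx2 K) (h2 : IsCat0 d) (h3 : IsTame K d A)
    (h4 : IsAct Γ K d) (G' : Type) [Group G'] (f : G' →* Γ)
    (hv : ∀ v : V, Hd KS ((MulAction.stabilizer Γ v).comap f)) : Hd KS G' := by
  let Y : Dat Γ V := ⟨K, d, A, h3.one_le, h1, h2, h3, h4⟩
  obtain ⟨D⟩ := hGd Γ V Y
  obtain ⟨h⟩ := hCh Γ V Y
  have hb := hBas Γ V Y h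
  obtain ⟨γ, hγ⟩ := hGam Γ V Y h D hb
  refine main_comp Γ Y.Pos Y.T h.X γ (hGen Γ V Y h hb D γ hγ)
    (fun k _ _ => hInd Γ V Y h hb D k) G' f ?_
  rintro (v | s)
  · rw [fin_inl]
    exact hv v
  · exact fin_le (Subgroup.comap_mono (fin_inr h s)) (hv (h.a s))

end Pool.Agent.Sw
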