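import Pool.Agent.Lib.MP_8f66f0_al_Sw.GeoSpec

set_option autoImplicit false

namespace Pool.Agent.Sw

open Pool.Agent.Cx2 Pool.Agent.LinAll

variable {G V : Type} [Group G] [MulAction G V] {Y : Dat G V}

/-- In the ball of radius `ρ` around `bc s` every class of a step is of the second kind at `s`. -/
private theorem Qud_form {h : Ch Y} (hb : Bas h) (s : Y.T) {x y : Y.P} {q : h.X.FG}
    (hx : Y.d x (Y.bc s) < Y.ρ) (hy : Y.d y (Y.bc s) < Y.ρ) (hq : h.St x y q) :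
    ∃ m : ℤ, q = h.κ s x * h.r s ^ m * (h.κ s y)⁻¹ := by
  have hρ := Y.ρ_pos
  rcases hq.2 with ⟨v, hv, rfl⟩ | ⟨s', m, h1, h2, rfl⟩
  · exact hb.al_κ s x y v (hb.ball s x (by linarith)) (hb.ball s y (by linarith)) hv
  · have hs : s' = s := by
      by_contra hne
      have h3 := hb.sep (.inr s') (.inr s) (fun h4 => hne (Sum.inr.inj h4))
      have h4 : Y.d (Y.bc s') (Y.bc s) ≤ Y.d (Y.bc s') x + Y.d x (Y.bc s) := Y.cat.tri _ _ _
      have h5 : Y.d (Y.bc s') x = Y.d x (Y.bc s') := Y.cat.symm _ _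
      have h6 : 8 * Y.ρ ≤ Y.d (Y.bc s') (Y.bc s) := h3
      linarith
    subst hs
    exact ⟨m, rfl⟩

theorem tQud (h1 : S_Trb) (h2 : S_Chg) (h3 : S_Cst) : S_Qud := by
  intro G V _ _ Y h hb D γ R _ j B hB n hP o v x y y' w s t s' t' l1 l2 g1 g2 ht1 hs ht hs' ht'
    hxw ht2 hl hj
  have hη := Y.η_pos
  obtain ⟨trans, -, -, -, -⟩ := h1 G V Y h hb
  have cst := h3 G V Y h hb D γ R j B hB n hP o v
  have hd0 : Y.d x x < 2 * Y.η := by rw [Y.d_self]; linarith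
  have hd1 : Y.d x y < 2 * Y.η := by linarith [hs.1]
  have hd2 : Y.d x y' < 2 * Y.η := by linarith [hs'.1]
  rcases hb.near x with ⟨u, hu⟩ | ⟨s₀, hs₀⟩
  · have cx := hu x hd0
    have cy := hu y hd1
    have cy' := hu y' hd2
    have cw := hu w hxw
    have a1 : h.St x y (h.al u x y) := ⟨hs.1, Or.inl ⟨u, ⟨cx, cy⟩, rfl⟩⟩
    have a2 : h.St y w (h.al u y w) := ⟨ht.1, Or.inl ⟨u, ⟨cy, cw⟩, rfl⟩⟩
    have a3 : h.St x y' (h.al u x y') := ⟨hs'.1, Or.inl ⟨u, ⟨cx, cy'⟩, rfl⟩⟩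
    have a4 : h.St y' w (h.al u y' w) := ⟨ht'.1, Or.inl ⟨u, ⟨cy', cw⟩, rfl⟩⟩
    have b1 : j (g1 * h.al u x y' * (t' * g2)) ∈ B o v := by
      refine cst x y' s' (h.al u x y') l1 (Y.d y' w + l2) g1 (t' * g2) ht1 hs' a3
        (Ch.Tr.cons ht' ht2) ?_ ?_
      · linarith [ht'.1]
      · rw [show g1 * s' * (t' * g2) = g1 * (s' * t') * g2 by group]
        exact hj
    have b2 : j (g1 * h.al u x y' * h.al u y' w * g2) ∈ B o v := by
      refine cst y' w t' (h.al u y' w) (l1 + (Y.d x y' + 0)) l2 (g1 * h.al u x y') g2 ?_ ht' a4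
        ht2 ?_ ?_
      · have := trans _ _ _ _ _ _ _ ht1 (Ch.Tr.cons a3 (Ch.Tr.nil y'))
        rwa [mul_one] at this
      · linarith [hs'.1]
      · rw [show g1 * h.al u x y' * t' * g2 = g1 * h.al u x y' * (t' * g2) by group]
        exact b1
    have b3 : g1 * h.al u x y' * h.al u y' w * g2 = g1 * h.al u x y * h.al u y w * g2 := by
      rw [mul_assoc g1 (h.al u x y'), hb.al_mul, mul_assoc g1 (h.al u x y), hb.al_mul]
    rw [b3] at b2
    have b4 : j (g1 * h.al u x y * t * g2) ∈ B o v := by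
      refine cst y w (h.al u y w) t (l1 + (Y.d x y + 0)) l2 (g1 * h.al u x y) g2 ?_ a2 ht
        ht2 ?_ b2
      · have := trans _ _ _ _ _ _ _ ht1 (Ch.Tr.cons a1 (Ch.Tr.nil y))
        rwa [mul_one] at this
      · linarith [hs.1]
    have b5 : j (g1 * s * (t * g2)) ∈ B o v := by
      refine cst x y (h.al u x y) s l1 (Y.d y w + l2) g1 (t * g2) ht1 a1 hs
        (Ch.Tr.cons ht ht2) ?_ ?_
      · linarith [ht.1]
      · rw [show g1 * h.al u x y * (t * g2) = g1 * h.al u x y * t * g2 by group]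
        exact b4
    rw [show g1 * (s * t) * g2 = g1 * s * (t * g2) by group]
    exact b5
  · have cx := hs₀ x hd0
    have cy := hs₀ y hd1
    have cy' := hs₀ y' hd2
    have cw := hs₀ w hxw
    obtain ⟨m1, e1⟩ := Qud_form hb s₀ cx cy hs
    obtain ⟨m2, e2⟩ := Qud_form hb s₀ cy cw ht
    obtain ⟨m3, e3⟩ := Qud_form hb s₀ cx cy' hs'
    obtain ⟨m4, e4⟩ := Qud_form hb s₀ cy' cw ht'
    have f1 : s * t = h.κ s₀ x * h.r s₀ ^ (m1 + m2) * (h.κ s₀ w)⁻¹ := by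
      rw [e1, e2, zpow_add]
      group
    have f2 : s' * t' = h.κ s₀ x * h.r s₀ ^ (m3 + m4) * (h.κ s₀ w)⁻¹ := by
      rw [e3, e4, zpow_add]
      group
    rw [f1]
    rw [f2] at hj
    exact h2 G V Y h hb D γ R j B hB n hP o v s₀ (m3 + m4) (m1 + m2) x w l1 l2 g1 g2 ht1 cx cw ht2
      (by linarith) hj

end Pool.Agent.Sw
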