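import Pool.Agent.Lib.MP_8f66f0_al_Sw.GeoDefs

/-! # Theorem L1 (note 3951), geometric half: statements of the modules (author helper60)

DISCRETE version. `Y : Dat G V` is the CAT(0) complex, `h : Ch Y` the invariant choices, `h.X` the
complex with whiskers (vertices `Y.Pos = V ⊕ Y.T`, the whisker of the triangle `s` joins its
barycentre to the corner `h.a s`), `h.e p q` the element of an edge, `h.r s` the boundary of the
triangle `s` read from the barycentre. `h.F x` is the label of the point `x`. `D : Gd Y` are the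
geodesics. Constants: `24 A ρ = 1`, `12 A² η = ρ`, `12 η ≤ ρ`, `A ≥ 1` (GeoDefs: `ρ_eq`, `η_eq`,
`η_le`, `one_le`).

Every statement `S_X` is a `Prop`; the module `X` proves it in the file `Sw/GeoX.lean` as
`theorem tX ... : S_X`, with the statements named in the docstring as hypotheses, in that order.
`Bas h` is the structure of the basic facts (module GeoBas, helper60).

IDEA OF THE GENERATION. `PP n`: all classes of discrete paths of length `< 2 n ρ` from a position `o`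
to a position `v` are in `B o v`. Given `PP n`, for paths of length `< 2 (n + 1) ρ` the exponent `m` of
a step of the second kind at the triangle `s` does not matter modulo `B` (`S_Chg`): cut the path at the
barycentre of `s`; both parts are shorter by a definite amount, since different positions have distance
`≥ 8 ρ`. So modulo `B` the class of a path does not change under homotopies in the whole space (also
across the barycentres) which do not make it longer, and the sweep by the geodesics from `o` ends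
with the geodesic from `o` to `v`. -/

set_option autoImplicit false

namespace Pool.Agent.Sw

open Pool.Agent.Cx2 Pool.Agent.LinAll

variable {G V : Type} [Group G] [MulAction G V] {Y : Dat G V}

/-- The basic facts. -/
structure Bas (h : Ch Y) : Prop where
  /-- a point has a coordinate which is larger than `1/3` in a neighbourhood, or is close to a
  barycentre -/
  dic : ∀ r : ℝ, 0 < r → r ≤ Y.ρ → ∀ x : Y.P,
    (∃ v, ∀ y, 6 * Y.A ^ 2 * Y.d x y < r → 1 / 3 < y.1 v) ∨ ∃ s, Y.d x (Y.bc s) ≤ r / 2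
  /-- the dichotomy used for the steps -/
  near : ∀ x : Y.P, (∃ v, ∀ y, Y.d x y < 2 * Y.η → 1 / 3 < y.1 v) ∨
    ∃ s, ∀ y, Y.d x y < 2 * Y.η → Y.d y (Y.bc s) < Y.ρ
  /-- the ball with the radius `8 ρ` around the barycentre of `s` is in the open triangle -/
  ball : ∀ (s : Y.T) (x : Y.P), Y.d x (Y.bc s) < 8 * Y.ρ → ∀ v ∈ s.1, 0 < x.1 v
  /-- different positions have distance at least `8 ρ` -/
  sep : ∀ p q : Y.Pos, p ≠ q → 8 * Y.ρ ≤ Y.d (Y.pt p) (Y.pt q)
  F_pt : ∀ p : Y.Pos, h.F (Y.pt p) = p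
  F_ball : ∀ (s : Y.T) (x : Y.P), (∀ v ∈ s.1, 0 < x.1 v) →
    (∃ w ∈ s.1, h.F x = .inl w) ∨ (h.F x = .inr s ∧ x = Y.bc s)
  F_com : ∀ (x : Y.P) (v : V), 1 / 3 < x.1 v → ∃ w, h.F x = .inl w ∧ 1 / 3 < x.1 w
  two : ∀ (x : Y.P) (u v w : V), 1 / 3 < x.1 u → 1 / 3 < x.1 v → 1 / 3 < x.1 w →
    u = v ∨ u = w ∨ v = w
  al_eq : ∀ (x y : Y.P) (v v' : V), Dat.Com v x y → Dat.Com v' x y → h.al v x y = h.al v' x y
  al_mul : ∀ (x y z : Y.P) (v : V), h.al v x y * h.al v y z = h.al v x z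
  al_inv : ∀ (x y : Y.P) (v : V), h.al v y x = (h.al v x y)⁻¹
  κ_bc : ∀ s : Y.T, h.κ s (Y.bc s) = 1
  /-- in an open triangle a class of the first kind is a class of the second kind -/
  al_κ : ∀ (s : Y.T) (x y : Y.P) (v : V), (∀ w ∈ s.1, 0 < x.1 w) → (∀ w ∈ s.1, 0 < y.1 w) →
    Dat.Com v x y → ∃ m : ℤ, h.al v x y = h.κ s x * h.r s ^ m * (h.κ s y)⁻¹
  isP_al : ∀ (x y : Y.P) (v : V), Dat.Com v x y → h.X.IsP (h.F x) (h.F y) (h.al v x y)
  isP_κ : ∀ (s : Y.T) (x : Y.P), (∀ v ∈ s.1, 0 < x.1 v) → h.X.IsP (h.F x) (.inr s) (h.κ s x)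

/-! ## Part 1: geodesics and choices -/

/-- MODULE `Gd` (150 lines). Geodesics.
PROOF. Fix `o`, `x`, `D = d o x`, and the path `c` of `IsCat0.geo o x`. (1) `z = o`, `z = x` in the
inequality: `d o (c t) ≤ t D`, `d x (c t) ≤ (1 - t) D`, so by `tri` both are equalities. (2) Uniqueness:
if `d o z = t D`, `d z x = (1 - t) D`, `0 ≤ t ≤ 1`, then `z = c t` (inequality: `d z (c t)^2 ≤ 0`).
(3) For `t ≤ t'`: `d (c t) (c t') = (t' - t) D`: apply the inequality with `z = c t`: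
`d (c t) (c t')^2 ≤ (1 - t') t^2 D^2 + t' (1 - t)^2 D^2 - t' (1 - t') D^2 = (t' - t)^2 D^2`, and `≥` by `tri`.
Define `c o x t` (in `Gd`) as `c (t / D)` if `0 ≤ t < D`, `x` if `t ≥ D`, `o` if `t < 0` and `t < D`
(for `D = 0`, `t < 0` this gives `o = x`); `zero`: if `D = 0` then `o = x`.
(4) `lip`: let `z = c o x t`, `z' = c o x' t`, `δ = d x x'`, `D ≤ D'` by symmetry (`D' = d o x'`). If `t ≥ D'`
trivial. If `D ≤ t < D'`, `s' = t / D'`: `d x z'^2 ≤ (1 - s') D^2 + s' δ^2 - s' (1 - s') D'^2 ≤ s' δ^2`, because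
`D^2 ≤ t^2 ≤ t D' = s' D'^2`. If `0 ≤ t < D`, `s = t / D`, `s' = t / D'`:
`d z' z^2 ≤ (1 - s) t^2 + s d z' x^2 - s (1 - s) D^2` and `d x z'^2 ≤ (1 - s') D^2 + s' δ^2 - s' (1 - s') D'^2`,
so `d z z'^2 ≤ s s' (δ^2 - (D' - D)^2) ≤ δ^2` (use `s D = t = s' D'`).
(5) `smul`: by uniqueness, `d (g o) (g z) = d o z` (`Y.d_smul`). -/
def S_Gd : Prop := ∀ (G V : Type) [Group G] [MulAction G V] (Y : Dat G V), Nonempty (Gd Y)

/-- MODULE `Eqc` (50 lines). Equivariant choice. PROOF. Choose a representative `t₀` of every orbit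
(`Quotient.out` for `MulAction.orbitRel G T`), `w₀` with `P t₀ w₀` fixed by the stabilizer of `t₀`,
and for every `t` a `g` with `g • t₀ = t`; put `f t = g • w₀`. For `t' = g' • t` with chosen `g''`:
`g''⁻¹ g' g` is in the stabilizer of `t₀`. -/
def S_Eqc : Prop := ∀ (G T W : Type) [Group G] [MulAction G T] [MulAction G W]
  (P : T → W → Prop), (∀ (g : G) t w, P t w → P (g • t) (g • w)) →
  (∀ t, ∃ w, P t w ∧ ∀ g : G, g • t = t → g • w = w) →
  ∃ f : T → W, (∀ t, P t (f t)) ∧ ∀ (g : G) t, f (g • t) = g • f t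

/-- MODULE `Con` (80 lines; uses `S_Gd`). The 1-skeleton is connected.
PROOF. Let `u`, `v : V`, `D : Gd Y`, `y k = D.c (vp u) (vp v) (k (η/2))`, `k ≤ n` with `n (η/2) ≥ d`. Say
`x ~ v` if `0 < x.1 v`. All vertices of the carrier of a point are joined (`Dat.adj_of_pos`), and
consecutive points `y k`, `y (k+1)` have a common positive coordinate: `d < η ≤ 1/(24 A)`, and `y k` has
a coordinate `≥ 1/3` (at most three coordinates, sum 1), which changes by at most `A η < 1/3`. So a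
vertex of the carrier of `y 0 = vp u` is joined to a vertex of the carrier of `y n = vp v`. -/
def S_Con : Prop := ∀ (G V : Type) [Group G] [MulAction G V] [Nonempty V] (Y : Dat G V),
  Y.gr.Connected

/-- MODULE `Ch` (150 lines; uses `S_Eqc`, `S_Con`). The choices exist.
PROOF. Corners: `S_Eqc` with `T = Y.T`, `W = V × V × V` (componentwise action, an instance),
`P s w`: the three components are different and `s.1 = {w.1, w.2.1, w.2.2}` (`Finset.card_eq_three`); an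
element which fixes `s` fixes the three vertices by `Y.act.fix`. Orientation: `T` = the type of all
`e : Finset V` with `e ∈ Y.K ∧ e.card = 2` (with the action by images, define the instance locally, as
for `Y.T` in GeoDefs), `W = V × V`, `P e w`: `w.1 ≠ w.2`, `e = {w.1, w.2}`; then
`o u v := ∃ he : Y.Adj u v, f ⟨{u, v}, _⟩ = (u, v)`. Labels: `S_Eqc` with `T = Y.P`, `W = Y.Pos`,
`P = Dat.IsLab` (`Dat.exists_lab`; an element which fixes `x` fixes its labels by `Dat.fix_cr`, and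
`bc (g • s) = bc s → g • s = s` because the support of `bc s` is `s`). -/
def S_Ch : Prop := ∀ (G V : Type) [Group G] [MulAction G V] [Nonempty V] (Y : Dat G V),
  Nonempty (Ch Y)

/-- MODULE `Equ` (80 lines). Equivariance. PROOF. `h.X.φ_ε`, `h.X.φ_r`, `h.a_smul`, `h.F_smul`:
`φ g (al v x y) = al (g • v) (g • x) (g • y)`, `φ g (κ s x) = κ (g • s) (g • x)` (cases of `h.F x`), `Y.d_smul`,
`Y.smul_bc`, `Y.smul_apply`. `Ge`: induction on `Sq`, with `Gd.smul`. -/
def S_Equ : Prop := ∀ (G V : Type) [Group G] [MulAction G V] (Y : Dat G V) (h : Ch Y)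
  (D : Gd Y) (g : G),
  (∀ x y q, h.St x y q → h.St (g • x : Y.P) (g • y : Y.P) (h.X.φ g q)) ∧
  (∀ o x w, h.Ge D o x w → h.Ge D (g • o : Y.P) (g • x : Y.P) (h.X.φ g w))

/-- MODULE `Gam` (150 lines; uses `S_Eqc`, `S_Equ`). The equivariant paths.
PROOF. `S_Eqc` with `T = Y.Pos × Y.Pos`, `W = h.X.FG` with the action through `h.X.φ` (a local
instance, `MulAction.compHom` for `h.X.φ : G →* MulAut _`), and
`P (p, q) w := Ge D (pt p) (pt q) w ∧ h.X.IsP p q w ∧ (p = q → w = 1)` (invariant by `S_Equ`, `Y.smul_pt`,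
`Cx.IsP.smul`). Existence of `w` fixed by the stabilizer of `(p, q)`: if `p = q`, `w = 1`, `n = 0` in `Ge`.
If not: `y k = dg D (pt p) (pt q) k`, `n` large; every step has by `Bas.near` a class which is `al v _ _` with
a common coordinate `v`, or `κ s _ * r^0 * (κ s _)⁻¹`; both are fixed by every `g` which fixes `p` and `q`:
such a `g` fixes the points `y k` (`Gd.smul`), so all vertices with positive coordinates (`Dat.fix_cr`), the
labels `h.F (y k)` (`h.F_smul`), the vertex `v`, the triangle `s` (all its vertices have positive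
coordinates in `y k` by `Bas.ball`, so they are fixed) and its corners; use `h.X.φ_ε`. So by induction
for all `n` there is a `w` with `Sq y n w`, `φ g w = w` for all these `g`, and `IsP (F (y 0)) (F (y n)) w`
(`Bas.isP_al`, `Bas.isP_κ`); `F (pt p) = p`. -/
def S_Gam : Prop := ∀ (G V : Type) [Group G] [MulAction G V] (Y : Dat G V) (h : Ch Y)
  (D : Gd Y), Bas h → ∃ γ : Gam h.X, ∀ p q : Y.Pos, h.Ge D (Y.pt p) (Y.pt q) (γ.γ p q)

/-! ## Part 2: generation -/

/-- MODULE `Trb` (90 lines). Basic properties of discrete paths.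
PROOF. Induction. `St` is symmetric: `Bas.al_inv`, and `(κ r^m κ'⁻¹)⁻¹ = κ' r^(-m) κ⁻¹`. `IsP` for a step of
the second kind: `Bas.ball` (`ρ < 8 ρ`), `Bas.isP_κ`, `h.X.isP_r` and its powers. -/
def S_Trb : Prop := ∀ (G V : Type) [Group G] [MulAction G V] (Y : Dat G V) (h : Ch Y), Bas h →
  (∀ x y z l l' g g', h.Tr x y l g → h.Tr y z l' g' → h.Tr x z (l + l') (g * g')) ∧
  (∀ x y l g, h.Tr x y l g → h.Tr y x l g⁻¹) ∧
  (∀ x y l g, h.Tr x y l g → Y.d x y ≤ l) ∧
  (∀ x y l g, h.Tr x y l g → h.X.IsP (h.F x) (h.F y) g) ∧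
  (∀ x y q, h.St x y q → h.St y x q⁻¹)

/-- MODULE `Exs` (50 lines). Steps exist. PROOF. `Bas.near x`: `al v x y` or `κ s x * r^0 * (κ s y)⁻¹`.
Constant step: `al v x x = 1` by `al_mul`/`al_inv`, or `κ s x * r^0 * (κ s x)⁻¹ = 1`. -/
def S_Exs : Prop := ∀ (G V : Type) [Group G] [MulAction G V] (Y : Dat G V) (h : Ch Y), Bas h →
  (∀ x y : Y.P, Y.d x y < Y.η → ∃ q, h.St x y q) ∧ (∀ x : Y.P, h.St x x 1)

/-- MODULE `Toc` (100 lines; uses `S_Trb`). The way to the barycentre.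
PROOF. `y k = D.c x (bc s) (k (η/2))`, `L = d x (bc s)`. By `Gd.dist`: `d (y k) (y (k+1)) ≤ η/2 < η` and
`d (y k) (bc s) = L - min (k η/2) L < ρ`. Steps of the second kind with `m = 0`: the class of `y 0, .., y k`
is `κ s x * (κ s (y k))⁻¹`, the length is `min (k η/2) L` (induction on `k`; build the path at its end
with the first part of `S_Trb`). At the end `y k = bc s`, `κ s (bc s) = 1`. -/
def S_Toc : Prop := ∀ (G V : Type) [Group G] [MulAction G V] (Y : Dat G V) (h : Ch Y), Bas h →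
  Gd Y → ∀ (s : Y.T) (x : Y.P), Y.d x (Y.bc s) < Y.ρ →
    h.Tr x (Y.bc s) (Y.d x (Y.bc s)) (h.κ s x)

/-- MODULE `Sho` (80 lines). A short path which starts near the barycentre of `s` and ends at a
position ends at `s` and is a power of `r s`.
PROOF. Induction on `Tr` for `d x (bc s) + l < 8 ρ`: every point of the path has distance `< 8 ρ` from
`bc s`, so is in the open triangle (`Bas.ball`); steps of the first kind: `Bas.al_κ`; steps of the second
kind at `s'`: `s' = s` (both points are in the open triangles `s` and `s'`, so `s ⊆ carrier`, `s' ⊆ carrier`,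
`card ≤ 3`; or by `Bas.sep`, as `ρ + 8 ρ`.. is not enough use the carriers). At the end `x = pt v` with
`d (pt v) (bc s) < 8 ρ`: `v = inr s` by `Bas.sep`, and `κ s (bc s) = 1`. -/
def S_Sho : Prop := ∀ (G V : Type) [Group G] [MulAction G V] (Y : Dat G V) (h : Ch Y), Bas h →
  ∀ (s : Y.T) (v : Y.Pos) (x : Y.P) (l : ℝ) (g : h.X.FG), h.Tr x (Y.pt v) l g →
    Y.d x (Y.bc s) + l < 8 * Y.ρ → v = .inr s ∧ ∃ m : ℤ, g = h.κ s x * h.r s ^ m

/-- All classes of discrete paths of length `< 2 n ρ` from `o` to `v` are in `B o v`. -/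
def PP (h : Ch Y) {R : Type} [Ring R] (j : h.X.FG →* R) (B : Y.Pos → Y.Pos → AddSubgroup R)
    (n : ℕ) : Prop :=
  ∀ (o v : Y.Pos) (l : ℝ) (g : h.X.FG), h.Tr (Y.pt o) (Y.pt v) l g → l < n * (2 * Y.ρ) →
    j g ∈ B o v

/-- MODULE `Mer` (60 lines). Powers of the boundary elements. PROOF. `h.X.bv s = inr s` (rfl),
`1 = j (γ (inr s) (inr s)) ∈ B (inr s) (inr s)`. So `B o (inr s)` is stable under `* j (r s)` and
`* j (r s)⁻¹` (`cell`, `cell'` with `b = 1`), hence under `* j (r s ^ m)`; the same on the left. Third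
claim for `m ≥ 0`, by induction:
`a (j r^(m+1) - 1) b = (a j r^m) (j r - 1) b + a (j r^m - 1) b`, the same for `m ≤ 0`. -/
def S_Mer : Prop := ∀ (G V : Type) [Group G] [MulAction G V] (Y : Dat G V) (h : Ch Y)
  (γ : Gam h.X) (R : Type) [Ring R] (j : h.X.FG →* R) (B : Y.Pos → Y.Pos → AddSubgroup R),
  Bdg γ j B → ∀ (s : Y.T) (m : ℤ) (o v : Y.Pos),
    (∀ a ∈ B o (.inr s), a * j (h.r s ^ m) ∈ B o (.inr s)) ∧
    (∀ b ∈ B (.inr s) v, j (h.r s ^ m) * b ∈ B (.inr s) v) ∧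
    (∀ a ∈ B o (.inr s), ∀ b ∈ B (.inr s) v, a * (j (h.r s ^ m) - 1) * b ∈ B o v)

/-- MODULE `Chg` (120 lines; uses `S_Trb`, `S_Toc`, `S_Sho`, `S_Mer`). The exponent does not matter.
PROOF. `a = g1 κ(x)`, `b = κ(y)⁻¹ g2`; `Tr (pt o) (bc s) (l1 + d x (bc s)) a` and `Tr (bc s) (pt v) (.. + l2) b` by
`S_Toc`, `S_Trb` (`bc s = pt (inr s)`). (a) If `l1 + ρ < 2 n ρ` and `l2 + ρ < 2 n ρ`: `j a ∈ B o (inr s)`,
`j b ∈ B (inr s) v` by `PP n`, and `j (a r^m' b) = j (a r^m b) + [j a (j r^m' - 1) j b] - [j a (j r^m - 1) j b]`.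
(b) If `l1 + ρ ≥ 2 n ρ`: `l2 < 3 ρ + 6 η ≤ 3.5 ρ`, so `S_Sho` for `Tr y (pt v) l2 g2`: `v = inr s`, `b = r^i`. Then
`j (a r^m' b) = j (a r^m b) * j (r^(m' - m))` (powers of `r` commute), in `B o (inr s)` by `S_Mer`.
(c) If `l2 + ρ ≥ 2 n ρ`: the same with the reversed path (`S_Trb`), `o = inr s`, `a = r^i`. -/
def S_Chg : Prop := ∀ (G V : Type) [Group G] [MulAction G V] (Y : Dat G V) (h : Ch Y), Bas h →
  Gd Y → ∀ (γ : Gam h.X) (R : Type) [Ring R] (j : h.X.FG →* R)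
  (B : Y.Pos → Y.Pos → AddSubgroup R), Bdg γ j B → ∀ n : ℕ, PP h j B n →
  ∀ (o v : Y.Pos) (s : Y.T) (m m' : ℤ) (x y : Y.P) (l1 l2 : ℝ) (g1 g2 : h.X.FG),
    h.Tr (Y.pt o) x l1 g1 → Y.d x (Y.bc s) < Y.ρ → Y.d y (Y.bc s) < Y.ρ →
    h.Tr y (Y.pt v) l2 g2 → l1 + l2 < (n + 1) * (2 * Y.ρ) + 6 * Y.η →
    j (g1 * (h.κ s x * h.r s ^ m * (h.κ s y)⁻¹) * g2) ∈ B o v →
    j (g1 * (h.κ s x * h.r s ^ m' * (h.κ s y)⁻¹) * g2) ∈ B o v

/-- MODULE `Cst` (60 lines; uses `S_Chg`). The choice of the class of a step does not matter.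
PROOF. If both classes are of the first kind they are equal (`Bas.al_eq`). If one of them is of the
second kind, at `s`, then `x` and `y` are in the ball of radius `ρ` around `bc s`, and both classes are
`κ s x * r^m * (κ s y)⁻¹` (`Bas.al_κ`, `Bas.ball`; two second kind classes have the same `s` by `Bas.sep`). -/
def S_Cst : Prop := ∀ (G V : Type) [Group G] [MulAction G V] (Y : Dat G V) (h : Ch Y), Bas h →
  Gd Y → ∀ (γ : Gam h.X) (R : Type) [Ring R] (j : h.X.FG →* R)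
  (B : Y.Pos → Y.Pos → AddSubgroup R), Bdg γ j B → ∀ n : ℕ, PP h j B n →
  ∀ (o v : Y.Pos) (x y : Y.P) (q q' : h.X.FG) (l1 l2 : ℝ) (g1 g2 : h.X.FG),
    h.Tr (Y.pt o) x l1 g1 → h.St x y q → h.St x y q' →
    h.Tr y (Y.pt v) l2 g2 → l1 + l2 < (n + 1) * (2 * Y.ρ) + 6 * Y.η →
    j (g1 * q * g2) ∈ B o v → j (g1 * q' * g2) ∈ B o v

/-- MODULE `Qud` (120 lines; uses `S_Trb`, `S_Chg`, `S_Cst`). Small quadrangles.
PROOF. `Bas.near x`. If all four points have a coordinate `v` larger than `1/3`: by `S_Cst` (with the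
other step as part of `g1` or `g2`, which is a path longer by less than `η`; append with `Tr.cons`, or
`S_Trb` for the part at the end of `g1`) we may replace `s'`, `t'` by `al v x y'`, `al v y' w`, whose product
is `al v x w = al v x y * al v y w`, and then these two by `s`, `t`. If all four points are in the ball of
radius `ρ` around `bc s₀`: all four classes are of the second kind at `s₀` (`Bas.al_κ`, `Bas.ball`,
`Bas.sep`), so both products are `κ x * r^m * (κ w)⁻¹` and `S_Chg` applies. -/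
def S_Qud : Prop := ∀ (G V : Type) [Group G] [MulAction G V] (Y : Dat G V) (h : Ch Y), Bas h →
  Gd Y → ∀ (γ : Gam h.X) (R : Type) [Ring R] (j : h.X.FG →* R)
  (B : Y.Pos → Y.Pos → AddSubgroup R), Bdg γ j B → ∀ n : ℕ, PP h j B n →
  ∀ (o v : Y.Pos) (x y y' w : Y.P) (s t s' t' : h.X.FG) (l1 l2 : ℝ) (g1 g2 : h.X.FG),
    h.Tr (Y.pt o) x l1 g1 → h.St x y s → h.St y w t → h.St x y' s' → h.St y' w t' →
    Y.d x w < 2 * Y.η → h.Tr w (Y.pt v) l2 g2 → l1 + l2 < (n + 1) * (2 * Y.ρ) →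
    j (g1 * (s' * t') * g2) ∈ B o v → j (g1 * (s * t) * g2) ∈ B o v

/-- MODULE `Sqt` (80 lines; uses `S_Trb`). Discrete geodesics are discrete paths.
PROOF. Induction on `n` (first part; the new step is added at the end with `S_Trb`,
`Gd.dist`), and for the second part: the classes of the points `y k, .., y (k + m)`. -/
def S_Sqt : Prop := ∀ (G V : Type) [Group G] [MulAction G V] (Y : Dat G V) (h : Ch Y), Bas h →
  ∀ (D : Gd Y) (o x : Y.P),
  (∀ (n : ℕ) (g : h.X.FG), h.Sq (Ch.dg D o x) n g →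
    h.Tr o (Ch.dg D o x n) (min (n * (Y.η / 2)) (Y.d o x)) g) ∧
  (∀ (k m : ℕ) (g : h.X.FG), h.Sq (fun i => Ch.dg D o x (k + i)) m g →
    h.Tr (Ch.dg D o x k) (Ch.dg D o x (k + m))
      (min ((k + m : ℕ) * (Y.η / 2)) (Y.d o x) - min (k * (Y.η / 2)) (Y.d o x)) g)

/-- MODULE `Sqb` (60 lines). Operations with sequences. PROOF. Inductions. Fourth part: `Sq` is defined
by adding steps at the end. -/
def S_Sqb : Prop := ∀ (G V : Type) [Group G] [MulAction G V] (Y : Dat G V) (h : Ch Y)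
  (y : ℕ → Y.P),
  (∀ (n m : ℕ) (g g' : h.X.FG), h.Sq y n g → h.Sq (fun i => y (n + i)) m g' →
    h.Sq y (n + m) (g * g')) ∧
  (∀ (n : ℕ) (q g : h.X.FG), h.St (y 0) (y 1) q → h.Sq (fun i => y (1 + i)) n g →
    h.Sq y (n + 1) (q * g)) ∧
  (∀ (n m : ℕ) (g : h.X.FG), h.Sq y n g → (∀ i, n ≤ i → y i = y n) → h.St (y n) (y n) 1 →
    h.Sq y (n + m) g) ∧
  (∀ (n : ℕ) (g : h.X.FG), h.Sq y (n + 1) g → ∃ q g', h.St (y 0) (y 1) q ∧
    h.Sq (fun i => y (1 + i)) n g' ∧ g = q * g')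

/-- MODULE `Swp` (150 lines; uses `S_Exs`, `S_Cst`, `S_Qud`, `S_Sqt`, `S_Sqb`). The sweep.
PROOF. `y k = dg D (pt o) x k`, `y' k = dg D (pt o) x' k`. Let `g` be a class of `y 0, .., y n₁`, `n₁ η/2 ≥ d o x`.
Take `M ≥ n₁` with `M η/2 ≥ d o x'`; since `y` is constant (`= x`, `Gd.end_`) from `n₁` on, `Sq y M g`
(`S_Sqb`, `S_Exs`). For `k ≤ M` let `H k`: for all `g`, `q`, `g'` with `Sq y k g`, `St (y k) (y' k) q`,
`Sq (fun i => y' (k + i)) (M - k) g'`: `j (g * q * (g' * g₂)) ∈ B o v`. `H 0`: `y 0 = y' 0 = pt o`, `q` and `1` are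
classes of the step, so by `S_Cst` (with `g1 = 1`) it is enough to take `q = 1`, and `g'` is a class in
`Ge D (pt o) x'`: the hypothesis. `H k → H (k + 1)` for `k + 1 ≤ M`: write `g = g₀ * s` (cases of `Sq`), choose
classes `s₁ : St (y k) (y' k)`, `t₁ : St (y' k) (y' (k+1))` (`S_Exs`; `d (y k) (y' k) ≤ d x x' < η` by `Gd.lip`,
`d (y' k) (y' (k+1)) ≤ η/2`); by `H k` the class `g₀ * s₁ * (t₁ * g' * g₂)` is in `B o v` (`S_Sqb` second part,
shifted), and `S_Qud` with `x = y k`, `y = y (k+1)`, `y' = y' k`, `w = y' (k+1)` gives the claim. Lengths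
(`S_Sqt`): `l1 = min (k η/2) D`, `l2 = D' - min ((k+1) η/2) D' + l` with `D = d o x`, `D' = d o x' ≤ D + d x x'`, so
`l1 + l2 ≤ D + d x x' + l`. `H M` with `g' = 1` is the claim. (For `H 0` also use `S_Cst`.) -/
def S_Swp : Prop := ∀ (G V : Type) [Group G] [MulAction G V] (Y : Dat G V) (h : Ch Y), Bas h →
  ∀ (D : Gd Y) (γ : Gam h.X) (R : Type) [Ring R] (j : h.X.FG →* R)
  (B : Y.Pos → Y.Pos → AddSubgroup R), Bdg γ j B → ∀ n : ℕ, PP h j B n →
  ∀ (o v : Y.Pos) (x x' : Y.P) (q g2 : h.X.FG) (l : ℝ), h.St x x' q →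
    h.Tr x' (Y.pt v) l g2 → Y.d (Y.pt o) x + Y.d x x' + l < (n + 1) * (2 * Y.ρ) →
    (∀ g, h.Ge D (Y.pt o) x' g → j (g * g2) ∈ B o v) →
    ∀ g, h.Ge D (Y.pt o) x g → j (g * (q * g2)) ∈ B o v

/-- MODULE `Geu` (90 lines; uses `S_Exs`, `S_Cst`, `S_Sqt`, `S_Sqb`). All classes of the discrete geodesic
from `o` to `v` are in `B o v` if one of them is.
PROOF. Extend both to the same number `M` of points (`S_Sqb`, third part). Change the classes of the
steps one after the other: for `k ≤ M` the product of the first `k` classes of `g'` and the last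
`M - k` classes of `g` is in `B o v` (induction on `k`, `S_Cst`; lengths by `S_Sqt`: the sum is
`≤ d (pt o) (pt v)`). -/
def S_Geu : Prop := ∀ (G V : Type) [Group G] [MulAction G V] (Y : Dat G V) (h : Ch Y), Bas h →
  ∀ (D : Gd Y) (γ : Gam h.X) (R : Type) [Ring R] (j : h.X.FG →* R)
  (B : Y.Pos → Y.Pos → AddSubgroup R), Bdg γ j B → ∀ n : ℕ, PP h j B n →
  ∀ (o v : Y.Pos) (g g' : h.X.FG), Y.d (Y.pt o) (Y.pt v) < (n + 1) * (2 * Y.ρ) →
    h.Ge D (Y.pt o) (Y.pt v) g → h.Ge D (Y.pt o) (Y.pt v) g' → j g ∈ B o v → j g' ∈ B o v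

/-- MODULE `Rea` (150 lines; uses `S_Trb`). The edges are discrete paths.
PROOF. (1) `p = inl u`, `q = inl v`, `Y.Adj u v`: `x i = ln (vp u) (vp v) (i / N)` with the coordinates
`1 - i/N` at `u`, `i/N` at `v`, and `0` elsewhere (`Dat.ln_apply` with the simplex `{u, v}`); consecutive
points have distance `≤ A / N < η` (`IsTame.bound`). Every `x i` has one of the coordinates `u`, `v` larger
than `1/3`, and so has every pair of consecutive points for `N ≥ 3` (common coordinate `u` if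
`(i + 1)/N < 2/3`, and `v` if `i/N > 1/3`); the label of `x i` is `inl u` or `inl v`. By induction the class
`e (inl u) (F (x i))` is a class of `x 0, .., x i`, because `e p q * e q r = e p r` for `p, q, r` in
`{inl u, inl v}`. (2) `p = inr s`, `q = inl (a s)`: `x i = ln (bc s) (vp (a s)) (i / N)`, the coordinate at `a s` is
`1/3 + (2/3) (i/N)`, the others are smaller than `1/3` for `i > 0`; the first step is of the second kind with
`m = 0`: `κ (bc s) = 1`, `κ (x 1) = k s (a s) = e (inl (a s)) (inr s)`; the other steps are of the first kind with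
the class `1`. (3) `p = inl (a s)`, `q = inr s`: reverse (`S_Trb`). -/
def S_Rea : Prop := ∀ (G V : Type) [Group G] [MulAction G V] (Y : Dat G V) (h : Ch Y), Bas h →
  ∀ p q : Y.Pos, h.wAdj p q → ∃ l, h.Tr (Y.pt p) (Y.pt q) l (h.e p q)

/-- MODULE `Gen` (100 lines; uses `S_Trb`, `S_Swp`, `S_Geu`, `S_Rea`). Generation.
PROOF. `PP 0` is empty (lengths are `≥ 0`). `PP n → PP (n + 1)`: fix `o`, `v`. By induction on `Tr`:
for all `x`, `l`, `g` with `Tr x (pt v) l g`, `d (pt o) x + l < (n + 1) 2ρ` and all `g₁` with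
`Ge D (pt o) x g₁`: `j (g₁ * g) ∈ B o v`. `nil`: `x = pt v`: `S_Geu` with the class `γ o v`, which is in `B o v`
by `Bdg.gam`. `cons`: `S_Swp`, with `d (pt o) y ≤ d (pt o) x + d x y`. Then `x = pt o`, `g₁ = 1` (`n = 0` in
`Ge`). So `PP n` for all `n`. A walk in `h.X.Γ` from `o` to `v` is a discrete path with the class `val` by
`S_Rea`, `S_Trb` (`h.X.Γ.Adj = h.wAdj`), of some length `l`; take `n` with `l < n 2ρ`. -/
def S_Gen : Prop := ∀ (G V : Type) [Group G] [MulAction G V] (Y : Dat G V) (h : Ch Y), Bas h →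
  ∀ (D : Gd Y) (γ : Gam h.X), (∀ p q : Y.Pos, h.Ge D (Y.pt p) (Y.pt q) (γ.γ p q)) → Gen γ

/-! ## Part 3: independence (`H_2 = 0`) -/

open Classical in
/-- The class of a step with a common coordinate larger than `1/3` (`1` if there is none). -/
noncomputable def Ch.alf (h : Ch Y) (x y : Y.P) : h.X.FG :=
  if hc : ∃ v, Dat.Com v x y then h.al hc.choose x y else 1

/-- The product of the classes of the steps of the sequence `y 0, …, y n`. -/
noncomputable def Ch.pr (h : Ch Y) (y : ℕ → Y.P) : ℕ → h.X.FG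
  | 0 => 1
  | n + 1 => Ch.pr h y n * h.alf (y n) (y (n + 1))

/-- The points `x`, `y` have a common coordinate larger than `1/3`. -/
def Ok (x y : Y.P) : Prop := ∃ v, Dat.Com v x y

/-- The retraction of the edge from `u` to `v` onto the ball of radius `ρ` around `bc s`. -/
noncomputable def pth (D : Gd Y) (s : Y.T) (N : ℕ) (u v : V) (i : ℕ) : Y.P :=
  D.c (Y.bc s) (Y.ln (Y.vp u) (Y.vp v) (i / N)) Y.ρ

/-- MODULE `Alf` (50 lines). PROOF. `Bas.al_eq`, `Bas.al_mul`, `Bas.al_inv`. -/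
def S_Alf : Prop := ∀ (G V : Type) [Group G] [MulAction G V] (Y : Dat G V) (h : Ch Y), Bas h →
  (∀ x y v, Dat.Com v x y → h.alf x y = h.al v x y) ∧
  (∀ x y z v, 1 / 3 < x.1 v → 1 / 3 < y.1 v → 1 / 3 < z.1 v →
    h.alf x y * h.alf y z = h.alf x z) ∧
  (∀ x y, h.alf y x = (h.alf x y)⁻¹) ∧ (∀ x, h.alf x x = 1)

/-- MODULE `Grd` (100 lines; uses `S_Alf`). A grid. PROOF. First `N = 1` by induction on `M`: with
`f i = H i 0`, `g i = H i 1`: `pr f i * alf (f i) (g i) = alf (f 0) (g 0) * pr g i` (the common vertex of the four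
corners of a square: `alf (f i) (f (i+1)) * alf (f (i+1)) (g (i+1)) = alf (f i) (g i) * alf (g i) (g (i+1))`). Then
induction on `N`. -/
def S_Grd : Prop := ∀ (G V : Type) [Group G] [MulAction G V] (Y : Dat G V) (h : Ch Y), Bas h →
  ∀ (M N : ℕ) (H : ℕ → ℕ → Y.P), (∀ i j, i < M → j < N → ∃ v, 1 / 3 < (H i j).1 v ∧
    1 / 3 < (H (i + 1) j).1 v ∧ 1 / 3 < (H i (j + 1)).1 v ∧ 1 / 3 < (H (i + 1) (j + 1)).1 v) →
  h.pr (fun i => H i 0) M * h.pr (fun j => H M j) N =
    h.pr (fun j => H 0 j) N * h.pr (fun i => H i N) M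

/-- MODULE `Rev` (50 lines; uses `S_Alf`). Reversal. PROOF. Induction on `N`: first
`pr y (n + 1) = alf (y 0) (y 1) * pr (fun i => y (1 + i)) n`. -/
def S_Rev : Prop := ∀ (G V : Type) [Group G] [MulAction G V] (Y : Dat G V) (h : Ch Y), Bas h →
  ∀ (y y' : ℕ → Y.P) (N : ℕ), (∀ i, i ≤ N → y' i = y (N - i)) →
    h.pr y' N = (h.pr y N)⁻¹

/-- MODULE `Nea` (80 lines). Points which are not too close to `bc s`. Let `r₁ = ρ / (3 A²)`. If
`z` is in the ball of radius `ρ` around `bc s` and `d z (bc s) ≥ r₁`, all points near `z` have a common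
coordinate larger than `1/3`. PROOF. `Bas.dic` with `r = r₁`: the second case is impossible: for `s' = s`
because `r₁ / 2 < r₁`, for `s' ≠ s` because `8 ρ ≤ d (bc s) (bc s') ≤ ρ + r₁ / 2` (`Bas.sep`). Second claim:
`c (bc s) x ρ` has distance `min ρ (d (bc s) x)` from `bc s` (`Gd.dist`, `Gd.zero`). -/
def S_Nea : Prop := ∀ (G V : Type) [Group G] [MulAction G V] (Y : Dat G V) (h : Ch Y), Bas h →
  ∀ (D : Gd Y) (s : Y.T),
  (∀ z : Y.P, Y.d z (Y.bc s) ≤ Y.ρ → Y.ρ ≤ 3 * Y.A ^ 2 * Y.d z (Y.bc s) →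
    ∃ v, ∀ y, 18 * Y.A ^ 4 * Y.d z y < Y.ρ → 1 / 3 < y.1 v) ∧
  (∀ x : Y.P, Y.ρ ≤ 3 * Y.A ^ 2 * Y.d x (Y.bc s) →
    ∃ v, ∀ y, 18 * Y.A ^ 4 * Y.d x y < Y.ρ → 1 / 3 < (D.c (Y.bc s) y Y.ρ).1 v)

/-- MODULE `Trg` (150 lines; uses `S_Alf`, `S_Grd`, `S_Nea`). Triangles different from `s`.
PROOF. Let `t ∈ K`, `t ≠ s`, contain the (pairwise different) vertices `a`, `b`, `c`. All points `x` of the
closed simplex `t` satisfy `d x (bc s) ≥ 8 ρ`: there is a `v ∈ s`, `v ∉ t` (`card t ≤ 3`), with the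
coordinates `0` and `1/3` (`IsTame.lip`, `24 A ρ = 1`). `S_Grd` with `M = N`,
`H i j = D.c (bc s) (ln (vp a) (ln (vp b) (vp c) (j/N)) (i/N)) ρ`; neighbouring points of the grid have
coordinates which differ by at most `2/N`, so distance `≤ 2 A / N` (`IsTame.bound`), and `36 A^5 < ρ N`; `S_Nea`
second part (`Gd.lip` is used there). `pr (H · 0) = pth a b`, `pr (H N ·) = pth b c`, `pr (H 0 ·) = 1` (constant),
`pr (H · N) = pth a c`. (`ln x y 0 = x`, `ln x y 1 = y` by `Dat.ln_apply`, `Y.ext`.) -/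
def S_Trg : Prop := ∀ (G V : Type) [Group G] [MulAction G V] (Y : Dat G V) (h : Ch Y), Bas h →
  ∀ (D : Gd Y) (s : Y.T) (N : ℕ), 36 * Y.A ^ 5 < Y.ρ * N → ∀ t ∈ Y.K, t ≠ s.1 →
  ∀ a ∈ t, ∀ b ∈ t, ∀ c ∈ t,
    h.pr (pth D s N a b) N * h.pr (pth D s N b c) N = h.pr (pth D s N a c) N

/-- MODULE `Rad` (200 lines; uses `S_Alf`, `S_Grd`, `S_Nea`). The edges of the triangle `s` itself.
PROOF. Let `τ₀ = ρ / A ≤ 1`, `τ j = τ₀ + (1 - τ₀) j / N`, and for `u ≠ v` in `s`:
`H i j = D.c (bc s) (ln (bc s) (ln (vp u) (vp v) (i/N)) (τ j)) ρ`. The point `x = ln (bc s) (ln .. (i/N)) (τ j)` has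
the coordinate `(1 - τ j)/3` at the third vertex of `s`, so `d x (bc s) ≥ τ j / (3 A) ≥ ρ / (3 A²)`; steps
`≤ A * 2/N`, `36 A^5 < ρ N`: `S_Nea`, `S_Grd`. Right and left side: `R u = pr (fun j => D.c (bc s)
(ln (bc s) (vp u) (τ j)) ρ) N` and `R v`. `j = N`: `pth D s N u v`. `j = 0`: `d x (bc s) ≤ A τ₀ = ρ` (`IsTame.bound`), so
`D.c (bc s) x ρ = x` (`Gd.end_`): the points `x i` with coordinates `(1 - τ₀)/3 < 1/3` at the third vertex,
`(1 - τ₀)/3 + τ₀ (1 - i/N)` at `u`, `(1 - τ₀)/3 + τ₀ i/N` at `v`; labels in `{inl u, inl v}`; by induction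
`pr x i = e (inl u) (h.F (x i))` (`e p q * e q r = e p r` for `p, q, r` in `{inl u, inl v}`; `S_Alf`, consecutive
points have a common coordinate `> 1/3` by `S_Nea`, which is `u` or `v`), `h.F (x 0) = inl u`,
`h.F (x N) = inl v`. So `e (inl u) (inl v) * R v = R u * pr (pth u v) N`. -/
def S_Rad : Prop := ∀ (G V : Type) [Group G] [MulAction G V] (Y : Dat G V) (h : Ch Y), Bas h →
  ∀ (D : Gd Y) (s : Y.T) (N : ℕ), 36 * Y.A ^ 5 < Y.ρ * N → ∃ R : V → h.X.FG,
  ∀ u ∈ s.1, ∀ v ∈ s.1, u ≠ v →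
    h.pr (pth D s N u v) N = (R u)⁻¹ * h.e (.inl u) (.inl v) * R v

/-- MODULE `Lin` (60 lines). PROOF. Linear functionals `L c : (E →₀ k) → k`,
`L c (single e 1) = (W c (of e)).toAdd`; two homomorphisms `FreeGroup E →* Multiplicative k` which agree on
the generators are equal, so `L c (chain k x) = (W c x).toAdd`. Apply `L c` to a relation. -/
def S_Lin : Prop := ∀ (E C : Type) (r : C → FreeGroup E)
  (W : C → FreeGroup E →* Multiplicative ℤ),
  (∀ c, W c (r c) = Multiplicative.ofAdd 1) → (∀ c c', c' ≠ c → W c (r c') = 1) →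
  ∀ (k : Type) [CommRing k], LinearIndependent k fun c => chain k (r c)

/-- MODULE `Ind` (150 lines; uses `S_Alf`, `S_Rev`, `S_Trg`, `S_Rad`, `S_Lin`). Independence.
PROOF. Fix `s`, `D`, `N` with `36 A^5 < ρ N`. Let `ω : h.X.FG →* Multiplicative ℤ` be `FreeGroup.lift` of
`1` (`ofAdd 1`) at the edge `(inl (a s), inl (b s))` (if `h.o (a s) (b s)`), or `ofAdd (-1)` at
`(inl (b s), inl (a s))`, and trivial at the other edges: `ω (e (inl (a s)) (inl (b s))) = ofAdd 1`,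
`ω (e (inl (b s)) (inl (c s))) = ω (e (inl (c s)) (inl (a s))) = 1`. Put
`w u v = ω (pr (pth D s N u v) N)`. `w v u = (w u v)⁻¹` (`S_Rev`; `ln (vp v) (vp u) (i/N) = ln (vp u) (vp v) ((N-i)/N)`).
`W s : h.X.FG →* Multiplicative ℤ` is `FreeGroup.lift` of `w u v` at the edge `(inl u, inl v)` and `1` at
the whiskers; so `W s (e (inl u) (inl v)) = w u v` for neighbours `u`, `v`. `W s (r s') = w a' b' * w b' c' * w c' a'`
with the corners of `s'` (`Ch.r_eq`). `s' ≠ s`: `S_Trg` for `t = s'.1` gives `w a' c' * w c' a' = 1`. `s' = s`: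
`S_Rad`: `ω` of `(R a)⁻¹ e(a,b) R b (R b)⁻¹ e(b,c) R c (R c)⁻¹ e(c,a) R a` is `ofAdd 1`. Then `S_Lin`. -/
def S_Ind : Prop := ∀ (G V : Type) [Group G] [MulAction G V] (Y : Dat G V) (h : Ch Y), Bas h →
  Gd Y → ∀ (k : Type) [CommRing k], h.X.Ind k

end Pool.Agent.Sw
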