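import Pool.Agent.Lib.MP_8f66f0_al_Sw.GeoSpec

/-! Theorem L1, module `Trg` (author helper97): the retraction of the boundary of a triangle
different from `s` onto the ball around the barycentre of `s` has the trivial class. -/

set_option autoImplicit false

namespace Pool.Agent.Sw

open Pool.Agent.Cx2 Pool.Agent.LinAll

variable {G V : Type} [Group G] [MulAction G V] {Y : Dat G V}

private theorem Trg_supp {x y : Y.P} {s : Finset V} (hs : s ∈ Y.K)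
    (h : ∀ v, v ∉ s → x.1 v = 0 ∧ y.1 v = 0) (t : ℝ) {v : V} (hv : v ∉ s) :
    (Y.ln x y t).1 v = 0 := by
  by_cases h1 : 0 ≤ t ∧ t ≤ 1
  · rw [Y.ln_apply hs h h1.1 h1.2, (h v hv).1, (h v hv).2]
    ring
  · unfold Dat.ln
    rw [dif_neg]
    · exact (h v hv).1
    · rintro ⟨_, _, _, h2⟩
      exact h1 h2

private theorem Trg_zero {x y : Y.P} {s : Finset V} (hs : s ∈ Y.K)
    (h : ∀ v, v ∉ s → x.1 v = 0 ∧ y.1 v = 0) : Y.ln x y 0 = x :=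
  Y.ext fun v => by
    rw [Y.ln_apply hs h le_rfl zero_le_one]
    ring

private theorem Trg_one {x y : Y.P} {s : Finset V} (hs : s ∈ Y.K)
    (h : ∀ v, v ∉ s → x.1 v = 0 ∧ y.1 v = 0) : Y.ln x y 1 = y :=
  Y.ext fun v => by
    rw [Y.ln_apply hs h zero_le_one le_rfl]
    ring

private theorem Trg_vp {t : Finset V} {a v : V} (ha : a ∈ t) (hv : v ∉ t) :
    (Y.vp a).1 v = 0 := by
  classical
  rw [Y.vp_apply, if_neg]
  rintro rfl
  exact hv ha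

private theorem Trg_const {h : Ch Y} (h1 : ∀ x, h.alf x x = 1) (x : Y.P) (n : ℕ) :
    h.pr (fun _ => x) n = 1 := by
  induction n with
  | zero => rfl
  | succ n ih =>
    change h.pr (fun _ => x) n * h.alf x x = 1
    rw [ih, h1, one_mul]

private theorem Trg_num {α β γ p q p' q' r : ℝ} (hα : 0 ≤ α) (hα1 : α ≤ 1) (hβ : 0 ≤ β)
    (hβ1 : β ≤ 1) (hγ : 0 ≤ γ) (hγ1 : γ ≤ 1) (hp : 0 ≤ p) (hp1 : p ≤ 1) (hq : 0 ≤ q')
    (hq1 : q' ≤ 1) (h1 : |p - p'| ≤ r) (h2 : |q - q'| ≤ r) :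
    |((1 - p) * α + p * ((1 - q) * β + q * γ)) -
      ((1 - p') * α + p' * ((1 - q') * β + q' * γ))| ≤ 2 * r := by
  have e : ((1 - p) * α + p * ((1 - q) * β + q * γ)) -
      ((1 - p') * α + p' * ((1 - q') * β + q' * γ)) =
      (p - p') * (((1 - q') * β + q' * γ) - α) + p * ((q - q') * (γ - β)) := by ring
  have m0 : 0 ≤ (1 - q') * β + q' * γ := by
    have := mul_nonneg (sub_nonneg.2 hq1) hβ
    have := mul_nonneg hq hγ
    linarith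
  have m1 : (1 - q') * β + q' * γ ≤ 1 := by
    have := mul_le_mul_of_nonneg_left hβ1 (sub_nonneg.2 hq1)
    have := mul_le_mul_of_nonneg_left hγ1 hq
    linarith
  have hr : 0 ≤ r := (abs_nonneg _).trans h1
  have a1 : |(p - p') * (((1 - q') * β + q' * γ) - α)| ≤ r * 1 := by
    rw [abs_mul]
    exact mul_le_mul h1 (abs_le.2 ⟨by linarith, by linarith⟩) (abs_nonneg _) hr
  have a2 : |p * ((q - q') * (γ - β))| ≤ 1 * (r * 1) := by
    rw [abs_mul, abs_mul]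
    refine mul_le_mul ?_ (mul_le_mul h2 (abs_le.2 ⟨by linarith, by linarith⟩) (abs_nonneg _) hr)
      (mul_nonneg (abs_nonneg _) (abs_nonneg _)) zero_le_one
    rw [abs_of_nonneg hp]
    exact hp1
  rw [e]
  refine (abs_add_le _ _).trans ?_
  linarith

theorem tTrg (h1 : S_Alf) (h2 : S_Grd) (h3 : S_Nea) : S_Trg := by
  classical
  intro G V _ _ Y h hB D s N hN t ht hts a ha b hb c hc
  have hA := Y.A_pos
  have hρ := Y.ρ_pos
  have hN0 : (0 : ℝ) < N := by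
    by_contra h0
    have h4 : (N : ℝ) = 0 := le_antisymm (not_lt.1 h0) (Nat.cast_nonneg N)
    rw [h4, mul_zero] at hN
    have h5 : 0 < 36 * Y.A ^ 5 := by positivity
    linarith
  have hNN : (N : ℝ) / N = 1 := div_self hN0.ne'
  obtain ⟨v0, hv0, hv0t⟩ : ∃ v ∈ s.1, v ∉ t := by
    by_contra hcon
    have hsub : s.1 ⊆ t := fun v hv => by
      by_contra h4
      exact hcon ⟨v, hv, h4⟩
    have h4 := Y.cx.card t ht
    exact hts (Finset.eq_of_subset_of_card_le hsub (by rw [s.2.2]; exact h4)).symm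
  have hfar : ∀ x : Y.P, (∀ v, v ∉ t → x.1 v = 0) →
      Y.ρ ≤ 3 * Y.A ^ 2 * Y.d x (Y.bc s) := by
    intro x hx
    have h5 := Y.tame.lip x (Y.bc s) v0
    rw [hx v0 hv0t, Y.bc_apply, if_pos hv0] at h5
    have h6 : |(0 : ℝ) - 1 / 3| = 1 / 3 := by norm_num
    rw [h6] at h5
    have h7 := Y.one_le
    have h8 := Y.ρ_eq
    have h9 : Y.ρ ≤ 1 := by nlinarith [mul_nonneg (sub_nonneg.2 h7) hρ.le]
    have h10 : 3 * Y.A * (1 / 3) ≤ 3 * Y.A * (Y.A * Y.d x (Y.bc s)) :=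
      mul_le_mul_of_nonneg_left h5 (by positivity)
    have h11 : 3 * Y.A * (Y.A * Y.d x (Y.bc s)) = 3 * Y.A ^ 2 * Y.d x (Y.bc s) := by ring
    linarith
  have hbc : ∀ v, v ∉ t → (Y.vp b).1 v = 0 ∧ (Y.vp c).1 v = 0 := fun v hv =>
    ⟨Trg_vp hb hv, Trg_vp hc hv⟩
  have habc : ∀ τ : ℝ, ∀ v, v ∉ t → (Y.vp a).1 v = 0 ∧
      (Y.ln (Y.vp b) (Y.vp c) τ).1 v = 0 := fun τ v hv =>
    ⟨Trg_vp ha hv, Trg_supp ht hbc τ hv⟩
  have hI : ∀ i : ℕ, i ≤ N → 0 ≤ (i : ℝ) / N ∧ (i : ℝ) / N ≤ 1 := by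
    intro i hi
    refine ⟨by positivity, ?_⟩
    rw [div_le_one hN0]
    exact_mod_cast hi
  obtain ⟨X, hX⟩ : ∃ X : ℕ → ℕ → Y.P, X = fun i j : ℕ =>
    Y.ln (Y.vp a) (Y.ln (Y.vp b) (Y.vp c) ((j : ℝ) / N)) ((i : ℝ) / N) := ⟨_, rfl⟩
  have hXs : ∀ i j v, v ∉ t → (X i j).1 v = 0 := by
    intro i j v hv
    rw [hX]
    exact Trg_supp ht (habc _) _ hv
  have hco : ∀ i j, i ≤ N → j ≤ N → ∀ v, (X i j).1 v = (1 - (i : ℝ) / N) * (Y.vp a).1 v +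
      (i : ℝ) / N * ((1 - (j : ℝ) / N) * (Y.vp b).1 v + (j : ℝ) / N * (Y.vp c).1 v) := by
    intro i j hi hj v
    rw [hX]
    change (Y.ln (Y.vp a) (Y.ln (Y.vp b) (Y.vp c) ((j : ℝ) / N)) ((i : ℝ) / N)).1 v = _
    rw [Y.ln_apply ht (habc _) (hI i hi).1 (hI i hi).2,
      Y.ln_apply ht hbc (hI j hj).1 (hI j hj).2]
  have hstep : ∀ i i' : ℕ, i ≤ i' → i' ≤ i + 1 → |(i : ℝ) / N - (i' : ℝ) / N| ≤ 1 / N := by
    intro i i' h4 h5
    have h6 : (i : ℝ) ≤ i' := by exact_mod_cast h4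
    have h7 : (i' : ℝ) ≤ i + 1 := by exact_mod_cast h5
    rw [← sub_div, abs_div, abs_of_pos hN0]
    refine div_le_div_of_nonneg_right (abs_le.2 ⟨by linarith, by linarith⟩) hN0.le
  have hd : ∀ i j i' j' : ℕ, i' ≤ N → j' ≤ N → i ≤ i' → i' ≤ i + 1 → j ≤ j' → j' ≤ j + 1 →
      18 * Y.A ^ 4 * Y.d (X i j) (X i' j') < Y.ρ := by
    intro i j i' j' hi' hj' h4 h5 h6 h7
    have h8 : Y.d (X i j) (X i' j') ≤ Y.A * (2 * (1 / N)) := by
      refine Y.tame.bound t ht _ _ _ (fun v hv => hXs _ _ v hv) (fun v hv => hXs _ _ v hv)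
        fun v => ?_
      rw [hco i j (h4.trans hi') (h6.trans hj') v, hco i' j' hi' hj' v]
      exact Trg_num (Y.nonneg _ _) (Y.le_one _ _) (Y.nonneg _ _) (Y.le_one _ _) (Y.nonneg _ _)
        (Y.le_one _ _) (hI i (h4.trans hi')).1 (hI i (h4.trans hi')).2 (hI j' hj').1
        (hI j' hj').2 (hstep i i' h4 h5) (hstep j j' h6 h7)
    have h9 : 18 * Y.A ^ 4 * Y.d (X i j) (X i' j') ≤
        18 * Y.A ^ 4 * (Y.A * (2 * (1 / N))) :=
      mul_le_mul_of_nonneg_left h8 (by positivity)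
    have h10 : 18 * Y.A ^ 4 * (Y.A * (2 * (1 / N))) = 36 * Y.A ^ 5 / N := by ring
    rw [h10] at h9
    refine lt_of_le_of_lt h9 ?_
    rw [div_lt_iff₀ hN0]
    exact hN
  have hgrid := h2 G V Y h hB N N (fun i j => D.c (Y.bc s) (X i j) Y.ρ) (by
    intro i j hi hj
    obtain ⟨v, hv⟩ := (h3 G V Y h hB D s).2 (X i j) (hfar _ fun v hv => hXs i j v hv)
    exact ⟨v, hv _ (hd i j i j hi.le hj.le le_rfl (Nat.le_succ _) le_rfl (Nat.le_succ _)),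
      hv _ (hd i j (i + 1) j hi hj.le (Nat.le_succ _) le_rfl le_rfl (Nat.le_succ _)),
      hv _ (hd i j i (j + 1) hi.le hj le_rfl (Nat.le_succ _) (Nat.le_succ _) le_rfl),
      hv _ (hd i j (i + 1) (j + 1) hi hj (Nat.le_succ _) le_rfl (Nat.le_succ _) le_rfl)⟩)
  have hz : Y.ln (Y.vp b) (Y.vp c) (((0 : ℕ) : ℝ) / N) = Y.vp b := by
    rw [Nat.cast_zero, zero_div]
    exact Trg_zero ht hbc
  have ho : Y.ln (Y.vp b) (Y.vp c) ((N : ℝ) / N) = Y.vp c := by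
    rw [hNN]
    exact Trg_one ht hbc
  have e1 : (fun i => D.c (Y.bc s) (X i 0) Y.ρ) = pth D s N a b := by
    funext i
    rw [hX]
    change D.c (Y.bc s) (Y.ln (Y.vp a) (Y.ln (Y.vp b) (Y.vp c) (((0 : ℕ) : ℝ) / N))
      ((i : ℝ) / N)) Y.ρ = D.c (Y.bc s) (Y.ln (Y.vp a) (Y.vp b) (i / N)) Y.ρ
    rw [hz]
  have e2 : (fun j => D.c (Y.bc s) (X N j) Y.ρ) = pth D s N b c := by
    funext j
    rw [hX]
    change D.c (Y.bc s) (Y.ln (Y.vp a) (Y.ln (Y.vp b) (Y.vp c) ((j : ℝ) / N))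
      ((N : ℝ) / N)) Y.ρ = D.c (Y.bc s) (Y.ln (Y.vp b) (Y.vp c) (j / N)) Y.ρ
    rw [hNN, Trg_one ht (habc _)]
  have e3 : (fun j => D.c (Y.bc s) (X 0 j) Y.ρ) = fun _ => D.c (Y.bc s) (Y.vp a) Y.ρ := by
    funext j
    rw [hX]
    change D.c (Y.bc s) (Y.ln (Y.vp a) (Y.ln (Y.vp b) (Y.vp c) ((j : ℝ) / N))
      (((0 : ℕ) : ℝ) / N)) Y.ρ = D.c (Y.bc s) (Y.vp a) Y.ρ
    rw [Nat.cast_zero, zero_div, Trg_zero ht (habc _)]
  have e4 : (fun i => D.c (Y.bc s) (X i N) Y.ρ) = pth D s N a c := by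
    funext i
    rw [hX]
    change D.c (Y.bc s) (Y.ln (Y.vp a) (Y.ln (Y.vp b) (Y.vp c) ((N : ℝ) / N))
      ((i : ℝ) / N)) Y.ρ = D.c (Y.bc s) (Y.ln (Y.vp a) (Y.vp c) (i / N)) Y.ρ
    rw [ho]
  change h.pr (fun i => D.c (Y.bc s) (X i 0) Y.ρ) N * h.pr (fun j => D.c (Y.bc s) (X N j) Y.ρ) N =
    h.pr (fun j => D.c (Y.bc s) (X 0 j) Y.ρ) N * h.pr (fun i => D.c (Y.bc s) (X i N) Y.ρ) N
    at hgrid
  rw [e1, e2, e3, e4, Trg_const (h1 G V Y h hB).2.2.2, one_mul] at hgrid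
  exact hgrid

end Pool.Agent.Sw
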