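import Pool.Agent.Lib.MP_8f66f0_al_Sw.SpecC
import Pool.Agent.Lib.MP_8f66f0_al_Cx.SpecD

/-! Parts D and F of `MP_8f66f0_al_Cx` for arbitrary equivariant paths. -/

set_option autoImplicit false

namespace Pool.Agent.Sw

open Pool.Agent.Wald Pool.Agent.Hier Pool.Agent.WaldL Pool.Agent.Ind Pool.Agent.TreeC
  Pool.Agent.Cx2

/-- D4 (Stp). Killing one orbit of cells.

Proof. S_blo for `k = LL`, S_psf for its `L`, `ρ`, `b`; S_patch2 with `ρ` restricted to `D`
(`d ↦ ρ (d, 1)`), `emb = L.val`, `π = mapDomainAlgHom (prK ..)`, which is onto. -/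
def S_stp : Prop :=
  ∀ (G V C : Type) [Group G] [MulAction G V] [MulAction G C] (X : Cx G V C) (γ : Gam X),
    Gen γ → ∀ (LL : Type) [CommRing LL] [IsDomain LL], IsEuc LL → X.Ind LL →
    ∀ (K : Set C) (f : C), (∀ (g : G), ∀ c ∈ K, g • c ∈ K) → f ∉ K →
    KS (MulAction.stabilizer G f × Multiplicative ℤ) →
    KT (MonoidAlgebra.mapDomainAlgHom LL LL
      (X.prK (Set.subset_union_left (s := K) (t := MulAction.orbit G f)) (X.bv f)) :
        MonoidAlgebra LL (X.GK K (X.bv f)) →+*
          MonoidAlgebra LL (X.GK (K ∪ MulAction.orbit G f) (X.bv f)))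


/-- F2 (Uni). When all cells are killed the group is `G`.

Proof. Onto: for `g ∈ G` there is a walk from `o` to `g o`. Injective: let `h = (p, 1) ∈ G1 o`, `p`
a closed path at `o`; we have to show `h ∈ N := NK univ o`. `GenP` for the ring
`R = MonoidAlgebra ℤ (FG ⧸ M)`, `M` = the normal closure in `FG` of the `r_c`, is not enough
(`N` is a normal closure in `G1 o`); use instead
`R = MonoidAlgebra ℤ (FG)` and `B u v` = the additive subgroup of all `x` for which there is
`t ∈ ℤ` with `x - t [γ(u,v)] ∈ I u v`, `I u v` = the additive subgroup generated by all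
`[w] ([r_c] - 1) [w']`, `w` a path from `u` to `bv c`, `w'` a path from `bv c` to `v` (and
`γ(u,v)` a fixed geodesic, `γ(u,u) = 1`); it is closed as required because the elements of `B u v`
are combinations of paths from `u` to `v` (add this condition to `B`), so
`a ([r_c] - 1) b ∈ I`, and `[r_c]⁻¹ - 1 = - [r_c]⁻¹ ([r_c] - 1)`. So `[p] - t ∈ I o o`. Apply the
additive map from combinations of closed paths at `o` to `MonoidAlgebra ℤ (GK univ o)`,
`[p'] ↦ [(p', 1)]`: it kills `I o o` (`w r_c w' = (w r_c w⁻¹) (w w')`), so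
`[(p, 1)] = t` in `MonoidAlgebra ℤ (GK univ o)`, hence `(p, 1) ∈ N` (and `t = 1`). -/
def S_uni : Prop :=
  ∀ (G V C : Type) [Group G] [MulAction G V] [MulAction G C] (X : Cx G V C) (γ : Gam X), Gen γ →
    ∀ o : V, Function.Bijective (X.q Set.univ o)


/-- F3 (Orb). Induction on the orbits.

Proof. Let `Ω` be the set of orbits of `C`, and for a finite set `S ⊆ Ω` let `K S` be the union of
the orbits in `S`. `KK (GK (K S) o)` for all `o`, by induction on `S`: `K ∅ = ∅`, `NK ∅ o = ⊥`,
`GK ∅ o ≃* G1 o`, and `KK (G1 o)` by S_go for `P = Hd KS` (`hd`, `ks_tcl` in Tree/AllK). Step: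
`f ∉ K S`, `K (insert S) = K S ∪ orbit f`: by S_bpt take `o = bv f`; `KT` of S_stp and
`WhTL LL (GK (K S) o)` give `WhTL LL (GK (K S ∪ orbit f) o)` (a `K1Fun` which kills the trivial
units pulls back to one which does, so it kills the image of `GL`, so it is trivial).
`stabilizer G f` is a subgroup of `stabilizer G (bv f)`, so `Hd KS` holds for it (S_dz).
Colimit: `G` is the directed colimit of the `GK (K S) o` with the maps `prK` and `q`
(`kk_colim` in Hier/Colim; index set: `Finset Ω`); `q` of an element of `GK (K S) o` is `1` iff it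
dies in `GK univ o` (S_uni), iff it dies in `GK (K S') o` for a larger `S'`: `NK univ o` is the
union of the directed family `NK (K S') o` (the union is a normal subgroup and contains the
generators). -/
def S_orb : Prop :=
  ∀ (G V C : Type) [Group G] [MulAction G V] [MulAction G C] (X : Cx G V C) (γ : Gam X),
    Gen γ → (∀ (k : Type) [CommRing k] [IsDomain k], X.Ind k) →
    (∀ v : V, Hd KS (MulAction.stabilizer G v)) → KK G


/-- F4 (Res). The trivial module has a finite resolution by permutation modules; `SS`.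

Proof. `ss_exp` (HierZ/All) with `𝒞 H := H` is contained in the stabilizer of a vertex (such
groups have `SS` by `Hd KS`), `n = 2`, and the exact sequence
`0 → ℤ[C] → ℤ[E] → ℤ[V] → ℤ → 0`: `c ↦ chain (r c)`, `(u, v) ↦ v - u`, `v ↦ 1`. Exact at `ℤ[C]`:
`X.Ind ℤ`. At `ℤ[V]`: `Γ` is connected. At `ℤ[E]`: let `z` be a chain with boundary `0`. For a walk
`p` from `u` to `v` the boundary of `chain (val p)` is `v - u`; `z` is an integral combination of
chains of closed walks (`z - ∑ z_e (chain of γ(o, src e) e γ(o, tgt e)⁻¹)` is a combination of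
`chain γ(o, v)` with coefficients those of the boundary of `z`), and the chain of a closed walk
at `o` is in the span of the `chain (r c)`: every closed path at `o` is a product of conjugates
`w r_c^{±1} w⁻¹` by S_uni. -/
def S_res : Prop :=
  ∀ (G V C : Type) [Group G] [MulAction G V] [MulAction G C] (X : Cx G V C) (γ : Gam X),
    Gen γ → X.Ind ℤ → (∀ v : V, Hd KS (MulAction.stabilizer G v)) → SS G

end Pool.Agent.Sw
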